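import Pool.Agent.H.MP_6c077c_gt.N3.Defs
import Pool.Agent.H.MP_6c077c_gt.N2.Foot

/-! Slices with spheres and tori, no sphere encloses a torus: boundaries of the components of the body. -/

set_option autoImplicit false

namespace Pool.Schoen

open Filter Set
open scoped Topology RealInnerProductSpace ContDiff

section E

variable {E : Type*} [NormedAddCommGroup E] [InnerProductSpace ℝ E] [FiniteDimensional ℝ E]

/-- Half spaces are locally connected. -/
private theorem BdConn_half {k : E → ℝ} {x : E} {k' : E →L[ℝ] ℝ} (hG : HasStrictFDerivAt k k' x)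
    (hs : k'.range = ⊤) (hx : k x = 0) :
    ∃ U : Set E, IsOpen U ∧ x ∈ U ∧ IsPreconnected (U ∩ {y | k y ≤ 0}) := by
  obtain ⟨Φ, hΦ⟩ : ∃ Φ, Φ = hG.implicitToOpenPartialHomeomorph k k' hs := ⟨_, rfl⟩
  have hfst : ∀ y, (Φ y).1 = k y := fun y => by rw [hΦ]; simp
  have hself : Φ x = (0, 0) := by rw [hΦ]; simp [hx]
  have hsrc : x ∈ Φ.source := by rw [hΦ]; exact hG.mem_implicitToOpenPartialHomeomorph_source hs
  have htgt : ((0 : ℝ), (0 : k'.ker)) ∈ Φ.target := by
    rw [← hself]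
    exact Φ.map_source hsrc
  obtain ⟨ε, hε, hball⟩ := Metric.isOpen_iff.1 Φ.open_target _ htgt
  have hprod : Metric.ball (0 : ℝ) ε ×ˢ Metric.ball (0 : k'.ker) ε ⊆ Φ.target := by
    rw [ball_prod_same]
    exact hball
  refine ⟨Φ.source ∩ Φ ⁻¹' (Metric.ball (0 : ℝ) ε ×ˢ Metric.ball (0 : k'.ker) ε),
    Φ.isOpen_inter_preimage (Metric.isOpen_ball.prod Metric.isOpen_ball), ⟨hsrc, ?_⟩, ?_⟩
  · rw [mem_preimage, hself]
    exact ⟨Metric.mem_ball_self hε, Metric.mem_ball_self hε⟩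
  · have h1 : Φ.source ∩ Φ ⁻¹' (Metric.ball (0 : ℝ) ε ×ˢ Metric.ball (0 : k'.ker) ε) ∩
        {y | k y ≤ 0} =
        Φ.symm '' ((Metric.ball (0 : ℝ) ε ∩ Iic 0) ×ˢ Metric.ball (0 : k'.ker) ε) := by
      ext y
      constructor
      · rintro ⟨⟨hy1, hy2⟩, hy3⟩
        refine ⟨Φ y, ⟨⟨hy2.1, ?_⟩, hy2.2⟩, Φ.left_inv hy1⟩
        rw [mem_Iic, hfst]
        exact hy3
      · rintro ⟨z, ⟨⟨hz0, hz1⟩, hz2⟩, rfl⟩
        have hz3 : z ∈ Φ.target := hprod ⟨hz0, hz2⟩
        refine ⟨⟨Φ.map_target hz3, ?_⟩, ?_⟩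
        · rw [mem_preimage, Φ.right_inv hz3]
          exact ⟨hz0, hz2⟩
        · rw [mem_ofPred_eq, ← hfst, Φ.right_inv hz3]
          exact hz1
    rw [h1]
    refine IsPreconnected.image ?_ _ (Φ.continuousOn_symm.mono ?_)
    · exact ((convex_ball _ _).inter (convex_Iic 0)).isPreconnected.prod
        (convex_ball _ _).isPreconnected
    · rintro z ⟨hz1, hz2⟩
      exact hprod ⟨hz1.1, hz2⟩

omit [FiniteDimensional ℝ E] in
private theorem BdConn_neg {g : E → ℝ} (hg : Continuous g) {x : E} (hx : g x < 0) :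
    ∃ U : Set E, IsOpen U ∧ x ∈ U ∧ U ⊆ {y | g y ≤ 0} ∧ IsPreconnected U := by
  obtain ⟨ε, hε, h⟩ := Metric.isOpen_iff.1 (isOpen_lt hg continuous_const) x hx
  refine ⟨Metric.ball x ε, Metric.isOpen_ball, Metric.mem_ball_self hε, fun y hy => ?_,
    (convex_ball _ _).isPreconnected⟩
  have h1 : g y < 0 := h hy
  exact h1.le

/-- The body is locally connected. -/
private theorem BdConn_loc {g : E → ℝ} (hg : ContDiff ℝ ∞ g)
    (hr : ∀ x, g x = 0 → gradient g x ≠ 0) :
    ∀ x ∈ {y | g y ≤ 0}, ∃ U : Set E, IsOpen U ∧ x ∈ U ∧ IsPreconnected (U ∩ {y | g y ≤ 0}) := by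
  intro y hy
  rcases eq_or_lt_of_le (show g y ≤ 0 from hy) with h0 | h0
  · have h1 : HasStrictFDerivAt g (fderiv ℝ g y) y := hg.contDiffAt.hasStrictFDerivAt (by simp)
    have hs : (fderiv ℝ g y).range = ⊤ := by
      rw [LinearMap.range_eq_top]
      obtain ⟨v, hv⟩ : ∃ v : E, fderiv ℝ g y v ≠ 0 := by
        by_contra hcon
        push Not at hcon
        refine hr y h0 ?_
        have h2 : fderiv ℝ g y = 0 := by
          ext v
          exact hcon v
        unfold gradient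
        rw [h2, map_zero]
      intro b
      refine ⟨(b / fderiv ℝ g y v) • v, ?_⟩
      change fderiv ℝ g y ((b / fderiv ℝ g y v) • v) = b
      rw [map_smul, smul_eq_mul, div_mul_cancel₀ _ hv]
    exact BdConn_half h1 hs h0
  · obtain ⟨U, hU, hyU, hs, hc⟩ := BdConn_neg hg.continuous h0
    exact ⟨U, hU, hyU, by rw [inter_eq_left.2 hs]; exact hc⟩

/-- The components of the body. -/
private theorem BdConn_pc {g : E → ℝ} (hg : ContDiff ℝ ∞ g)
    (hr : ∀ x, g x = 0 → gradient g x ≠ 0) {w : E} (hw : g w ≤ 0) :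
    Pc {x | g x ≤ 0} (connectedComponentIn {x | g x ≤ 0} w) :=
  Pc.of_loc (isClosed_le hg.continuous continuous_const) (BdConn_loc hg hr) hw

/-- Every component of the body has a zero. -/
private theorem BdConn_zero [Nontrivial E] {g : E → ℝ} (hg : ContDiff ℝ ∞ g)
    (hb : Bornology.IsBounded {x | g x ≤ 0})
    (hr : ∀ x, g x = 0 → gradient g x ≠ 0) {w : E} (hw : g w ≤ 0) :
    ∃ z ∈ connectedComponentIn {x | g x ≤ 0} w, g z = 0 := by
  by_contra hcon
  push Not at hcon
  have hP := BdConn_pc hg hr hw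
  have hop : IsOpen (connectedComponentIn {x | g x ≤ 0} w) := by
    rw [isOpen_iff_mem_nhds]
    intro y hy
    obtain ⟨U, hU, hyU, hs, hc⟩ := BdConn_neg hg.continuous
      (lt_of_le_of_ne (show g y ≤ 0 from hP.sub hy) (hcon y hy))
    have h1 : U ⊆ connectedComponentIn {x | g x ≤ 0} y := hc.subset_connectedComponentIn hyU hs
    rw [← connectedComponentIn_eq hy] at h1
    exact Filter.mem_of_superset (hU.mem_nhds hyU) h1
  have hu : connectedComponentIn {x | g x ≤ 0} w = univ :=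
    IsClopen.eq_univ ⟨hP.cl, hop⟩ hP.conn.nonempty
  have h2 : Bornology.IsBounded (univ : Set E) := by
    rw [← hu]
    exact hb.subset hP.sub
  exact NormedSpace.unbounded_univ ℝ E h2

/-- If the complement is connected then the components of the body have connected boundary, which is
a component of the zero set. PROOF. `K` the component of `w` in `{g ≤ 0}`, compact; `Q` = the union of
`{0 ≤ g}` and the other components of `{g ≤ 0}`: closed (`K` is relatively open), connected (each other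
component is compact, so it has a zero of `g`); `unico_set` for `K ∪ Q = univ` (`liftS_univ`):
`K ∩ Q = K ∩ {g = 0}` is preconnected. It is clopen in the zero set. -/
theorem bd_conn [Nontrivial E] {g : E → ℝ} (hg : ContDiff ℝ ∞ g)
    (hb : Bornology.IsBounded {x | g x ≤ 0})
    (hr : ∀ x, g x = 0 → gradient g x ≠ 0) (hc : IsPreconnected {x | 0 ≤ g x}) {w : E}
    (hw : g w ≤ 0) :
    IsConnected (connectedComponentIn {x | g x ≤ 0} w ∩ {x | g x = 0}) ∧
      ∀ z ∈ connectedComponentIn {x | g x ≤ 0} w, g z = 0 →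
        connectedComponentIn {x | g x ≤ 0} w ∩ {x | g x = 0} = cE g z := by
  obtain ⟨K, hKd⟩ : ∃ K, K = connectedComponentIn {x | g x ≤ 0} w := ⟨_, rfl⟩
  have hK : Pc {x | g x ≤ 0} K := by rw [hKd]; exact BdConn_pc hg hr hw
  obtain ⟨z₀, hz₀, hz₀'⟩ : ∃ z ∈ K, g z = 0 := by rw [hKd]; exact BdConn_zero hg hb hr hw
  rw [← hKd]
  have c1 : IsClosed {x | 0 ≤ g x} := isClosed_le continuous_const hg.continuous
  have c0 : IsClosed {x | g x = 0} := isClosed_eq hg.continuous continuous_const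
  have cQ : IsClosed ({x | 0 ≤ g x} ∪ {x | g x ≤ 0} \ K) := c1.union hK.cl'
  have hU : K ∪ ({x | 0 ≤ g x} ∪ {x | g x ≤ 0} \ K) = univ := by
    refine eq_univ_of_forall fun x => ?_
    by_cases hx : x ∈ K
    · exact Or.inl hx
    · rcases le_total 0 (g x) with h | h
      · exact Or.inr (Or.inl h)
      · exact Or.inr (Or.inr ⟨h, hx⟩)
  have hI : K ∩ ({x | 0 ≤ g x} ∪ {x | g x ≤ 0} \ K) = K ∩ {x | g x = 0} := by
    ext x
    constructor
    · rintro ⟨h1, h2 | h2⟩
      · exact ⟨h1, le_antisymm (hK.sub h1) h2⟩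
      · exact absurd h1 h2.2
    · rintro ⟨h1, h2⟩
      exact ⟨h1, Or.inl (le_of_eq (Eq.symm h2))⟩
  have hQ : IsPreconnected ({x | 0 ≤ g x} ∪ {x | g x ≤ 0} \ K) := by
    refine isPreconnected_of_forall z₀ fun y hy => ?_
    have hz1 : z₀ ∈ {x | 0 ≤ g x} := le_of_eq hz₀'.symm
    rcases hy with hy | hy
    · exact ⟨{x | 0 ≤ g x}, subset_union_left, hz1, hy, hc⟩
    · have hy' : g y ≤ 0 := hy.1
      obtain ⟨v, hv, hv'⟩ := BdConn_zero hg hb hr hy'
      have hd : connectedComponentIn {x | g x ≤ 0} y ⊆ {x | g x ≤ 0} \ K := by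
        intro x hx
        refine ⟨connectedComponentIn_subset _ _ hx, fun hxK => hy.2 ?_⟩
        rw [← hK.eq_comp hxK, ← connectedComponentIn_eq hx]
        exact mem_connectedComponentIn hy.1
      refine ⟨{x | 0 ≤ g x} ∪ connectedComponentIn {x | g x ≤ 0} y, ?_, Or.inl hz1,
        Or.inr (mem_connectedComponentIn hy.1), ?_⟩
      · exact union_subset_union_right _ hd
      · exact IsPreconnected.union v (le_of_eq hv'.symm) hv hc isPreconnected_connectedComponentIn
  have hP : IsPreconnected (K ∩ {x | g x = 0}) := by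
    rw [← hI]
    exact unico_set hK.cl cQ (by rw [hU]; exact liftS_univ E) hK.conn.isPreconnected hQ
  have hC : IsConnected (K ∩ {x | g x = 0}) := ⟨⟨z₀, hz₀, hz₀'⟩, hP⟩
  refine ⟨hC, fun z hz hz' => ?_⟩
  have hPc : Pc {x | g x = 0} (K ∩ {x | g x = 0}) := by
    refine ⟨inter_subset_right, hC, hK.cl.inter c0, ?_⟩
    have h1 : {x | g x = 0} \ (K ∩ {x | g x = 0}) = {x | g x = 0} ∩ ({x | g x ≤ 0} \ K) := by
      ext x
      constructor
      · rintro ⟨h1, h2⟩
        exact ⟨h1, le_of_eq h1, fun h3 => h2 ⟨h3, h1⟩⟩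
      · rintro ⟨h1, h2⟩
        exact ⟨h1, fun h3 => h2.2 h3.1⟩
    rw [h1]
    exact c0.inter hK.cl'
  exact (hPc.eq_comp ⟨hz, hz'⟩).symm

end E

end Pool.Schoen
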