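import Pool.Agent.H.MP_6c077c_gt.N3.Defs
import Pool.Agent.H.MP_6c077c_gt.CG.Local

/-! Slices with spheres and tori, no sphere encloses a torus: no points of top index. -/

set_option autoImplicit false

namespace Pool.Schoen

open Filter Set
open scoped Topology RealInnerProductSpace ContDiff

variable {V : Type*} [NormedAddCommGroup V] [InnerProductSpace ℝ V] [FiniteDimensional ℝ V]
variable {f : V → ℝ} {e : V} {L : Set ℝ} {S : Finset V}

/-- The second derivative at a point of top index is negative on the hyperplane. -/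
private theorem NoTop_neg (hV : Module.finrank ℝ V = 4) (he : ‖e‖ = 1) {x : V}
    (hi : Idx f e x 3) : NegAt f e x := by
  obtain ⟨N, P, hS, hN⟩ := hi
  have hle : N ≤ (ℝ ∙ e)ᗮ := fun a ha => by
    rw [Submodule.mem_orthogonal_singleton_iff_inner_right, real_inner_comm]
    exact hS.hN a ha
  have he0 : e ≠ 0 := by
    rintro rfl
    simp at he
  have h1 : Module.finrank ℝ (ℝ ∙ e)ᗮ = 3 := by
    have h2 := Submodule.finrank_add_finrank_orthogonal (ℝ ∙ e)
    rw [finrank_span_singleton he0, hV] at h2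
    omega
  have h3 : N = (ℝ ∙ e)ᗮ := Submodule.eq_of_le_of_finrank_eq hle (by rw [hN, h1])
  intro w hw hw0
  refine hS.neg w ?_ hw0
  rw [h3, Submodule.mem_orthogonal_singleton_iff_inner_right, real_inner_comm]
  exact hw

/-- A horizontal zero of top index makes the complement of the body disconnected in a slice near it.
PROOF. `x` with `Idx f e x 3`; on the hyperplane at the height of `x` the function has a strict
nondegenerate maximum `0` at `x`; on one side of this height (depending on the sign of the vertical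
derivative) the set `{0 ≤ f}` near `x` in the slice is compact, not empty, isolated, of small
diameter; and the slice contains points of `{0 ≤ f}` of large norm. (`inward` local form: see
`Normal form`, `Ix/ModA`, or by hand: on the small sphere around `x` in the hyperplane `f < 0`, also at
nearby heights.) -/
theorem no_top (hV : Module.finrank ℝ V = 4) (he : ‖e‖ = 1) (hm : Mo f e)
    (hb : Bornology.IsBounded {x | f x ≤ 0}) {x : V} (hx : Crit f e x) (hi : Idx f e x 3) :
    ∃ᶠ t in 𝓝[≠] ⟪e, x⟫, ¬ IsPreconnected (layS (fun y => -f y) e t t) := by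
  have hneg := NoTop_neg hV he hi
  -- a sign
  obtain ⟨σ, hσ, hin⟩ : ∃ σ : ℝ, (σ = 1 ∨ σ = -1) ∧ Inward f (σ • e) x := by
    rcases (crit_iff he hm.reg x).1 hx with h | h
    · exact ⟨1, Or.inl rfl, by simpa using h⟩
    · exact ⟨-1, Or.inr rfl, by simpa using h⟩
  have hσ2 : σ * σ = 1 := by rcases hσ with rfl | rfl <;> norm_num
  have hσ0 : σ ≠ 0 := by rcases hσ with rfl | rfl <;> norm_num
  have hσa : |σ| = 1 := by rcases hσ with rfl | rfl <;> norm_num
  have hσe : ‖σ • e‖ = 1 := by rw [norm_smul, he, Real.norm_eq_abs, hσa, mul_one]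
  obtain ⟨ρ, hρ, hloc⟩ := cg_uniform f hm.smooth (σ • e) hσe x hin (-1) (by
    intro w hw hw0
    rw [real_inner_smul_right] at hw
    have hw' : ⟪w, e⟫ = 0 := (mul_eq_zero.1 hw).resolve_left hσ0
    have := hneg w hw' hw0
    linarith)
  have hfx : f x = 0 := hx.1
  have hee : ⟪e, e⟫ = 1 := by rw [real_inner_self_eq_norm_sq, he]; norm_num
  -- the small sphere
  have hsph : ∀ w : V, ⟪w, e⟫ = 0 → ‖w‖ = ρ → f (x + w) < 0 := by
    intro w hw hwρ
    have hw0 : w ≠ 0 := by
      rintro rfl
      rw [norm_zero] at hwρ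
      exact hρ.ne hwρ
    have h1 := cg_segment f hm.smooth x w (-1) (hx.2 w hw) (by
      intro t ht
      refine (hloc _ ?_).2 w (by rw [real_inner_smul_right, hw, mul_zero]) hw0
      rw [Metric.mem_closedBall, dist_eq_norm, add_sub_cancel_left, norm_smul, hwρ,
        Real.norm_eq_abs, abs_of_nonneg ht.1]
      nlinarith [ht.2])
    rw [hfx] at h1
    linarith
  have : ProperSpace V := FiniteDimensional.proper ℝ V
  have hKc : IsCompact ({w : V | ⟪w, e⟫ = 0} ∩ Metric.sphere 0 ρ) :=
    (isCompact_sphere 0 ρ).inter_left (isClosed_eq (by fun_prop) continuous_const)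
  have hfc : Continuous f := hm.smooth.continuous
  have hev : ∀ᶠ s : ℝ in 𝓝 0, ∀ w ∈ {w : V | ⟪w, e⟫ = 0} ∩ Metric.sphere 0 ρ,
      f (x + w + s • e) < 0 := by
    apply hKc.eventually_forall_of_forall_eventually
    rintro w ⟨hw, hwρ⟩
    have h3 : Continuous fun z : ℝ × V => f (x + z.2 + z.1 • e) := by fun_prop
    refine h3.continuousAt.eventually_lt continuousAt_const ?_
    show f (x + w + (0 : ℝ) • e) < 0
    rw [zero_smul, add_zero]
    exact hsph w hw (by simpa using hwρ)
  obtain ⟨δ, hδ, hδ'⟩ := Metric.eventually_nhds_iff.1 hev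
  obtain ⟨R, hR⟩ := hb.subset_closedBall (0 : V)
  -- the slices
  have key : ∀ t : ℝ, t < 0 → -ρ ≤ t → -δ < t →
      ¬ IsPreconnected (layS (fun y => -f y) e (⟪e, x⟫ + σ * t) (⟪e, x⟫ + σ * t)) := by
    intro t ht htρ htδ hpre
    -- the point near `x`
    have h1 : 0 < f (x + (σ * t) • e) := by
      have h2 := cg_vertical f hm.smooth x (σ • e) t ht (by
        intro r hr
        refine (hloc _ ?_).1
        rw [Metric.mem_closedBall, dist_eq_norm, add_sub_cancel_left, norm_smul, hσe, mul_one,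
          Real.norm_eq_abs, abs_of_nonpos hr.2]
        linarith [hr.1])
      rw [hfx, smul_smul, mul_comm t σ] at h2
      exact h2
    -- a point far away
    obtain ⟨w₀, hw₀e, hw₀⟩ : ∃ w₀ : V, ⟪w₀, e⟫ = 0 ∧ ‖w₀‖ = 1 := by
      have he0 : e ≠ 0 := by
        rintro rfl
        simp at he
      have h1 : Module.finrank ℝ (ℝ ∙ e)ᗮ = 3 := by
        have h2 := Submodule.finrank_add_finrank_orthogonal (ℝ ∙ e)
        rw [finrank_span_singleton he0, hV] at h2
        omega
      have : Nontrivial (ℝ ∙ e)ᗮ := Module.nontrivial_of_finrank_pos (R := ℝ) (by omega)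
      obtain ⟨v, hv⟩ := exists_norm_eq (ℝ ∙ e)ᗮ (c := 1) zero_le_one
      refine ⟨v, ?_, hv⟩
      have := Submodule.mem_orthogonal_singleton_iff_inner_right.1 v.2
      rwa [real_inner_comm]
    obtain ⟨M, hM, hMR, hMρ⟩ : ∃ M : ℝ, 0 ≤ M ∧ R + ‖x + (σ * t) • e‖ < M ∧ ρ ≤ M :=
      ⟨|R| + ‖x + (σ * t) • e‖ + 1 + ρ, by positivity, by linarith [le_abs_self R], by
        linarith [abs_nonneg R, norm_nonneg (x + (σ * t) • e)]⟩
    have hfar : 0 < f (x + (σ * t) • e + M • w₀) := by
      by_contra hcon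
      have h2 := hR (show x + (σ * t) • e + M • w₀ ∈ {x | f x ≤ 0} from not_lt.1 hcon)
      rw [mem_closedBall_zero_iff] at h2
      have h3 : ‖M • w₀‖ ≤ ‖x + (σ * t) • e + M • w₀‖ + ‖x + (σ * t) • e‖ := by
        have h4 : M • w₀ = (x + (σ * t) • e + M • w₀) - (x + (σ * t) • e) := by abel
        conv_lhs => rw [h4]
        exact norm_sub_le _ _
      rw [norm_smul, hw₀, Real.norm_eq_abs, abs_of_nonneg hM, mul_one] at h3
      linarith
    -- the function
    have hgc : Continuous fun y : V => ‖y - x - ⟪e, y - x⟫ • e‖ := by fun_prop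
    have hh : ∀ s : ℝ, ∀ w : V, ⟪w, e⟫ = 0 → ⟪e, x + s • e + w⟫ = ⟪e, x⟫ + s := by
      intro s w hw
      have hw' : ⟪e, w⟫ = 0 := by rw [real_inner_comm]; exact hw
      rw [inner_add_right, inner_add_right, real_inner_smul_right, hee, hw']
      ring
    have hm1 : x + (σ * t) • e ∈
        layS (fun y => -f y) e (⟪e, x⟫ + σ * t) (⟪e, x⟫ + σ * t) := by
      have h2 := hh (σ * t) 0 (by simp)
      rw [add_zero] at h2
      refine ⟨?_, h2.ge, h2.le⟩
      show -f (x + (σ * t) • e) ≤ 0
      linarith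
    have hw1 : ⟪M • w₀, e⟫ = 0 := by rw [real_inner_smul_left, hw₀e, mul_zero]
    have hm2 : x + (σ * t) • e + M • w₀ ∈
        layS (fun y => -f y) e (⟪e, x⟫ + σ * t) (⟪e, x⟫ + σ * t) := by
      have h2 := hh (σ * t) (M • w₀) hw1
      refine ⟨?_, h2.ge, h2.le⟩
      show -f (x + (σ * t) • e + M • w₀) ≤ 0
      linarith
    have hiv := hpre.intermediate_value hm1 hm2 hgc.continuousOn
    have hg1 : ‖x + (σ * t) • e - x - ⟪e, x + (σ * t) • e - x⟫ • e‖ = 0 := by
      rw [add_sub_cancel_left, real_inner_smul_right, hee, mul_one, sub_self, norm_zero]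
    have hg2 : ‖x + (σ * t) • e + M • w₀ - x - ⟪e, x + (σ * t) • e + M • w₀ - x⟫ • e‖ = M := by
      have h2 : x + (σ * t) • e + M • w₀ - x = (σ * t) • e + M • w₀ := by abel
      have hw1' : ⟪e, M • w₀⟫ = 0 := by rw [real_inner_comm]; exact hw1
      rw [h2, inner_add_right, real_inner_smul_right, hee, mul_one, hw1',
        add_zero, add_sub_cancel_left, norm_smul, hw₀, mul_one, Real.norm_eq_abs,
        abs_of_nonneg hM]
    obtain ⟨y, hy, hyρ⟩ := hiv (show ρ ∈ _ from ⟨by rw [hg1]; exact hρ.le, by rw [hg2]; exact hMρ⟩)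
    have hy1 : ⟪e, y⟫ = ⟪e, x⟫ + σ * t := le_antisymm hy.2.2 hy.2.1
    have hy2 : ⟪e, y - x⟫ = σ * t := by rw [inner_sub_right, hy1]; ring
    have hyρ' : ‖y - x - (σ * t) • e‖ = ρ := by
      have := hyρ
      simp only [] at this
      rwa [hy2] at this
    have h5 := hδ' (y := σ * t) (by
      rw [dist_zero_right, Real.norm_eq_abs, abs_mul, hσa, one_mul, abs_of_neg ht]
      linarith) (y - x - (σ * t) • e) ⟨by
        show ⟪y - x - (σ * t) • e, e⟫ = 0
        rw [inner_sub_left, real_inner_comm, hy2, real_inner_smul_left, hee]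
        ring, by simpa using hyρ'⟩
    have h6 : x + (y - x - (σ * t) • e) + (σ * t) • e = y := by abel
    rw [h6] at h5
    have h7 : -f y ≤ 0 := hy.1
    linarith
  -- conclusion
  intro hcon
  rw [eventually_nhdsWithin_iff] at hcon
  obtain ⟨ε, hε, hε'⟩ := Metric.eventually_nhds_iff.1 hcon
  obtain ⟨t, ht1, ht2, ht3, ht4⟩ : ∃ t : ℝ, t < 0 ∧ -ρ ≤ t ∧ -δ < t ∧ -ε < t := by
    refine ⟨-(min ρ (min δ ε)) / 2, ?_, ?_, ?_, ?_⟩
    · have : 0 < min ρ (min δ ε) := lt_min hρ (lt_min hδ hε)
      linarith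
    · have : 0 < min ρ (min δ ε) := lt_min hρ (lt_min hδ hε)
      linarith [min_le_left ρ (min δ ε)]
    · have : 0 < min ρ (min δ ε) := lt_min hρ (lt_min hδ hε)
      linarith [(min_le_right ρ (min δ ε)).trans (min_le_left δ ε)]
    · have : 0 < min ρ (min δ ε) := lt_min hρ (lt_min hδ hε)
      linarith [(min_le_right ρ (min δ ε)).trans (min_le_right δ ε)]
  have h8 := hε' (y := ⟪e, x⟫ + σ * t) (by
    rw [Real.dist_eq, add_sub_cancel_left, abs_mul, hσa, one_mul, abs_of_neg ht1]
    linarith) (by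
      show ⟪e, x⟫ + σ * t ≠ ⟪e, x⟫
      intro h
      have h9 : σ * t = 0 := by linarith
      rcases mul_eq_zero.1 h9 with h10 | h10
      · exact hσ0 h10
      · exact ht1.ne h10)
  exact h8 (key t ht1 ht2 ht3)

end Pool.Schoen
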