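import Pool.Agent.H.MP_6c077c_gt.N3.ClassA
import Pool.Agent.H.MP_6c077c_gt.N3.BdConn
import Pool.Agent.H.MP_6c077c_gt.N3.NoTop
import Pool.Agent.H.MP_6c077c_gt.N2.Start

/-! Slices with spheres and tori, no sphere encloses a torus: the base case. -/

set_option autoImplicit false

namespace Pool.Schoen

open Filter Set
open scoped Topology RealInnerProductSpace ContDiff

variable {V : Type*} [NormedAddCommGroup V] [InnerProductSpace ℝ V] [FiniteDimensional ℝ V]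
variable {f : V → ℝ} {e : V} {L : Set ℝ} {S : Finset V}

/-- The boundary of a component of the body in a slice is the image of the boundary in the
coordinates of the hyperplane. -/
private theorem Base3_bdC (he : ‖e‖ = 1) {x : V} (hx : f x ≤ 0) :
    bdC f e x = (fun w : (ℝ ∙ e)ᗮ => (w : V) + ⟪e, x⟫ • e) ''
      (connectedComponentIn {w : (ℝ ∙ e)ᗮ | slc f e ⟪e, x⟫ w ≤ 0} (hpr e x) ∩
        {w | slc f e ⟪e, x⟫ w = 0}) := by
  have h1 : bdC f e x = cmpW f e x ∩ {y | f y = 0} := rfl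
  rw [h1, cmpW_eq he hx]
  ext y
  constructor
  · rintro ⟨⟨w, hw, rfl⟩, hy⟩
    exact ⟨w, ⟨hw, hy⟩, rfl⟩
  · rintro ⟨w, ⟨hw, hw'⟩, rfl⟩
    exact ⟨⟨w, hw, rfl⟩, hw'⟩

private theorem Base3_sl (hV : Module.finrank ℝ V = 4) (he : ‖e‖ = 1) (hm : Mo f e)
    (hb : Bornology.IsBounded {x | f x ≤ 0}) {x : V} (hx : f x ≤ 0)
    (hx' : ∀ y, Crit f e y → ⟪e, y⟫ ≠ ⟪e, x⟫)
    (hc : IsPreconnected (layS (fun y => -f y) e ⟪e, x⟫ ⟪e, x⟫))
    (hs : SlE (slc f e ⟪e, x⟫)) : Bd12 (bdC f e x) := by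
  have he0 : e ≠ 0 := by
    intro h0
    rw [h0, norm_zero] at he
    exact zero_ne_one he
  have : Fact (Module.finrank ℝ V = 3 + 1) := ⟨hV⟩
  have hfr : Module.finrank ℝ (ℝ ∙ e)ᗮ = 3 := Submodule.finrank_orthogonal_span_singleton he0
  haveI : Nontrivial (ℝ ∙ e)ᗮ := Module.nontrivial_of_finrank_pos (R := ℝ) (by omega)
  obtain ⟨c, hcx⟩ : ∃ c, c = ⟪e, x⟫ := ⟨_, rfl⟩
  have hbd := Base3_bdC (f := f) he hx
  rw [← hcx] at hx' hc hs hbd
  obtain ⟨hgs, hgb, hgr⟩ := slice_reg he hm hx'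
  have hback : ∀ y : V, ⟪e, y⟫ = c → (hpr e y : V) + c • e = y := by
    intro y hy
    have h1 := hpr_add he y
    rw [hy] at h1
    exact h1
  have hfor : ∀ z : (ℝ ∙ e)ᗮ, hpr e ((z : V) + c • e) = z := fun z => hpr_coe he z c
  have hpc : Continuous fun x : V => hpr e x := (hprL e).continuous
  have hι : Continuous fun z : (ℝ ∙ e)ᗮ => (z : V) + c • e := by fun_prop
  -- the complement in the slice
  have hout : IsPreconnected {w : (ℝ ∙ e)ᗮ | 0 ≤ slc f e c w} := by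
    have h1 : {w : (ℝ ∙ e)ᗮ | 0 ≤ slc f e c w} =
        (fun y => hpr e y) '' layS (fun y => -f y) e c c := by
      ext w
      constructor
      · intro hw
        refine ⟨(w : V) + c • e, ⟨?_, ?_, ?_⟩, hfor w⟩
        · have hw' : 0 ≤ f ((w : V) + c • e) := hw
          show -f ((w : V) + c • e) ≤ 0
          linarith
        · exact (inner_hpr he w c).ge
        · exact (inner_hpr he w c).le
      · rintro ⟨y, ⟨h1, h2, h3⟩, rfl⟩
        show 0 ≤ f ((hpr e y : V) + c • e)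
        rw [hback y (le_antisymm h3 h2)]
        have h4 : -f y ≤ 0 := h1
        linarith
    rw [h1]
    exact hc.image _ hpc.continuousOn
  have hw : slc f e c (hpr e x) ≤ 0 := by
    show f ((hpr e x : V) + c • e) ≤ 0
    rw [hback x hcx.symm]
    exact hx
  obtain ⟨h1, h2⟩ := bd_conn (E := (ℝ ∙ e)ᗮ) (g := slc f e c) hgs (slc_bdd hb e c) hgr hout hw
  obtain ⟨T, hT⟩ : ∃ T, T = connectedComponentIn {w : (ℝ ∙ e)ᗮ | slc f e c w ≤ 0} (hpr e x) ∩
    {w | slc f e c w = 0} := ⟨_, rfl⟩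
  rw [← hT] at h1 hbd
  obtain ⟨z, hz⟩ := h1.nonempty
  rw [hT] at hz
  have h3 : T = cE (slc f e c) z := by
    rw [hT]
    exact h2 z hz.1 hz.2
  have h4 : LiftS T ∨ Dep3 T := by
    rw [h3]
    exact (hs z hz.2).1
  have m1 : ∀ w ∈ T, (w : V) + c • e ∈ bdC f e x := fun w hw => by
    rw [hbd]
    exact ⟨w, hw, rfl⟩
  have m2 : ∀ y ∈ bdC f e x, hpr e y ∈ T := by
    intro y hy
    rw [hbd] at hy
    obtain ⟨w, hw, rfl⟩ := hy
    show hpr e ((w : V) + c • e) ∈ T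
    rw [hfor]
    exact hw
  have m3 : ∀ y ∈ bdC f e x, (hpr e y : V) + c • e = y := by
    intro y hy
    rw [hbd] at hy
    obtain ⟨w, hw, rfl⟩ := hy
    show (hpr e ((w : V) + c • e) : V) + c • e = (w : V) + c • e
    rw [hfor]
  refine ⟨?_, ?_⟩
  · rw [hbd]
    exact h1.image _ hι.continuousOn
  · rcases h4 with h5 | h5
    · exact Or.inl (h5.of_maps (φ := fun z : (ℝ ∙ e)ᗮ => (z : V) + c • e) (ψ := fun y => hpr e y)
        hι.continuousOn hpc.continuousOn m1 m2 m3)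
    · exact Or.inr (h5.of_maps (φ := fun z : (ℝ ∙ e)ᗮ => (z : V) + c • e) (ψ := fun y => hpr e y)
        hι.continuousOn hpc.continuousOn m1 m2 m3)

private theorem Base3_in (he : ‖e‖ = 1) {x : V} (h1 : Inward f e x) (h2 : Inward f (-e) x) :
    False := by
  obtain ⟨-, l, hl, h1⟩ := h1
  obtain ⟨-, m, hm, h2⟩ := h2
  have h3 : (l + m) • e = 0 := by
    rw [h1, smul_neg, neg_neg] at h2
    rw [add_smul, ← h2, add_neg_cancel]
  have h4 := congrArg norm h3
  rw [norm_smul, he, norm_zero, mul_one, Real.norm_of_nonneg (by positivity)] at h4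
  linarith

/-- **The base case.** PROOF. `no_top` and `hc`: no index `3` (the heights of `Crit` are finitely many,
so `t` can be chosen regular). `KT f e L A B S` with `A s k := ∃ x, Sad f e x ∧ Inward f e x ∧ Idx f e x k ∧
⟪e, x⟫ = s`, `B` the same with `Inward f (-e) x`: `SepL` as in `n2_rd` (`h.gap`; `L` finite), `sl`: `bd_conn`
for `slc f e c` (transport to `bdC` with `hpr`, see `slW_jn`) and `h.sl`. `kt_rd`, `kt_base`. -/
theorem kn_base (hV : Module.finrank ℝ V = 4) (he : ‖e‖ = 1) (hL : L.Finite) (h : KN f e L S)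
    (hb : Bornology.IsBounded {x | f x ≤ 0})
    (hc : ∀ t, (∀ x, Crit f e x → ⟪e, x⟫ ≠ t) → IsPreconnected (layS (fun y => -f y) e t t)) :
    Rd f := by
  have hcr : ∀ x, Crit f e x ↔ Inward f e x ∨ Inward f (-e) x := crit_iff he h.mo.reg
  have hfin : {x | Crit f e x}.Finite := crit_finite he h.mo
  -- no point of top index
  have h3 : ∀ x, Crit f e x → ¬ Idx f e x 3 := by
    intro x hx hi
    have h1 := no_top hV he h.mo hb hx hi
    have h2 : ∀ᶠ t in 𝓝[≠] ⟪e, x⟫, ∀ y, Crit f e y → ⟪e, y⟫ ≠ t := by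
      have h4 : ((fun y : V => ⟪e, y⟫) '' {y | Crit f e y} \ {⟪e, x⟫}).Finite :=
        (hfin.image _).sdiff
      have h5 : ((fun y : V => ⟪e, y⟫) '' {y | Crit f e y} \ {⟪e, x⟫})ᶜ ∈ 𝓝 ⟪e, x⟫ :=
        h4.isClosed.isOpen_compl.mem_nhds fun h6 => h6.2 rfl
      filter_upwards [self_mem_nhdsWithin, mem_nhdsWithin_of_mem_nhds h5] with t ht1 ht2 y hy hyt
      exact ht2 ⟨⟨y, hy, hyt⟩, ht1⟩
    obtain ⟨t, ht1, ht2⟩ := (h1.and_eventually h2).exists
    exact ht1 (hc t ht2)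
  have hsad : ∀ x, Crit f e x → ∀ k, Idx f e x k → k ≠ 0 → Sad f e x := by
    intro x hx k hk hk0
    refine ⟨hx, k, hk, hk0, ?_⟩
    rw [hV]
    intro hk4
    have : k = 3 := by omega
    rw [this] at hk
    exact h3 x hx hk
  obtain ⟨A, hA⟩ : ∃ A : ℝ → ℕ → Prop, A = fun s k => ∃ x, Sad f e x ∧ Inward f e x ∧
    Idx f e x k ∧ ⟪e, x⟫ = s := ⟨_, rfl⟩
  obtain ⟨B, hB⟩ : ∃ B : ℝ → ℕ → Prop, B = fun s k => ∃ x, Sad f e x ∧ Inward f (-e) x ∧
    Idx f e x k ∧ ⟪e, x⟫ = s := ⟨_, rfl⟩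
  have hAB : ∀ s k, A s k ∨ B s k → ∃ x, Sad f e x ∧ ⟪e, x⟫ = s := by
    rintro s k (h1 | h1)
    · rw [hA] at h1
      obtain ⟨x, h2, -, -, h4⟩ := h1
      exact ⟨x, h2, h4⟩
    · rw [hB] at h1
      obtain ⟨x, h2, -, -, h4⟩ := h1
      exact ⟨x, h2, h4⟩
  have hsep : SepL L A B := by
    refine ⟨hL, fun t j k h1 h2 => ?_, fun t j k h1 h2 => ?_, fun t j k h1 h2 => ?_,
      fun s t j k h1 h2 hst => ?_⟩
    · rw [hA] at h1 h2
      obtain ⟨x, x0, x1, x2, x3⟩ := h1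
      obtain ⟨y, y0, y1, y2, y3⟩ := h2
      have hxy : y = x := h.iso x y x0 y0.1 (y3.trans x3.symm)
      subst hxy
      exact Cy.Idx.unique x2 y2
    · rw [hB] at h1 h2
      obtain ⟨x, x0, x1, x2, x3⟩ := h1
      obtain ⟨y, y0, y1, y2, y3⟩ := h2
      have hxy : y = x := h.iso x y x0 y0.1 (y3.trans x3.symm)
      subst hxy
      exact Cy.Idx.unique x2 y2
    · rw [hA] at h1
      rw [hB] at h2
      obtain ⟨x, x0, x1, x2, x3⟩ := h1
      obtain ⟨y, y0, y1, y2, y3⟩ := h2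
      have hxy : y = x := h.iso x y x0 y0.1 (y3.trans x3.symm)
      subst hxy
      exact Base3_in he x1 y1
    · obtain ⟨p, p1, p2⟩ := hAB s j h1
      obtain ⟨q, q1, q2⟩ := hAB t k h2
      by_contra hno
      have hpq : p = q := by
        refine h.gap p q p1 q1 fun c hcL => ?_
        rw [p2, q2]
        constructor
        · intro hsc
          rcases lt_trichotomy t c with h5 | h5 | h5
          · exact h5
          · refine absurd hcL ?_
            rw [← h5, ← q2]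
            exact h.reg q q1.1
          · exact absurd ⟨c, hcL, hsc, h5⟩ hno
        · exact fun htc => hst.trans htc
      rw [hpq, q2] at p2
      exact hst.ne p2.symm
  refine kt_rd hV he hL (fun f S h hno => kt_base hV he hsep h hno) _ S f rfl
    ⟨h.mo, hb, h.reg, h.conn, h.out, h.lift, fun x hx hxL => ?_, fun x hx k hk => ?_,
      fun x hx k hk => ?_, h.mark⟩
  · have h6 : ∀ y, Crit f e y → ⟪e, y⟫ ≠ ⟪e, x⟫ := by
      intro y hy h7
      refine h.reg y hy ?_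
      rw [h7]
      exact hxL
    exact Base3_sl hV he h.mo hb hx h6 (hc _ h6) (h.sl _ hxL)
  · by_cases hk0 : k = 0
    · exact Or.inl hk0
    · right
      rw [hA]
      exact ⟨x, hsad x ((hcr x).2 (Or.inl hx)) k hk hk0, hx, hk, rfl⟩
  · by_cases hk0 : k = 0
    · exact Or.inl hk0
    · right
      rw [hB]
      exact ⟨x, hsad x ((hcr x).2 (Or.inr hx)) k hk hk0, hx, hk, rfl⟩

end Pool.Schoen
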