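import Pool.Agent.H.MP_6c077c_gt.N3.CancelA

/-! Slices with spheres and tori, no sphere encloses a torus: the cancellation. -/

set_option autoImplicit false

namespace Pool.Schoen

open Filter Set
open scoped Topology RealInnerProductSpace ContDiff

variable {V : Type*} [NormedAddCommGroup V] [InnerProductSpace ℝ V] [FiniteDimensional ℝ V]

private theorem Cancel_seg {h : V → ℝ} {e : V} {c a d : ℝ} {k : (ℝ ∙ e)ᗮ → ℝ} {A C : V → ℝ}
    (hD : CutD h e c a d k A C) {x y : V}
    (h1 : ∀ z ∈ segment ℝ x y, a ≤ |⟪e, z⟫ - c| ∧ h z ≤ 0) (hx : C x ≤ 0) : C y ≤ 0 := by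
  have hp : IsPreconnected (segment ℝ x y) := (convex_segment x y).isPreconnected
  rcases isPreconnected_iff_subset_of_disjoint_closed.1 hp {z | A z ≤ 0} {z | C z ≤ 0}
    (isClosed_le hD.smA.continuous continuous_const)
    (isClosed_le hD.smC.continuous continuous_const)
    (fun z hz => hD.un z (h1 z hz).1 (h1 z hz).2) (by
      ext z
      constructor
      · rintro ⟨-, h2, h3⟩
        exact absurd h3 (not_le.2 (hD.dis z h2))
      · intro hz
        exact absurd hz (notMem_empty z)) with h2 | h2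
  · exact absurd hx (not_le.2 (hD.dis x (h2 (left_mem_segment ℝ x y))))
  · exact h2 (right_mem_segment ℝ x y)

private theorem Cancel_axis {E : Type*} [NormedAddCommGroup E] [InnerProductSpace ℝ E]
    [FiniteDimensional ℝ E] {P : E → ℝ} {u : E} {β : ℝ} (h : TubP P u β) {r : ℝ} (hr : |r| ≤ 10) :
    P (r • u) = -r ^ 2 := by
  have h1 : ⟪u, r • u⟫ = r := by
    rw [real_inner_smul_right, real_inner_self_eq_norm_sq, h.hu]
    ring
  rw [h.mod (r • u) (by rw [norm_smul, h.hu, mul_one, Real.norm_eq_abs]; exact hr), h1]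
  have h2 : orth u (r • u) = 0 := by
    unfold orth
    rw [h1, sub_self]
  rw [h2, norm_zero]
  ring

/-- The point `c • e` belongs to the upper piece. -/
private theorem Cancel_up {h' : V → ℝ} {e : V} {c m β d : ℝ} {u : (ℝ ∙ e)ᗮ}
    {P k : (ℝ ∙ e)ᗮ → ℝ} {κ : ℝ → ℝ} {A C : V → ℝ} (he : ‖e‖ = 1) (hm : 0 < m)
    (ht : TubP P u β) (hκ : KapD κ β)
    (h1 : ∀ x, |m * (⟪e, x⟫ - c)| ≤ β → h' x = hnK P u β κ (m * (⟪e, x⟫ - c)) (hpr e x))
    (hk : LBall P u (3 / 4 * β) k)
    (hD : CutD h' e (c - 3 / 4 * β / m) (β / (16 * m)) d k A C) : C (c • e) ≤ 0 := by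
  obtain ⟨b, hb⟩ : ∃ b, b = β / m := ⟨_, rfl⟩
  have hβ : β = m * b := by
    rw [hb]
    field_simp
  have hb0 : 0 < b := by
    rw [hb]
    exact div_pos ht.hβ hm
  have ha : β / (16 * m) = b / 16 := by
    rw [hβ]
    field_simp
  have hc1 : c - 3 / 4 * β / m = c - 3 / 4 * b := by
    rw [hβ]
    field_simp
  rw [ha, hc1] at hD
  obtain ⟨W, hW⟩ : ∃ W : ℝ → V, W = fun t => ((-((5 : ℝ) • u) : (ℝ ∙ e)ᗮ) : V) + t • e :=
    ⟨_, rfl⟩
  have hWc : Continuous W := by
    rw [hW]
    fun_prop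
  have hWi : ∀ t, ⟪e, W t⟫ = t := by
    intro t
    rw [hW]
    exact inner_hpr he _ t
  have hWh : ∀ t, hpr e (W t) = -((5 : ℝ) • u) := by
    intro t
    rw [hW]
    exact hpr_coe he _ t
  -- the start
  have hs0 : C (W (c - 3 / 4 * b + b / 16)) ≤ 0 := by
    have h2 : closure (Ico (c - 3 / 4 * b + b / 16 / 2) (c - 3 / 4 * b + b / 16)) ⊆
        {t | C (W t) ≤ 0} := by
      refine closure_minimal (fun t ht' => ?_)
        (isClosed_le (hD.smC.continuous.comp hWc) continuous_const)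
      refine hD.upC (W t) ?_ ?_ ?_
      · rw [hWh]
        exact hk.left
      · rw [hWi]
        exact ht'.1
      · rw [hWi]
        exact ht'.2
    rw [closure_Ico (by linarith)] at h2
    exact h2 (right_mem_Icc.2 (by linarith))
  -- the vertical part
  have hs1 : C (W c) ≤ 0 := by
    refine Cancel_seg hD (x := W (c - 3 / 4 * b + b / 16)) (fun z hz => ?_) hs0
    obtain ⟨p, q, hp, hq, hpq, rfl⟩ := hz
    have h2 : p • W (c - 3 / 4 * b + b / 16) + q • W c =
        W (p * (c - 3 / 4 * b + b / 16) + q * c) := by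
      have h3 : p = 1 - q := by linarith
      rw [hW, h3]
      simp only
      module
    rw [h2, hWi]
    have h3 : p * (c - 3 / 4 * b + b / 16) + q * c = c - p * (11 / 16 * b) := by
      have h3 : q = 1 - p := by linarith
      rw [h3]
      ring
    rw [h3]
    have hp1 : p ≤ 1 := by linarith
    have h4 : 0 ≤ p * (11 / 16 * b) := by positivity
    have h5 : p * (11 / 16 * b) ≤ 11 / 16 * b := by
      nlinarith
    refine ⟨?_, ?_⟩
    · rw [abs_of_nonneg (by linarith)]
      linarith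
    · rw [h1 _ (by
        rw [hWi, abs_mul, abs_of_pos hm, hβ]
        refine mul_le_mul_of_nonneg_left ?_ hm.le
        rw [abs_le]
        constructor <;> linarith), hWh]
      unfold hnK
      rw [tubC_zero ht.hu (by
        rw [norm_neg, norm_smul, ht.hu, Real.norm_eq_abs]
        norm_num), zero_mul, add_zero]
      have h6 := Cancel_axis ht (r := -5) (by norm_num)
      rw [neg_smul] at h6
      rw [h6]
      norm_num
  -- the horizontal part
  refine Cancel_seg hD (x := W c) (fun z hz => ?_) hs1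
  obtain ⟨p, q, hp, hq, hpq, rfl⟩ := hz
  have h2 : p • W c + q • c • e = (((-(p * 5)) • u : (ℝ ∙ e)ᗮ) : V) + c • e := by
    have h3 : q = 1 - p := by linarith
    rw [hW, h3]
    simp only [Submodule.coe_neg, Submodule.coe_smul]
    module
  have h3 : ⟪e, p • W c + q • c • e⟫ = c := by
    rw [h2]
    exact inner_hpr he _ c
  have h4 : hpr e (p • W c + q • c • e) = (-(p * 5)) • u := by
    rw [h2]
    exact hpr_coe he _ c
  refine ⟨?_, ?_⟩
  · rw [h3, abs_of_nonneg (by linarith)]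
    linarith
  · rw [h1 _ (by
      rw [h3, sub_self, mul_zero, abs_zero]
      exact ht.hβ.le), h3, h4, sub_self, mul_zero,
      hnK_small ht (by
        rw [abs_zero]
        linarith [ht.hβ]), Cancel_axis ht (by
        rw [abs_neg, abs_of_nonneg (by positivity)]
        linarith), real_inner_smul_right, real_inner_self_eq_norm_sq, ht.hu]
    have h5 := tubC_mem u ((-(p * 5)) • u)
    have h6 := hκ.mem (-(p * 5) * 1 ^ 2)
    have h7 := hκ.le (-(p * 5) * 1 ^ 2)
    have h8 : tubC u ((-(p * 5)) • u) * (κ (-(p * 5) * 1 ^ 2) - 0) ≤ κ (-(p * 5) * 1 ^ 2) := by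
      rw [sub_zero]
      exact mul_le_of_le_one_left h6.1 h5.2
    nlinarith

private theorem Cancel_lift {f g : V → ℝ} (hfg : Hom f g) (hf : ContDiff ℝ ∞ f)
    (hg : ContDiff ℝ ∞ g) (hl : LiftS {x | f x = 0}) : LiftS {x | g x = 0} := by
  obtain ⟨φ, ψ, h1, h2, h3, h4, -, h6, -⟩ := hfg.carries hf hg
  have hD : Dif ψ φ := ⟨h2, h1, h4, h3⟩
  have h8 : {x | g x = 0} = {x | ψ x ∈ {y | f y = 0}} := by
    ext x
    constructor
    · intro hx
      have h9 : x ∈ φ '' {x | f x = 0} := by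
        rw [h6]
        exact hx
      obtain ⟨y, hy, rfl⟩ := h9
      show ψ (φ y) ∈ {y | f y = 0}
      rw [h3]
      exact hy
    · intro hx
      have h9 : x ∈ {x | g x = 0} := by
        rw [← h6]
        exact ⟨ψ x, hx, h4 x⟩
      exact h9
  rw [h8]
  exact hD.liftS hl

private theorem Cancel_reg {f : V → ℝ} (h : Good f) (hf : ContDiff ℝ ∞ f) (x : V)
    (hx : f x = 0) : gradient f x ≠ 0 := by
  intro h0
  refine h.regular hf x hx ?_
  rw [gradient, LinearIsometryEquiv.map_eq_zero_iff] at h0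
  exact h0

private theorem Cancel_topE {f : V → ℝ} (hf : ContDiff ℝ ∞ f) (h1 : IsConnected {x | f x ≤ 0})
    (h2 : IsConnected {x | 0 ≤ f x}) (h3 : LiftS {x | f x = 0}) : TopE f :=
  ⟨h1, h2, Or.inl (BaseN_liftS hf.continuous h3).1⟩

/-- **Cut and cancel.** PROOF. `gr_exists` for `k`, `hn_exists`, `cut_down` for `h'` at
`c₁ = c - (3/4) β / m`, `a = β / (16 m)`, `g = tubK P u (-(3/4) β)` (`hnK_cut`, `tubK_reg`), `cancel_push`. `gA = A`,
`gC = F`; `Rd A → Rd F → Rd C → Rd h' → Rd f`. The point `c • e` is in `{C ≤ 0}`: the path from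
`-5u` at height `c₁ + a / 2` (`upC`) up to height `c` and then on the axis to `0` is in `{h' ≤ 0}` and off
the slab of the cut after `c₁ + a` (closed sets `{A ≤ 0}`, `{C ≤ 0}`, `dis`, connected). So
`0 < A (c • e)`. `KN.part` for `A` and `F` as parts of `f` (off `|s| ≤ β` the germs at zeros are those
of `h'`, `f`; in it the horizontal zeros of `A` are `c • e`, excluded, and the cap, whose height is
not in `L` and not the height of a saddle of `A`: another saddle is in another gap; `F` has none).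
Saddles: `nSad_lt` with `c • e` (`hsad`). -/
theorem vn_cancel (hV : Module.finrank ℝ V = 4) {f : V → ℝ} {e : V} {L : Set ℝ} {S : Finset V}
    {c m β : ℝ} {u : (ℝ ∙ e)ᗮ} {P : (ℝ ∙ e)ᗮ → ℝ} (hv : VN f e c m β u P) (h : KN f e L S)
    (hsad : Sad f e (c • e)) (hL : ∀ c' ∈ L, β < |m * (c' - c)|)
    {k : (ℝ ∙ e)ᗮ → ℝ} (hk : LBall P u (3 / 4 * β) k) :
    ∃ (A C : V → ℝ) (SA SC : Finset V), nSad A e < nSad f e ∧ nSad C e < nSad f e ∧
      KN A e L SA ∧ KN C e L SC ∧ (Rd A → Rd C → Rd f) := by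
  classical
  have he := hv.he
  have hm := hv.hm
  have hβ := hv.tub.hβ
  have hE : Module.finrank ℝ (ℝ ∙ e)ᗮ = 3 := by
    have : Fact (Module.finrank ℝ V = 3 + 1) := ⟨hV⟩
    exact Submodule.finrank_orthogonal_span_singleton (n := 3) (fun h0 => by
      rw [h0, norm_zero] at he
      exact zero_ne_one he)
  obtain ⟨κ, ε, G, ϑ, hκ, hG⟩ := gr_exists hE hv.tub hk
  obtain ⟨h', hs, hH, h1, h2, h3, h4⟩ := hn_exists hv h.mo hκ
  have hT := h.topE.of_hom hH h.mo.smooth hs
  have hlift := Cancel_lift hH h.mo.smooth hs h.lift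
  obtain ⟨c₁, hc₁⟩ : ∃ c₁, c₁ = c - 3 / 4 * β / m := ⟨_, rfl⟩
  obtain ⟨a, ha⟩ : ∃ a, a = β / (16 * m) := ⟨_, rfl⟩
  have ha0 : 0 < a := by
    rw [ha]
    positivity
  have hma : m * a = β / 16 := by
    rw [ha]
    field_simp
  have hmc : ∀ t, m * (t - c₁) = m * (t - c) + 3 / 4 * β := by
    intro t
    rw [hc₁]
    field_simp
    ring
  have hslab : ∀ t, |t - c₁| < a → |m * (t - c) + 3 / 4 * β| < β / 16 := by
    intro t ht
    rw [← hmc, abs_mul, abs_of_pos hm, ← hma]
    exact mul_lt_mul_of_pos_left ht hm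
  have hslab' : ∀ t, |t - c₁| < a → |m * (t - c)| < β := by
    intro t ht
    have h5 := abs_lt.1 (hslab t ht)
    rw [abs_lt]
    constructor <;> linarith [h5.1, h5.2]
  have hoff : ∀ t, β < |m * (t - c)| → a ≤ |t - c₁| := by
    intro t ht
    by_contra hlt
    exact absurd (hslab' t (not_le.1 hlt)) (not_lt.2 ht.le)
  -- the cut
  obtain ⟨A, C, d, hD⟩ := cut_down hV he hs hH.good_right.bdd
    (Cancel_reg hH.good_right hs) hT.conn hT.out hlift ha0
    (g := tubK P u (-(3 / 4 * β))) (c := c₁) (tubK_smooth hv.tub _)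
    (fun w hw => tubK_reg hv.tub (by
      rw [abs_neg, abs_of_pos (by positivity)]
      linarith) (by
      have : 0 < 3 / 4 * β := by positivity
      linarith) hw)
    (fun x hx => by
      rw [h1 x (hslab' _ hx).le, hnK_cut hv.tub (hslab _ hx).le])
    hk.dom hk.ball (fun w hw => by
      rw [← (hk.germ w hw).self_of_nhds]
      exact hw)
    (fun w hw => hk.germ w hw.le)
  have hD' := hD
  rw [hc₁, ha] at hD'
  obtain ⟨F, hF, hCF, hF1, hF2, hF3, hF4, hF5⟩ := cancel_push hV hv hκ hs h1 h3 h4 hG hD'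
  have hCc : C (c • e) ≤ 0 := Cancel_up he hm hv.tub hκ h1 hk hD'
  have hAc : 0 < A (c • e) := by
    by_contra hlt
    exact absurd hCc (not_le.2 (hD.dis _ (not_lt.1 hlt)))
  have hec : ⟪e, c • e⟫ = c := by
    rw [real_inner_smul_right, real_inner_self_eq_norm_sq, he]
    ring
  -- the germs off the slab
  have hAf : ∀ x, β < |m * (⟪e, x⟫ - c)| → A x = 0 → A =ᶠ[𝓝 x] f := by
    intro x hx hx0
    exact (hD.gA x (hoff _ hx) hx0).trans (h2 x (by linarith))
  have hCf : ∀ x, β < |m * (⟪e, x⟫ - c)| → C x = 0 → C =ᶠ[𝓝 x] f := by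
    intro x hx hx0
    exact (hD.gC x (hoff _ hx) hx0).trans (h2 x (by linarith))
  have hFf : ∀ x, β < |m * (⟪e, x⟫ - c)| → F x = 0 → F =ᶠ[𝓝 x] f := by
    intro x hx hx0
    have h5 := (hF3 x hx.le).1 hx0
    exact (hF4 x hx.le h5).trans (hCf x hx h5)
  -- saddles of `f`
  have hsd : ∀ p, Sad f e p → |m * (⟪e, p⟫ - c)| ≤ β → p = c • e := by
    intro p hp hps
    refine h.gap p (c • e) hp hsad fun c' hc' => ?_
    rw [hec]
    have h5 := hL c' hc'
    have h6 := abs_le.1 hps
    rcases lt_abs.1 h5 with h7 | h7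
    · have h8 : m * (⟪e, p⟫ - c) < m * (c' - c) := by linarith
      have h9 : m * 0 < m * (c' - c) := by linarith
      have h10 := lt_of_mul_lt_mul_left h8 hm.le
      have h11 := lt_of_mul_lt_mul_left h9 hm.le
      exact ⟨fun _ => by linarith, fun _ => by linarith⟩
    · have h8 : m * (c' - c) < m * (⟪e, p⟫ - c) := by linarith
      have h9 : m * (c' - c) < m * 0 := by linarith
      have h10 := lt_of_mul_lt_mul_left h8 hm.le
      have h11 := lt_of_mul_lt_mul_left h9 hm.le
      exact ⟨fun _ => by linarith, fun _ => by linarith⟩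
  have hopen : ∀ p : V, β < |m * (⟪e, p⟫ - c)| → ∀ᶠ t in 𝓝[≠] ⟪e, p⟫, β < |m * (t - c)| := by
    intro p hp
    have hcont : Continuous fun t : ℝ => |m * (t - c)| := by fun_prop
    exact nhdsWithin_le_nhds ((isOpen_lt continuous_const hcont).mem_nhds hp)
  -- the lower piece
  obtain ⟨hA1, hA2⟩ := h.part he hD.smA hD.bdA hD.regA hD.connA hD.outA hD.liftA
    (fun x hx => by
      by_cases hxs : |⟪e, x⟫ - c₁| < a
      · obtain ⟨hx1, hx2, -⟩ := hD.crA x hx hxs
        have h5 := hslab' _ hxs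
        refine Or.inr ⟨fun h6 => absurd (hL _ h6) (not_lt.2 h5.le), fun p hp hpA hpe => ?_,
          0, hx1, Or.inl rfl⟩
        have h6 := hsd p hp (by
          rw [← hpe]
          exact h5.le)
        have h7 := hpA.1.1
        rw [h6] at h7
        exact absurd h7 hAc.ne'
      · have h5 := hD.gA x (not_lt.1 hxs) hx.1
        have h6 : Crit h' e x := hx.congr h5
        by_cases hxm : |m * (⟪e, x⟫ - c)| ≤ β
        · have h7 := h3 x h6 hxm
          have h8 := hx.1
          rw [h7] at h8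
          exact absurd h8 hAc.ne'
        · have h7 := hAf x (not_le.1 hxm) hx.1
          exact Or.inl ⟨hx.congr h7, h7⟩)
    (fun x hx hx0 => hAf x (hL _ hx) hx0)
    (fun p hp hpA => by
      have h5 : β < |m * (⟪e, p⟫ - c)| := by
        by_contra hlt
        have h6 := hsd p hp (not_lt.1 hlt)
        have h7 := hpA.1.1
        rw [h6] at h7
        exact absurd h7 hAc.ne'
      filter_upwards [hopen p h5] with t ht x hxt hx0
      rw [← hxt] at ht
      exact hAf x ht hx0)
  -- the upper piece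
  have hTF := (Cancel_topE hD.smC hD.connC hD.outC hD.liftC).of_hom hCF hD.smC hF
  obtain ⟨hC1, hC2⟩ := h.part he hF hCF.good_right.bdd (Cancel_reg hCF.good_right hF) hTF.conn
    hTF.out (Cancel_lift hCF hD.smC hF hD.liftC)
    (fun x hx => by
      obtain ⟨-, -, h5⟩ := hF5 x hx
      have h7 := hFf x h5 hx.1
      exact Or.inl ⟨hx.congr h7, h7⟩)
    (fun x hx hx0 => hFf x (hL _ hx) hx0)
    (fun p _ hpF => by
      obtain ⟨-, -, h5⟩ := hF5 p hpF.1
      filter_upwards [hopen p h5] with t ht x hxt hx0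
      rw [← hxt] at ht
      exact hFf x ht hx0)
  refine ⟨A, F, _, _, nSad_lt he h.mo hA2 hsad fun h5 => ?_, nSad_lt he h.mo hC2 hsad fun h5 => ?_,
    hA1, hC1, fun h5 h6 => ?_⟩
  · exact absurd h5.1.1 hAc.ne'
  · obtain ⟨-, -, h6⟩ := hF5 _ h5.1
    rw [hec, sub_self, mul_zero, abs_zero] at h6
    exact absurd h6 (not_lt.2 hβ.le)
  · exact Rd.of_hom hH (hD.rd h5 (Rd.of_hom hCF h6))

end Pool.Schoen
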