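import Pool.Agent.H.MP_6c077c_gt.N3.ClassA
import Pool.Agent.H.MP_6c077c_gt.N2.Three

/-! Slices with spheres and tori, no sphere encloses a torus: signs and scaling. -/

set_option autoImplicit false

namespace Pool.Schoen

open Filter Set
open scoped Topology RealInnerProductSpace ContDiff

variable {V : Type*} [NormedAddCommGroup V] [InnerProductSpace ℝ V] [FiniteDimensional ℝ V]
variable {f g : V → ℝ} {e : V} {L : Set ℝ} {S : Finset V}

private theorem ClassC_sad_neg (hf : ContDiff ℝ ∞ f) (he : ‖e‖ = 1) {x : V} (h : Sad f e x) :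
    Sad (fun y => -f y) e x := by
  obtain ⟨hc, k, hk, h0, h1⟩ := h
  obtain ⟨j, hj, hj'⟩ := BaseN_idx_neg hf he hk
  exact ⟨crit_neg.2 hc, j, hj', by omega, by omega⟩

private theorem ClassC_sad_neg' (hf : ContDiff ℝ ∞ f) (he : ‖e‖ = 1) {x : V}
    (h : Sad (fun y => -f y) e x) : Sad f e x := by
  have h1 := ClassC_sad_neg hf.neg he h
  have h2 : (fun y => - -f y) = f := by
    funext y
    exact neg_neg _
  rwa [h2] at h1

/-- PROOF. `BaseN_idx_neg`. -/
theorem KN.neg (he : ‖e‖ = 1) (h : KN f e L S) : KN (fun x => -f x) e L S := by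
  have hs : ∀ p, Sad (fun y => -f y) e p → Sad f e p := fun p hp =>
    ClassC_sad_neg' h.mo.smooth he hp
  have hz : ∀ (t : ℝ) (w : (ℝ ∙ e)ᗮ), slc (fun x => -f x) e t w = 0 ↔ slc f e t w = 0 :=
    fun t w => neg_eq_zero
  refine ⟨mo_neg he h.mo, fun x hx => h.reg x (crit_neg.1 hx), ?_, ?_, ?_,
    fun p q hp hq => h.gap p q (hs p hp) (hs q hq),
    fun p q hp hq => h.iso p q (hs p hp) (crit_neg.1 hq), fun p hp => h.lev p (hs p hp),
    fun c hc => (h.sl c hc).congr (hz c),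
    fun p hp => (h.near p (hs p hp)).mono fun t ht => ht.congr (hz t), h.mark.neg⟩
  · have h1 : {x | -f x ≤ 0} = {x | 0 ≤ f x} := by
      ext x
      exact neg_nonpos (a := f x)
    rw [h1]
    exact h.out
  · have h1 : {x | 0 ≤ -f x} = {x | f x ≤ 0} := by
      ext x
      exact neg_nonneg (a := f x)
    rw [h1]
    exact h.conn
  · have h1 : {x | -f x = 0} = {x | f x = 0} := by
      ext x
      exact neg_eq_zero (a := f x)
    rw [h1]
    exact h.lift

theorem nSad_neg (he : ‖e‖ = 1) (h : Mo f e) : nSad (fun x => -f x) e ≤ nSad f e :=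
  nSad_mono he h fun _ hx => ClassC_sad_neg' h.smooth he hx

private theorem ClassC_sad_flip {x : V} : Sad f (-e) x ↔ Sad f e x := by
  unfold Sad
  simp only [crit_flip, idx_neg_dir]

private theorem ClassC_cast {U W : Submodule ℝ V} (h : U = W) (k : V → ℝ)
    (hs : SlE fun y : W => k y) : SlE fun y : U => k y := by
  subst h
  exact hs

private theorem ClassC_span (e : V) : (ℝ ∙ (-e))ᗮ = (ℝ ∙ e)ᗮ := by
  rw [← Set.neg_singleton, Submodule.span_neg]

private theorem ClassC_slc {t : ℝ} (h : SlE (slc f e t)) : SlE (slc f (-e) (-t)) := by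
  have h2 := ClassC_cast (ClassC_span e) (fun v : V => f (v + t • e)) h
  refine h2.congr fun w => ?_
  unfold slc
  rw [smul_neg, neg_smul, neg_neg]

/-- PROOF. `idx_neg_dir`; `slc f (-e) (-t)` and `slc f e t` differ by the identification of
`(ℝ ∙ (-e))ᗮ` and `(ℝ ∙ e)ᗮ` (equal submodules, `Submodule.span_singleton` ...). -/
theorem KN.flip (he : ‖e‖ = 1) (h : KN f e L S) : KN f (-e) (Neg.neg '' L) S := by
  refine ⟨h.mo.flip, ?_, h.conn, h.out, h.lift, ?_, ?_, ?_, ?_, ?_, ?_⟩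
  · rintro x hx ⟨c, hc, hcx⟩
    rw [inner_neg_left, neg_inj] at hcx
    exact h.reg x (crit_flip.1 hx) (hcx ▸ hc)
  · intro p q hp hq hL
    have hp' := ClassC_sad_flip.1 hp
    have hq' := ClassC_sad_flip.1 hq
    refine h.gap p q hp' hq' fun c hc => ?_
    have h1 := hL (-c) ⟨c, hc, rfl⟩
    rw [inner_neg_left, inner_neg_left, neg_lt_neg_iff, neg_lt_neg_iff] at h1
    have h2 : ⟪e, p⟫ ≠ c := fun h3 => h.reg p hp'.1 (h3 ▸ hc)
    have h3 : ⟪e, q⟫ ≠ c := fun h3 => h.reg q hq'.1 (h3 ▸ hc)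
    constructor
    · intro h4
      by_contra h5
      exact absurd (h1.2 (lt_of_le_of_ne (not_lt.1 h5) h3.symm)) (not_lt.2 h4.le)
    · intro h4
      by_contra h5
      exact absurd (h1.1 (lt_of_le_of_ne (not_lt.1 h5) h2.symm)) (not_lt.2 h4.le)
  · intro p q hp hq h1
    rw [inner_neg_left, inner_neg_left, neg_inj] at h1
    exact h.iso p q (ClassC_sad_flip.1 hp) (crit_flip.1 hq) h1
  · intro p hp
    obtain ⟨⟨c, hc, h1⟩, d, hd, h2⟩ := h.lev p (ClassC_sad_flip.1 hp)
    refine ⟨⟨-d, ⟨d, hd, rfl⟩, ?_⟩, -c, ⟨c, hc, rfl⟩, ?_⟩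
    · rw [inner_neg_left]
      linarith
    · rw [inner_neg_left]
      linarith
  · rintro _ ⟨c, hc, rfl⟩
    exact ClassC_slc (h.sl c hc)
  · intro p hp
    have h1 := h.near p (ClassC_sad_flip.1 hp)
    have h2 : Tendsto (fun t : ℝ => -t) (𝓝[≠] ⟪-e, p⟫) (𝓝[≠] ⟪e, p⟫) := by
      refine tendsto_nhdsWithin_iff.2 ⟨?_, ?_⟩
      · have h3 : Tendsto (fun t : ℝ => -t) (𝓝 ⟪-e, p⟫) (𝓝 (-⟪-e, p⟫)) :=
          continuous_neg.tendsto _
        rw [inner_neg_left, neg_neg] at h3
        rw [inner_neg_left]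
        exact h3.mono_left nhdsWithin_le_nhds
      · filter_upwards [self_mem_nhdsWithin] with t ht h3
        refine ht ?_
        rw [mem_singleton_iff] at h3 ⊢
        rw [inner_neg_left, ← h3, neg_neg]
    filter_upwards [h2.eventually h1] with t ht
    have h4 := ClassC_slc ht
    rwa [neg_neg] at h4
  · refine h.mark.flip.mono_levels ?_
    rintro _ ⟨c, hc, rfl⟩
    show - -c ∈ L
    rwa [neg_neg]

theorem nSad_flip (he : ‖e‖ = 1) : nSad f (-e) = nSad f e := by
  unfold nSad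
  congr 1
  ext x
  exact ClassC_sad_flip

private theorem ClassC_fd (hf : ContDiff ℝ ∞ f) (l : ℝ) (x : V) :
    fderiv ℝ (fun y => l * f y) x = l • fderiv ℝ f x :=
  fderiv_const_mul ((hf.differentiable (by simp)) x) l

private theorem ClassC_np {l : ℝ} (hl : 0 < l) (a : ℝ) : l * a ≤ 0 ↔ a ≤ 0 := by
  constructor
  · intro h
    by_contra h1
    exact absurd (mul_pos hl (not_le.1 h1)) (not_lt.2 h)
  · exact fun h => mul_nonpos_of_nonneg_of_nonpos hl.le h

private theorem ClassC_ng {l : ℝ} (hl : 0 < l) (a : ℝ) : l * a < 0 ↔ a < 0 := by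
  constructor
  · intro h
    by_contra h1
    exact absurd (mul_nonneg hl.le (not_lt.1 h1)) (not_le.2 h)
  · exact fun h => mul_neg_of_pos_of_neg hl h

private theorem ClassC_crit (hf : ContDiff ℝ ∞ f) {l : ℝ} (hl : 0 < l) {x : V} :
    Crit (fun y => l * f y) e x ↔ Crit f e x := by
  unfold Crit
  rw [ClassC_fd hf, mul_eq_zero, or_iff_right hl.ne']
  refine and_congr_right fun _ => forall_congr' fun w => imp_congr_right fun _ => ?_
  rw [ContinuousLinearMap.smul_apply, smul_eq_mul, mul_eq_zero, or_iff_right hl.ne']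

private theorem ClassC_idx (hf : ContDiff ℝ ∞ f) {l : ℝ} (hl : 0 < l) {x : V} {k : ℕ}
    (h : Idx f e x k) : Idx (fun y => l * f y) e x k := by
  obtain ⟨N, P, hs, hk⟩ := h
  have h1 : fderiv ℝ (fderiv ℝ (fun y => l * f y)) x = l • fderiv ℝ (fderiv ℝ f) x := by
    have h2 : fderiv ℝ (fun y => l * f y) = fun y => l • fderiv ℝ f y := by
      funext y
      exact ClassC_fd hf l y
    rw [h2]
    exact fderiv_const_smul
      (((hf.fderiv_right (m := ∞) le_rfl).differentiable (by simp)) x) l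
  refine ⟨N, P, ⟨hs.hN, hs.hP, hs.orth, hs.span, fun a ha b hb => ?_, fun a ha ha0 => ?_,
    fun b hb hb0 => ?_⟩, hk⟩
  · rw [h1]
    simp only [ContinuousLinearMap.smul_apply, smul_eq_mul]
    rw [hs.diag a ha b hb, mul_zero]
  · rw [h1]
    simp only [ContinuousLinearMap.smul_apply, smul_eq_mul]
    exact mul_neg_of_pos_of_neg hl (hs.neg a ha ha0)
  · rw [h1]
    simp only [ContinuousLinearMap.smul_apply, smul_eq_mul]
    exact mul_pos hl (hs.pos b hb hb0)

private theorem ClassC_idx' (hf : ContDiff ℝ ∞ f) {l : ℝ} (hl : 0 < l) {x : V} {k : ℕ}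
    (h : Idx (fun y => l * f y) e x k) : Idx f e x k := by
  have h1 := ClassC_idx (contDiff_const.mul hf) (inv_pos.2 hl) h
  have h2 : (fun y => l⁻¹ * (l * f y)) = f := by
    funext y
    exact inv_mul_cancel_left₀ hl.ne' _
  rwa [h2] at h1

private theorem ClassC_sad (hf : ContDiff ℝ ∞ f) {l : ℝ} (hl : 0 < l) {x : V}
    (h : Sad (fun y => l * f y) e x) : Sad f e x := by
  obtain ⟨hc, k, hk, h0, h1⟩ := h
  exact ⟨(ClassC_crit hf hl).1 hc, k, ClassC_idx' hf hl hk, h0, h1⟩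

private theorem ClassC_mo (h : Mo f e) {l : ℝ} (hl : 0 < l) : Mo (fun x => l * f x) e := by
  refine ⟨contDiff_const.mul h.smooth, ?_, ?_, ?_⟩
  · have h1 : {x | l * f x = 0} = {x | f x = 0} := by
      ext x
      show l * f x = 0 ↔ f x = 0
      rw [mul_eq_zero, or_iff_right hl.ne']
    rw [h1]
    exact h.bdd
  · intro x hx
    have h1 : gradient (fun y => l * f y) x = l • gradient f x := by
      unfold gradient
      rw [ClassC_fd h.smooth, map_smul]
    rw [h1]
    exact smul_ne_zero hl.ne' (h.reg x ((mul_eq_zero.1 hx).resolve_left hl.ne'))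
  · intro x hx
    obtain ⟨k, hk⟩ := h.nd x ((ClassC_crit h.smooth hl).1 hx)
    exact ⟨k, ClassC_idx h.smooth hl hk⟩

/-- PROOF. `Hom.of_sign` and `KN.hom`, or directly. -/
theorem KN.smul (he : ‖e‖ = 1) (h : KN f e L S) {l : ℝ} (hl : 0 < l) :
    KN (fun x => l * f x) e L S := by
  have hf := h.mo.smooth
  have hs : ∀ p, Sad (fun y => l * f y) e p → Sad f e p := fun p hp => ClassC_sad hf hl hp
  have hc : ∀ p, Crit (fun y => l * f y) e p → Crit f e p := fun p hp => (ClassC_crit hf hl).1 hp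
  have hz0 : ∀ x, l * f x = 0 ↔ f x = 0 := fun x => by rw [mul_eq_zero, or_iff_right hl.ne']
  have hz : ∀ (t : ℝ) (w : (ℝ ∙ e)ᗮ), slc (fun x => l * f x) e t w = 0 ↔ slc f e t w = 0 :=
    fun t w => hz0 _
  refine ⟨ClassC_mo h.mo hl, fun x hx => h.reg x (hc x hx), ?_, ?_, ?_,
    fun p q hp hq => h.gap p q (hs p hp) (hs q hq),
    fun p q hp hq => h.iso p q (hs p hp) (hc q hq), fun p hp => h.lev p (hs p hp),
    fun c hc => (h.sl c hc).congr (hz c),
    fun p hp => (h.near p (hs p hp)).mono fun t ht => ht.congr (hz t),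
    h.mark.congr fun x _ => hz0 x⟩
  · have h1 : {x | l * f x ≤ 0} = {x | f x ≤ 0} := by
      ext x
      exact ClassC_np hl (f x)
    rw [h1]
    exact h.conn
  · have h1 : {x | 0 ≤ l * f x} = {x | 0 ≤ f x} := by
      ext x
      exact mul_nonneg_iff_of_pos_left hl
    rw [h1]
    exact h.out
  · have h1 : {x | l * f x = 0} = {x | f x = 0} := by
      ext x
      exact hz0 x
    rw [h1]
    exact h.lift

theorem nSad_smul (he : ‖e‖ = 1) (h : Mo f e) {l : ℝ} (hl : 0 < l) :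
    nSad (fun x => l * f x) e ≤ nSad f e :=
  nSad_mono he h fun _ hx => ClassC_sad h.smooth hl hx

private theorem ClassC_hom {l : ℝ} (hl : 0 < l) (hf : Good f) : Hom f fun x => l * f x := by
  refine Hom.of_sign hf (continuous_const.mul hf.cont) (fun x => ?_) (fun x => ?_) fun x hx => ?_
  · exact (ClassC_ng hl (f x)).symm
  · exact (ClassC_np hl (f x)).symm
  · obtain ⟨v, hv⟩ := hf.desc x hx
    refine ⟨v, hv, ?_⟩
    obtain ⟨c, hc, h⟩ := hv
    refine ⟨l * c, mul_pos hl hc, ?_⟩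
    filter_upwards [h] with q hq
    calc l * f (q.2.1 + q.2.2.2 • q.2.2.1) ≤ l * (f q.2.1 - c * q.2.2.2) :=
          mul_le_mul_of_nonneg_left hq hl.le
      _ = l * f q.2.1 - l * c * q.2.2.2 := by ring

theorem Rd.smul_iff {l : ℝ} (hl : 0 < l) (hf : Good f) : Rd (fun x => l * f x) ↔ Rd f :=
  ⟨fun h => Rd.of_hom (ClassC_hom hl hf) h, fun h => Rd.of_hom (ClassC_hom hl hf).symm h⟩

end Pool.Schoen
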