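import Pool.Agent.H.MP_6c077c_gt.N2.KStep
import Pool.Agent.H.MP_6c077c_gt.N2.KPiece
import Pool.Agent.H.MP_6c077c_gt.Al.PieceMo

/-! Slices with spheres and tori, no sphere encloses a torus: one side of the cut at a vertical
ball. -/

set_option autoImplicit false

namespace Pool.Schoen

open Filter Set
open scoped Topology RealInnerProductSpace ContDiff

theorem CutX_wb_le {d s : ℝ} (hd : 0 < d) (hs : d ≤ |s|) : wb d s ≤ 1 := by
  have h1 : expNegInvGlue (1 : ℝ) = Real.exp (-1) := by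
    unfold expNegInvGlue
    rw [if_neg (by norm_num), inv_one]
  have h2 : 2 - (s / d) ^ 2 ≤ 1 := by
    have h3 : 1 ≤ (s / d) ^ 2 := by
      rw [div_pow, one_le_div (by positivity), ← sq_abs s]
      nlinarith
    linarith
  have h3 := expNegInvGlue.monotone h2
  rw [h1] at h3
  unfold wb
  calc Real.exp 1 * expNegInvGlue (2 - (s / d) ^ 2) ≤ Real.exp 1 * Real.exp (-1) :=
        mul_le_mul_of_nonneg_left h3 (Real.exp_pos 1).le
    _ = 1 := by rw [← Real.exp_add]; simp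

theorem CutX_wb_ge {d s : ℝ} (hd : 0 < d) (hs : wb d s ≤ 1) : d ≤ |s| := by
  by_contra h1
  push Not at h1
  have h2 := wb_ge_one hd h1.le
  rcases wb_eq_one hd (le_antisymm hs h2) with h3 | h3
  · rw [h3, abs_of_pos hd] at h1
    exact lt_irrefl _ h1
  · rw [h3, abs_neg, abs_of_pos hd] at h1
    exact lt_irrefl _ h1

variable {V : Type*} [NormedAddCommGroup V] [InnerProductSpace ℝ V]

/-- The two parts of the nonpositive set of `S`. -/
structure CutQ (S : V → ℝ) (e : V) (c d σ : ℝ) (G G' : V → ℝ) : Prop where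
  hσ : σ = 1 ∨ σ = -1
  cG : Continuous G
  cG' : Continuous G'
  un : ∀ x, S x ≤ 0 ↔ G x ≤ 0 ∨ G' x ≤ 0
  dis : ∀ x, G x ≤ 0 → 0 < G' x
  pG : G ((c + σ * d) • e) = 0
  pG' : G' ((c + -σ * d) • e) = 0

theorem CutQ.swap {S : V → ℝ} {e : V} {c d σ : ℝ} {G G' : V → ℝ} (h : CutQ S e c d σ G G') :
    CutQ S e c d (-σ) G' G := by
  refine ⟨?_, h.cG', h.cG, fun x => (h.un x).trans or_comm, fun x hx => ?_, h.pG', ?_⟩
  · rcases h.hσ with h1 | h1
    · exact Or.inr (by rw [h1])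
    · exact Or.inl (by rw [h1, neg_neg])
  · by_contra h1
    exact absurd (h.dis x (not_lt.1 h1)) (not_lt.2 hx)
  · rw [neg_neg]
    exact h.pG

/-- Along a segment in the nonpositive set of `S` we stay in one part. -/
theorem CutQ.seg {S : V → ℝ} {e : V} {c d σ : ℝ} {G G' : V → ℝ} (h : CutQ S e c d σ G G')
    {x p : V} (hs : ∀ t ∈ Icc (0 : ℝ) 1, S (x + t • (p - x)) ≤ 0) (hp : G p ≤ 0) : G x ≤ 0 := by
  have hW : IsPreconnected (segment ℝ x p) := (convex_segment x p).isPreconnected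
  have hsub : segment ℝ x p ⊆ {y | G y ≤ 0} ∪ {y | G' y ≤ 0} := by
    intro y hy
    rw [segment_eq_image'] at hy
    obtain ⟨t, ht, rfl⟩ := hy
    exact (h.un _).1 (hs t ht)
  have hcl : IsClosed {y | G y ≤ 0} := isClosed_le h.cG continuous_const
  have hcl' : IsClosed {y | G' y ≤ 0} := isClosed_le h.cG' continuous_const
  rcases isPreconnected_iff_subset_of_disjoint_closed.1 hW _ _ hcl hcl' hsub (by
    rw [eq_empty_iff_forall_notMem]
    rintro y ⟨-, h1, h2⟩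
    exact absurd (h.dis y h1) (not_lt.2 h2)) with h1 | h1
  · exact h1 (left_mem_segment ℝ x p)
  · exact absurd (h.dis p hp) (not_lt.2 (h1 (right_mem_segment ℝ x p)))

theorem CutX_ax {e : V} (he : ‖e‖ = 1) (τ : ℝ) : ⟪e, τ • e⟫ = τ := by
  rw [real_inner_smul_right, real_inner_self_eq_norm_sq, he]
  ring

theorem CutX_ax' (e : V) (τ : ℝ) : hpr e (τ • e) = 0 := by
  have h1 : hprL e (τ • e) = τ • hprL e e := map_smul _ _ _
  rw [hprL_apply, hprL_apply, BaseDef_self, smul_zero] at h1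
  exact h1

theorem CutX_co {e : V} (he : ‖e‖ = 1) (x : V) (c τ t : ℝ) :
    ⟪e, x + t • ((c + τ) • e - x)⟫ - c = (1 - t) * (⟪e, x⟫ - c) + t * τ := by
  rw [inner_add_right, real_inner_smul_right, inner_sub_right, CutX_ax he]
  ring

theorem CutX_co' {e : V} (x : V) (c τ t : ℝ) (ht : t ∈ Icc (0 : ℝ) 1) :
    ‖hpr e (x + t • ((c + τ) • e - x))‖ = (1 - t) * ‖hpr e x‖ := by
  have h1 : hprL e (x + t • ((c + τ) • e - x)) = hprL e x + t • (hprL e ((c + τ) • e) - hprL e x) := by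
    rw [map_add, map_smul, map_sub]
  rw [hprL_apply, hprL_apply, hprL_apply, CutX_ax', zero_sub] at h1
  rw [h1]
  have h2 : hpr e x + t • -hpr e x = (1 - t) • hpr e x := by module
  rw [h2, norm_smul, Real.norm_of_nonneg (by linarith [ht.2])]

variable [FiniteDimensional ℝ V]

/-- The situation of the cut: `f` is vertical, `F` is its normal form. -/
structure CutH (f F : V → ℝ) (e : V) (c a δ d₀ : ℝ) (g : (ℝ ∙ e)ᗮ → ℝ) : Prop where
  he : ‖e‖ = 1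
  ha : 0 < a
  hδ : 0 < δ
  hδd : δ < d₀
  smg : ContDiff ℝ ∞ g
  reg : ∀ x, f x = 0 → gradient f x ≠ 0
  hfg : ∀ x, |⟪e, x⟫ - c| < a → f x = g (hpr e x)
  hle : ∀ w, ‖w‖ < 1 + d₀ → (g w ≤ 0 ↔ ‖w‖ ≤ 1)
  heq : ∀ w, ‖w‖ < 1 + d₀ → (g w = 0 ↔ ‖w‖ = 1)
  smF : ContDiff ℝ ∞ F
  fle : ∀ x, F x ≤ 0 ↔ f x ≤ 0
  feq : ∀ x, F x = 0 ↔ f x = 0
  fgr : ∀ x, f x = 0 → ∃ μ : ℝ, 0 < μ ∧ gradient F x = μ • gradient f x
  fgerm : ∀ x, a ≤ |⟪e, x⟫ - c| ∨ 1 + d₀ ≤ ‖hpr e x‖ → F =ᶠ[𝓝 x] f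
  cyl : ∀ x, ‖hpr e x‖ ≤ 1 + δ → |⟪e, x⟫ - c| < a / 2 → F x = ‖hpr e x‖ ^ 2 - 1

variable {f F : V → ℝ} {e : V} {c a δ d₀ σ : ℝ} {g : (ℝ ∙ e)ᗮ → ℝ} {G G' : V → ℝ}

namespace CutH

theorem hei (_h : CutH f F e c a δ d₀ g) (x : V) (hc : ⟪e, c • e⟫ = c) :
    ⟪e, x - c • e⟫ = ⟪e, x⟫ - c := by
  rw [inner_sub_right, hc]

theorem hec (h : CutH f F e c a δ d₀ g) : ⟪e, c • e⟫ = c := CutX_ax h.he c

theorem cylN (h : CutH f F e c a δ d₀ g) : CylN F e (c • e) (a / 2) (1 + δ) := by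
  refine ⟨h.he, by have := h.ha; linarith, by have := h.hδ; linarith, fun x h1 h2 => ?_⟩
  rw [Cy.Cyl_orth h.he] at h2 ⊢
  rw [h.hei x h.hec] at h1
  exact h.cyl x h2.le h1

theorem regF (h : CutH f F e c a δ d₀ g) : ∀ x, F x = 0 → gradient F x ≠ 0 := by
  intro x hx h0
  have hx' := (h.feq x).1 hx
  obtain ⟨μ, hμ, h1⟩ := h.fgr x hx'
  rw [h0] at h1
  exact h.reg x hx' ((smul_eq_zero.1 h1.symm).resolve_left hμ.ne')

/-- The vertical derivative vanishes. -/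
theorem vert (h : CutH f F e c a δ d₀ g) {x : V} (hx : |⟪e, x⟫ - c| < a) (h0 : F x = 0) :
    fderiv ℝ F x e = 0 := by
  have hx' := (h.feq x).1 h0
  obtain ⟨μ, hμ, h1⟩ := h.fgr x hx'
  have h2 : f =ᶠ[𝓝 x] fun y => g (hpr e y) := by
    have hcont : Continuous fun y : V => |⟪e, y⟫ - c| := by fun_prop
    filter_upwards [hcont.continuousAt.eventually_lt_const hx] with y hy
    exact h.hfg y hy
  have h3 : HasFDerivAt (fun y => g (hpr e y)) ((fderiv ℝ g (hpr e x)).comp (hprL e)) x :=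
    HasFDerivAt.comp (g := g) x
      ((h.smg.differentiable (by simp)).differentiableAt.hasFDerivAt) (hprL e).hasFDerivAt
  have h4 : fderiv ℝ f x e = 0 := by
    rw [h2.fderiv_eq, h3.fderiv, ContinuousLinearMap.comp_apply, hprL_apply, BaseDef_self,
      map_zero]
  rw [fderiv_eq_inner_gradient, h1, real_inner_smul_left, ← fderiv_eq_inner_gradient, h4, mul_zero]

theorem no_crit (h : CutH f F e c a δ d₀ g) {x : V} (hx : |⟪e, x⟫ - c| < a) :
    ¬ Crit F e x := by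
  intro hc
  obtain ⟨l, hl⟩ := hc.vert h.he
  have h1 := h.vert hx hc.1
  rw [fderiv_eq_inner_gradient, hl, real_inner_smul_left, real_inner_self_eq_norm_sq, h.he] at h1
  have h2 : l = 0 := by linarith
  rw [h2, zero_smul] at hl
  exact h.regF x hc.1 hl

theorem neg (h : CutH f F e c a δ d₀ g) {x : V} (hx : |⟪e, x⟫ - c| < a) (h1 : ‖hpr e x‖ ≤ 1) :
    F x ≤ 0 := by
  rw [h.fle, h.hfg x hx, h.hle _ (by have := h.hδ; have := h.hδd; linarith)]
  exact h1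

theorem val (h : CutH f F e c a δ d₀ g) {x : V} (hx : |⟪e, x⟫ - c| < a / 2)
    (h1 : ‖hpr e x‖ ≤ 1) :
    scut F e (c • e) (a / 4) (1 + δ) x = ‖hpr e x‖ ^ 2 - 1 + wb (a / 4) (⟪e, x⟫ - c) := by
  have h2 := (h.cylN.scut_in (d := a / 4) (x := x) (by rw [h.hei x h.hec]; exact hx)
    (by rw [Cy.Cyl_orth h.he]; exact h1)).self_of_nhds
  rw [h2]
  unfold scutM
  rw [Cy.Cyl_orth h.he, h.hei x h.hec]

theorem far (h : CutH f F e c a δ d₀ g) {x : V} (hx : a / 2 ≤ |⟪e, x⟫ - c|) :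
    scut F e (c • e) (a / 4) (1 + δ) x = F x := by
  refine CylN.scut_eq (by have := h.ha; linarith) ?_
  rw [h.hei x h.hec, ← sq_abs (⟪e, x⟫ - c)]
  have := h.ha
  nlinarith

/-- The columns over the ball are nonpositive away from the middle. -/
theorem col (h : CutH f F e c a δ d₀ g) {x : V} (h1 : a / 4 ≤ |⟪e, x⟫ - c|)
    (h2 : |⟪e, x⟫ - c| < a) (h3 : hpr e x = 0 ∨ (a / 2 ≤ |⟪e, x⟫ - c| ∧ ‖hpr e x‖ ≤ 1)) :
    scut F e (c • e) (a / 4) (1 + δ) x ≤ 0 := by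
  have h4 : ‖hpr e x‖ ≤ 1 := by
    rcases h3 with h3 | h3
    · rw [h3, norm_zero]
      exact zero_le_one
    · exact h3.2
  by_cases h5 : a / 2 ≤ |⟪e, x⟫ - c|
  · rw [h.far h5]
    exact h.neg h2 h4
  · rcases h3 with h3 | h3
    · rw [h.val (not_le.1 h5) h4, h3, norm_zero]
      have := CutX_wb_le (d := a / 4) (by have := h.ha; linarith) h1
      linarith
    · exact absurd h3.1 h5

theorem abs_mul (hσ : σ = 1 ∨ σ = -1) {r : ℝ} (hr : 0 ≤ r) : |σ * r| = r := by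
  rcases hσ with rfl | rfl
  · rw [one_mul, abs_of_nonneg hr]
  · rw [neg_one_mul, abs_neg, abs_of_nonneg hr]

/-- The axis. -/
theorem axis (h : CutH f F e c a δ d₀ g)
    (hq : CutQ (scut F e (c • e) (a / 4) (1 + δ)) e c (a / 4) σ G G') {s : ℝ} (hs : a / 4 ≤ s)
    (hs' : s < a) : G ((c + σ * s) • e) ≤ 0 := by
  have ha := h.ha
  refine hq.seg (p := (c + σ * (a / 4)) • e) (fun t ht => ?_) hq.pG.le
  have e1 := CutX_co h.he ((c + σ * s) • e) c (σ * (a / 4)) t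
  have e2 := CutX_co' (e := e) ((c + σ * s) • e) c (σ * (a / 4)) t ht
  rw [CutX_ax h.he] at e1
  rw [CutX_ax', norm_zero, mul_zero, norm_eq_zero] at e2
  obtain ⟨r, hr⟩ : ∃ r : ℝ, r = (1 - t) * s + t * (a / 4) := ⟨_, rfl⟩
  have e3 : (1 - t) * (c + σ * s - c) + t * (σ * (a / 4)) = σ * r := by rw [hr]; ring
  rw [e3] at e1
  have hr1 : a / 4 ≤ r := by rw [hr]; nlinarith [ht.1, ht.2]
  have hr2 : r < a := by rw [hr]; nlinarith [ht.1, ht.2]
  have e4 : |σ * r| = r := abs_mul hq.hσ (by linarith)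
  refine h.col ?_ ?_ (Or.inl e2)
  · rw [e1, e4]; exact hr1
  · rw [e1, e4]; exact hr2

/-- The columns over the ball. -/
theorem column (h : CutH f F e c a δ d₀ g)
    (hq : CutQ (scut F e (c • e) (a / 4) (1 + δ)) e c (a / 4) σ G G') {x : V}
    (h1 : a / 2 ≤ σ * (⟪e, x⟫ - c)) (h2 : σ * (⟪e, x⟫ - c) < a) (h3 : ‖hpr e x‖ ≤ 1) :
    G x ≤ 0 := by
  have ha := h.ha
  refine hq.seg (p := (c + σ * (a / 2)) • e) (fun t ht => ?_)
    (h.axis hq (by linarith) (by linarith))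
  have e1 := CutX_co h.he x c (σ * (a / 2)) t
  have e2 := CutX_co' (e := e) x c (σ * (a / 2)) t ht
  obtain ⟨r0, hr0⟩ : ∃ r0 : ℝ, r0 = σ * (⟪e, x⟫ - c) := ⟨_, rfl⟩
  have hσσ : σ * σ = 1 := by
    rcases hq.hσ with h4 | h4 <;> rw [h4] <;> norm_num
  have e0 : ⟪e, x⟫ - c = σ * r0 := by
    rw [hr0, ← mul_assoc, hσσ, one_mul]
  rw [← hr0] at h1 h2
  obtain ⟨r, hr⟩ : ∃ r : ℝ, r = (1 - t) * r0 + t * (a / 2) := ⟨_, rfl⟩
  have e3 : (1 - t) * (⟪e, x⟫ - c) + t * (σ * (a / 2)) = σ * r := by rw [hr, e0]; ring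
  rw [e3] at e1
  have hr1 : a / 2 ≤ r := by rw [hr]; nlinarith [ht.1, ht.2]
  have hr2 : r < a := by rw [hr]; nlinarith [ht.1, ht.2]
  have e4 : |σ * r| = r := abs_mul hq.hσ (by linarith)
  have e5 : ‖hpr e (x + t • ((c + σ * (a / 2)) • e - x))‖ ≤ 1 := by
    rw [e2]
    have := norm_nonneg (hpr e x)
    nlinarith [ht.1, ht.2]
  refine h.col ?_ ?_ (Or.inr ⟨?_, e5⟩)
  · rw [e1, e4]; linarith
  · rw [e1, e4]; exact hr2
  · rw [e1, e4]; exact hr1

/-- In the cylinder the zeros of a part are on its side. -/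
theorem side (h : CutH f F e c a δ d₀ g)
    (hq : CutQ (scut F e (c • e) (a / 4) (1 + δ)) e c (a / 4) σ G G') {x : V}
    (h1 : |⟪e, x⟫ - c| < a / 2) (h2 : ‖hpr e x‖ ≤ 1) (h3 : G x ≤ 0) : 0 < σ * (⟪e, x⟫ - c) := by
  have ha := h.ha
  by_contra h4
  push Not at h4
  have hS : scut F e (c • e) (a / 4) (1 + δ) x ≤ 0 := (hq.un x).2 (Or.inl h3)
  rw [h.val h1 h2] at hS
  have hnn := norm_nonneg (hpr e x)
  have hw : wb (a / 4) (⟪e, x⟫ - c) - 1 ≤ - ‖hpr e x‖ ^ 2 := by linarith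
  -- the height is at least `a / 4`
  have h5 : a / 4 ≤ |⟪e, x⟫ - c| := CutX_wb_ge (by linarith) (by nlinarith)
  obtain ⟨r, hr⟩ : ∃ r : ℝ, r = |⟪e, x⟫ - c| := ⟨_, rfl⟩
  have e0 : ⟪e, x⟫ - c = -σ * r := by
    rcases hq.hσ with h6 | h6
    · rw [h6, one_mul] at h4
      rw [hr, h6, abs_of_nonpos h4]
      ring
    · rw [h6] at h4
      rw [hr, h6, abs_of_nonneg (by linarith)]
      ring
  rw [← hr] at h1 h5
  refine absurd (hq.dis x h3) (not_lt.2 ?_)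
  refine hq.swap.seg (p := (c + -σ * r) • e) (fun t ht => ?_)
    (h.axis hq.swap h5 (by linarith))
  have e1 := CutX_co h.he x c (-σ * r) t
  have e2 := CutX_co' (e := e) x c (-σ * r) t ht
  have e3 : (1 - t) * (⟪e, x⟫ - c) + t * (-σ * r) = ⟪e, x⟫ - c := by rw [e0]; ring
  rw [e3] at e1
  rw [h.val (by rw [e1, ← hr]; exact h1) (by rw [e2]; nlinarith [ht.1, ht.2]), e1, e2]
  have h6 : ((1 - t) * ‖hpr e x‖) ^ 2 ≤ ‖hpr e x‖ ^ 2 := by
    have h7 : 0 ≤ (1 - t) * ‖hpr e x‖ := mul_nonneg (by linarith [ht.2]) hnn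
    have h8 : (1 - t) * ‖hpr e x‖ ≤ ‖hpr e x‖ := by nlinarith [ht.1]
    exact pow_le_pow_left₀ h7 h8 2
  linarith

/-- The horizontal zeros of a part in the slab. -/
theorem crit (h : CutH f F e c a δ d₀ g)
    (hq : CutQ (scut F e (c • e) (a / 4) (1 + δ)) e c (a / 4) σ G G')
    (hG : ∀ x, G x = 0 → G =ᶠ[𝓝 x] scut F e (c • e) (a / 4) (1 + δ)) {x : V} (hx : Crit G e x)
    (h1 : |⟪e, x⟫ - c| < a) :
    Idx G e x 0 ∧ ⟪e, x⟫ = c + σ * (a / 4) ∧ hpr e x = 0 := by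
  have ha := h.ha
  have hd : 0 < a / 4 := by linarith
  have hdζ : 2 * (a / 4) ≤ a / 2 := by linarith
  have hg := hG x hx.1
  have hx' := hx.congr hg
  have key : ∀ τ : ℝ, (τ = a / 4 ∨ τ = -(a / 4)) → x = c • e + τ • e → τ = σ * (a / 4) := by
    intro τ hτ hxτ
    by_contra hne
    have h2 : τ = -σ * (a / 4) := by
      rcases hq.hσ with h3 | h3
      · rw [h3, one_mul] at hne
        rcases hτ with h4 | h4
        · exact absurd h4 hne
        · rw [h3, h4]; ring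
      · rw [h3] at hne
        rcases hτ with h4 | h4
        · rw [h3, h4]; ring
        · exact absurd (by rw [h4]; ring) hne
    have h3 := hq.pG'
    have h4 : x = (c + -σ * (a / 4)) • e := by rw [hxτ, h2, add_smul]
    rw [← h4] at h3
    exact absurd (hq.dis x hx.1.le) (by rw [h3]; exact lt_irrefl _)
  have fin : ∀ τ : ℝ, (τ = a / 4 ∨ τ = -(a / 4)) → x = c • e + τ • e →
      Idx (scut F e (c • e) (a / 4) (1 + δ)) e x 0 →
      Idx G e x 0 ∧ ⟪e, x⟫ = c + σ * (a / 4) ∧ hpr e x = 0 := by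
    intro τ hτ hxτ hi
    have h2 := key τ hτ hxτ
    have h3 : x = (c + σ * (a / 4)) • e := by rw [hxτ, h2, add_smul]
    refine ⟨hi.congr' hg.symm, ?_, ?_⟩
    · rw [h3, CutX_ax h.he]
    · rw [h3, CutX_ax']
  rcases (crit_iff h.he (h.cylN.scut_reg hd hdζ h.regF) x).1 hx' with h2 | h2
  · rcases h.cylN.scut_inward hd hdζ h2 with ⟨-, h3, -⟩ | ⟨h3, h4⟩
    · exact absurd ((crit_iff h.he h.regF x).2 (Or.inl h3)) (h.no_crit h1)
    · exact fin _ (Or.inl rfl) h3 h4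
  · rcases h.cylN.scut_inward_neg hd hdζ h2 with ⟨-, h3, -⟩ | ⟨h3, h4⟩
    · exact absurd ((crit_iff h.he h.regF x).2 (Or.inr h3)) (h.no_crit h1)
    · exact fin _ (Or.inr rfl) (by rw [h3]; module) h4

/-- The zeros of a part at the middle height. -/
theorem mid (h : CutH f F e c a δ d₀ g)
    (hG : ∀ x, G x = 0 → G =ᶠ[𝓝 x] scut F e (c • e) (a / 4) (1 + δ)) {x : V} (hx : G x = 0)
    (h1 : ⟪e, x⟫ = c) : G =ᶠ[𝓝 x] f ∧ 1 < ‖hpr e x‖ := by
  have ha := h.ha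
  have hδ := h.hδ
  have hδd := h.hδd
  have hd : 0 < a / 4 := by linarith
  have hdζ : 2 * (a / 4) ≤ a / 2 := by linarith
  have hg := hG x hx
  have h0 : scut F e (c • e) (a / 4) (1 + δ) x = 0 := by rw [← hg.self_of_nhds, hx]
  have hs : ⟪e, x - c • e⟫ = 0 := by rw [h.hei x h.hec, h1, sub_self]
  rcases h.cylN.scut_zero hd hdζ h0 with ⟨h2, h3, h4⟩ | ⟨h2, h3, h4⟩
  · rw [hs, abs_zero, Cy.Cyl_orth h.he] at h2
    have h5 : 1 + δ ≤ ‖hpr e x‖ := h2.resolve_left (by linarith)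
    have h6 : 1 + d₀ ≤ ‖hpr e x‖ := by
      by_contra h7
      have h8 := (h.feq x).1 h3
      rw [h.hfg x (by rw [h1, sub_self, abs_zero]; exact ha), h.heq _ (not_le.1 h7)] at h8
      linarith
    refine ⟨?_, by linarith⟩
    filter_upwards [hg, h4, h.fgerm x (Or.inr h6)] with y hy1 hy2 hy3
    rw [hy1, hy2, hy3]
  · exfalso
    have h5 := h.cylN.scut_mid (d := a / 4) hs (by linarith)
    linarith

/-- Off the slab. -/
theorem out (h : CutH f F e c a δ d₀ g)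
    (hG : ∀ x, G x = 0 → G =ᶠ[𝓝 x] scut F e (c • e) (a / 4) (1 + δ)) {x : V} (hx : G x = 0)
    (h1 : a ≤ |⟪e, x⟫ - c|) : G =ᶠ[𝓝 x] f := by
  have ha := h.ha
  have h2 := h.cylN.scut_off (d := a / 4) (x := x) (by linarith) (by linarith)
    (Or.inl (by rw [h.hei x h.hec]; linarith))
  filter_upwards [hG x hx, h2, h.fgerm x (Or.inl h1)] with y hy1 hy2 hy3
  rw [hy1, hy2, hy3]

/-- The monotone zeros over the ball. -/
theorem mono (h : CutH f F e c a δ d₀ g)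
    (hq : CutQ (scut F e (c • e) (a / 4) (1 + δ)) e c (a / 4) σ G G')
    (hG : ∀ x, G x = 0 → G =ᶠ[𝓝 x] scut F e (c • e) (a / 4) (1 + δ)) {x : V} (hx : G x = 0)
    (h1 : |⟪e, x⟫ - c| < a) (h2 : ‖hpr e x‖ ≤ 1) : σ * fderiv ℝ G x e ≤ 0 := by
  have ha := h.ha
  have hδ := h.hδ
  have hd : 0 < a / 4 := by linarith
  have hdζ : 2 * (a / 4) ≤ a / 2 := by linarith
  have hg := hG x hx
  have h0 : scut F e (c • e) (a / 4) (1 + δ) x = 0 := by rw [← hg.self_of_nhds, hx]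
  rw [hg.fderiv_eq]
  rcases h.cylN.scut_zero hd hdζ h0 with ⟨-, h4, h5⟩ | ⟨h3, -, h5⟩
  · rw [h5.fderiv_eq, h.vert h1 h4, mul_zero]
  · obtain ⟨D, hD, hD1, -⟩ := wb_deriv hd ⟪e, x - c • e⟫
    rw [h5.fderiv_eq, scutM_fderiv h.he (c • e) hD, real_inner_comm, inner_orth h.he,
      real_inner_self_eq_norm_sq, h.he]
    rw [h.hei x h.hec] at hD1 h3
    have h6 := h.side hq h3 h2 hx.le
    rcases hq.hσ with h7 | h7
    · rw [h7] at h6 ⊢
      have h8 : D ≤ 0 := by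
        by_contra h9
        nlinarith [not_le.1 h9]
      linarith
    · rw [h7] at h6 ⊢
      have h8 : 0 ≤ D := by
        by_contra h9
        nlinarith [not_le.1 h9]
      linarith

/-- The zeros of a part are bounded. -/
theorem bdd (h : CutH f F e c a δ d₀ g) (hb : Bornology.IsBounded {x | f x = 0})
    (hG : ∀ x, G x = 0 → G =ᶠ[𝓝 x] scut F e (c • e) (a / 4) (1 + δ)) :
    Bornology.IsBounded {x | G x = 0} := by
  have ha := h.ha
  obtain ⟨R0, hR0⟩ := hb.exists_norm_le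
  refine (Metric.isBounded_closedBall (x := (0 : V)) (r := max R0 (|c| + a / 2 + 1))).subset ?_
  intro x hx
  have hx' : G x = 0 := hx
  have h0 : scut F e (c • e) (a / 4) (1 + δ) x = 0 := by rw [← (hG x hx').self_of_nhds, hx']
  rw [mem_closedBall_zero_iff]
  rcases h.cylN.scut_zero (by linarith) (by linarith) h0 with ⟨-, h2, -⟩ | ⟨h1, h2, -⟩
  · exact (hR0 x ((h.feq x).1 h2)).trans (le_max_left _ _)
  · refine le_trans ?_ (le_max_right _ _)
    rw [h.hei x h.hec] at h1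
    rw [Cy.Cyl_orth h.he] at h2
    have h3 := hpr_add h.he x
    have h4 : |⟪e, x⟫| ≤ |c| + a / 2 := by
      have h5 := abs_add_le (⟪e, x⟫ - c) c
      rw [sub_add_cancel] at h5
      linarith
    calc ‖x‖ = ‖((hpr e x : (ℝ ∙ e)ᗮ) : V) + ⟪e, x⟫ • e‖ := by rw [h3]
      _ ≤ ‖((hpr e x : (ℝ ∙ e)ᗮ) : V)‖ + ‖⟪e, x⟫ • e‖ := norm_add_le _ _
      _ ≤ 1 + |⟪e, x⟫| := by
          rw [norm_smul, h.he, mul_one, Real.norm_eq_abs]
          exact add_le_add h2 le_rfl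
      _ ≤ |c| + a / 2 + 1 := by linarith

theorem reg' (h : CutH f F e c a δ d₀ g)
    (hG : ∀ x, G x = 0 → G =ᶠ[𝓝 x] scut F e (c • e) (a / 4) (1 + δ)) {x : V} (hx : G x = 0) :
    gradient G x ≠ 0 := by
  have ha := h.ha
  have hg := hG x hx
  have h0 : scut F e (c • e) (a / 4) (1 + δ) x = 0 := by rw [← hg.self_of_nhds, hx]
  have h1 : gradient G x = gradient (scut F e (c • e) (a / 4) (1 + δ)) x := by
    unfold gradient
    rw [hg.fderiv_eq]
  rw [h1]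
  exact h.cylN.scut_reg (by linarith) (by linarith) h.regF x h0

theorem sub (h : CutH f F e c a δ d₀ g)
    (hq : CutQ (scut F e (c • e) (a / 4) (1 + δ)) e c (a / 4) σ G G') {x : V} (hx : G x ≤ 0) :
    f x ≤ 0 := by
  have h1 := (hq.un x).2 (Or.inl hx)
  have h2 := scut_ge F e (c • e) (a / 4) (1 + δ) x
  rw [← h.fle]
  linarith

end CutH

end Pool.Schoen
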