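import Pool.Agent.H.MP_6c077c_gt.N3.ClassD
import Pool.Agent.H.MP_6c077c_gt.N3.ClassC
import Pool.Agent.H.MP_6c077c_gt.N3.CutX
import Pool.Agent.H.MP_6c077c_gt.Al.TransN

/-! Slices with spheres and tori, no sphere encloses a torus: the cut at a vertical ball. -/

set_option autoImplicit false

namespace Pool.Schoen

open Filter Set
open scoped Topology RealInnerProductSpace ContDiff

variable {V : Type*} [NormedAddCommGroup V] [InnerProductSpace ℝ V] [FiniteDimensional ℝ V]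

/-- The two functions of the cut of `h` at height `c` along the ball `k ≤ 0`, inside the vertical
slab of half height `a`. `A` is the lower side, `C` the upper side, near the ball. -/
structure CutD (h : V → ℝ) (e : V) (c a d : ℝ) (k : (ℝ ∙ e)ᗮ → ℝ) (A C : V → ℝ) : Prop where
  hd : 0 < d
  hda : d < a
  smA : ContDiff ℝ ∞ A
  smC : ContDiff ℝ ∞ C
  bdA : Bornology.IsBounded {x | A x = 0}
  bdC : Bornology.IsBounded {x | C x = 0}
  regA : ∀ x, A x = 0 → gradient A x ≠ 0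
  regC : ∀ x, C x = 0 → gradient C x ≠ 0
  subA : ∀ x, A x ≤ 0 → h x ≤ 0
  subC : ∀ x, C x ≤ 0 → h x ≤ 0
  dis : ∀ x, A x ≤ 0 → 0 < C x
  un : ∀ x, a ≤ |⟪e, x⟫ - c| → h x ≤ 0 → A x ≤ 0 ∨ C x ≤ 0
  gA : ∀ x, a ≤ |⟪e, x⟫ - c| → A x = 0 → A =ᶠ[𝓝 x] h
  gC : ∀ x, a ≤ |⟪e, x⟫ - c| → C x = 0 → C =ᶠ[𝓝 x] h
  crA : ∀ x, Crit A e x → |⟪e, x⟫ - c| < a → Idx A e x 0 ∧ ⟪e, x⟫ = c - d ∧ k (hpr e x) < 0
  crC : ∀ x, Crit C e x → |⟪e, x⟫ - c| < a → Idx C e x 0 ∧ ⟪e, x⟫ = c + d ∧ k (hpr e x) < 0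
  /-- at the height of the cut the sphere has disappeared, the other zeros are those of `h` -/
  zA : ∀ x, ⟪e, x⟫ = c → A x = 0 → A =ᶠ[𝓝 x] h ∧ 0 < k (hpr e x)
  zC : ∀ x, ⟪e, x⟫ = c → C x = 0 → C =ᶠ[𝓝 x] h ∧ 0 < k (hpr e x)
  /-- the position near the ball -/
  upC : ∀ x, k (hpr e x) ≤ 0 → c + a / 2 ≤ ⟪e, x⟫ → ⟪e, x⟫ < c + a → C x ≤ 0
  dnA : ∀ x, k (hpr e x) ≤ 0 → c - a < ⟪e, x⟫ → ⟪e, x⟫ ≤ c - a / 2 → A x ≤ 0
  mono : ∀ x, |⟪e, x⟫ - c| < a → k (hpr e x) ≤ 0 → C x = 0 → fderiv ℝ C x e ≤ 0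
  connA : IsConnected {x | A x ≤ 0}
  connC : IsConnected {x | C x ≤ 0}
  outA : IsConnected {x | 0 ≤ A x}
  outC : IsConnected {x | 0 ≤ C x}
  liftA : LiftS {x | A x = 0}
  liftC : LiftS {x | C x = 0}
  rd : Rd A → Rd C → Rd h

theorem Cut_vert {e : V} (he : ‖e‖ = 1) {φ ψ : (ℝ ∙ e)ᗮ → (ℝ ∙ e)ᗮ} (hφ : Dif φ ψ) (x : V) :
    fderiv ℝ (extH e φ) x e = e := by
  have hΦ : Dif (extH e φ) (extH e ψ) := hφ.extH he
  have h1 : HasFDerivAt (extH e φ) (fderiv ℝ (extH e φ) x) (x + (0 : ℝ) • e) := by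
    rw [zero_smul, add_zero]
    exact hΦ.has x
  have h2 : HasDerivAt (fun t : ℝ => x + t • e) e 0 := by
    have h3 := ((hasDerivAt_id (0 : ℝ)).smul_const e).const_add x
    rw [one_smul] at h3
    exact h3
  have h3 : HasDerivAt (fun t : ℝ => extH e φ (x + t • e)) (fderiv ℝ (extH e φ) x e) 0 :=
    HasFDerivAt.comp_hasDerivAt (l := extH e φ) (f := fun t : ℝ => x + t • e) (0 : ℝ) h1 h2
  have h4 : (fun t : ℝ => extH e φ (x + t • e)) = fun t : ℝ => extH e φ x + t • e := by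
    funext t
    unfold extH
    have h5 : hpr e (x + t • e) = hpr e x := by
      have h6 : hprL e (x + t • e) = hprL e x + t • hprL e e := by rw [map_add, map_smul]
      rw [hprL_apply, hprL_apply, hprL_apply, BaseDef_self, smul_zero, add_zero] at h6
      exact h6
    rw [h5, inner_add_right, CutX_ax he]
    module
  rw [h4] at h3
  have h5 : HasDerivAt (fun t : ℝ => extH e φ x + t • e) e 0 := by
    have h6 := ((hasDerivAt_id (0 : ℝ)).smul_const e).const_add (extH e φ x)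
    rw [one_smul] at h6
    exact h6
  exact h3.unique h5

/-- Transport of the cut by a diffeomorphism of the hyperplane. -/
theorem Cut_comp {e : V} (he : ‖e‖ = 1) {h : V → ℝ} {c a d : ℝ} {k : (ℝ ∙ e)ᗮ → ℝ} {A C : V → ℝ}
    (H : CutD h e c a d k A C) {φ ψ : (ℝ ∙ e)ᗮ → (ℝ ∙ e)ᗮ} (hφ : Dif φ ψ) :
    CutD (fun x => h (extH e φ x)) e c a d (fun w => k (φ w)) (fun x => A (extH e φ x))
      (fun x => C (extH e φ x)) := by
  have hΦ : Dif (extH e φ) (extH e ψ) := hφ.extH he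
  have hh : ∀ x, ⟪e, extH e φ x⟫ = ⟪e, x⟫ := extH_height he φ
  have hp : ∀ x, hpr e (extH e φ x) = φ (hpr e x) := extH_hpr he φ
  have germ : ∀ {P Q : V → ℝ} {x : V}, P =ᶠ[𝓝 (extH e φ x)] Q →
      (fun y => P (extH e φ y)) =ᶠ[𝓝 x] fun y => Q (extH e φ y) := by
    intro P Q x hPQ
    exact (hΦ.continuous.tendsto x).eventually hPQ
  have cr : ∀ {P : V → ℝ} {x : V}, ContDiff ℝ ∞ P → Crit (fun y => P (extH e φ y)) e x →
      Crit P e (extH e φ x) ∧ (Idx P e (extH e φ x) 0 → Idx (fun y => P (extH e φ y)) e x 0) := by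
    intro P x hP hx
    obtain ⟨h1, l, h2⟩ := crit_comp_dif he hΦ hh hP hx
    exact ⟨h1, fun h3 => idx_comp_height hP hΦ hh x l h2 h3⟩
  refine ⟨H.hd, H.hda, H.smA.comp hΦ.smooth, H.smC.comp hΦ.smooth, hΦ.bounded H.bdA,
    hΦ.bounded H.bdC, fun x hx => hΦ.reg H.smA (H.regA _ hx), fun x hx => hΦ.reg H.smC (H.regC _ hx),
    fun x hx => H.subA _ hx, fun x hx => H.subC _ hx, fun x hx => H.dis _ hx,
    fun x hx hx' => H.un _ (by rw [hh]; exact hx) hx',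
    fun x hx h0 => germ (H.gA _ (by rw [hh]; exact hx) h0),
    fun x hx h0 => germ (H.gC _ (by rw [hh]; exact hx) h0), fun x hx hxa => ?_, fun x hx hxa => ?_,
    fun x hx h0 => ?_, fun x hx h0 => ?_, fun x hk h1 h2 => ?_, fun x hk h1 h2 => ?_,
    fun x hxa hk h0 => ?_, hΦ.isConnected H.connA, hΦ.isConnected H.connC, hΦ.isConnected H.outA,
    hΦ.isConnected H.outC, hΦ.liftS H.liftA, hΦ.liftS H.liftC, fun hA hC => ?_⟩
  · obtain ⟨h1, h2⟩ := cr H.smA hx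
    obtain ⟨h3, h4, h5⟩ := H.crA _ h1 (by rw [hh]; exact hxa)
    rw [hh] at h4
    rw [hp] at h5
    exact ⟨h2 h3, h4, h5⟩
  · obtain ⟨h1, h2⟩ := cr H.smC hx
    obtain ⟨h3, h4, h5⟩ := H.crC _ h1 (by rw [hh]; exact hxa)
    rw [hh] at h4
    rw [hp] at h5
    exact ⟨h2 h3, h4, h5⟩
  · obtain ⟨h1, h2⟩ := H.zA _ (by rw [hh]; exact hx) h0
    rw [hp] at h2
    exact ⟨germ h1, h2⟩
  · obtain ⟨h1, h2⟩ := H.zC _ (by rw [hh]; exact hx) h0
    rw [hp] at h2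
    exact ⟨germ h1, h2⟩
  · exact H.upC _ (by rw [hp]; exact hk) (by rw [hh]; exact h1) (by rw [hh]; exact h2)
  · exact H.dnA _ (by rw [hp]; exact hk) (by rw [hh]; exact h1) (by rw [hh]; exact h2)
  · have h1 := H.mono _ (by rw [hh]; exact hxa) (by rw [hp]; exact hk) h0
    have h2 : HasFDerivAt (fun y => C (extH e φ y))
        ((fderiv ℝ C (extH e φ x)).comp (fderiv ℝ (extH e φ) x)) x :=
      HasFDerivAt.comp (g := C) x
        ((H.smC.differentiable (by simp)).differentiableAt.hasFDerivAt) (hΦ.has x)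
    rw [h2.fderiv, ContinuousLinearMap.comp_apply, Cut_vert he hφ]
    exact h1
  · exact (Rd.comp_dif hΦ (f := h)).2 (H.rd ((Rd.comp_dif hΦ (f := A)).1 hA)
      ((Rd.comp_dif hΦ (f := C)).1 hC))

/-- The cut for a ball in normal form. -/
theorem Cut_straight (hV : Module.finrank ℝ V = 4) {e : V} (he : ‖e‖ = 1) {f : V → ℝ}
    (hf : ContDiff ℝ ∞ f) (hb : Bornology.IsBounded {x | f x = 0})
    (hr : ∀ x, f x = 0 → gradient f x ≠ 0) (h1 : IsConnected {x | f x ≤ 0})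
    (h2 : IsConnected {x | 0 ≤ f x}) (h3 : LiftS {x | f x = 0}) {c a : ℝ} (ha : 0 < a)
    {g : (ℝ ∙ e)ᗮ → ℝ} (hg : ContDiff ℝ ∞ g)
    (hfg : ∀ x, |⟪e, x⟫ - c| < a → f x = g (hpr e x)) {d₀ : ℝ} (hd₀ : 0 < d₀)
    (hle : ∀ w, ‖w‖ < 1 + d₀ → (g w ≤ 0 ↔ ‖w‖ ≤ 1))
    (heq : ∀ w, ‖w‖ < 1 + d₀ → (g w = 0 ↔ ‖w‖ = 1)) (hfd : ∀ w, ‖w‖ = 1 → fderiv ℝ g w ≠ 0)
    {k : (ℝ ∙ e)ᗮ → ℝ} (hk1 : ∀ w, k w ≤ 0 ↔ ‖w‖ ≤ 1) (hk0 : k 0 < 0) :
    ∃ A C : V → ℝ, CutD f e c a (a / 4) k A C := by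
  have hfgood : Good f := by
    refine good_of_regular hf hb fun x hx h0 => hr x hx ?_
    rw [gradient, h0, map_zero]
  obtain ⟨F, δ, hδ, hδd, hF, hH, hle3, heq3, hgr3, hgerm3, -, hcyl⟩ :=
    normal_form hf hfgood hg ha hd₀ hfg hle heq hfd
  have H : CutH f F e c a δ d₀ g :=
    ⟨he, ha, hδ, hδd, hg, hr, hfg, hle, heq, hF, hle3, heq3, hgr3, hgerm3, hcyl⟩
  have e1 : {x | F x ≤ 0} = {x | f x ≤ 0} := by
    ext x
    exact hle3 x
  have e2 : {x | F x = 0} = {x | f x = 0} := by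
    ext x
    exact heq3 x
  have e3 : {x | 0 ≤ F x} = {x | 0 ≤ f x} := by
    ext x
    constructor
    · intro hx
      by_contra h4
      have h5 : f x < 0 := not_le.1 h4
      have h6 := (hle3 x).2 h5.le
      have h7 := (heq3 x).1 (le_antisymm h6 hx)
      linarith
    · intro hx
      by_contra h4
      have h5 : F x < 0 := not_le.1 h4
      have h6 := (hle3 x).1 h5.le
      have h7 := (heq3 x).2 (le_antisymm h6 hx)
      linarith
  have h1' : IsConnected {x | F x ≤ 0} := by rw [e1]; exact h1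
  have h2' : IsConnected {x | 0 ≤ F x} := by rw [e3]; exact h2
  have h3' : LiftS {x | F x = 0} := by rw [e2]; exact h3
  obtain ⟨l1, l2⟩ := BaseN_liftS hF.continuous h3'
  have hd : 0 < a / 4 := by linarith
  have hdζ : 2 * (a / 4) ≤ a / 2 := by linarith
  have hcy := H.cylN
  obtain ⟨A, C, hA, hC, hAs, hCs, hun, hdis, hpA, hpC, a1, a2, b1, b2, -, -, -, -, hR⟩ :=
    hcy.stopN (by omega) hF hH.good_right h1' h2' l1 l2 hd hdζ
  have lA : LiftS {x | A x = 0} := hcy.zero_lift (by omega) hF H.regF h3' hd hdζ hA.continuous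
    hC.continuous hAs hCs hun hdis hpA hpC
  have lC : LiftS {x | C x = 0} := hcy.zero_lift' (by omega) hF H.regF h3' hd hdζ hA.continuous
    hC.continuous hAs hCs hun hdis hpA hpC
  have qA : CutQ (scut F e (c • e) (a / 4) (1 + δ)) e c (a / 4) (-1) A C := by
    refine ⟨Or.inr rfl, hA.continuous, hC.continuous, hun, hdis, ?_, ?_⟩
    · rw [neg_one_mul, add_smul]
      exact hpA
    · rw [neg_neg, one_mul, add_smul]
      exact hpC
  have qC : CutQ (scut F e (c • e) (a / 4) (1 + δ)) e c (a / 4) 1 C A := by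
    have h4 := qA.swap
    rw [neg_neg] at h4
    exact h4
  have kpos : ∀ x : V, 1 < ‖hpr e x‖ → 0 < k (hpr e x) := fun x hx => by
    by_contra h4
    have := (hk1 _).1 (not_lt.1 h4)
    linarith
  refine ⟨A, C, hd, by linarith, hA, hC, H.bdd hb hAs, H.bdd hb hCs, fun x hx => H.reg' hAs hx,
    fun x hx => H.reg' hCs hx, fun x hx => H.sub qA hx, fun x hx => H.sub qC hx, hdis,
    fun x hx hx' => ?_, fun x hx h0 => H.out hAs h0 hx, fun x hx h0 => H.out hCs h0 hx,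
    fun x hx hxa => ?_, fun x hx hxa => ?_, fun x hx h0 => ?_, fun x hx h0 => ?_,
    fun x hk h4 h5 => ?_, fun x hk h4 h5 => ?_, fun x hxa hk h0 => ?_, a1, b1, a2, b2, lA, lC,
    fun hRA hRC => Rd.of_hom hH (hR hRA hRC)⟩
  · rw [← hun, H.far (by linarith), hle3]
    exact hx'
  · obtain ⟨h4, h5, h6⟩ := H.crit qA hAs hx hxa
    exact ⟨h4, by rw [h5]; ring, by rw [h6]; exact hk0⟩
  · obtain ⟨h4, h5, h6⟩ := H.crit qC hCs hx hxa
    exact ⟨h4, by rw [h5]; ring, by rw [h6]; exact hk0⟩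
  · obtain ⟨h4, h5⟩ := H.mid hAs h0 hx
    exact ⟨h4, kpos x h5⟩
  · obtain ⟨h4, h5⟩ := H.mid hCs h0 hx
    exact ⟨h4, kpos x h5⟩
  · exact H.column qC (by linarith) (by linarith) ((hk1 _).1 hk)
  · exact H.column qA (by linarith) (by linarith) ((hk1 _).1 hk)
  · have h4 := H.mono qC hCs h0 hxa ((hk1 _).1 hk)
    rw [one_mul] at h4
    exact h4

/-- The cut in normal form. PROOF. The part of the proof of `kt_step` after `straighten` (here `h` is
already vertical: `h x = g (hpr e x)` for `|⟪e, x⟫ - c| < a`): `ball_normal`, `normal_form` (with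
`a' = a` or smaller, it keeps the signs and the zeros, and the germ off the slab), `CylN` with `ζ`
small (`2 * d ≤ ζ ≤ a / 4`, say), `CylN.stopN`, `CylN.zero_lift`, `CylN.zero_lift'`, and back with
the inverse diffeomorphism of the hyperplane. The formulas of `scut` in the cylinder
(`Al/SCut.lean`: `scut_zero`, `scut_mid`, `scut_crit`, `scut_off`) give the fields: its zero set in the
cylinder is `‖w‖² = 1 - wb d (t - c)`; `wb d` is decreasing in `|t - c|`, `wb d (±d) = 1`. Position: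
`A (q - d e) = 0`, `C (q + d e) = 0` and the columns over the ball above `c + d` and below `c - d`
are connected and inside `{scut ≤ 0}`. Off the cylinder near height `c` no change
(`CylN.scut_sl`). -/
theorem cut_down (hV : Module.finrank ℝ V = 4) {e : V} (he : ‖e‖ = 1) {h : V → ℝ}
    (hh : ContDiff ℝ ∞ h) (hb : Bornology.IsBounded {x | h x = 0})
    (hr : ∀ x, h x = 0 → gradient h x ≠ 0) (h1 : IsConnected {x | h x ≤ 0})
    (h2 : IsConnected {x | 0 ≤ h x}) (h3 : LiftS {x | h x = 0}) {c a : ℝ} (ha : 0 < a)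
    {g : (ℝ ∙ e)ᗮ → ℝ} (hg : ContDiff ℝ ∞ g) (hgr : ∀ w, g w = 0 → gradient g w ≠ 0)
    (hhg : ∀ x, |⟪e, x⟫ - c| < a → h x = g (hpr e x)) {k : (ℝ ∙ e)ᗮ → ℝ} (hk : Dom k)
    (hkb : IsBall k) (hk1 : ∀ w, k w ≤ 0 → g w ≤ 0) (hk2 : ∀ w, k w = 0 → k =ᶠ[𝓝 w] g) :
    ∃ (A C : V → ℝ) (d : ℝ), CutD h e c a d k A C := by
  obtain ⟨φ, ψ, d₀, hφ, -, hd₀, hkle, hle, heq, hfd⟩ := ball_normal g hg hgr k hk hkb hk1 hk2
  have hΦ : Dif (extH e φ) (extH e ψ) := hφ.extH he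
  have hk0 : k (φ 0) < 0 := by
    refine lt_of_le_of_ne ((hkle 0).2 (by rw [norm_zero]; exact zero_le_one)) fun h0 => ?_
    have h4 := (hk2 _ h0).self_of_nhds
    rw [h0] at h4
    have h5 := (heq 0 (by rw [norm_zero]; linarith)).1 h4.symm
    rw [norm_zero] at h5
    exact zero_ne_one h5
  obtain ⟨A, C, H⟩ := Cut_straight hV he (f := fun x => h (extH e φ x)) (hh.comp hΦ.smooth)
    (hΦ.bounded hb) (fun x hx => hΦ.reg hh (hr _ hx)) (hΦ.isConnected h1) (hΦ.isConnected h2)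
    (hΦ.liftS h3) ha (g := fun w => g (φ w)) (hg.comp hφ.smooth) (fun x hx => by
      show h (extH e φ x) = g (φ (hpr e x))
      rw [hhg _ (by rw [extH_height he]; exact hx), extH_hpr he]) hd₀ hle heq hfd
    (k := fun w => k (φ w)) hkle hk0
  have H2 := Cut_comp he H hφ.symm
  simp only [hΦ.right, hφ.right] at H2
  exact ⟨_, _, _, H2⟩

end Pool.Schoen
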