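import Pool.Agent.H.MP_6c077c_gt.N3.GrDef
import Pool.Agent.H.MP_6c077c_gt.Ca.Push
import Pool.Agent.H.MP_6c077c_gt.N3.Cut

/-! Slices with spheres and tori, no sphere encloses a torus: the pushed upper piece. -/

set_option autoImplicit false

namespace Pool.Schoen

open Filter Set
open scoped Topology RealInnerProductSpace ContDiff

variable {V : Type*} [NormedAddCommGroup V] [InnerProductSpace ℝ V] [FiniteDimensional ℝ V]

/-- the vertical cut-off -/
private noncomputable def CancelA_th (β ε s : ℝ) : ℝ :=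
  Real.smoothTransition ((s + 3 / 4 * β + β / 24) * (96 / β)) *
    Real.smoothTransition ((ε - s) * (2 / ε))

private theorem CancelA_th_smooth (β ε : ℝ) : ContDiff ℝ ∞ (CancelA_th β ε) := by
  unfold CancelA_th
  exact (Real.smoothTransition.contDiff.comp (by fun_prop)).mul
    (Real.smoothTransition.contDiff.comp (by fun_prop))

private theorem CancelA_th_mem (β ε s : ℝ) : 0 ≤ CancelA_th β ε s ∧ CancelA_th β ε s ≤ 1 :=
  ⟨mul_nonneg (Real.smoothTransition.nonneg _) (Real.smoothTransition.nonneg _),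
    mul_le_one₀ (Real.smoothTransition.le_one _) (Real.smoothTransition.nonneg _)
      (Real.smoothTransition.le_one _)⟩

private theorem CancelA_th_one {β ε s : ℝ} (hβ : 0 < β) (hε : 0 < ε)
    (h1 : -(3 / 4 * β) - β / 32 ≤ s) (h2 : s ≤ ε / 2) : CancelA_th β ε s = 1 := by
  have e1 : 1 ≤ (s + 3 / 4 * β + β / 24) * (96 / β) := by
    have : (β / 96) * (96 / β) = 1 := by field_simp
    rw [← this]
    exact mul_le_mul_of_nonneg_right (by linarith) (by positivity)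
  have e2 : 1 ≤ (ε - s) * (2 / ε) := by
    have : (ε / 2) * (2 / ε) = 1 := by field_simp
    rw [← this]
    exact mul_le_mul_of_nonneg_right (by linarith) (by positivity)
  unfold CancelA_th
  rw [Real.smoothTransition.one_of_one_le e1, Real.smoothTransition.one_of_one_le e2, one_mul]

private theorem CancelA_th_ne {β ε s : ℝ} (hβ : 0 < β) (hε : 0 < ε)
    (h : CancelA_th β ε s ≠ 0) : -(3 / 4 * β) - β / 24 < s ∧ s < ε := by
  unfold CancelA_th at h
  constructor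
  · by_contra h1
    have e1 : (s + 3 / 4 * β + β / 24) * (96 / β) ≤ 0 :=
      mul_nonpos_of_nonpos_of_nonneg (by linarith) (by positivity)
    rw [Real.smoothTransition.zero_of_nonpos e1, zero_mul] at h
    exact h rfl
  · by_contra h1
    have e1 : (ε - s) * (2 / ε) ≤ 0 :=
      mul_nonpos_of_nonpos_of_nonneg (by linarith) (by positivity)
    rw [Real.smoothTransition.zero_of_nonpos e1, mul_zero] at h
    exact h rfl

omit [FiniteDimensional ℝ V] in
/-- the horizontal derivatives of a function of the height and of the horizontal part -/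
private theorem CancelA_hor {e : V} {c m : ℝ} {H : ℝ × (ℝ ∙ e)ᗮ → ℝ} (hH : ContDiff ℝ ∞ H)
    (x : V) (v : (ℝ ∙ e)ᗮ) :
    fderiv ℝ (fun y => H (m * (⟪e, y⟫ - c), hpr e y)) x (v : V) =
      fderiv ℝ (fun w => H (m * (⟪e, x⟫ - c), w)) (hpr e x) v := by
  have h2 : HasFDerivAt (fun y : V => m * (⟪e, y⟫ - c)) (m • innerSL ℝ e) x :=
    (((innerSL ℝ e).hasFDerivAt (x := x)).sub_const c).const_mul m
  have h3 : HasFDerivAt (fun y : V => hpr e y) (hprL e) x := (hprL e).hasFDerivAt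
  have h4 := h2.prodMk h3
  have h5 := (hH.differentiable (by simp) (m * (⟪e, x⟫ - c), hpr e x)).hasFDerivAt
  have h6 := h5.comp x h4
  have h7 : HasFDerivAt (fun w : (ℝ ∙ e)ᗮ => (m * (⟪e, x⟫ - c), w))
      (ContinuousLinearMap.inr ℝ ℝ (ℝ ∙ e)ᗮ) (hpr e x) := hasFDerivAt_prodMk_right _ _
  have h8 := h5.comp (hpr e x) h7
  have e1 : fderiv ℝ (fun y => H (m * (⟪e, y⟫ - c), hpr e y)) x = _ := h6.fderiv
  have e2 : fderiv ℝ (fun w => H (m * (⟪e, x⟫ - c), w)) (hpr e x) = _ := h8.fderiv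
  rw [e1, e2]
  show fderiv ℝ H (m * (⟪e, x⟫ - c), hpr e x) (m * ⟪e, (v : V)⟫, hpr e (v : V)) =
    fderiv ℝ H (m * (⟪e, x⟫ - c), hpr e x) (0, v)
  rw [BaseDef_inner, mul_zero, BaseDef_coe]

omit [FiniteDimensional ℝ V] in
private theorem CancelA_ver {e : V} (he : ‖e‖ = 1) {c m : ℝ} {G : (ℝ ∙ e)ᗮ → ℝ}
    (hG : ContDiff ℝ ∞ G) (x : V) :
    fderiv ℝ (fun y => G (hpr e y) - m * (⟪e, y⟫ - c)) x e = -m := by
  have h2 : HasFDerivAt (fun y : V => m * (⟪e, y⟫ - c)) (m • innerSL ℝ e) x :=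
    (((innerSL ℝ e).hasFDerivAt (x := x)).sub_const c).const_mul m
  have h3 : HasFDerivAt (fun y : V => hpr e y) (hprL e) x := (hprL e).hasFDerivAt
  have h1 : HasFDerivAt (fun y => G (hpr e y)) ((fderiv ℝ G (hpr e x)).comp (hprL e)) x :=
    (hG.differentiable (by simp) (hpr e x)).hasFDerivAt.comp x h3
  have e1 : fderiv ℝ (fun y => G (hpr e y) - m * (⟪e, y⟫ - c)) x = _ := (h1.sub h2).fderiv
  rw [e1]
  show fderiv ℝ G (hpr e x) (hpr e e) - m * ⟪e, e⟫ = -m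
  rw [BaseDef_self, map_zero, real_inner_self_eq_norm_sq, he]
  ring

/-- The pushed upper piece. `h'` is the function with the horn, `C` the upper piece of its cut at
`c₁ = c - (3/4) β / m`, `a = β / (16 m)`. PROOF. `push` (`Ca/Push.lean`, its `G` is `Γ`, `ε = 1`) with
`Γ x = ϑ (hpr e x) * θ s * (G (hpr e x) - s) - (1 - ϑ (hpr e x) * θ s)`, `s = m * (⟪e, x⟫ - c)`, `θ` smooth,
`0` for `s ≤ -(3/4) β - β / 24` and for `ε ≤ s`, `1` for `-(3/4) β - β / 32 ≤ s ≤ ε / 2`, and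
`ε₀ = min ε₁ (min (ε / 4) 1) / 2`. If `C x ≤ 0` and `-ε₀ ≤ Γ x` (in particular if `0 ≤ Γ x`) then: `ϑ θ ≠ 0`, `h' x ≤ 0`, so
`hnK s w ≤ 0`; `lat`: `ϑ = 1` near `w` (the other case gives `Γ x ≤ -min ε₁ 1`); `s < ε / 2` (else
`G w - s ≤ -ε / 4`); `-(3/4) β - β/32 < s` (else `s` is in the vertical slab of the cut, `left`: `k w ≤ 0`,
`dnA`: `A x ≤ 0`, `dis`). So `Γ = G - s` near `x` and `fderiv Γ x e = -m`. `d2`: in the slab of the cut
`mono` (`left`), off it `gC` and `fderiv h' x e ≤ 0`. `Γ x = 0`: `|s| = |G w| ≤ ε / 4`, off the slab of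
the cut, `C = h'` near: `nhor`, `corner`. A horizontal zero of
`F` has `Γ x < 0`, so it is one of `C`, and `F = C` near. `Crit C`: in the slab of the cut `crC` (`k w < 0`, `one`,
`Γ = G - s > 0`); off it `Crit h'`, so `x = c • e` (`at0`) or `β < |s|`, `Γ = -1`. So the
horizontal zeros of `F` have `β < |s|`. -/
theorem cancel_push (hV : Module.finrank ℝ V = 4) {h : V → ℝ} {e : V} {c m β : ℝ} {u : (ℝ ∙ e)ᗮ}
    {P : (ℝ ∙ e)ᗮ → ℝ} (hv : VN h e c m β u P) {κ : ℝ → ℝ} (hκ : KapD κ β) {h' : V → ℝ}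
    (hs : ContDiff ℝ ∞ h')
    (h1 : ∀ x, |m * (⟪e, x⟫ - c)| ≤ β → h' x = hnK P u β κ (m * (⟪e, x⟫ - c)) (hpr e x))
    (h3 : ∀ x, Crit h' e x → |m * (⟪e, x⟫ - c)| ≤ β → x = c • e)
    (h4 : ∀ x, |m * (⟪e, x⟫ - c)| < β → fderiv ℝ h' x e ≤ 0) {k : (ℝ ∙ e)ᗮ → ℝ}
    {ε : ℝ} {G ϑ : (ℝ ∙ e)ᗮ → ℝ} (hG : GrE P u β κ k ε G ϑ) {A C : V → ℝ} {d : ℝ}
    (hC : CutD h' e (c - 3 / 4 * β / m) (β / (16 * m)) d k A C) :
    ∃ F : V → ℝ, ContDiff ℝ ∞ F ∧ Hom C F ∧ (∀ x, F x ≤ 0 → C x ≤ 0) ∧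
      (∀ x, β ≤ |m * (⟪e, x⟫ - c)| → (F x ≤ 0 ↔ C x ≤ 0)) ∧
      (∀ x, β ≤ |m * (⟪e, x⟫ - c)| → (F x = 0 ↔ C x = 0)) ∧
      (∀ x, β ≤ |m * (⟪e, x⟫ - c)| → C x = 0 → F =ᶠ[𝓝 x] C) ∧
      ∀ x, Crit F e x → Crit C e x ∧ F =ᶠ[𝓝 x] C ∧ β < |m * (⟪e, x⟫ - c)| := by
  have he := hv.he
  have hm := hv.hm
  have hβ := hv.tub.hβ
  have hε := hG.hε
  have hεβ := hG.hεβ
  obtain ⟨ε₁, hε₁, hlat⟩ := hG.lat
  obtain ⟨S, hS⟩ : ∃ S : V → ℝ, ∀ x, S x = m * (⟪e, x⟫ - c) := ⟨_, fun _ => rfl⟩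
  simp only [← hS] at h1 h3 h4 ⊢
  obtain ⟨Γ, hΓ⟩ : ∃ Γ : V → ℝ, ∀ x, Γ x = ϑ (hpr e x) * CancelA_th β ε (S x) *
      (G (hpr e x) - S x) - (1 - ϑ (hpr e x) * CancelA_th β ε (S x)) := ⟨_, fun _ => rfl⟩
  have hSs : ContDiff ℝ ∞ S := by
    have e1 : S = fun x => m * (⟪e, x⟫ - c) := funext hS
    rw [e1]
    exact contDiff_const.mul ((contDiff_const.inner ℝ contDiff_id).sub contDiff_const)
  have hps : ContDiff ℝ ∞ fun x : V => hpr e x := (hprL e).contDiff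
  have hΓs : ContDiff ℝ ∞ Γ := by
    have e1 : Γ = fun x => ϑ (hpr e x) * CancelA_th β ε (S x) *
      (G (hpr e x) - S x) - (1 - ϑ (hpr e x) * CancelA_th β ε (S x)) := funext hΓ
    rw [e1]
    have e2 : ContDiff ℝ ∞ fun x => ϑ (hpr e x) * CancelA_th β ε (S x) :=
      (hG.smϑ.comp hps).mul ((CancelA_th_smooth β ε).comp hSs)
    exact (e2.mul ((hG.smG.comp hps).sub hSs)).sub (contDiff_const.sub e2)
  -- the slab of the cut
  have hcut : ∀ x, ⟪e, x⟫ - (c - 3 / 4 * β / m) = (S x + 3 / 4 * β) / m := by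
    intro x
    rw [hS]
    field_simp
    ring
  have ha : ∀ x, |⟪e, x⟫ - (c - 3 / 4 * β / m)| < β / (16 * m) ↔ |S x + 3 / 4 * β| < β / 16 := by
    intro x
    rw [hcut, abs_div, abs_of_pos hm, div_lt_iff₀ hm]
    have e1 : β / (16 * m) * m = β / 16 := by field_simp
    rw [e1]
  -- the sign of `Γ`
  have hTm : ∀ x, 0 ≤ ϑ (hpr e x) * CancelA_th β ε (S x) ∧
      ϑ (hpr e x) * CancelA_th β ε (S x) ≤ 1 := by
    intro x
    have e1 := hG.mem (hpr e x)
    have e2 := CancelA_th_mem β ε (S x)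
    exact ⟨mul_nonneg e1.1 e2.1, mul_le_one₀ e1.2 e2.1 e2.2⟩
  have hneg : ∀ x, ∀ δ : ℝ, 0 < δ → G (hpr e x) - S x ≤ -δ → Γ x < 0 := by
    intro x δ hδ hx
    rw [hΓ]
    obtain ⟨T, hT⟩ : ∃ T, T = ϑ (hpr e x) * CancelA_th β ε (S x) := ⟨_, rfl⟩
    have e1 := hTm x
    rw [← hT] at e1 ⊢
    rcases e1.1.eq_or_lt with h5 | h5
    · rw [← h5]
      norm_num
    · have e2 : T * (G (hpr e x) - S x) < 0 := mul_neg_of_pos_of_neg h5 (by linarith)
      linarith
  have hΓ1 : ∀ x, ϑ (hpr e x) * CancelA_th β ε (S x) = 0 → Γ x = -1 := by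
    intro x hx
    rw [hΓ, hx]
    ring
  have hne : ∀ x, 0 ≤ Γ x → ϑ (hpr e x) ≠ 0 ∧ -(3 / 4 * β) - β / 24 < S x ∧ S x < ε := by
    intro x hx
    have e1 : ϑ (hpr e x) * CancelA_th β ε (S x) ≠ 0 := by
      intro h0
      have e2 := hΓ1 x h0
      linarith
    exact ⟨left_ne_zero_of_mul e1, CancelA_th_ne hβ hε (right_ne_zero_of_mul e1)⟩
  have hbig : ∀ x, β ≤ |S x| → Γ x < 0 := by
    intro x hx
    by_contra h0
    obtain ⟨-, e1, e2⟩ := hne x (not_lt.1 h0)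
    have e3 : |S x| < β := abs_lt.2 ⟨by linarith, by linarith⟩
    linarith
  -- the key
  have key : ∀ x, C x ≤ 0 → 0 ≤ Γ x → ϑ (hpr e x) ≠ 0 ∧ hnK P u β κ (S x) (hpr e x) ≤ 0 ∧
      |S x| < β ∧ Γ =ᶠ[𝓝 x] fun y => G (hpr e y) - S y := by
    intro x hx hx2
    obtain ⟨n1, n2, n3⟩ := hne x hx2
    have n4 : |S x| < β := abs_lt.2 ⟨by linarith, by linarith⟩
    have e1 : hnK P u β κ (S x) (hpr e x) ≤ 0 := by
      rw [← h1 x n4.le]
      exact hC.subC x hx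
    have e2 : ∀ᶠ z in 𝓝 (hpr e x), ϑ z = 1 := by
      rcases hlat (hpr e x) (S x) (by linarith) n3.le e1 n1 with h5 | h5
      · exact h5
      · exfalso
        have := hneg x ε₁ hε₁ h5
        linarith
    have e3 : S x < ε / 2 := by
      by_contra h5
      have h6 := abs_le.1 (hG.hG (hpr e x) n1)
      have := hneg x (ε / 4) (by linarith) (by linarith)
      linarith
    have e4 : -(3 / 4 * β) - β / 32 < S x := by
      by_contra h5
      push Not at h5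
      have h6 : |S x + 3 / 4 * β| < β / 16 := abs_lt.2 ⟨by linarith, by linarith⟩
      have h7 := hnK_cut hv.tub h6.le (κ := κ) (hpr e x)
      rw [h7] at e1
      have h8 := hG.left (hpr e x) n1 e1
      have h9 := hcut x
      have h10 : c - 3 / 4 * β / m - β / (16 * m) < ⟪e, x⟫ := by
        have := (abs_lt.1 ((ha x).2 h6)).1
        linarith
      have h11 : ⟪e, x⟫ ≤ c - 3 / 4 * β / m - β / (16 * m) / 2 := by
        have h12 : (S x + 3 / 4 * β) / m ≤ -(β / (16 * m) / 2) := by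
          rw [div_le_iff₀ hm]
          have h13 : -(β / (16 * m) / 2) * m = -(β / 32) := by
            field_simp
            norm_num
          rw [h13]
          linarith
        linarith
      have h12 := hC.dis x (hC.dnA x h8 h10 h11)
      linarith
    refine ⟨n1, e1, n4, ?_⟩
    have hSc : Continuous S := hSs.continuous
    have f1 : ∀ᶠ y in 𝓝 x, ϑ (hpr e y) = 1 := hps.continuous.continuousAt.eventually e2
    have f2 : ∀ᶠ y in 𝓝 x, S y < ε / 2 := hSc.continuousAt.eventually (gt_mem_nhds e3)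
    have f3 : ∀ᶠ y in 𝓝 x, -(3 / 4 * β) - β / 32 < S y :=
      hSc.continuousAt.eventually (lt_mem_nhds e4)
    filter_upwards [f1, f2, f3] with y g1 g2 g3
    rw [hΓ, g1, CancelA_th_one hβ hε g3.le g2.le]
    ring
  -- derivatives
  have hGfun : (fun y => G (hpr e y) - S y) = fun y => G (hpr e y) - m * (⟪e, y⟫ - c) := by
    funext y
    rw [hS]
  have hverΓ : ∀ x, C x ≤ 0 → 0 ≤ Γ x → fderiv ℝ Γ x e < 0 := by
    intro x hx hx2
    obtain ⟨-, -, -, e1⟩ := key x hx hx2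
    rw [e1.fderiv_eq, hGfun, CancelA_ver he hG.smG]
    linarith
  have hgr : ∀ (F : V → ℝ) (x : V) (v : (ℝ ∙ e)ᗮ),
      ⟪gradient F x, (v : V)⟫ = fderiv ℝ F x (v : V) := by
    intro F x v
    rw [fderiv_eq_inner_gradient]
  have hgrE : ∀ (F : (ℝ ∙ e)ᗮ → ℝ) (w v : (ℝ ∙ e)ᗮ), ⟪gradient F w, v⟫ = fderiv ℝ F w v := by
    intro F w v
    rw [fderiv_eq_inner_gradient]
  have hhorΓ : ∀ x, C x ≤ 0 → 0 ≤ Γ x → ∀ v : (ℝ ∙ e)ᗮ,
      ⟪gradient Γ x, (v : V)⟫ = ⟪gradient G (hpr e x), v⟫ := by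
    intro x hx hx2 v
    obtain ⟨-, -, -, e1⟩ := key x hx hx2
    rw [hgr, hgrE, e1.fderiv_eq, hGfun]
    have e2 : ContDiff ℝ ∞ fun q : ℝ × (ℝ ∙ e)ᗮ => G q.2 - q.1 :=
      (hG.smG.comp contDiff_snd).sub contDiff_fst
    have e3 := CancelA_hor (c := c) (m := m) e2 x v
    refine e3.trans ?_
    show fderiv ℝ (fun w => G w - m * (⟪e, x⟫ - c)) (hpr e x) v = _
    rw [fderiv_sub_const]
  have hhorh : ∀ x, |S x| < β → ∀ v : (ℝ ∙ e)ᗮ,
      ⟪gradient h' x, (v : V)⟫ = ⟪gradient (hnK P u β κ (S x)) (hpr e x), v⟫ := by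
    intro x hx v
    have e1 : h' =ᶠ[𝓝 x] fun y => hnK P u β κ (m * (⟪e, y⟫ - c)) (hpr e y) := by
      have e2 : ∀ᶠ y in 𝓝 x, |S y| < β := hSs.continuous.abs.continuousAt.eventually (gt_mem_nhds hx)
      filter_upwards [e2] with y hy
      rw [h1 y hy.le, hS]
    rw [hgr, hgrE, e1.fderiv_eq, hS]
    exact CancelA_hor (c := c) (m := m) (hnK_smooth hv.tub hκ) x v
  have hoff : ∀ x, |S x| ≤ ε / 4 → β / (16 * m) ≤ |⟪e, x⟫ - (c - 3 / 4 * β / m)| := by
    intro x hx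
    by_contra h5
    have h6 := (abs_lt.1 ((ha x).1 (not_le.1 h5))).2
    have h7 := (abs_le.1 hx).1
    linarith
  have P1 : Bornology.IsBounded {x | C x ≤ 0 ∧ 0 ≤ Γ x} := by
    -- bounded
    obtain ⟨R, hR⟩ := hG.bd.exists_norm_le
    refine isBounded_iff_forall_norm_le.2 ⟨R + (|c| + β / m), fun x hx => ?_⟩
    obtain ⟨n1, n2, n3⟩ := hne x hx.2
    have e0 : ‖x‖ ≤ ‖hpr e x‖ + |⟪e, x⟫| := by
      have h5 := norm_add_le ((hpr e x : (ℝ ∙ e)ᗮ) : V) (⟪e, x⟫ • e)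
      rw [hpr_add he, norm_smul, he, mul_one, Real.norm_eq_abs] at h5
      exact h5
    refine e0.trans (add_le_add (hR _ n1) ?_)
    have e1 : |S x| ≤ β := (abs_lt.2 ⟨by linarith, by linarith⟩).le
    have e2 : ⟪e, x⟫ = c + S x / m := by
      rw [hS]
      field_simp
      ring
    rw [e2]
    refine (abs_add_le _ _).trans (add_le_add le_rfl ?_)
    rw [abs_div, abs_of_pos hm]
    exact div_le_div_of_nonneg_right e1 hm.le
  have P2 : ∀ x, C x = 0 → 0 ≤ Γ x → fderiv ℝ C x e ≤ 0 := by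
    -- the vertical derivative of `C`
    intro x hx hx2
    obtain ⟨n1, n2, n3, -⟩ := key x hx.le hx2
    by_cases hin : |⟪e, x⟫ - (c - 3 / 4 * β / m)| < β / (16 * m)
    · have h7 := hnK_cut hv.tub ((ha x).1 hin).le (κ := κ) (hpr e x)
      rw [h7] at n2
      exact hC.mono x hin (hG.left _ n1 n2) hx
    · rw [(hC.gC x (not_lt.1 hin) hx).fderiv_eq]
      exact h4 x n3
  have P3 : ∀ x, C x ≤ 0 → Γ x = 0 → ∀ l : ℝ, gradient Γ x ≠ l • e := by
    intro x hx hx2 l hl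
    obtain ⟨n1, n2, n3, n4⟩ := key x hx hx2.ge
    have e1 : G (hpr e x) - S x = 0 := by rw [← hx2, n4.self_of_nhds]
    have e2 : S x = G (hpr e x) := by linarith
    rw [e2] at n2
    refine hG.nhor _ n1 n2 ?_
    refine ext_inner_right ℝ fun v => ?_
    rw [← hhorΓ x hx hx2.ge v, hl, real_inner_smul_left, BaseDef_inner, mul_zero, inner_zero_left]
  have P4 : ∀ x, C x = 0 → Γ x = 0 → ∀ θ ∈ Icc (0 : ℝ) 1, ∀ l : ℝ,
      (1 - θ) • gradient C x + θ • gradient Γ x ≠ l • e := by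
    intro x hx hx2 θ hθ l hl
    obtain ⟨n1, n2, n3, n4⟩ := key x hx.le hx2.ge
    have e1 : G (hpr e x) - S x = 0 := by rw [← hx2, n4.self_of_nhds]
    have e2 : S x = G (hpr e x) := by linarith
    have e3 : |S x| ≤ ε / 4 := by
      rw [e2]
      exact hG.hG _ n1
    have e4 := hC.gC x (hoff x e3) hx
    have e5 : hnK P u β κ (G (hpr e x)) (hpr e x) = 0 := by
      rw [← e2, ← h1 x n3.le, ← e4.self_of_nhds, hx]
    have e6 : gradient C x = gradient h' x := by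
      unfold gradient
      rw [e4.fderiv_eq]
    refine hG.corner _ n1 e5 (1 - θ) (by linarith [hθ.2]) (by linarith [hθ.1]) ?_
    refine ext_inner_right ℝ fun v => ?_
    have e7 := congrArg (fun y : V => ⟪y, (v : V)⟫) hl
    simp only [inner_add_left, real_inner_smul_left, BaseDef_inner, mul_zero] at e7
    rw [e6, hhorh x n3 v, hhorΓ x hx.le hx2.ge v, e2] at e7
    rw [inner_add_left, real_inner_smul_left, real_inner_smul_left, inner_zero_left, ← e7]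
    ring
  obtain ⟨F, F1, F2, F3, F4, F5, F6⟩ := push hC.smC hΓs he hC.bdC hC.regC P1 P2 hverΓ P3 P4
    (ε := 1) one_pos
  have hFx : ∀ x, F x ≤ 0 → C x ≤ 0 := fun x hx => (F3 x).trans hx
  refine ⟨F, F1, F2, hFx, fun x hx => F4 x (hbig x hx), fun x hx => ⟨fun h0 => ?_, fun h0 => ?_⟩,
    fun x hx h0 => F5 x (hbig x hx) (Or.inl h0), fun x hx => ?_⟩
  · rw [← (F5 x (hbig x hx) (Or.inr h0)).self_of_nhds, h0]
  · rw [(F5 x (hbig x hx) (Or.inl h0)).self_of_nhds, h0]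
  · have hn : Γ x < 0 := by
      by_contra h0
      obtain ⟨l, hl⟩ := Crit.vert he hx
      exact (F6 x hx.1 (not_lt.1 h0)).2 l hl
    have hgerm := F5 x hn (Or.inr hx.1)
    have hCc : Crit C e x := Crit.congr hx hgerm
    refine ⟨hCc, hgerm, ?_⟩
    by_contra h0
    push Not at h0
    by_cases hin : |⟪e, x⟫ - (c - 3 / 4 * β / m)| < β / (16 * m)
    · obtain ⟨-, g1, g2⟩ := hC.crC x hCc hin
      have g3 := hG.one _ g2.le
      have g4 := abs_le.1 (hG.hG (hpr e x) (by rw [g3]; exact one_ne_zero))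
      have g5 := abs_lt.1 ((ha x).1 hin)
      have g6 : 0 < (S x + 3 / 4 * β) / m := by
        rw [← hcut, g1]
        have := hC.hd
        linarith
      have g7 : 0 < S x + 3 / 4 * β := by
        rcases div_pos_iff.1 g6 with h | h
        · exact h.1
        · exact absurd hm (not_lt.2 h.2.le)
      rw [hΓ, g3, CancelA_th_one hβ hε (by linarith) (by linarith)] at hn
      linarith [g4.1, g5.2]
    · have g1 := hC.gC x (not_lt.1 hin) hCc.1
      have g2 := h3 x (Crit.congr hCc g1) h0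
      have g3 : hpr e x = 0 := by
        rw [g2, ← hprL_apply, map_smul, hprL_apply, BaseDef_self, smul_zero]
      have g4 : S x = 0 := by
        rw [hS, g2, real_inner_smul_right, real_inner_self_eq_norm_sq, he]
        ring
      rw [hΓ, g3, g4, hG.at0.1, CancelA_th_one hβ hε (by linarith) (by linarith)] at hn
      linarith [hG.at0.2]

end Pool.Schoen
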