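import Pool.Agent.H.MP_6c077c_gt.N3.SlA
import Pool.Agent.H.MP_6c077c_gt.IxB.SpecB
import Pool.Agent.H.MP_6c077c_gt.F3.StepP

/-! Slices with spheres and tori, no sphere encloses a torus: invariance of the class. -/

set_option autoImplicit false

namespace Pool.Schoen

open Filter Set
open scoped Topology RealInnerProductSpace ContDiff

variable {V : Type*} [NormedAddCommGroup V] [InnerProductSpace ℝ V] [FiniteDimensional ℝ V]
variable {f g : V → ℝ} {e : V} {L : Set ℝ} {S : Finset V}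

/-- PROOF. `inward_finite` for `e` and `-e` (see the beginning of `n2_rd`, `crit_iff`). -/
theorem crit_finite (he : ‖e‖ = 1) (h : Mo f e) : {x | Crit f e x}.Finite := by
  have hcr : ∀ x, Crit f e x ↔ Inward f e x ∨ Inward f (-e) x := crit_iff he h.reg
  have hne : ‖-e‖ = 1 := by rwa [norm_neg]
  have hf1 : {x | Inward f e x}.Finite :=
    inward_finite h.smooth h.bdd h.reg he fun x hx => h.nd x ((hcr x).2 (Or.inl hx))
  have hf2 : {x | Inward f (-e) x}.Finite :=
    inward_finite h.smooth h.bdd h.reg hne fun x hx => by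
      obtain ⟨k, hk⟩ := h.nd x ((hcr x).2 (Or.inr hx))
      exact ⟨k, idx_neg_dir.2 hk⟩
  exact (hf1.union hf2).subset fun x hx => (hcr x).1 hx

theorem sad_finite (he : ‖e‖ = 1) (h : Mo f e) : {x | Sad f e x}.Finite :=
  (crit_finite he h).subset fun _ hx => hx.1

theorem nSad_mono (he : ‖e‖ = 1) (h : Mo f e) (hs : ∀ x, Sad g e x → Sad f e x) :
    nSad g e ≤ nSad f e :=
  Set.ncard_le_ncard hs (sad_finite he h)

theorem nSad_lt (he : ‖e‖ = 1) (h : Mo f e) (hs : ∀ x, Sad g e x → Sad f e x) {p : V}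
    (hp : Sad f e p) (hp' : ¬ Sad g e p) : nSad g e < nSad f e := by
  refine Set.ncard_lt_ncard ?_ (sad_finite he h)
  exact ⟨fun x hx => hs x hx, fun hsub => hp' (hsub hp)⟩

theorem KN.topE (h : KN f e L S) : TopE f :=
  ⟨h.conn, h.out, Or.inl (BaseN_liftS h.mo.smooth.continuous h.lift).1⟩

theorem sad_of (hm : Mo f e) (hc : ∀ x, Crit g e x → Crit f e x ∧ ∀ k, Idx f e x k → Idx g e x k)
    {x : V} (hx : Sad g e x) : Sad f e x := by
  obtain ⟨hx1, k, hk, hk0, hk1⟩ := hx
  obtain ⟨hf, hfi⟩ := hc x hx1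
  obtain ⟨j, hj⟩ := hm.nd x hf
  have hjk : j = k := Cy.Idx.unique (hfi j hj) hk
  subst hjk
  exact ⟨hf, j, hj, hk0, hk1⟩

/-- Invariance under a homotopy to a function with the same indices at the horizontal zeros and the
same zeros at the levels. PROOF. As `K3.hom`. -/
theorem KN.hom (he : ‖e‖ = 1) (h : KN f e L S) (hfg : Hom f g) (hg : ContDiff ℝ ∞ g)
    (hc : ∀ x, Crit g e x → Crit f e x ∧ ∀ k, Idx f e x k → Idx g e x k)
    (hz : ∀ x, ⟪e, x⟫ ∈ L → (g x = 0 ↔ f x = 0))
    (hn : ∀ p, Sad g e p → ∀ᶠ t in 𝓝[≠] ⟪e, p⟫, SlE (slc g e t)) :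
    KN g e L S := by
  have hreg : ∀ x, g x = 0 → gradient g x ≠ 0 := by
    intro x hx h0
    refine hfg.good_right.regular hg x hx ?_
    rw [gradient, LinearIsometryEquiv.map_eq_zero_iff] at h0
    exact h0
  have hmo : Mo g e := by
    refine ⟨hg, hfg.good_right.bdd, hreg, fun x hx => ?_⟩
    obtain ⟨k, hk⟩ := h.mo.nd x (hc x hx).1
    exact ⟨k, (hc x hx).2 k hk⟩
  have htop := h.topE.of_hom hfg h.mo.smooth hg
  have hlift : LiftS {x | g x = 0} := by
    obtain ⟨φ, ψ, h1, h2, h3, h4, -, h6, -⟩ := hfg.carries h.mo.smooth hg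
    have hD : Dif ψ φ := ⟨h2, h1, h4, h3⟩
    have h8 : {x | g x = 0} = {x | ψ x ∈ {y | f y = 0}} := by
      ext x
      constructor
      · intro hx
        have h9 : x ∈ φ '' {x | f x = 0} := by
          rw [h6]
          exact hx
        obtain ⟨y, hy, rfl⟩ := h9
        show ψ (φ y) ∈ {y | f y = 0}
        rw [h3]
        exact hy
      · intro hx
        have h9 : x ∈ {x | g x = 0} := by
          rw [← h6]
          exact ⟨ψ x, hx, h4 x⟩
        exact h9
    rw [h8]
    exact hD.liftS h.lift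
  have hsad : ∀ {x}, Sad g e x → Sad f e x := fun {x} hx => sad_of h.mo hc hx
  refine ⟨hmo, fun x hx => h.reg x (hc x hx).1, htop.conn, htop.out, hlift,
    fun p q hp hq hL => h.gap p q (hsad hp) (hsad hq) hL,
    fun p q hp hq hh => h.iso p q (hsad hp) (hc q hq).1 hh,
    fun p hp => h.lev p (hsad hp), fun c hcL => ?_, hn, h.mark.congr hz⟩
  refine (h.sl c hcL).congr fun w => ?_
  exact hz _ (by rw [inner_hpr he w c]; exact hcL)

end Pool.Schoen
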