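import Pool.Agent.H.MP_6c077c_gt.N3.ClassA

/-! Slices with spheres and tori, no sphere encloses a torus: diffeomorphisms of the hyperplane. -/

set_option autoImplicit false

namespace Pool.Schoen

open Filter Set
open scoped Topology RealInnerProductSpace ContDiff

variable {V : Type*} [NormedAddCommGroup V] [InnerProductSpace ℝ V] [FiniteDimensional ℝ V]
variable {f g : V → ℝ} {e : V} {L : Set ℝ} {S : Finset V}

private theorem ClassB_crit (he : ‖e‖ = 1) (hf : ContDiff ℝ ∞ f) {φ ψ : (ℝ ∙ e)ᗮ → (ℝ ∙ e)ᗮ}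
    (hφ : Dif φ ψ) (x : V) : Crit (fun y => f (extH e φ y)) e x ↔ Crit f e (extH e φ x) := by
  have hΦ : Dif (extH e φ) (extH e ψ) := hφ.extH he
  have hh : ∀ x, ⟪e, extH e φ x⟫ = ⟪e, x⟫ := extH_height he φ
  constructor
  · intro hx
    obtain ⟨l, hl⟩ := hx.vert he
    exact crit_of_vert hx.1 ((gradient_comp_height hf hΦ hh x l).1 hl)
  · intro hx
    obtain ⟨l, hl⟩ := hx.vert he
    exact crit_of_vert (f := fun y => f (extH e φ y)) hx.1
      ((gradient_comp_height hf hΦ hh x l).2 hl)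

private theorem ClassB_idx (he : ‖e‖ = 1) (hf : ContDiff ℝ ∞ f) {φ ψ : (ℝ ∙ e)ᗮ → (ℝ ∙ e)ᗮ}
    (hφ : Dif φ ψ) {x : V} (hx : Crit (fun y => f (extH e φ y)) e x) {k : ℕ}
    (hk : Idx (fun y => f (extH e φ y)) e x k) : Idx f e (extH e φ x) k := by
  have hΦ : Dif (extH e φ) (extH e ψ) := hφ.extH he
  have hs : ContDiff ℝ ∞ fun x => f (extH e φ x) := hf.comp hΦ.smooth
  have hh' : ∀ x, ⟪e, extH e ψ x⟫ = ⟪e, x⟫ := extH_height he ψ
  obtain ⟨l, hl⟩ := hx.vert he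
  have h1 := idx_comp_height hs hΦ.symm hh' (extH e φ x) l (k := k) (by
    simp only [hΦ.left]
    exact hl) (by simpa only [hΦ.left] using hk)
  simpa only [hΦ.right] using h1

private theorem ClassB_sad (he : ‖e‖ = 1) (hf : ContDiff ℝ ∞ f) {φ ψ : (ℝ ∙ e)ᗮ → (ℝ ∙ e)ᗮ}
    (hφ : Dif φ ψ) {x : V} (hx : Sad (fun y => f (extH e φ y)) e x) : Sad f e (extH e φ x) := by
  obtain ⟨h1, k, hk, h2⟩ := hx
  exact ⟨(ClassB_crit he hf hφ x).1 h1, k, ClassB_idx he hf hφ h1 hk, h2⟩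

private theorem ClassB_slc (he : ‖e‖ = 1) (φ : (ℝ ∙ e)ᗮ → (ℝ ∙ e)ᗮ) (c : ℝ) :
    slc (fun x => f (extH e φ x)) e c = fun w => slc f e c (φ w) := by
  funext w
  show f (((φ (hpr e ((w : V) + c • e)) : (ℝ ∙ e)ᗮ) : V) + ⟪e, (w : V) + c • e⟫ • e) =
    f ((φ w : V) + c • e)
  rw [hpr_coe he w c, inner_hpr he w c]

/-- Invariance under diffeomorphisms of the hyperplane. PROOF. As `K3.comp_dif`; the slices with
`SlE.comp`. -/
theorem KN.comp_dif [DecidableEq V] (he : ‖e‖ = 1) (h : KN f e L S)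
    {φ ψ : (ℝ ∙ e)ᗮ → (ℝ ∙ e)ᗮ} (hφ : Dif φ ψ) :
    KN (fun x => f (extH e φ x)) e L (S.image (extH e ψ)) := by
  have hΦ : Dif (extH e φ) (extH e ψ) := hφ.extH he
  have hh : ∀ x, ⟪e, extH e φ x⟫ = ⟪e, x⟫ := extH_height he φ
  have hs : ContDiff ℝ ∞ fun x => f (extH e φ x) := h.mo.smooth.comp hΦ.smooth
  have hcr := ClassB_crit he h.mo.smooth hφ
  have hsa : ∀ x, Sad (fun y => f (extH e φ y)) e x → Sad f e (extH e φ x) :=
    fun x hx => ClassB_sad he h.mo.smooth hφ hx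
  have hsl : ∀ c, SlE (slc f e c) → SlE (slc (fun x => f (extH e φ x)) e c) := by
    intro c hc
    rw [ClassB_slc he φ c]
    exact hc.comp hφ.continuous hφ.symm.continuous hφ.left hφ.right
  refine ⟨⟨hs, hΦ.bounded h.mo.bdd, fun x hx => hΦ.reg h.mo.smooth (h.mo.reg _ hx),
    fun x hx => ?_⟩, fun x hx => ?_, hΦ.isConnected h.conn, hΦ.isConnected h.out,
    hΦ.liftS h.lift, fun p q hp hq hpq => ?_, fun p q hp hq hpq => ?_, fun p hp => ?_,
    fun c hcL => hsl c (h.sl c hcL), fun p hp => ?_,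
    h.mark.transport hΦ.symm.continuous hΦ.left hΦ.right hh⟩
  · obtain ⟨k, hk⟩ := h.mo.nd _ ((hcr x).1 hx)
    obtain ⟨l, hl⟩ := ((hcr x).1 hx).vert he
    exact ⟨k, idx_comp_height h.mo.smooth hΦ hh x l hl hk⟩
  · rw [← hh]
    exact h.reg _ ((hcr x).1 hx)
  · have h1 := h.gap _ _ (hsa p hp) (hsa q hq) (by
      simp only [hh]
      exact hpq)
    rw [← hΦ.left p, h1, hΦ.left]
  · have h1 := h.iso _ _ (hsa p hp) ((hcr q).1 hq) (by rw [hh, hh, hpq])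
    rw [← hΦ.left q, h1, hΦ.left]
  · have h1 := h.lev _ (hsa p hp)
    rwa [hh] at h1
  · have h1 := h.near _ (hsa p hp)
    rw [hh] at h1
    exact h1.mono fun t ht => hsl t ht

theorem nSad_comp (he : ‖e‖ = 1) (h : Mo f e) {φ ψ : (ℝ ∙ e)ᗮ → (ℝ ∙ e)ᗮ} (hφ : Dif φ ψ) :
    nSad (fun x => f (extH e φ x)) e ≤ nSad f e := by
  have hΦ : Dif (extH e φ) (extH e ψ) := hφ.extH he
  refine Set.ncard_le_ncard_of_injOn (extH e φ) (fun x hx => ClassB_sad he h.smooth hφ hx) ?_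
    (sad_finite he h)
  intro x _ y _ hxy
  rw [← hΦ.left x, hxy, hΦ.left]

end Pool.Schoen
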