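import Pool.Agent.H.MP_6c077c_gt.N3.ClassA

/-! Slices with spheres and tori, no sphere encloses a torus: parts. -/

set_option autoImplicit false

namespace Pool.Schoen

open Filter Set
open scoped Topology RealInnerProductSpace ContDiff

variable {V : Type*} [NormedAddCommGroup V] [InnerProductSpace ℝ V] [FiniteDimensional ℝ V]
variable {f g : V → ℝ} {e : V} {L : Set ℝ} {S : Finset V}

omit [FiniteDimensional ℝ V] in
/-- A slice whose zeros are zeros of `f` with the same germ. -/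
private theorem ClassD_slice (he : ‖e‖ = 1) (hf : Continuous f) {A : V → ℝ} (hA : Continuous A)
    {t : ℝ} (hs : SlE (slc f e t)) (hz : ∀ x, ⟪e, x⟫ = t → A x = 0 → A =ᶠ[𝓝 x] f) :
    SlE (slc A e t) := by
  have hsl : Continuous fun w : (ℝ ∙ e)ᗮ => (w : V) + t • e := by fun_prop
  have hin : ∀ w : (ℝ ∙ e)ᗮ, ⟪e, (w : V) + t • e⟫ = t := by
    intro w
    have h1 : ⟪e, (w : V)⟫ = 0 :=
      Submodule.mem_orthogonal_singleton_iff_inner_right.1 w.2
    rw [inner_add_right, h1, real_inner_smul_right, real_inner_self_eq_norm_sq, he]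
    ring
  have c1 : IsClosed {w | slc A e t w = 0} := isClosed_eq (hA.comp hsl) continuous_const
  have c2 : IsClosed {w | slc f e t w = 0} := isClosed_eq (hf.comp hsl) continuous_const
  refine hs.part ⟨c1, ?_, ?_⟩
  · intro w hw
    have h1 : A ((w : V) + t • e) = 0 := hw
    have h2 := (hz _ (hin w) h1).self_of_nhds
    show f ((w : V) + t • e) = 0
    rw [← h2, h1]
  · have hUo : IsOpen {x | A =ᶠ[𝓝 x] f} := isOpen_setOfPred_eventually_nhds
    have h1 : {w | slc f e t w = 0} \ {w | slc A e t w = 0} =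
        {w | slc f e t w = 0} ∩ ((fun w : (ℝ ∙ e)ᗮ => (w : V) + t • e) ⁻¹' {x | A =ᶠ[𝓝 x] f})ᶜ := by
      ext w
      constructor
      · rintro ⟨h2, h3⟩
        refine ⟨h2, fun h4 => h3 ?_⟩
        have h5 : A ((w : V) + t • e) = f ((w : V) + t • e) := Filter.EventuallyEq.eq_of_nhds h4
        show A ((w : V) + t • e) = 0
        rw [h5]
        exact h2
      · rintro ⟨h2, h3⟩
        exact ⟨h2, fun h4 => h3 (hz _ (hin w) h4)⟩
    rw [h1]
    exact c2.inter (hUo.preimage hsl).isClosed_compl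

/-- A part of the function, up to caps. `A` is a new function whose zeros at the levels and at the
heights near its saddles are zeros of `f` with the same germ. PROOF. As `k3_piece`: the zeros of `A`
at such a height are clopen in the zeros of `f` (the germs are equal), `SlE.part`, `Mark.part`. -/
theorem KN.part (he : ‖e‖ = 1) (h : KN f e L S) {A : V → ℝ} (hA : ContDiff ℝ ∞ A)
    (hb : Bornology.IsBounded {x | A x = 0}) (hr : ∀ x, A x = 0 → gradient A x ≠ 0)
    (h1 : IsConnected {x | A x ≤ 0}) (h2 : IsConnected {x | 0 ≤ A x}) (h3 : LiftS {x | A x = 0})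
    (hc : ∀ x, Crit A e x → (Crit f e x ∧ A =ᶠ[𝓝 x] f) ∨
      (⟪e, x⟫ ∉ L ∧ (∀ p, Sad f e p → Sad A e p → ⟪e, x⟫ ≠ ⟪e, p⟫) ∧
        ∃ k, Idx A e x k ∧ (k = 0 ∨ k + 1 = Module.finrank ℝ V)))
    (hz : ∀ x, ⟪e, x⟫ ∈ L → A x = 0 → A =ᶠ[𝓝 x] f)
    (hn : ∀ p, Sad f e p → Sad A e p → ∀ᶠ t in 𝓝[≠] ⟪e, p⟫, ∀ x, ⟪e, x⟫ = t → A x = 0 →
      A =ᶠ[𝓝 x] f) :
    KN A e L (S.filter fun x => A x = 0) ∧ ∀ x, Sad A e x → Sad f e x := by
  have hsad : ∀ x, Sad A e x → Sad f e x := by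
    intro x hx
    obtain ⟨h4, k, h5, h6, h7⟩ := hx
    rcases hc x h4 with ⟨h8, h9⟩ | ⟨-, -, j, h8, h9⟩
    · exact ⟨h8, k, h5.congr' h9, h6, h7⟩
    · have h10 := Cy.Idx.unique h8 h5
      rw [h10] at h9
      rcases h9 with h9 | h9
      · exact absurd h9 h6
      · exact absurd h9 h7
  refine ⟨⟨⟨hA, hb, hr, ?_⟩, ?_, h1, h2, h3, ?_, ?_, ?_, ?_, ?_, ?_⟩, hsad⟩
  · intro x hx
    rcases hc x hx with ⟨h4, h5⟩ | ⟨-, -, k, h4, -⟩
    · obtain ⟨k, hk⟩ := h.mo.nd x h4
      exact ⟨k, hk.congr' h5.symm⟩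
    · exact ⟨k, h4⟩
  · intro x hx
    rcases hc x hx with ⟨h4, -⟩ | ⟨h4, -⟩
    · exact h.reg x h4
    · exact h4
  · exact fun p q hp hq hpq => h.gap p q (hsad p hp) (hsad q hq) hpq
  · intro p q hp hq hpq
    rcases hc q hq with ⟨h4, -⟩ | ⟨-, h4, -⟩
    · exact h.iso p q (hsad p hp) h4 hpq
    · exact absurd hpq (h4 p (hsad p hp) hp)
  · exact fun p hp => h.lev p (hsad p hp)
  · exact fun c hcL => ClassD_slice he h.mo.smooth.continuous hA.continuous (h.sl c hcL)
      fun x hx => hz x (by rw [hx]; exact hcL)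
  · intro p hp
    filter_upwards [h.near p (hsad p hp), hn p (hsad p hp) hp] with t ht1 ht2
    exact ClassD_slice he h.mo.smooth.continuous hA.continuous ht1 ht2
  · refine h.mark.part fun x hxL hx => ?_
    obtain ⟨O, hO1, hO2, hO3⟩ := mem_nhds_iff.1 (hz x hxL hx)
    refine ⟨O, hO2, hO3, fun y hy _ => ?_⟩
    have h4 : A y = f y := hO1 hy
    rw [h4]

end Pool.Schoen
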