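import Pool.Agent.H.MP_6c077c_gt.N3.ConnA

/-! Slices with spheres and tori, no sphere encloses a torus: the slices of the complement are connected. -/

set_option autoImplicit false

namespace Pool.Schoen

open Filter Set
open scoped Topology RealInnerProductSpace ContDiff

variable {V : Type*} [NormedAddCommGroup V] [InnerProductSpace ℝ V] [FiniteDimensional ℝ V]
variable {h : V → ℝ} {e : V} {L : Set ℝ}

/-- gluing of two layers -/
private theorem Conn_glue (hh : Continuous h) {a b d : ℝ} (ha : a ≤ b) (hb : b ≤ d)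
    (h1 : ExtB (layS h e a a) (layS h e a b)) (h2 : ExtB (layS h e b b) (layS h e b d)) :
    ExtB (layS h e a a) (layS h e a d) := by
  have e1 : layS h e a b ∩ layS h e b d = layS h e b b := by
    ext x
    exact ⟨fun hx => ⟨hx.1.1, hx.2.2.1, hx.1.2.2⟩,
      fun hx => ⟨⟨hx.1, ha.trans hx.2.1, hx.2.2⟩, ⟨hx.1, hx.2.1, hx.2.2.trans hb⟩⟩⟩
  have e2 : layS h e a b ∪ layS h e b d = layS h e a d := by
    ext x
    constructor
    · rintro (hx | hx)
      · exact ⟨hx.1, hx.2.1, hx.2.2.trans hb⟩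
      · exact ⟨hx.1, ha.trans hx.2.1, hx.2.2⟩
    · intro hx
      rcases le_total ⟪e, x⟫ b with hxb | hxb
      · exact Or.inl ⟨hx.1, hx.2.1, hxb⟩
      · exact Or.inr ⟨hx.1, hxb, hx.2.2⟩
  have h3 : ExtB (layS h e a b) (layS h e a d) := by
    rw [← e2]
    refine ExtB.glue (layS_closed hh e a b) (layS_closed hh e b d) ?_
    rw [e1]
    exact h2
  exact h1.trans h3 (layS_mono ha)

/-- gluing of a layer and the part above -/
private theorem Conn_glueU (hh : Continuous h) {a b : ℝ} (ha : a ≤ b)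
    (h1 : ExtB (layS h e a a) (layS h e a b))
    (h2 : ExtB (layS h e b b) {x | h x ≤ 0 ∧ b ≤ ⟪e, x⟫}) :
    ExtB (layS h e a a) {x | h x ≤ 0 ∧ a ≤ ⟪e, x⟫} := by
  have e1 : layS h e a b ∩ {x | h x ≤ 0 ∧ b ≤ ⟪e, x⟫} = layS h e b b := by
    ext x
    exact ⟨fun hx => ⟨hx.1.1, hx.2.2, hx.1.2.2⟩,
      fun hx => ⟨⟨hx.1, ha.trans hx.2.1, hx.2.2⟩, ⟨hx.1, hx.2.1⟩⟩⟩
  have e2 : layS h e a b ∪ {x | h x ≤ 0 ∧ b ≤ ⟪e, x⟫} = {x | h x ≤ 0 ∧ a ≤ ⟪e, x⟫} := by
    ext x
    constructor
    · rintro (hx | hx)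
      · exact ⟨hx.1, hx.2.1⟩
      · exact ⟨hx.1, ha.trans hx.2⟩
    · intro hx
      rcases le_total ⟪e, x⟫ b with hxb | hxb
      · exact Or.inl ⟨hx.1, hx.2, hxb⟩
      · exact Or.inr ⟨hx.1, hxb⟩
  have hz : Continuous fun x : V => ⟪e, x⟫ := continuous_const.inner continuous_id
  have h3 : ExtB (layS h e a b) {x | h x ≤ 0 ∧ a ≤ ⟪e, x⟫} := by
    rw [← e2]
    refine ExtB.glue (layS_closed hh e a b)
      ((isClosed_le hh continuous_const).inter (isClosed_le continuous_const hz)) ?_
    rw [e1]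
    exact h2
  exact h1.trans h3 (layS_mono ha)

/-- the heights of the horizontal zeros are isolated -/
private theorem Conn_iso (hfin : {x | Crit h e x}.Finite) (s : ℝ) :
    ∃ δ > 0, ∀ y : ℝ, |y - s| < δ → y ≠ s → ∀ x, Crit h e x → ⟪e, x⟫ ≠ y := by
  have h1 : (((fun x : V => ⟪e, x⟫) '' {x | Crit h e x}) \ {s}).Finite := (hfin.image _).diff
  have h2 : (((fun x : V => ⟪e, x⟫) '' {x | Crit h e x}) \ {s})ᶜ ∈ 𝓝 s :=
    h1.isClosed.isOpen_compl.mem_nhds fun hs => hs.2 rfl
  obtain ⟨δ, hδ, hδ'⟩ := Metric.mem_nhds_iff.1 h2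
  refine ⟨δ, hδ, fun y hy hys x hx hxy => ?_⟩
  have h3 : y ∈ Metric.ball s δ := by
    rw [Metric.mem_ball, Real.dist_eq]
    exact hy
  exact hδ' h3 ⟨⟨x, hx, hxy⟩, hys⟩

/-- Extension over a layer with at most one tube, which is good. PROOF. No tube: `slab_extB`. With the
tube `p`: `slab_extB` from `c` to `s - b`, `hg` to `s + b`, `slab_extB` to `c'` (`ExtB.glue`,
`ExtB.trans`); `b` small, so that there is no other horizontal zero within `b` of the height of `p`
(`hiso`, finitely many: `hfin`). -/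
theorem gap_ext (he : ‖e‖ = 1) (hm : Mo h e) (hfin : {x | Crit h e x}.Finite) {c c' : ℝ}
    (hcc : c < c') (hc : ∀ x, Crit h e x → ⟪e, x⟫ ≠ c) (hc' : ∀ x, Crit h e x → ⟪e, x⟫ ≠ c')
    (hone : ∀ p q, Inward h e p → Idx h e p 1 → Inward h e q → Idx h e q 1 → c < ⟪e, p⟫ →
      ⟪e, p⟫ < c' → c < ⟪e, q⟫ → ⟪e, q⟫ < c' → p = q)
    (hiso : ∀ p q, Inward h e p → Idx h e p 1 → Crit h e q → ⟪e, q⟫ = ⟪e, p⟫ → q = p)
    (hg : ∀ p, Inward h e p → Idx h e p 1 → c < ⟪e, p⟫ → ⟪e, p⟫ < c' → ∀ δ > 0, ∃ b, 0 < b ∧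
      b < δ ∧ ExtB (layS h e (⟪e, p⟫ - b) (⟪e, p⟫ - b)) (layS h e (⟪e, p⟫ - b) (⟪e, p⟫ + b))) :
    ExtB (layS h e c c) (layS h e c c') := by
  classical
  have hh : Continuous h := hm.smooth.continuous
  by_cases hex : ∃ p, Inward h e p ∧ Idx h e p 1 ∧ c < ⟪e, p⟫ ∧ ⟪e, p⟫ < c'
  · obtain ⟨p, hp, hpi, hpc, hpc'⟩ := hex
    obtain ⟨δ, hδ, hδ'⟩ := Conn_iso hfin ⟪e, p⟫
    obtain ⟨b, hb0, hbδ, hb⟩ := hg p hp hpi hpc hpc' (min δ (min (⟪e, p⟫ - c) (c' - ⟪e, p⟫)))
      (lt_min hδ (lt_min (sub_pos.2 hpc) (sub_pos.2 hpc')))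
    have hb1 : b < δ := hbδ.trans_le (min_le_left _ _)
    have hb2 : b < ⟪e, p⟫ - c := hbδ.trans_le ((min_le_right _ _).trans (min_le_left _ _))
    have hb3 : b < c' - ⟪e, p⟫ := hbδ.trans_le ((min_le_right _ _).trans (min_le_right _ _))
    have r1 : ∀ x, Crit h e x → ⟪e, x⟫ ≠ ⟪e, p⟫ - b := by
      refine hδ' _ ?_ (by linarith)
      rw [sub_sub_cancel_left, abs_neg, abs_of_pos hb0]
      exact hb1
    have r2 : ∀ x, Crit h e x → ⟪e, x⟫ ≠ ⟪e, p⟫ + b := by
      refine hδ' _ ?_ (by linarith)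
      rw [add_sub_cancel_left, abs_of_pos hb0]
      exact hb1
    have g1 : ExtB (layS h e c c) (layS h e c (⟪e, p⟫ - b)) := by
      refine slab_extB he hm (by linarith) hc r1 fun q hq hqc hqt hqi => ?_
      have := hone p q hp hpi hq hqi hpc hpc' hqc (by linarith)
      rw [← this] at hqt
      linarith
    have g2 : ExtB (layS h e (⟪e, p⟫ + b) (⟪e, p⟫ + b)) (layS h e (⟪e, p⟫ + b) c') := by
      refine slab_extB he hm (by linarith) r2 hc' fun q hq hqc hqt hqi => ?_
      have := hone p q hp hpi hq hqi hpc hpc' (by linarith) hqt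
      rw [← this] at hqc
      linarith
    exact Conn_glue hh (by linarith) (by linarith)
      (Conn_glue hh (by linarith) (by linarith) g1 hb) g2
  · refine slab_extB he hm hcc.le hc hc' fun q hq hqc hqt hqi => ?_
    exact hex ⟨q, hq, hqi, hqc, hqt⟩

/-- Extension upwards from any regular height to infinity. PROOF. Induction over the levels of `L`
above `t` (finite), `gap_ext` for the consecutive ones, from `t` to the first one, and above the
last one up to a height above all zeros of `h`, and beyond constant on vertical lines (there all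
slices of the body are the whole hyperplane or empty). The tubes are separated by `L`: `hgap`. -/
theorem up_ext (he : ‖e‖ = 1) (hm : Mo h e) (hfin : {x | Crit h e x}.Finite) (hL : L.Finite)
    (hreg : ∀ x, Crit h e x → ⟪e, x⟫ ∉ L)
    (hgap : ∀ p q, Inward h e p → Idx h e p 1 → Inward h e q → Idx h e q 1 →
      (∀ c ∈ L, (⟪e, p⟫ < c ↔ ⟪e, q⟫ < c)) → p = q)
    (hiso : ∀ p q, Inward h e p → Idx h e p 1 → Crit h e q → ⟪e, q⟫ = ⟪e, p⟫ → q = p)
    (hg : ∀ p, Inward h e p → Idx h e p 1 → ∀ δ > 0, ∃ b, 0 < b ∧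
      b < δ ∧ ExtB (layS h e (⟪e, p⟫ - b) (⟪e, p⟫ - b)) (layS h e (⟪e, p⟫ - b) (⟪e, p⟫ + b)))
    {t : ℝ} (ht : ∀ x, Crit h e x → ⟪e, x⟫ ≠ t) :
    ExtB (layS h e t t) {x | h x ≤ 0 ∧ t ≤ ⟪e, x⟫} := by
  classical
  have hh : Continuous h := hm.smooth.continuous
  have key : ∀ (n : ℕ) (t : ℝ), (∀ x, Crit h e x → ⟪e, x⟫ ≠ t) → (L ∩ Ioi t).ncard = n →
      ExtB (layS h e t t) {x | h x ≤ 0 ∧ t ≤ ⟪e, x⟫} := by
    intro n
    induction n using Nat.strong_induction_on with
    | _ n ih =>
      intro t ht hn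
      have hfin' : (L ∩ Ioi t).Finite := hL.subset inter_subset_left
      rcases (L ∩ Ioi t).eq_empty_or_nonempty with hE | hE
      · -- no level above `t`
        obtain ⟨t', htt, ht'⟩ : ∃ t', t < t' ∧ ∀ x, h x = 0 → ⟪e, x⟫ < t' := by
          obtain ⟨R, hR⟩ := hm.bdd.subset_closedBall (0 : V)
          refine ⟨max t R + 1, (le_max_left _ _).trans_lt (lt_add_one _), fun x hx => ?_⟩
          have h1 := hR hx
          rw [mem_closedBall_zero_iff] at h1
          have h2 : ⟪e, x⟫ ≤ ‖x‖ := by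
            have := real_inner_le_norm e x
            rw [he, one_mul] at this
            exact this
          have h3 := le_max_right t R
          linarith
        have hreg' : ∀ x, Crit h e x → ⟪e, x⟫ ≠ t' := fun x hx => (ht' x hx.1).ne
        refine Conn_glueU hh htt.le (gap_ext he hm hfin htt ht hreg' ?_ hiso
          fun p hp hpi _ _ => hg p hp hpi) ?_
        · intro p q hp hpi hq hqi hpt _ hqt _
          refine hgap p q hp hpi hq hqi fun c hc => ?_
          have hct : c ≤ t := by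
            by_contra hlt
            push Not at hlt
            have : c ∈ L ∩ Ioi t := ⟨hc, hlt⟩
            rw [hE] at this
            exact this
          exact ⟨fun h1 => absurd h1 (not_lt.2 (hct.trans hpt.le)),
            fun h1 => absurd h1 (not_lt.2 (hct.trans hqt.le))⟩
        · -- vertical lines
          have hre : Continuous fun x : V => x - (⟪e, x⟫ - t') • e :=
            continuous_id.sub (((continuous_const.inner continuous_id).sub
              continuous_const).smul continuous_const)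
          have hrh : ∀ x : V, ⟪e, x - (⟪e, x⟫ - t') • e⟫ = t' := by
            intro x
            rw [inner_sub_right, real_inner_smul_right, real_inner_self_eq_norm_sq, he]
            ring
          have hr0 : ∀ x : V, h x ≤ 0 → t' ≤ ⟪e, x⟫ → h (x - (⟪e, x⟫ - t') • e) ≤ 0 := by
            intro x hx hxt
            by_contra hc
            push Not at hc
            -- intermediate value on the segment
            have hcont : Continuous fun r : ℝ => h (x - r • e) :=
              hh.comp (continuous_const.sub (continuous_id.smul continuous_const))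
            have h1 : (0 : ℝ) ∈ (fun r : ℝ => h (x - r • e)) '' Icc 0 (⟪e, x⟫ - t') := by
              refine intermediate_value_Icc (sub_nonneg.2 hxt) hcont.continuousOn ⟨?_, hc.le⟩
              simpa using hx
            obtain ⟨r, hr, hr'⟩ := h1
            have h2 := ht' _ hr'
            rw [inner_sub_right, real_inner_smul_right, real_inner_self_eq_norm_sq, he] at h2
            have := hr.2
            linarith
          intro u hu hu1
          have hmem : ∀ x ∈ {x : V | h x ≤ 0 ∧ t' ≤ ⟪e, x⟫},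
              x - (⟪e, x⟫ - t') • e ∈ layS h e t' t' := fun x hx =>
            ⟨hr0 x hx.1 hx.2, (hrh x).ge, (hrh x).le⟩
          refine ⟨fun x => u (x - (⟪e, x⟫ - t') • e), hu.comp hre.continuousOn hmem,
            fun x hx => hu1 _ (hmem x hx), fun x hx => ?_⟩
          have h1 : ⟪e, x⟫ = t' := le_antisymm hx.2.2 hx.2.1
          show u (x - (⟪e, x⟫ - t') • e) = u x
          rw [h1, sub_self, zero_smul, sub_zero]
      · -- the first level above `t`
        obtain ⟨c, hc, hcmin⟩ := hfin'.exists_minimal hE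
        have hcmin' : ∀ d ∈ L, t < d → c ≤ d := by
          intro d hd htd
          rcases le_total c d with h1 | h1
          · exact h1
          · exact hcmin ⟨hd, htd⟩ h1
        have htc : t < c := hc.2
        have hcr : ∀ x, Crit h e x → ⟪e, x⟫ ≠ c := fun x hx h1 => hreg x hx (h1 ▸ hc.1)
        refine Conn_glueU hh htc.le (gap_ext he hm hfin htc ht hcr ?_ hiso
          fun p hp hpi _ _ => hg p hp hpi) ?_
        · intro p q hp hpi hq hqi hpt hpc hqt hqc
          refine hgap p q hp hpi hq hqi fun d hd => ?_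
          rcases le_or_gt d t with h1 | h1
          · exact ⟨fun h2 => absurd h2 (not_lt.2 (h1.trans hpt.le)),
              fun h2 => absurd h2 (not_lt.2 (h1.trans hqt.le))⟩
          · have h2 := hcmin' d hd h1
            exact ⟨fun _ => hqc.trans_le h2, fun _ => hpc.trans_le h2⟩
        · refine ih (L ∩ Ioi c).ncard ?_ c hcr rfl
          rw [← hn]
          refine ncard_lt_ncard ⟨fun d hd => ⟨hd.1, htc.trans hd.2⟩, fun h1 => ?_⟩ hfin'
          exact lt_irrefl c (h1 hc).2
  exact key _ t ht rfl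

/-- All regular slices of the body are connected. PROOF. A map of the slice to `{0, 1}` extends upwards and
downwards, so to the connected body: it is constant. -/
theorem nslice_conn (h1 : IsPreconnected {x | h x ≤ 0}) (hs : Continuous h) {t : ℝ}
    (hu : ExtB (layS h e t t) {x | h x ≤ 0 ∧ t ≤ ⟪e, x⟫})
    (hd : ExtB (layS h e t t) {x | h x ≤ 0 ∧ ⟪e, x⟫ ≤ t}) :
    IsPreconnected (layS h e t t) := by
  classical
  have hz : Continuous fun x : V => ⟪e, x⟫ := continuous_const.inner continuous_id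
  refine isPreconnected_of_forall_constant fun f hf x hx y hy => ?_
  have hcont : ContinuousOn (fun z => if f z = true then (1 : ℝ) else 0) (layS h e t t) := by
    have h2 : Continuous (fun b : Bool => if b = true then (1 : ℝ) else 0) :=
      continuous_of_discreteTopology
    exact h2.comp_continuousOn hf
  have h01 : ∀ z ∈ layS h e t t, (if f z = true then (1 : ℝ) else 0) = 0 ∨
      (if f z = true then (1 : ℝ) else 0) = 1 := by
    intro z _
    by_cases hb : f z = true
    · exact Or.inr (if_pos hb)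
    · exact Or.inl (if_neg hb)
  obtain ⟨U1, hU1, hU1', hU1e⟩ := hu _ hcont h01
  obtain ⟨U2, hU2, hU2', hU2e⟩ := hd _ hcont h01
  obtain ⟨w, hw, hw1, hw2⟩ := glue_contOn
    (A := {x : V | h x ≤ 0 ∧ t ≤ ⟪e, x⟫}) (B := {x : V | h x ≤ 0 ∧ ⟪e, x⟫ ≤ t})
    ((isClosed_le hs continuous_const).inter (isClosed_le continuous_const hz))
    ((isClosed_le hs continuous_const).inter (isClosed_le hz continuous_const)) hU1 hU2
    (fun z hz' => by
      have h3 : z ∈ layS h e t t := ⟨hz'.1.1, hz'.1.2, hz'.2.2⟩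
      rw [hU1e z h3, hU2e z h3])
  have hun : {x : V | h x ≤ 0 ∧ t ≤ ⟪e, x⟫} ∪ {x : V | h x ≤ 0 ∧ ⟪e, x⟫ ≤ t} = {x | h x ≤ 0} := by
    ext z
    constructor
    · rintro (h3 | h3)
      · exact h3.1
      · exact h3.1
    · intro h3
      rcases le_total t ⟪e, z⟫ with h4 | h4
      · exact Or.inl ⟨h3, h4⟩
      · exact Or.inr ⟨h3, h4⟩
  rw [hun] at hw
  have hw01 : ∀ z, h z ≤ 0 → w z = 0 ∨ w z = 1 := by
    intro z h3
    rcases le_total t ⟪e, z⟫ with h4 | h4
    · rw [hw1 z ⟨h3, h4⟩]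
      exact hU1' z ⟨h3, h4⟩
    · rw [hw2 z ⟨h3, h4⟩]
      exact hU2' z ⟨h3, h4⟩
  have hval : ∀ z ∈ layS h e t t, w z = if f z = true then 1 else 0 := fun z hz' =>
    (hw1 z ⟨hz'.1, hz'.2.1⟩).trans (hU1e z hz')
  have key : ∀ a ∈ layS h e t t, ∀ b ∈ layS h e t t, f a = true → f b = false → False := by
    intro a ha b hb hfa hfb
    have h2 := h1.intermediate_value (show b ∈ {x | h x ≤ 0} from hb.1)
      (show a ∈ {x | h x ≤ 0} from ha.1) hw
    rw [hval a ha, hval b hb, if_pos hfa, if_neg (by rw [hfb]; exact Bool.false_ne_true)] at h2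
    obtain ⟨z, hz', hz2⟩ := h2 (show (1 / 2 : ℝ) ∈ Icc (0 : ℝ) 1 by norm_num)
    rcases hw01 z hz' with h3 | h3 <;> rw [h3] at hz2 <;> norm_num at hz2
  cases hfx : f x <;> cases hfy : f y
  · rfl
  · exact (key y hy x hx hfy hfx).elim
  · exact (key x hx y hy hfx hfy).elim
  · rfl

end Pool.Schoen
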