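import Pool.Agent.H.MP_6c077c_gt.N2.Three

/-! Slices with spheres and tori, no sphere encloses a torus: extension of locally constant maps. -/

set_option autoImplicit false

namespace Pool.Schoen

open Filter Set
open scoped Topology RealInnerProductSpace ContDiff

theorem ExtB.trans {Y : Type*} [TopologicalSpace Y] {A B C : Set Y} (h : ExtB A B) (h' : ExtB B C)
    (hAB : A ⊆ B) : ExtB A C := by
  intro u hu h01
  obtain ⟨U, hU, hU01, hUe⟩ := h u hu h01
  obtain ⟨W, hW, hW01, hWe⟩ := h' U hU hU01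
  exact ⟨W, hW, hW01, fun x hx => (hWe x (hAB hx)).trans (hUe x hx)⟩

/-- Gluing along a common part. PROOF. Extend from `A ∩ B`... `u` on `A` restricts to `A ∩ B`, extend
over `B`, glue (both closed). -/
theorem ExtB.glue {Y : Type*} [TopologicalSpace Y] {A B : Set Y} (hA : IsClosed A) (hB : IsClosed B)
    (h : ExtB (A ∩ B) B) : ExtB A (A ∪ B) := by
  classical
  intro u hu h01
  obtain ⟨U, hU, hU01, hUe⟩ := h u (hu.mono inter_subset_left) fun x hx => h01 x hx.1
  have h1 : EqOn (fun x => if x ∈ A then u x else U x) u A := fun x hx => if_pos hx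
  have h2 : EqOn (fun x => if x ∈ A then u x else U x) U B := by
    intro x hx
    by_cases hxA : x ∈ A
    · exact (if_pos hxA).trans (hUe x ⟨hxA, hx⟩).symm
    · exact if_neg hxA
  refine ⟨fun x => if x ∈ A then u x else U x, ?_, ?_, fun x hx => h1 hx⟩
  · exact (hu.congr h1).union_of_isClosed (hU.congr h2) hA hB
  · rintro x (hx | hx)
    · rw [h1 hx]
      exact h01 x hx
    · rw [h2 hx]
      exact hU01 x hx

/-- Invariance under homeomorphisms. -/
theorem ExtB.image {Y Z : Type*} [TopologicalSpace Y] [TopologicalSpace Z] {A B : Set Y}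
    (h : ExtB A B) (φ : Y ≃ₜ Z) : ExtB (φ '' A) (φ '' B) := by
  intro u hu h01
  obtain ⟨U, hU, hU01, hUe⟩ := h (fun y => u (φ y))
    (hu.comp φ.continuous.continuousOn (mapsTo_image φ A)) fun x hx => h01 _ (mem_image_of_mem φ hx)
  refine ⟨fun z => U (φ.symm z), ?_, ?_, ?_⟩
  · refine hU.comp φ.symm.continuous.continuousOn ?_
    rintro _ ⟨x, hx, rfl⟩
    rw [φ.symm_apply_apply]
    exact hx
  · rintro _ ⟨x, hx, rfl⟩
    simp only [φ.symm_apply_apply]
    exact hU01 x hx
  · rintro _ ⟨x, hx, rfl⟩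
    simp only [φ.symm_apply_apply]
    exact hUe x hx

end Pool.Schoen
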