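import Pool.Agent.H.MP_6c077c_gt.N3.TubA

/-! The vertical normal form at a tube: the sectors. -/

set_option autoImplicit false

namespace Pool.Schoen

open Filter Set
open scoped Topology RealInnerProductSpace ContDiff

variable {E : Type*} [NormedAddCommGroup E] [InnerProductSpace ℝ E] [FiniteDimensional ℝ E]
variable {P : E → ℝ} {u : E} {β s : ℝ}

private theorem TubS_anti1 : Antitone th1 := by
  intro x y hxy
  unfold th1
  exact Real.smoothTransition.monotone (by linarith)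

private theorem TubS_anti2 : Antitone th2 := by
  intro x y hxy
  unfold th2
  exact Real.smoothTransition.monotone (by linarith)

private theorem TubS_mono (h : TubP P u β) (hs : |s| ≤ β) {t : ℝ} (ht : 0 ≤ t) (ht1 : t ≤ 1) :
    Monotone fun z : ℝ => z - s * (th1 z * t) := by
  have hd : Differentiable ℝ th1 := th1_smooth.differentiable (by simp)
  refine monotone_of_deriv_nonneg (by fun_prop) fun z => ?_
  have h1 : HasDerivAt (fun z : ℝ => z - s * (th1 z * t)) (1 - s * (deriv th1 z * t)) z :=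
    (hasDerivAt_id z).sub (((hd z).hasDerivAt.mul_const t).const_mul s)
  rw [h1.deriv]
  have h2 : |s * (deriv th1 z * t)| ≤ 1 / 4 := by
    rw [abs_mul, abs_mul, abs_of_nonneg ht]
    have h3 : |s| * (|deriv th1 z| * t) ≤ β * |deriv th1 z| := by
      have h4 : |deriv th1 z| * t ≤ |deriv th1 z| := mul_le_of_le_one_right (abs_nonneg _) ht1
      exact mul_le_mul hs h4 (mul_nonneg (abs_nonneg _) ht) ((abs_nonneg _).trans hs)
    exact h3.trans (h.hθ z)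
  have h5 := (abs_le.1 h2).2
  linarith

private theorem TubS_inner (hu : ‖u‖ = 1) {a : ℝ} {y : E} (huy : ⟪u, y⟫ = 0) :
    ⟪u, a • u + y⟫ = a := by
  rw [inner_add_right, inner_smul_right, huy, real_inner_self_eq_norm_sq, hu]
  ring

private theorem TubS_norm (hu : ‖u‖ = 1) {a : ℝ} {y : E} (huy : ⟪u, y⟫ = 0) :
    ‖a • u + y‖ ^ 2 = a ^ 2 + ‖y‖ ^ 2 := by
  rw [norm_add_sq_real, inner_smul_left, huy, norm_smul, hu]
  simp

private theorem TubS_val (h : TubP P u β) (s : ℝ) {a : ℝ} {y : E} (huy : ⟪u, y⟫ = 0)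
    (hn : a ^ 2 + ‖y‖ ^ 2 ≤ 100) :
    tubK P u s (a • u + y) = ‖y‖ ^ 2 - s * (th1 (‖y‖ ^ 2) * th2 (a ^ 2)) - a ^ 2 := by
  have h1 : ‖a • u + y‖ ≤ 10 := by
    have h2 := TubS_norm h.hu (a := a) huy
    have h3 : ‖a • u + y‖ ^ 2 ≤ 10 ^ 2 := by
      rw [h2]
      linarith
    exact le_of_sq_le_sq h3 (by norm_num)
  have h4 : orth u (a • u + y) = y := by
    unfold orth
    rw [TubS_inner h.hu huy]
    abel
  unfold tubK tubC
  rw [h.mod _ h1, h4, TubS_inner h.hu huy]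
  ring

private theorem TubS_orth (hu : ‖u‖ = 1) (w : E) : ⟪u, orth u w⟫ = 0 := by
  unfold orth
  rw [inner_sub_right, inner_smul_right, real_inner_self_eq_norm_sq, hu]
  ring

private theorem TubS_dec (u w : E) : w = ⟪u, w⟫ • u + orth u w := by
  unfold orth
  abel

/-- The left sector. PROOF. First shrink the radius: `ρ² - a² - s th1(ρ²) th2(a²)` is increasing in
`ρ²` (`|s th1'| ≤ 1/4`); then move on the axis: `-a² - s th2(a²) ≤ 0` for larger `|a|` too (for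
`s < 0`, `th2` decreases). -/
theorem tub_left (h : TubP P u β) (hs : -β ≤ s) (hs0 : s ≤ 0) {w : E} (hw : ‖w‖ ≤ 9)
    (hwk : tubK P u s w ≤ 0) (ha : ⟪u, w⟫ ≤ 0) (ha0 : s < 0 ∨ ⟪u, w⟫ < 0 ∨ w = 0) :
    w ∈ connectedComponentIn {w | tubK P u s w ≤ 0} (-((5 : ℝ) • u)) := by
  have hsb : |s| ≤ β := abs_le.2 ⟨hs, hs0.trans h.hβ.le⟩
  obtain ⟨a, hadef⟩ : ∃ a, a = ⟪u, w⟫ := ⟨_, rfl⟩
  obtain ⟨y, hydef⟩ : ∃ y, y = orth u w := ⟨_, rfl⟩
  have huy : ⟪u, y⟫ = 0 := by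
    rw [hydef]
    exact TubS_orth h.hu w
  have hdec : w = a • u + y := by
    rw [hadef, hydef]
    exact TubS_dec u w
  rw [← hadef] at ha
  have hsq : a ^ 2 + ‖y‖ ^ 2 ≤ 81 := by
    rw [← TubS_norm h.hu huy, ← hdec]
    nlinarith [norm_nonneg w]
  have hval : ‖y‖ ^ 2 - s * (th1 (‖y‖ ^ 2) * th2 (a ^ 2)) - a ^ 2 ≤ 0 := by
    rw [← TubS_val h s huy (by linarith), ← hdec]
    exact hwk
  have hm := TubS_mono h hsb (th2_mem (a ^ 2)).1 (th2_mem (a ^ 2)).2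
  -- the first part of the path
  let S1 : Set E := (fun τ : ℝ => a • u + τ • y) '' Icc 0 1
  let S2 : Set E := (fun t : ℝ => (-t) • u) '' uIcc (-a) 5
  have hS1 : IsPreconnected S1 :=
    isPreconnected_Icc.image _ (Continuous.continuousOn (by fun_prop))
  have hS2 : IsPreconnected S2 :=
    isPreconnected_uIcc.image _ (Continuous.continuousOn (by fun_prop))
  have hx1 : a • u ∈ S1 := ⟨0, ⟨le_rfl, zero_le_one⟩, by simp⟩
  have hx2 : a • u ∈ S2 := ⟨-a, left_mem_uIcc, by simp⟩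
  have hw1 : w ∈ S1 := ⟨1, ⟨zero_le_one, le_rfl⟩, by
    show a • u + (1 : ℝ) • y = w
    rw [one_smul, ← hdec]⟩
  have h52 : -((5 : ℝ) • u) ∈ S2 := ⟨5, right_mem_uIcc, by simp⟩
  have hsub1 : S1 ⊆ {w | tubK P u s w ≤ 0} := by
    rintro _ ⟨τ, ⟨hτ0, hτ1⟩, rfl⟩
    have h1 : ⟪u, τ • y⟫ = 0 := by rw [inner_smul_right, huy, mul_zero]
    have h2 : ‖τ • y‖ ^ 2 ≤ ‖y‖ ^ 2 := by
      rw [norm_smul, Real.norm_eq_abs, abs_of_nonneg hτ0]
      have h3 : τ * ‖y‖ ≤ ‖y‖ := mul_le_of_le_one_left (norm_nonneg _) hτ1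
      exact pow_le_pow_left₀ (mul_nonneg hτ0 (norm_nonneg _)) h3 2
    show tubK P u s (a • u + τ • y) ≤ 0
    rw [TubS_val h s h1 (by linarith)]
    have h4 : ‖τ • y‖ ^ 2 - s * (th1 (‖τ • y‖ ^ 2) * th2 (a ^ 2)) ≤
      ‖y‖ ^ 2 - s * (th1 (‖y‖ ^ 2) * th2 (a ^ 2)) := hm h2
    linarith
  have hax : ∀ t : ℝ, t ^ 2 ≤ 100 → tubK P u s ((-t) • u) = -s * th2 (t ^ 2) - t ^ 2 := by
    intro t ht
    have h1 := TubS_val h s (a := -t) (y := 0) (inner_zero_right u) (by simpa using ht)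
    rw [add_zero] at h1
    rw [h1, norm_zero, th1_one (z := 0 ^ 2) (by norm_num), neg_sq]
    ring
  have hax0 : -s * th2 (a ^ 2) - a ^ 2 ≤ 0 := by
    have h1 := hsub1 hx1
    have h2 : a • u = (-(-a)) • u := by rw [neg_neg]
    rw [mem_setOf_eq, h2, hax (-a) (by nlinarith [sq_nonneg ‖y‖]), neg_sq] at h1
    exact h1
  have hsub2 : S2 ⊆ {w | tubK P u s w ≤ 0} := by
    rintro _ ⟨t, ht, rfl⟩
    show tubK P u s ((-t) • u) ≤ 0
    have ha9 : -a ≤ 9 := by nlinarith [sq_nonneg ‖y‖]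
    rcases le_total (-a) 5 with h5 | h5
    · rw [uIcc_of_le h5] at ht
      obtain ⟨ht0, ht1⟩ := ht
      have hta : a ^ 2 ≤ t ^ 2 := by nlinarith
      rw [hax t (by nlinarith)]
      have h6 : th2 (t ^ 2) ≤ th2 (a ^ 2) := TubS_anti2 hta
      nlinarith
    · rw [uIcc_of_ge h5] at ht
      obtain ⟨ht0, ht1⟩ := ht
      rw [hax t (by nlinarith), th2_zero (by nlinarith)]
      nlinarith
  have hU : IsPreconnected (S1 ∪ S2) := IsPreconnected.union (a • u) hx1 hx2 hS1 hS2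
  exact hU.subset_connectedComponentIn (Or.inr h52) (union_subset hsub1 hsub2) (Or.inl hw1)

theorem tub_right (h : TubP P u β) (hs : -β ≤ s) (hs0 : s ≤ 0) {w : E} (hw : ‖w‖ ≤ 9)
    (hwk : tubK P u s w ≤ 0) (ha : 0 ≤ ⟪u, w⟫) (ha0 : s < 0 ∨ 0 < ⟪u, w⟫ ∨ w = 0) :
    w ∈ connectedComponentIn {w | tubK P u s w ≤ 0} ((5 : ℝ) • u) := by
  have h1 := tub_left (w := w) h.neg hs hs0 hw (by rw [tubK_neg]; exact hwk)
    (by rw [inner_neg_left]; linarith)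
    (by
      rw [inner_neg_left]
      rcases ha0 with h1 | h1 | h1
      · exact Or.inl h1
      · exact Or.inr (Or.inl (by linarith))
      · exact Or.inr (Or.inr h1))
  rw [smul_neg, neg_neg, tubK_neg] at h1
  exact h1

/-- The middle. PROOF. Increase the radius, then contract `a` to `0`: `{0 ≤ tubK}` in the ball; the
dimension of `uᗮ` is two, its unit sphere is connected. -/
theorem tub_mid (hE : Module.finrank ℝ E = 3) (h : TubP P u β) (hs : |s| ≤ β) {y : E}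
    (hy : ‖y‖ = 1) (huy : ⟪u, y⟫ = 0) {w : E} (hw : ‖w‖ ≤ 4) (hwk : 0 ≤ tubK P u s w) :
    w ∈ connectedComponentIn {w | 0 ≤ tubK P u s w} ((5 : ℝ) • y) := by
  obtain ⟨a, hadef⟩ : ∃ a, a = ⟪u, w⟫ := ⟨_, rfl⟩
  obtain ⟨x, hxdef⟩ : ∃ x, x = orth u w := ⟨_, rfl⟩
  have hux : ⟪u, x⟫ = 0 := by
    rw [hxdef]
    exact TubS_orth h.hu w
  have hdec : w = a • u + x := by
    rw [hadef, hxdef]
    exact TubS_dec u w
  have hsq : a ^ 2 + ‖x‖ ^ 2 ≤ 16 := by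
    rw [← TubS_norm h.hu hux, ← hdec]
    nlinarith [norm_nonneg w]
  have hval : 0 ≤ ‖x‖ ^ 2 - s * (th1 (‖x‖ ^ 2) * th2 (a ^ 2)) - a ^ 2 := by
    rw [← TubS_val h s hux (by linarith), ← hdec]
    exact hwk
  -- the direction
  obtain ⟨z, hz, huz, hxz⟩ : ∃ z : E, ‖z‖ = 1 ∧ ⟪u, z⟫ = 0 ∧ x = ‖x‖ • z := by
    by_cases hx0 : x = 0
    · exact ⟨y, hy, huy, by rw [hx0]; simp⟩
    · have hx1 : ‖x‖ ≠ 0 := norm_ne_zero_iff.2 hx0
      refine ⟨‖x‖⁻¹ • x, ?_, ?_, ?_⟩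
      · rw [norm_smul, norm_inv, norm_norm, inv_mul_cancel₀ hx1]
      · rw [inner_smul_right, hux, mul_zero]
      · rw [smul_smul, mul_inv_cancel₀ hx1, one_smul]
  have hm := TubS_mono h hs (th2_mem (a ^ 2)).1 (th2_mem (a ^ 2)).2
  have hx4 : ‖x‖ ≤ 5 := by nlinarith [norm_nonneg x, sq_nonneg a]
  let S1 : Set E := (fun τ : ℝ => a • u + τ • z) '' Icc ‖x‖ 5
  let S2 : Set E := (fun t : ℝ => (t * a) • u + (5 : ℝ) • z) '' Icc 0 1
  let S3 : Set E := (fun v : (ℝ ∙ u)ᗮ => (v : E)) '' Metric.sphere 0 5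
  have hS1 : IsPreconnected S1 :=
    isPreconnected_Icc.image _ (Continuous.continuousOn (by fun_prop))
  have hS2 : IsPreconnected S2 :=
    isPreconnected_Icc.image _ (Continuous.continuousOn (by fun_prop))
  have hrank : 1 < Module.rank ℝ (ℝ ∙ u)ᗮ := by
    have hu0 : u ≠ 0 := by
      intro h0
      have := h.hu
      rw [h0, norm_zero] at this
      exact zero_ne_one this
    have h1 : Module.finrank ℝ (ℝ ∙ u)ᗮ = 2 := by
      have h2 := Submodule.finrank_add_finrank_orthogonal (ℝ ∙ u)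
      rw [finrank_span_singleton hu0, hE] at h2
      omega
    rw [← Module.finrank_eq_rank, h1]
    norm_num
  have hS3 : IsPreconnected S3 :=
    ((isConnected_sphere hrank 0 (by norm_num : (0 : ℝ) ≤ 5)).isPreconnected).image _
      continuous_subtype_val.continuousOn
  have hmem3 : ∀ v : E, ‖v‖ = 1 → ⟪u, v⟫ = 0 → (5 : ℝ) • v ∈ S3 := by
    intro v hv huv
    refine ⟨⟨(5 : ℝ) • v, ?_⟩, ?_, rfl⟩
    · rw [Submodule.mem_orthogonal_singleton_iff_inner_right, inner_smul_right, huv, mul_zero]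
    · rw [mem_sphere_zero_iff_norm, Submodule.coe_norm, norm_smul, hv]
      norm_num
  have hw1 : w ∈ S1 := ⟨‖x‖, ⟨le_rfl, hx4⟩, by
    show a • u + ‖x‖ • z = w
    rw [← hxz, ← hdec]⟩
  have h12 : a • u + (5 : ℝ) • z ∈ S1 := ⟨5, ⟨hx4, le_rfl⟩, rfl⟩
  have h12' : a • u + (5 : ℝ) • z ∈ S2 := ⟨1, ⟨zero_le_one, le_rfl⟩, by
    show ((1 : ℝ) * a) • u + (5 : ℝ) • z = _
    rw [one_mul]⟩
  have h23 : (5 : ℝ) • z ∈ S2 := ⟨0, ⟨le_rfl, zero_le_one⟩, by
    show ((0 : ℝ) * a) • u + (5 : ℝ) • z = _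
    rw [zero_mul, zero_smul, zero_add]⟩
  have hsub1 : S1 ⊆ {w | 0 ≤ tubK P u s w} := by
    rintro _ ⟨τ, ⟨hτ0, hτ1⟩, rfl⟩
    have hτ : 0 ≤ τ := (norm_nonneg _).trans hτ0
    have h1 : ⟪u, τ • z⟫ = 0 := by rw [inner_smul_right, huz, mul_zero]
    have h2 : ‖τ • z‖ = τ := by rw [norm_smul, hz, mul_one, Real.norm_eq_abs, abs_of_nonneg hτ]
    show 0 ≤ tubK P u s (a • u + τ • z)
    rw [TubS_val h s h1 (by rw [h2]; nlinarith [norm_nonneg x]), h2]
    have h3 : ‖x‖ ^ 2 ≤ τ ^ 2 := pow_le_pow_left₀ (norm_nonneg _) hτ0 2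
    have h4 : ‖x‖ ^ 2 - s * (th1 (‖x‖ ^ 2) * th2 (a ^ 2)) ≤
      τ ^ 2 - s * (th1 (τ ^ 2) * th2 (a ^ 2)) := hm h3
    linarith
  have hsub2 : S2 ⊆ {w | 0 ≤ tubK P u s w} := by
    rintro _ ⟨t, ⟨ht0, ht1⟩, rfl⟩
    have h1 : ⟪u, (5 : ℝ) • z⟫ = 0 := by rw [inner_smul_right, huz, mul_zero]
    have h2 : ‖(5 : ℝ) • z‖ = 5 := by rw [norm_smul, hz]; norm_num
    have h3 : (t * a) ^ 2 ≤ 16 := by
      rw [mul_pow]
      have h4 : t ^ 2 ≤ 1 := by nlinarith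
      nlinarith [sq_nonneg a, sq_nonneg ‖x‖, mul_le_mul_of_nonneg_right h4 (sq_nonneg a)]
    show 0 ≤ tubK P u s ((t * a) • u + (5 : ℝ) • z)
    rw [TubS_val h s h1 (by rw [h2]; linarith), h2, th1_zero (by norm_num)]
    linarith
  have hsub3 : S3 ⊆ {w | 0 ≤ tubK P u s w} := by
    rintro _ ⟨v, hv, rfl⟩
    have h1 : ⟪u, (v : E)⟫ = 0 := Submodule.mem_orthogonal_singleton_iff_inner_right.1 v.2
    have h2 : ‖(v : E)‖ = 5 := by
      rw [mem_sphere_zero_iff_norm] at hv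
      exact hv
    show 0 ≤ tubK P u s (v : E)
    have h3 := TubS_val h s (a := 0) h1 (by rw [h2]; norm_num)
    rw [zero_smul, zero_add] at h3
    rw [h3, h2, th1_zero (by norm_num)]
    norm_num
  have hU : IsPreconnected ((S1 ∪ S2) ∪ S3) :=
    IsPreconnected.union ((5 : ℝ) • z) (Or.inr h23) (hmem3 z hz huz)
      (IsPreconnected.union (a • u + (5 : ℝ) • z) h12 h12' hS1 hS2) hS3
  exact hU.subset_connectedComponentIn (Or.inr (hmem3 y hy huy))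
    (union_subset (union_subset hsub1 hsub2) hsub3) (Or.inl (Or.inl hw1))

end Pool.Schoen
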