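import Pool.Agent.H.MP_6c077c_gt.N3.ConnA
import Pool.Agent.H.MP_6c077c_gt.N3.TubS

/-! Slices with spheres and tori, no sphere encloses a torus: good tubes. -/

set_option autoImplicit false

namespace Pool.Schoen

open Filter Set
open scoped Topology RealInnerProductSpace ContDiff

variable {V : Type*} [NormedAddCommGroup V] [InnerProductSpace ℝ V] [FiniteDimensional ℝ V]
variable {h : V → ℝ} {e : V} {L : Set ℝ}

/-- A good tube. PROOF. `u` on the bottom slice `{tubK (-b) ≤ 0}` is constant, `= q`, on the component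
of `-5u`, which contains `5u` and by `tub_left`, `tub_right` all points of the bottom slice of norm at
most `9`. The extension: `(w, s) ↦ q` for `‖w‖ ≤ 9`, `u (w, -b)` for `4 ≤ ‖w‖` (there the slices do
not depend on `s`, `tubK_far`); the two definitions agree for `4 ≤ ‖w‖ ≤ 9`. -/
theorem vn_ext {c m β : ℝ} {u : (ℝ ∙ e)ᗮ} {P : (ℝ ∙ e)ᗮ → ℝ} (hv : VN h e c m β u P) {b : ℝ}
    (hb : 0 < b) (hbβ : b ≤ β)
    (hc : (5 : ℝ) • u ∈ connectedComponentIn {w | tubK P u (-b) w ≤ 0} (-((5 : ℝ) • u))) :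
    ExtB (layS h e (c - b / m) (c - b / m)) (layS h e (c - b / m) (c + b / m)) := by
  intro v hvc hv01
  have hm := hv.hm
  have he := hv.he
  obtain ⟨c0, hc0⟩ : ∃ c0, c0 = c - b / m := ⟨_, rfl⟩
  obtain ⟨B, hB⟩ : ∃ B : Set (ℝ ∙ e)ᗮ, B = {w | tubK P u (-b) w ≤ 0} := ⟨_, rfl⟩
  rw [← hc0] at hvc hv01 ⊢
  rw [← hB] at hc
  have hmc : m * (c0 - c) = -b := by
    rw [hc0]
    field_simp
    ring
  have hsl : ∀ x, h x ≤ 0 → c0 ≤ ⟪e, x⟫ → ⟪e, x⟫ ≤ c + b / m →
      tubK P u (m * (⟪e, x⟫ - c)) (hpr e x) ≤ 0 := by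
    intro x hx h1 h2
    rw [← hv.hh x ?_]
    · exact hx
    · rw [abs_le]
      have h3 : m * (c0 - c) ≤ m * (⟪e, x⟫ - c) :=
        mul_le_mul_of_nonneg_left (by linarith) hm.le
      have h4 : m * (⟪e, x⟫ - c) ≤ m * (b / m) :=
        mul_le_mul_of_nonneg_left (by linarith) hm.le
      have h5 : m * (b / m) = b := by field_simp
      constructor
      · linarith
      · linarith
  -- the bottom slice
  have hj : ∀ w ∈ B, ((w : V) + c0 • e) ∈ layS h e c0 c0 := by
    intro w hw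
    have h1 : ⟪e, (w : V) + c0 • e⟫ = c0 := inner_hpr he _ _
    refine ⟨?_, h1.ge, h1.le⟩
    rw [hv.hh _ ?_, h1, hmc, hpr_coe he]
    · rw [hB] at hw
      exact hw
    · rw [h1, hmc, abs_neg, abs_of_pos hb]
      exact hbβ
  have hjc : ContinuousOn (fun w : (ℝ ∙ e)ᗮ => v ((w : V) + c0 • e)) B := by
    refine hvc.comp ?_ hj
    exact Continuous.continuousOn (by fun_prop)
  have hj01 : ∀ w ∈ B, v ((w : V) + c0 • e) = 0 ∨ v ((w : V) + c0 • e) = 1 :=
    fun w hw => hv01 _ (hj w hw)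
  have h5B : -((5 : ℝ) • u) ∈ B := by
    by_contra hcon
    rw [connectedComponentIn_eq_empty hcon] at hc
    exact hc
  obtain ⟨q, hq⟩ : ∃ q, q = v (((-((5 : ℝ) • u) : (ℝ ∙ e)ᗮ) : V) + c0 • e) := ⟨_, rfl⟩
  have hconst : ∀ w ∈ connectedComponentIn B (-((5 : ℝ) • u)), v ((w : V) + c0 • e) = q := by
    intro w hw
    rw [hq]
    have hsub := connectedComponentIn_subset B (-((5 : ℝ) • u))
    have hpre : IsPreconnected (connectedComponentIn B (-((5 : ℝ) • u))) :=
      isPreconnected_connectedComponentIn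
    have himg := hpre.image _ (hjc.mono hsub)
    have h1 : v ((w : V) + c0 • e) ∈ (fun w : (ℝ ∙ e)ᗮ => v ((w : V) + c0 • e)) ''
        connectedComponentIn B (-((5 : ℝ) • u)) := ⟨w, hw, rfl⟩
    have h2 : v (((-((5 : ℝ) • u) : (ℝ ∙ e)ᗮ) : V) + c0 • e) ∈
        (fun w : (ℝ ∙ e)ᗮ => v ((w : V) + c0 • e)) '' connectedComponentIn B (-((5 : ℝ) • u)) :=
      ⟨_, mem_connectedComponentIn h5B, rfl⟩
    have h3 : (1 / 2 : ℝ) ∉ (fun w : (ℝ ∙ e)ᗮ => v ((w : V) + c0 • e)) ''
        connectedComponentIn B (-((5 : ℝ) • u)) := by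
      rintro ⟨z, hz, hz2⟩
      simp only at hz2
      rcases hj01 z (hsub hz) with h | h
      · rw [h] at hz2; norm_num at hz2
      · rw [h] at hz2; norm_num at hz2
    rcases hj01 w (hsub hw) with ha | ha <;> rcases hj01 _ h5B with hb' | hb'
    · rw [ha, hb']
    · exfalso
      apply h3
      rw [ha] at h1
      rw [hb'] at h2
      exact himg.Icc_subset h1 h2 ⟨by norm_num, by norm_num⟩
    · exfalso
      apply h3
      rw [ha] at h1
      rw [hb'] at h2
      exact himg.Icc_subset h2 h1 ⟨by norm_num, by norm_num⟩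
    · rw [ha, hb']
  have hcomp : connectedComponentIn B (-((5 : ℝ) • u)) = connectedComponentIn B ((5 : ℝ) • u) :=
    connectedComponentIn_eq hc
  have hnear : ∀ w ∈ B, ‖w‖ ≤ 9 → v ((w : V) + c0 • e) = q := by
    intro w hw hw9
    have hw' : tubK P u (-b) w ≤ 0 := by
      rw [hB] at hw
      exact hw
    rcases le_total ⟪u, w⟫ 0 with h1 | h1
    · refine hconst w ?_
      rw [hB]
      exact tub_left hv.tub (by linarith) (by linarith) hw9 hw' h1 (Or.inl (by linarith))
    · refine hconst w ?_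
      rw [hcomp, hB]
      exact tub_right hv.tub (by linarith) (by linarith) hw9 hw' h1 (Or.inl (by linarith))
  have hfar : ∀ x ∈ layS h e c0 (c + b / m), 4 ≤ ‖hpr e x‖ → hpr e x ∈ B := by
    rintro x ⟨h1, h2, h3⟩ h4
    have h5 := hsl x h1 h2 h3
    rw [tubK_far hv.tub.hu _ h4] at h5
    rw [hB]
    show tubK P u (-b) (hpr e x) ≤ 0
    rw [tubK_far hv.tub.hu _ h4]
    exact h5
  have hq01 : q = 0 ∨ q = 1 := by
    rw [hq]
    exact hj01 _ h5B
  have hhpr : Continuous (fun x : V => hpr e x) := (hprL e).continuous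
  have hn : Continuous (fun x : V => ‖hpr e x‖) := hhpr.norm
  refine ⟨fun x => if ‖hpr e x‖ < 5 then q else v ((hpr e x : V) + c0 • e), ?_, ?_, ?_⟩
  · intro x hx
    rcases lt_or_ge ‖hpr e x‖ 9 with h9 | h9
    · refine (continuousWithinAt_const (b := q)).congr_of_eventuallyEq ?_ ?_
      · have h1 : ∀ᶠ x' in 𝓝[layS h e c0 (c + b / m)] x, ‖hpr e x'‖ < 9 :=
          nhdsWithin_le_nhds (hn.continuousAt.eventually (gt_mem_nhds h9))
        filter_upwards [h1, self_mem_nhdsWithin] with x' hx' hxl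
        by_cases h5 : ‖hpr e x'‖ < 5
        · rw [if_pos h5]
        · rw [if_neg h5]
          exact hnear _ (hfar x' hxl (by linarith [not_lt.1 h5])) hx'.le
      · by_cases h5 : ‖hpr e x‖ < 5
        · rw [if_pos h5]
        · rw [if_neg h5]
          exact hnear _ (hfar x hx (by linarith [not_lt.1 h5])) h9.le
    · have h5 : 5 < ‖hpr e x‖ := by linarith
      have h1 : ∀ᶠ x' in 𝓝 x, 5 < ‖hpr e x'‖ :=
        hn.continuousAt.eventually (lt_mem_nhds h5)
      have h2 : ContinuousWithinAt (fun x' : V => v ((hpr e x' : V) + c0 • e))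
          (layS h e c0 (c + b / m) ∩ {x' | 5 < ‖hpr e x'‖}) x := by
        have h3 : ContinuousWithinAt (fun w : (ℝ ∙ e)ᗮ => v ((w : V) + c0 • e)) B (hpr e x) :=
          hjc _ (hfar x hx (by linarith))
        refine ContinuousWithinAt.comp (g := fun w : (ℝ ∙ e)ᗮ => v ((w : V) + c0 • e)) (t := B)
          h3 hhpr.continuousWithinAt ?_
        rintro x' ⟨hx', hx5⟩
        have hx5' : 5 < ‖hpr e x'‖ := hx5
        exact hfar x' hx' (by linarith)
      have h4 : ContinuousWithinAt (fun x' : V => v ((hpr e x' : V) + c0 • e))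
          (layS h e c0 (c + b / m)) x :=
        (continuousWithinAt_inter h1).1 h2
      refine h4.congr_of_eventuallyEq ?_ ?_
      · filter_upwards [nhdsWithin_le_nhds h1] with x' hx'
        rw [if_neg (not_lt.2 hx'.le)]
      · rw [if_neg (not_lt.2 h5.le)]
  · intro x hx
    by_cases h5 : ‖hpr e x‖ < 5
    · simp only [if_pos h5]
      exact hq01
    · simp only [if_neg h5]
      exact hj01 _ (hfar x hx (by linarith [not_lt.1 h5]))
  · rintro x ⟨h1, h2, h3⟩
    have hx0 : ⟪e, x⟫ = c0 := le_antisymm h3 h2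
    have hxe : ((hpr e x : (ℝ ∙ e)ᗮ) : V) + c0 • e = x := by
      rw [← hx0]
      exact hpr_add he x
    have hbm : 0 < b / m := by positivity
    have hxB : hpr e x ∈ B := by
      have h4 := hsl x h1 h2 (by linarith)
      rw [hx0, hmc] at h4
      rw [hB]
      exact h4
    by_cases h5 : ‖hpr e x‖ < 5
    · simp only [if_pos h5]
      rw [← hnear _ hxB (by linarith), hxe]
    · simp only [if_neg h5]
      rw [hxe]

/-- Either a bad normal form, or locally constant maps extend over arbitrarily thin layers.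
PROOF. If not `TBad` then `5u` is in the component for some `b`, hence for all smaller `b`
(`{tubK (-b) ≤ 0}` decreases in `b`); `vn_ext`, and `ExtB.image` with `extH e φ` (which maps the layers
of `l * h ∘ extH e φ` onto those of `h`). -/
theorem vnx_or {p : V} (he : ‖e‖ = 1) (hv : VNx h e p) :
    (∃ (φ ψ : (ℝ ∙ e)ᗮ → (ℝ ∙ e)ᗮ) (l m β : ℝ) (u : (ℝ ∙ e)ᗮ) (P : (ℝ ∙ e)ᗮ → ℝ),
      Dif φ ψ ∧ 0 < l ∧ extH e φ (⟪e, p⟫ • e) = p ∧
        VN (fun x => l * h (extH e φ x)) e ⟪e, p⟫ m β u P ∧ TBad P u β) ∨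
    ∀ δ > 0, ∃ b, 0 < b ∧ b < δ ∧
      ExtB (layS h e (⟪e, p⟫ - b) (⟪e, p⟫ - b)) (layS h e (⟪e, p⟫ - b) (⟪e, p⟫ + b)) := by
  obtain ⟨φ, ψ, l, m, β, u, P, hφ, hl, hp, hvn⟩ := hv
  by_cases hbad : TBad P u β
  · exact Or.inl ⟨φ, ψ, l, m, β, u, P, hφ, hl, hp, hvn, hbad⟩
  · right
    intro δ hδ
    unfold TBad at hbad
    push Not at hbad
    obtain ⟨b0, hb0, hb0β, hc⟩ := hbad
    have hm := hvn.hm
    obtain ⟨b, hbd⟩ : ∃ b, b = min b0 (m * δ / 2) := ⟨_, rfl⟩
    have hb : 0 < b := by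
      rw [hbd]
      exact lt_min hb0 (by positivity)
    have hbb0 : b ≤ b0 := by
      rw [hbd]
      exact min_le_left _ _
    have hbm : b / m < δ := by
      rw [div_lt_iff₀ hm]
      have h1 : b ≤ m * δ / 2 := by
        rw [hbd]
        exact min_le_right _ _
      have h2 : 0 < m * δ := by positivity
      linarith
    have hsub : {w | tubK P u (-b0) w ≤ 0} ⊆ {w | tubK P u (-b) w ≤ 0} := by
      intro w hw
      have hw' : P w - (-b0) * tubC u w ≤ 0 := hw
      show P w - (-b) * tubC u w ≤ 0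
      have h1 : b * tubC u w ≤ b0 * tubC u w :=
        mul_le_mul_of_nonneg_right hbb0 (tubC_mem u w).1
      linarith
    have hE := vn_ext hvn hb (hbb0.trans hb0β) (connectedComponentIn_mono _ hsub hc)
    refine ⟨b / m, by positivity, hbm, ?_⟩
    have hΦ := Dif.extH he hφ
    obtain ⟨Φ, hΦe⟩ : ∃ Φ : V ≃ₜ V, ⇑Φ = extH e φ :=
      ⟨{ toFun := extH e φ
         invFun := extH e ψ
         left_inv := hΦ.left
         right_inv := hΦ.right
         continuous_toFun := hΦ.smooth.continuous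
         continuous_invFun := hΦ.smooth'.continuous }, rfl⟩
    have himg : ∀ s t : ℝ, Φ '' layS (fun x => l * h (extH e φ x)) e s t = layS h e s t := by
      intro s t
      ext y
      constructor
      · rintro ⟨x, ⟨h1, h2, h3⟩, rfl⟩
        rw [hΦe]
        refine ⟨?_, ?_, ?_⟩
        · by_contra hcon
          exact absurd h1 (not_le.2 (mul_pos hl (not_le.1 hcon)))
        · rw [extH_height he]
          exact h2
        · rw [extH_height he]
          exact h3
      · rintro ⟨h1, h2, h3⟩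
        refine ⟨extH e ψ y, ⟨?_, ?_, ?_⟩, ?_⟩
        · show l * h (extH e φ (extH e ψ y)) ≤ 0
          rw [hΦ.right]
          exact mul_nonpos_of_nonneg_of_nonpos hl.le h1
        · rw [extH_height he]
          exact h2
        · rw [extH_height he]
          exact h3
        · rw [hΦe]
          exact hΦ.right y
    have h1 := hE.image Φ
    rw [himg, himg] at h1
    exact h1

end Pool.Schoen
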