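import Pool.Agent.H.MP_6c077c_gt.N2.DefsB

/-! Slices with spheres and tori, no sphere encloses a torus: the class of the induction. -/

set_option autoImplicit false

namespace Pool.Schoen

open Filter Set
open scoped Topology RealInnerProductSpace ContDiff

section E

variable {E : Type*} [NormedAddCommGroup E] [InnerProductSpace ℝ E]

/-- The component of the zero set which contains `w`. -/
def cE (g : E → ℝ) (w : E) : Set E := connectedComponentIn {z | g z = 0} w

/-- `z` lies in a bounded component of the complement of `T`. -/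
def EncE (T : Set E) (z : E) : Prop := z ∉ T ∧ Bornology.IsBounded (connectedComponentIn Tᶜ z)

/-- The components of the zero set have the lifting property or rank at most two, and a component
with the lifting property encloses only components with the lifting property. -/
def SlE (g : E → ℝ) : Prop :=
  ∀ w, g w = 0 → (LiftS (cE g w) ∨ Dep3 (cE g w)) ∧
    (LiftS (cE g w) → ∀ z, g z = 0 → EncE (cE g w) z → LiftS (cE g z))

/-- No component of the zero set has the lifting property. -/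
def NoS (g : E → ℝ) : Prop := ∀ w, g w = 0 → ¬ LiftS (cE g w)

/-- `D` is a relatively closed and open part of the closed set `X`. -/
structure Clp (D X : Set E) : Prop where
  cl : IsClosed D
  sub : D ⊆ X
  cl' : IsClosed (X \ D)

end E

variable {V : Type*} [NormedAddCommGroup V] [InnerProductSpace ℝ V] [FiniteDimensional ℝ V]

/-- A horizontal zero which is neither a minimum nor a maximum. -/
def Sad (f : V → ℝ) (e x : V) : Prop :=
  Crit f e x ∧ ∃ k, Idx f e x k ∧ k ≠ 0 ∧ k + 1 ≠ Module.finrank ℝ V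

/-- The number of saddles. -/
noncomputable def nSad (f : V → ℝ) (e : V) : ℕ := Set.ncard {x | Sad f e x}

/-- The class of the induction. -/
structure KN (f : V → ℝ) (e : V) (L : Set ℝ) (S : Finset V) : Prop where
  mo : Mo f e
  reg : ∀ x, Crit f e x → ⟪e, x⟫ ∉ L
  conn : IsConnected {x | f x ≤ 0}
  out : IsConnected {x | 0 ≤ f x}
  lift : LiftS {x | f x = 0}
  gap : ∀ p q, Sad f e p → Sad f e q → (∀ c ∈ L, (⟪e, p⟫ < c ↔ ⟪e, q⟫ < c)) → p = q
  iso : ∀ p q, Sad f e p → Crit f e q → ⟪e, q⟫ = ⟪e, p⟫ → q = p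
  lev : ∀ p, Sad f e p → (∃ c ∈ L, c < ⟪e, p⟫) ∧ ∃ c ∈ L, ⟪e, p⟫ < c
  sl : ∀ c ∈ L, SlE (slc f e c)
  near : ∀ p, Sad f e p → ∀ᶠ t in 𝓝[≠] ⟪e, p⟫, SlE (slc f e t)
  mark : Mark f e L S

section tube

variable {E : Type*} [NormedAddCommGroup E] [InnerProductSpace ℝ E]

/-- The radial cut-off of the tube, a function of the square of the radius. -/
noncomputable def th1 (z : ℝ) : ℝ := Real.smoothTransition ((1 - z) * (4 / 3))

/-- The axial cut-off of the tube, a function of the square of the height. -/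
noncomputable def th2 (z : ℝ) : ℝ := Real.smoothTransition ((9 - z) / 5)

/-- The cut-off of the tube around the axis through `u`. -/
noncomputable def tubC (u w : E) : ℝ := th1 (‖orth u w‖ ^ 2) * th2 (⟪u, w⟫ ^ 2)

/-- The slices of the vertical normal form. -/
noncomputable def tubK (P : E → ℝ) (u : E) (s : ℝ) (w : E) : ℝ := P w - s * tubC u w

/-- The critical slice of the vertical normal form. -/
structure TubP [FiniteDimensional ℝ E] (P : E → ℝ) (u : E) (β : ℝ) : Prop where
  hu : ‖u‖ = 1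
  hβ : 0 < β
  hβ1 : β ≤ 1 / 100
  hθ : ∀ z, β * |deriv th1 z| ≤ 1 / 4
  sm : ContDiff ℝ ∞ P
  bdd : Bornology.IsBounded {w | P w = 0}
  reg : ∀ w, P w = 0 → w ≠ 0 → gradient P w ≠ 0
  mod : ∀ w, ‖w‖ ≤ 10 → P w = ‖orth u w‖ ^ 2 - ⟪u, w⟫ ^ 2

/-- The two sectors lie in different components of the lower slices. -/
def TBad (P : E → ℝ) (u : E) (β : ℝ) : Prop :=
  ∀ b, 0 < b → b ≤ β →
    (5 : ℝ) • u ∉ connectedComponentIn {w | tubK P u (-b) w ≤ 0} (-((5 : ℝ) • u))

end tube

/-- The vertical normal form at the tube `c • e`. -/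
structure VN (h : V → ℝ) (e : V) (c m β : ℝ) (u : (ℝ ∙ e)ᗮ) (P : (ℝ ∙ e)ᗮ → ℝ) : Prop where
  he : ‖e‖ = 1
  hm : 0 < m
  tub : TubP P u β
  hh : ∀ x, |m * (⟪e, x⟫ - c)| ≤ β → h x = tubK P u (m * (⟪e, x⟫ - c)) (hpr e x)

/-- The function has a vertical normal form at `p`. -/
def VNx (h : V → ℝ) (e p : V) : Prop :=
  ∃ (φ ψ : (ℝ ∙ e)ᗮ → (ℝ ∙ e)ᗮ) (l m β : ℝ) (u : (ℝ ∙ e)ᗮ) (P : (ℝ ∙ e)ᗮ → ℝ),
    Dif φ ψ ∧ 0 < l ∧ extH e φ (⟪e, p⟫ • e) = p ∧
      VN (fun x => l * h (extH e φ x)) e ⟪e, p⟫ m β u P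

/-- Locally constant maps extend upwards over all gaps. -/
def UpE (h : V → ℝ) (e : V) (L : Set ℝ) : Prop :=
  ∀ c ∈ L, ∀ c' ∈ L, c < c' → (∀ d ∈ L, d ≤ c ∨ c' ≤ d) →
    ExtB (layS h e c c) (layS h e c c')

end Pool.Schoen
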