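import Pool.Agent.H.MP_6c077c_gt.N3.Defs
import Pool.Agent.H.MP_6c077c_gt.N2.Foot
import Pool.Agent.H.MP_6c077c_gt.F2.LeafB

/-! Slices with spheres and tori, no sphere encloses a torus: an innermost sphere. -/

set_option autoImplicit false

namespace Pool.Schoen

open Filter Set
open scoped Topology RealInnerProductSpace ContDiff

variable {E : Type*} [NormedAddCommGroup E] [InnerProductSpace ℝ E] [FiniteDimensional ℝ E]

/-- The two sides of a component. -/
private theorem Inner_side (hE : Module.finrank ℝ E = 3) {g : E → ℝ} (hg : ContDiff ℝ ∞ g)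
    (hb : Bornology.IsBounded {x | g x = 0}) (hr : ∀ x, g x = 0 → gradient g x ≠ 0) {w : E}
    (hw : g w = 0) :
    ∃ (q : E → ℝ) (τ : ℝ), (τ = 1 ∨ τ = -1) ∧ ContDiff ℝ ∞ q ∧ (∀ x, q x = 0 ↔ x ∈ cE g w) ∧
      (∀ x ∈ cE g w, q =ᶠ[𝓝 x] g) ∧ Bornology.IsBounded {x | τ * q x ≤ 0} ∧
      IsPreconnected {x | 0 < τ * q x} := by
  have hY : Pc {x | g x = 0} (cE g w) := comp_pc hg hr hw
  obtain ⟨q, hq, hq0, hqg, hqr⟩ := pc_fun hg hb hr hY
  have hset : {x | q x = 0} = cE g w := by
    ext x
    exact hq0 x
  have hqb : Bornology.IsBounded {x | q x = 0} := by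
    rw [hset]
    exact hb.subset hY.sub
  have hqc : IsConnected {x | q x = 0} := by
    rw [hset]
    exact hY.conn
  have hgood : Good q := good_of_regular hq hqb fun x hx => Final_fderiv_ne (hqr x hx)
  obtain ⟨h1, h2⟩ := sides_conn hq.continuous hqc
  rcases hgood.bdd_side (by omega) with h | h
  · refine ⟨q, 1, Or.inl rfl, hq, hq0, hqg, ?_, ?_⟩
    · simpa only [one_mul] using h
    · simpa only [one_mul] using hgood.open_compl h2.isPreconnected
  · have hgood' : Good fun x => -q x := by
      refine good_of_regular hq.neg ?_ fun x hx => Final_fderiv_ne ?_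
      · refine hqb.subset fun x hx => ?_
        have hx' : -q x = 0 := hx
        show q x = 0
        linarith
      · have hx' : q x = 0 := by linarith
        have e1 : gradient (fun x => -q x) x = -gradient q x := by
          unfold gradient
          rw [fderiv_fun_neg, map_neg]
        rw [e1]
        exact neg_ne_zero.2 (hqr x hx')
    refine ⟨q, -1, Or.inr rfl, hq, hq0, hqg, ?_, ?_⟩
    · refine h.subset fun x hx => ?_
      have hx' : -1 * q x ≤ 0 := hx
      show 0 ≤ q x
      linarith
    · have e1 : {x | 0 ≤ -q x} = {x | q x ≤ 0} := by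
        ext x
        show 0 ≤ -q x ↔ q x ≤ 0
        constructor <;> intro h <;> linarith
      have e2 : {x | 0 < -1 * q x} = {x | 0 < -q x} := by
        ext x
        show 0 < -1 * q x ↔ 0 < -q x
        rw [neg_one_mul]
      rw [e2]
      exact hgood'.open_compl (by rw [e1]; exact h1.isPreconnected)

/-- An innermost sphere in or inside a sphere bounds a ball without other zeros. PROOF. Let
`T = cE g w` and `T'` its closed inside: `T` and the `z` with `EncE T z`; `g'` = the part of `g` whose
zeros are those of `g` in `T'` (`pc_fun` for each of the finitely many components, or: multiply; or an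
induction on the number of components inside, choosing a component inside `T` when there is one; the
inside of a component inside `T` is inside `T`). All its components have the lifting property (`hs`).
The innermost one, `T₀`: `exists_innermost`/`leaf_ball` or `pc_fun` and `alexander_rd`: the bounded
side `K` of `T₀` contains no other zero, so it is a clopen part of `{s * g ≤ 0}` for a sign `s`,
`exists_smooth_part` gives `k`, and `alexander_rd`, `Rd.isBall` give `IsBall k`. -/
theorem inner_ball (hE : Module.finrank ℝ E = 3) {g : E → ℝ} (hg : ContDiff ℝ ∞ g)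
    (hb : Bornology.IsBounded {x | g x = 0}) (hr : ∀ x, g x = 0 → gradient g x ≠ 0) {w : E}
    (hw : g w = 0) (hl : LiftS (cE g w))
    (hs : ∀ z, g z = 0 → EncE (cE g w) z → LiftS (cE g z)) :
    ∃ s : ℝ, (s = 1 ∨ s = -1) ∧ ∃ k : E → ℝ, Dom k ∧ IsBall k ∧ (∀ z, k z ≤ 0 → s * g z ≤ 0) ∧
      (∀ z, k z ≤ 0 → k =ᶠ[𝓝 z] fun y => s * g y) ∧
      Clp {z | k z ≤ 0} {z | s * g z ≤ 0} ∧
      ∀ z, k z = 0 → z ∈ cE g w ∨ EncE (cE g w) z := by
  classical
  have : Nontrivial E := Module.nontrivial_of_finrank_pos (R := ℝ) (by omega)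
  obtain ⟨q, τ, hτ, hq, hq0, hqg, hqb, hqp⟩ := Inner_side hE hg hb hr hw
  have hτ2 : τ * τ = 1 := by rcases hτ with h | h <;> rw [h] <;> norm_num
  have hτ0 : τ ≠ 0 := by rcases hτ with h | h <;> rw [h] <;> norm_num
  have hqcont := hq.continuous
  -- the closed inside
  obtain ⟨T, hT⟩ : ∃ T : Set E, T = {x | τ * q x ≤ 0} := ⟨_, rfl⟩
  have hTm : ∀ x, x ∈ T ↔ τ * q x ≤ 0 := fun x => by rw [hT]; exact Iff.rfl
  have hTcl : IsClosed T := by
    rw [hT]
    exact isClosed_le (continuous_const.mul hqcont) continuous_const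
  have hTc : IsCompact T := Metric.isCompact_of_isClosed_isBounded hTcl (by rw [hT]; exact hqb)
  have hwT : ∀ x ∈ cE g w, x ∈ T := by
    intro x hx
    rw [hTm, (hq0 x).2 hx, mul_zero]
  have hTE : ∀ x ∈ T, x ∈ cE g w ∨ EncE (cE g w) x := by
    intro x hx
    by_cases hxc : x ∈ cE g w
    · exact Or.inl hxc
    · refine Or.inr ⟨hxc, ?_⟩
      have h1 : IsPreconnected (connectedComponentIn (cE g w)ᶜ x) :=
        isPreconnected_connectedComponentIn
      have hne : q x ≠ 0 := fun h => hxc ((hq0 x).1 h)
      have hlt : τ * q x < 0 := lt_of_le_of_ne ((hTm x).1 hx) (mul_ne_zero hτ0 hne)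
      have h2 : connectedComponentIn (cE g w)ᶜ x ⊆ {x | τ * q x < 0} := by
        refine h1.subset_left_of_subset_union (v := {x | 0 < τ * q x})
          (isOpen_lt (continuous_const.mul hqcont) continuous_const)
          (isOpen_lt continuous_const (continuous_const.mul hqcont)) ?_ ?_
          ⟨x, mem_connectedComponentIn hxc, hlt⟩
        · rw [Set.disjoint_left]
          intro y hy hy'
          have hy1 : τ * q y < 0 := hy
          have hy2 : 0 < τ * q y := hy'
          linarith
        · intro y hy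
          have hyc : y ∉ cE g w := connectedComponentIn_subset _ _ hy
          have hy0 : τ * q y ≠ 0 := mul_ne_zero hτ0 fun h => hyc ((hq0 y).1 h)
          rcases lt_or_gt_of_ne hy0 with h | h
          · exact Or.inl h
          · exact Or.inr h
      refine hqb.subset fun y hy => ?_
      have h3 : τ * q y < 0 := h2 hy
      exact h3.le
  -- the part of the function inside
  obtain ⟨N, hN⟩ : ∃ N : Set E, N = {x | τ * q x < 0} ∪ interior {x | q x = g x} := ⟨_, rfl⟩
  have hNo : IsOpen N := by
    rw [hN]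
    exact (isOpen_lt (continuous_const.mul hqcont) continuous_const).union isOpen_interior
  have hTN : T ⊆ N := by
    intro x hx
    rw [hN]
    rcases lt_or_eq_of_le ((hTm x).1 hx) with h | h
    · exact Or.inl h
    · refine Or.inr ?_
      have h1 : q x = 0 := by
        rcases mul_eq_zero.1 h with h' | h'
        · exact absurd h' hτ0
        · exact h'
      rw [mem_interior_iff_mem_nhds]
      exact hqg x ((hq0 x).1 h1)
  have hNg : ∀ x ∈ N, x ∉ T → 0 < τ * g x := by
    intro x hx hxT
    rw [hTm, not_le] at hxT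
    rw [hN] at hx
    rcases hx with h | h
    · have h' : τ * q x < 0 := h
      linarith
    · have h1 : x ∈ {x | q x = g x} := interior_subset h
      have h' : q x = g x := h1
      rw [← h']
      exact hxT
  obtain ⟨χ, h1, h2, h3⟩ :=
    exists_contMDiffMap_one_nhds_of_subset_interior (modelWithCornersSelf ℝ E) (n := (⊤ : ℕ∞))
      hTcl (t := N) (by rwa [hNo.interior_eq])
  have hχ : ContDiff ℝ ∞ χ := χ.contMDiff.contDiff
  have hnear : ∀ x ∈ T, ∀ᶠ y in 𝓝 x, χ y = 1 := fun x hx =>
    h1.filter_mono (nhds_le_nhdsSet hx)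
  obtain ⟨f, hf⟩ : ∃ f : E → ℝ, f = fun x => (1 - χ x) * τ + χ x * g x := ⟨_, rfl⟩
  have hfs : ContDiff ℝ ∞ f := by
    rw [hf]
    exact ((contDiff_const.sub hχ).mul contDiff_const).add (hχ.mul hg)
  have hfT : ∀ x ∈ T, f =ᶠ[𝓝 x] g := by
    intro x hx
    filter_upwards [hnear x hx] with y hy
    rw [hf]
    show (1 - χ y) * τ + χ y * g y = g y
    rw [hy]
    ring
  have hf0 : ∀ x, x ∉ T → f x ≠ 0 := by
    intro x hx h0
    have h4 := (h3 x).1
    have h5 := (h3 x).2
    have h6 : τ * f x = (1 - χ x) + χ x * (τ * g x) := by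
      rw [hf]
      show τ * ((1 - χ x) * τ + χ x * g x) = _
      linear_combination (1 - χ x) * hτ2
    rw [h0, mul_zero] at h6
    by_cases hxN : x ∈ N
    · have h7 := hNg x hxN hx
      rcases eq_or_lt_of_le h4 with h8 | h8
      · rw [← h8] at h6
        norm_num at h6
      · nlinarith [mul_pos h8 h7]
    · rw [h2 x hxN] at h6
      norm_num at h6
  have hf0' : ∀ x, f x = 0 → x ∈ T ∧ g x = 0 := by
    intro x hx
    have hxT : x ∈ T := by
      by_contra h
      exact hf0 x h hx
    exact ⟨hxT, by rw [← (hfT x hxT).eq_of_nhds]; exact hx⟩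
  have hfb : Bornology.IsBounded {x | f x = 0} := hb.subset fun x hx => (hf0' x hx).2
  have hfr : ∀ x, f x = 0 → gradient f x ≠ 0 := by
    intro x hx
    have h4 : gradient f x = gradient g x := by
      unfold gradient
      rw [(hfT x (hf0' x hx).1).fderiv_eq]
    rw [h4]
    exact hr x (hf0' x hx).2
  have hfw : f w = 0 := by
    rw [(hfT w (hwT w (mem_connectedComponentIn hw))).eq_of_nhds]
    exact hw
  have hgood : Good f := good_of_regular hfs hfb fun x hx => Final_fderiv_ne (hfr x hx)
  obtain ⟨s, hs1, K, W, hK, hKc, hKc', hW, hKW, hKg⟩ :=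
    hgood.exists_innermost (by rw [hE]; norm_num) ⟨w, hfw⟩
  have hs0 : s ≠ 0 := by rcases hs1 with h | h <;> rw [h] <;> norm_num
  -- the region lies inside
  have hKT : K ⊆ T := by
    intro x hx
    by_contra hxT
    have hU : IsPreconnected {x | 0 < τ * q x} := hqp
    have hxU : x ∈ {x | 0 < τ * q x} := by
      rw [hTm, not_le] at hxT
      exact hxT
    have hfU : ∀ y ∈ {x | 0 < τ * q x}, f y ≠ 0 := by
      intro y hy
      refine hf0 y fun hyT => ?_
      have h4 := (hTm y).1 hyT
      have hy' : 0 < τ * q y := hy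
      linarith
    have h4 : {x | 0 < τ * q x} ⊆ W ∩ {x | s * f x < 0} := by
      refine hU.subset_left_of_subset_union (v := Kᶜ)
        (hW.inter (isOpen_lt (continuous_const.mul hfs.continuous) continuous_const))
        hK.isClosed.isOpen_compl ?_ ?_ ?_
      · rw [Set.disjoint_left]
        rintro y ⟨hyW, hy⟩ hyK
        have hy' : s * f y < 0 := hy
        exact hyK ((hKg y hyW).1 hy'.le)
      · intro y hy
        by_cases hyK : y ∈ K
        · refine Or.inl ⟨hKW hyK, ?_⟩
          exact lt_of_le_of_ne ((hKg y (hKW hyK)).2 hyK) (mul_ne_zero hs0 (hfU y hy))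
        · exact Or.inr hyK
      · refine ⟨x, hxU, hKW hx, ?_⟩
        exact lt_of_le_of_ne ((hKg x (hKW hx)).2 hx) (mul_ne_zero hs0 (hfU x hxU))
    have h5 : (univ : Set E) ⊆ K ∪ T := by
      intro y _
      by_cases hyT : y ∈ T
      · exact Or.inr hyT
      · rw [hTm, not_le] at hyT
        obtain ⟨hyW, hy⟩ := h4 hyT
        have hy' : s * f y < 0 := hy
        exact Or.inl ((hKg y hyW).1 hy'.le)
    exact NormedSpace.unbounded_univ ℝ E ((hK.isBounded.union hTc.isBounded).subset h5)
  -- the neighbourhood where the function is the given one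
  obtain ⟨W', hW'⟩ : ∃ W' : Set E, W' = W ∩ interior {x | f x = g x} := ⟨_, rfl⟩
  have hW'o : IsOpen W' := by rw [hW']; exact hW.inter isOpen_interior
  have hKW' : K ⊆ W' := by
    intro x hx
    rw [hW']
    refine ⟨hKW hx, ?_⟩
    rw [mem_interior_iff_mem_nhds]
    exact hfT x (hKT hx)
  have hKg' : ∀ x ∈ W', s * g x ≤ 0 ↔ x ∈ K := by
    intro x hx
    rw [hW'] at hx
    have h5 : x ∈ {x | f x = g x} := interior_subset hx.2
    have h4 : f x = g x := h5
    rw [← h4]
    exact hKg x hx.1
  obtain ⟨k, hk, hk0, hkg⟩ := exists_smooth_part hg s hK hW'o hKW' hKg'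
  have hset : {x | k x ≤ 0} = K := by
    ext x
    exact hk0 x
  have hset' : {x | 0 < k x} = Kᶜ := by
    ext x
    show 0 < k x ↔ x ∉ K
    rw [← hk0 x, not_le]
  have hkz : ∀ x, k x = 0 → g x = 0 := by
    intro x hx
    have h1 := (hkg x ((hk0 x).1 hx.le)).eq_of_nhds
    rw [hx] at h1
    rcases mul_eq_zero.1 h1.symm with h | h
    · exact absurd h hs0
    · exact h
  have hkr : ∀ x, k x = 0 → gradient k x ≠ 0 := by
    intro x hx
    have h1 := hkg x ((hk0 x).1 hx.le)
    have h3 : gradient k x = gradient (fun y => s * g y) x := by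
      unfold gradient
      rw [h1.fderiv_eq]
    have h4 : gradient (fun y => s * g y) x = s • gradient g x := by
      unfold gradient
      rw [fderiv_const_mul (hg.differentiable (by norm_num) x), map_smul]
    rw [h3, h4]
    exact smul_ne_zero hs0 (hr x (hkz x hx))
  have hkb : Bornology.IsBounded {x | k x ≤ 0} := by rw [hset]; exact hK.isBounded
  have hkzb : Bornology.IsBounded {x | k x = 0} := hkb.subset fun x (hx : k x = 0) => hx.le
  have hconn : IsConnected {x | k x ≤ 0} := by rw [hset]; exact hKc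
  have hpos : IsConnected {x | 0 < k x} := by rw [hset']; exact hKc'
  have hout : IsConnected {x | 0 ≤ k x} := by
    refine ⟨?_, NoSad_closed (fun x hx => NoSad_closure hk hx (hkr x hx)) hpos.isPreconnected⟩
    obtain ⟨a, ha⟩ := hpos.nonempty
    exact ⟨a, (show 0 ≤ k a from (show 0 < k a from ha).le)⟩
  have c1 : IsClosed {x | k x ≤ 0} := isClosed_le hk.continuous continuous_const
  have c2 : IsClosed {x | 0 ≤ k x} := isClosed_le continuous_const hk.continuous
  have c3 : {x | k x ≤ 0} ∪ {x | 0 ≤ k x} = univ := by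
    rw [eq_univ_iff_forall]
    intro x
    rcases le_total (k x) 0 with h | h
    · exact Or.inl h
    · exact Or.inr h
  have c4 : {x | k x ≤ 0} ∩ {x | 0 ≤ k x} = {x | k x = 0} := by
    ext x
    exact ⟨fun h => le_antisymm h.1 h.2, fun h => ⟨le_of_eq h, ge_of_eq h⟩⟩
  have hzc : IsPreconnected {x | k x = 0} := by
    rw [← c4]
    exact alu_unicoherent (liftS_univ E) c1 c2 hconn.isPreconnected hout.isPreconnected c3
  have hKX : {x | s * g x ≤ 0} \ K = {x | s * g x ≤ 0} ∩ W'ᶜ := by
    ext x
    constructor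
    · rintro ⟨h4, h5⟩
      exact ⟨h4, fun h6 => h5 ((hKg' x h6).1 h4)⟩
    · rintro ⟨h4, h5⟩
      exact ⟨h4, fun h6 => h5 (hKW' h6)⟩
  -- the boundary has the lifting property
  have hlz : LiftS {x | k x = 0} := by
    rcases {x | k x = 0}.eq_empty_or_nonempty with he | ⟨z, hz⟩
    · rw [he]
      exact fun _ _ _ => ⟨fun _ => 0, continuousOn_const, fun _ hx => absurd hx (notMem_empty _)⟩
    · have hz' : k z = 0 := hz
      have hP : Pc {x | g x = 0} {x | k x = 0} := by
        refine ⟨fun x hx => hkz x hx, ⟨⟨z, hz⟩, hzc⟩, isClosed_eq hk.continuous continuous_const, ?_⟩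
        have h4 : {x | g x = 0} \ {x | k x = 0} = {x | g x = 0} ∩ W'ᶜ := by
          ext x
          constructor
          · rintro ⟨h4, h5⟩
            refine ⟨h4, fun h6 => h5 ?_⟩
            have h4' : g x = 0 := h4
            have h7 : x ∈ K := (hKg' x h6).1 (by rw [h4', mul_zero])
            show k x = 0
            rw [(hkg x h7).eq_of_nhds, h4', mul_zero]
          · rintro ⟨h4, h5⟩
            refine ⟨h4, fun h6 => h5 (hKW' ((hk0 x).1 (le_of_eq h6)))⟩
        rw [h4]
        exact (isClosed_eq hg.continuous continuous_const).inter hW'o.isClosed_compl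
      have hzT : z ∈ T := hKT ((hk0 z).1 hz'.le)
      have h5 : cE g z = {x | k x = 0} := hP.eq_comp hz
      rw [← h5]
      rcases hTE z hzT with h6 | h6
      · have h7 : cE g w = cE g z := connectedComponentIn_eq h6
        rw [← h7]
        exact hl
      · exact hs z (hkz z hz') h6
  have hlift : LiftS {x | k x ≤ 0} := by
    refine LiftS.of_union c1 c2 ?_ ?_
    · rw [c3]
      exact liftS_univ E
    · rw [c4]
      exact hlz
  have hball : IsBall k :=
    (alexander_rd hE hk hkzb hkr ⟨hconn, hout, Or.inl hlift⟩).isBall hkb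
  refine ⟨s, hs1, k, ⟨hk, hkb, hkr, hconn, hlift⟩, hball, ?_, ?_, ?_, ?_⟩
  · intro z hz
    have hzK : z ∈ K := (hk0 z).1 hz
    exact (hKg' z (hKW' hzK)).2 hzK
  · intro z hz
    exact hkg z ((hk0 z).1 hz)
  · rw [hset]
    refine ⟨hK.isClosed, fun z hz => (hKg' z (hKW' hz)).2 hz, ?_⟩
    rw [hKX]
    exact (isClosed_le (continuous_const.mul hg.continuous) continuous_const).inter
      hW'o.isClosed_compl
  · intro z hz
    exact hTE z (hKT ((hk0 z).1 hz.le))

end Pool.Schoen
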