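import Pool.Agent.H.MP_6c077c_gt.N3.TubS
import Pool.Agent.H.MP_6c077c_gt.N3.Inner

/-! Slices with spheres and tori, no sphere encloses a torus: one side of a bad tube is a ball. -/

set_option autoImplicit false

namespace Pool.Schoen

open Filter Set
open scoped Topology RealInnerProductSpace ContDiff

variable {E : Type*} [NormedAddCommGroup E] [InnerProductSpace ℝ E] [FiniteDimensional ℝ E]

/-- There is no compact clopen part with the lifting property away from the tube. -/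
def NoD (g : E → ℝ) : Prop :=
  ∀ s : ℝ, (s = 1 ∨ s = -1) → ∀ D : Set E, Clp D {w | s * g w ≤ 0} → IsCompact D → D.Nonempty →
    LiftS D → (∀ w ∈ D, 4 < ‖w‖) → False

/-! The geometry of the tube. -/

private theorem FootBall_pt {u y : E} (hu : ‖u‖ = 1) (hy : ⟪u, y⟫ = 0) (t : ℝ) :
    orth u (y + t • u) = y ∧ ⟪u, y + t • u⟫ = t := by
  have h1 : ⟪u, y + t • u⟫ = t := by
    rw [inner_add_right, inner_smul_right, hy, real_inner_self_eq_norm_sq, hu]
    ring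
  refine ⟨?_, h1⟩
  unfold orth
  rw [h1, add_sub_cancel_right]

private theorem FootBall_dec (u w : E) : orth u w + ⟪u, w⟫ • u = w := by
  unfold orth
  rw [sub_add_cancel]

private theorem FootBall_circ (hE : Module.finrank ℝ E = 3) {u : E} (hu : ‖u‖ = 1) :
    IsConnected {y : E | ⟪u, y⟫ = 0 ∧ ‖y‖ = 1} := by
  have hu0 : u ≠ 0 := by
    rintro rfl
    rw [norm_zero] at hu
    exact zero_ne_one hu
  have : Fact (Module.finrank ℝ E = 2 + 1) := ⟨by rw [hE]⟩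
  have hfr : Module.finrank ℝ (ℝ ∙ u)ᗮ = 2 := Submodule.finrank_orthogonal_span_singleton hu0
  have hrank : 1 < Module.rank ℝ (ℝ ∙ u)ᗮ := by
    rw [← Module.finrank_eq_rank, hfr]
    exact_mod_cast (by norm_num : 1 < 2)
  have hsc : IsConnected (Metric.sphere (0 : (ℝ ∙ u)ᗮ) 1) :=
    isConnected_sphere hrank 0 zero_le_one
  have h1 : {y : E | ⟪u, y⟫ = 0 ∧ ‖y‖ = 1} =
      (fun y : (ℝ ∙ u)ᗮ => (y : E)) '' Metric.sphere (0 : (ℝ ∙ u)ᗮ) 1 := by
    ext y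
    constructor
    · rintro ⟨h1, h2⟩
      refine ⟨⟨y, Submodule.mem_orthogonal_singleton_iff_inner_right.2 h1⟩, ?_, rfl⟩
      rw [mem_sphere_zero_iff_norm]
      exact h2
    · rintro ⟨z, hz, rfl⟩
      rw [mem_sphere_zero_iff_norm] at hz
      exact ⟨Submodule.mem_orthogonal_singleton_iff_inner_right.1 z.2, hz⟩
  rw [h1]
  exact hsc.image _ continuous_subtype_val.continuousOn

/-- The part of the zero set off the cylinder. -/
private def FbQ (P : E → ℝ) (u : E) : Set E := {w | P w = 0 ∧ (1 ≤ ‖orth u w‖ ∨ 3 ≤ |⟪u, w⟫|)}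

/-- The discs. -/
private def FbD (u : E) (β ε : ℝ) : Set E :=
  {w | ‖orth u w‖ ≤ 1 ∧ ⟪u, w⟫ = ε * √(‖orth u w‖ ^ 2 + β * th1 (‖orth u w‖ ^ 2))}

/-- The tube. -/
private def FbR (u : E) (β : ℝ) : Set E :=
  {w | ‖orth u w‖ ≤ 1 ∧ ⟪u, w⟫ ^ 2 = ‖orth u w‖ ^ 2 - β * th1 (‖orth u w‖ ^ 2)}

section geo

variable {P : E → ℝ} {u : E} {β : ℝ}

private theorem FootBall_norm (hu : ‖u‖ = 1) {w : E} (h1 : ‖orth u w‖ ≤ 1)
    (h2 : ⟪u, w⟫ ^ 2 ≤ 9) : ‖w‖ ≤ 4 := by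
  have h3 := norm_sq_orth hu w
  have h4 := norm_nonneg (orth u w)
  have h5 : ‖orth u w‖ ^ 2 ≤ 1 := by nlinarith
  nlinarith [norm_nonneg w]

private theorem FootBall_D (h : TubP P u β) {ε : ℝ} (hε : ε * ε = 1) {w : E}
    (hw : w ∈ FbD u β ε) : ‖orth u w‖ ≤ 1 ∧
      ⟪u, w⟫ ^ 2 = ‖orth u w‖ ^ 2 + β * th1 (‖orth u w‖ ^ 2) ∧ ⟪u, w⟫ ^ 2 ≤ 2 ∧ ‖w‖ ≤ 4 := by
  obtain ⟨h1, h2⟩ := hw
  have h3 := th1_mem (‖orth u w‖ ^ 2)
  have hβ := h.hβ
  have hβ1 := h.hβ1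
  have h4 := norm_nonneg (orth u w)
  have h5 : 0 ≤ ‖orth u w‖ ^ 2 + β * th1 (‖orth u w‖ ^ 2) := by
    have := mul_nonneg hβ.le h3.1
    positivity
  have h6 : ⟪u, w⟫ ^ 2 = ‖orth u w‖ ^ 2 + β * th1 (‖orth u w‖ ^ 2) := by
    rw [h2, mul_pow, Real.sq_sqrt h5, pow_two ε, hε, one_mul]
  have h7 : ‖orth u w‖ ^ 2 ≤ 1 := by nlinarith
  have h8 : β * th1 (‖orth u w‖ ^ 2) ≤ 1 := by
    calc β * th1 (‖orth u w‖ ^ 2) ≤ β * 1 := mul_le_mul_of_nonneg_left h3.2 hβ.le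
      _ ≤ 1 := by linarith
  exact ⟨h1, h6, by linarith, FootBall_norm h.hu h1 (by linarith)⟩

private theorem FootBall_C0 {w : E} (hw : 1 ≤ ‖orth u w‖ ∨ 3 ≤ |⟪u, w⟫|) : tubC u w = 0 := by
  unfold tubC
  rcases hw with h | h
  · rw [th1_zero (by nlinarith), zero_mul]
  · rw [th2_zero (by rw [← sq_abs]; nlinarith), mul_zero]

private theorem FootBall_Q (s : ℝ) {w : E} (hw : w ∈ FbQ P u) : tubK P u s w = 0 := by
  unfold tubK
  rw [FootBall_C0 hw.2, hw.1]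
  ring

/-- The zero set below. -/
private theorem FootBall_Z (h : TubP P u β) (w : E) :
    tubK P u (-β) w = 0 ↔ w ∈ FbQ P u ∨ w ∈ FbD u β 1 ∨ w ∈ FbD u β (-1) := by
  have hβ := h.hβ
  have hβ1 := h.hβ1
  have hD : ∀ ε : ℝ, ε * ε = 1 → w ∈ FbD u β ε → tubK P u (-β) w = 0 := by
    intro ε hε hw
    obtain ⟨h1, h2, h3, h4⟩ := FootBall_D h hε hw
    unfold tubK tubC
    rw [h.mod w (by linarith), th2_one (by linarith)]
    linarith
  constructor
  · intro hw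
    by_cases hc : 1 ≤ ‖orth u w‖ ∨ 3 ≤ |⟪u, w⟫|
    · refine Or.inl ⟨?_, hc⟩
      unfold tubK at hw
      rw [FootBall_C0 hc] at hw
      linarith
    · push Not at hc
      obtain ⟨hc1, hc2⟩ := hc
      have h0 := norm_nonneg (orth u w)
      have h1 : ⟪u, w⟫ ^ 2 ≤ 9 := by rw [← sq_abs]; nlinarith [abs_nonneg ⟪u, w⟫]
      have h2 : ‖w‖ ≤ 4 := FootBall_norm h.hu hc1.le h1
      unfold tubK tubC at hw
      rw [h.mod w (by linarith)] at hw
      have h3 := th1_mem (‖orth u w‖ ^ 2)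
      have h4 := th2_mem (⟪u, w⟫ ^ 2)
      have h5 : 0 ≤ th1 (‖orth u w‖ ^ 2) * th2 (⟪u, w⟫ ^ 2) := mul_nonneg h3.1 h4.1
      have h6 : th1 (‖orth u w‖ ^ 2) * th2 (⟪u, w⟫ ^ 2) ≤ 1 := by nlinarith
      have h7 : ⟪u, w⟫ ^ 2 ≤ 4 := by nlinarith
      rw [th2_one h7, mul_one] at hw
      have h8 : ⟪u, w⟫ ^ 2 = ‖orth u w‖ ^ 2 + β * th1 (‖orth u w‖ ^ 2) := by linarith
      rcases le_total 0 ⟪u, w⟫ with h9 | h9
      · refine Or.inr (Or.inl ⟨hc1.le, ?_⟩)
        rw [← h8, Real.sqrt_sq h9, one_mul]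
      · refine Or.inr (Or.inr ⟨hc1.le, ?_⟩)
        rw [← h8, ← neg_sq, Real.sqrt_sq (by linarith)]
        ring
  · rintro (hw | hw | hw)
    · exact FootBall_Q _ hw
    · exact hD 1 (by norm_num) hw
    · exact hD (-1) (by norm_num) hw

private theorem FootBall_R (h : TubP P u β) {w : E} (hw : w ∈ FbR u β) :
    ‖orth u w‖ ≤ 1 ∧ ⟪u, w⟫ ^ 2 ≤ 1 ∧ ‖w‖ ≤ 4 := by
  obtain ⟨h1, h2⟩ := hw
  have h3 := th1_mem (‖orth u w‖ ^ 2)
  have h4 := norm_nonneg (orth u w)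
  have h5 : ‖orth u w‖ ^ 2 ≤ 1 := by nlinarith
  have h6 := mul_nonneg h.hβ.le h3.1
  exact ⟨h1, by linarith, FootBall_norm h.hu h1 (by linarith)⟩

/-- The zero set above. -/
private theorem FootBall_Z' (h : TubP P u β) (w : E) :
    tubK P u β w = 0 ↔ w ∈ FbQ P u ∨ w ∈ FbR u β := by
  have hβ := h.hβ
  have hβ1 := h.hβ1
  constructor
  · intro hw
    by_cases hc : 1 ≤ ‖orth u w‖ ∨ 3 ≤ |⟪u, w⟫|
    · refine Or.inl ⟨?_, hc⟩
      unfold tubK at hw
      rw [FootBall_C0 hc] at hw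
      linarith
    · push Not at hc
      obtain ⟨hc1, hc2⟩ := hc
      have h0 := norm_nonneg (orth u w)
      have h1 : ⟪u, w⟫ ^ 2 ≤ 9 := by rw [← sq_abs]; nlinarith [abs_nonneg ⟪u, w⟫]
      have h2 : ‖w‖ ≤ 4 := FootBall_norm h.hu hc1.le h1
      unfold tubK tubC at hw
      rw [h.mod w (by linarith)] at hw
      have h3 := th1_mem (‖orth u w‖ ^ 2)
      have h4 := th2_mem (⟪u, w⟫ ^ 2)
      have h5 : 0 ≤ th1 (‖orth u w‖ ^ 2) * th2 (⟪u, w⟫ ^ 2) := mul_nonneg h3.1 h4.1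
      have h6 : 0 ≤ β * (th1 (‖orth u w‖ ^ 2) * th2 (⟪u, w⟫ ^ 2)) := mul_nonneg hβ.le h5
      have h7 : ⟪u, w⟫ ^ 2 ≤ 4 := by nlinarith
      rw [th2_one h7, mul_one] at hw
      exact Or.inr ⟨hc1.le, by linarith⟩
  · rintro (hw | hw)
    · exact FootBall_Q _ hw
    · obtain ⟨h1, h2, h3⟩ := FootBall_R h hw
      unfold tubK tubC
      rw [h.mod w (by linarith), th2_one (by linarith), hw.2]
      ring

/-- The boundary circles. -/
private theorem FootBall_QD (h : TubP P u β) {ε : ℝ} (hε : ε * ε = 1) :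
    FbQ P u ∩ FbD u β ε = (fun y => y + ε • u) '' {y : E | ⟪u, y⟫ = 0 ∧ ‖y‖ = 1} := by
  have hβ := h.hβ
  have hβ1 := h.hβ1
  ext w
  constructor
  · rintro ⟨hq, hd⟩
    obtain ⟨h1, h2, h3, h4⟩ := FootBall_D h hε hd
    have hr : ‖orth u w‖ = 1 := by
      rcases hq.2 with h5 | h5
      · exact le_antisymm h1 h5
      · rw [← sq_abs] at h3
        nlinarith
    have h6 : ⟪u, w⟫ = ε := by
      rw [hd.2, hr, one_pow, th1_zero le_rfl, mul_zero, add_zero, Real.sqrt_one, mul_one]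
    refine ⟨orth u w, ⟨inner_orth h.hu w, hr⟩, ?_⟩
    show orth u w + ε • u = w
    rw [← h6]
    exact FootBall_dec u w
  · rintro ⟨y, ⟨hy, hy1⟩, rfl⟩
    obtain ⟨h1, h2⟩ := FootBall_pt h.hu hy ε
    have h3 : y + ε • u ∈ FbD u β ε := by
      refine ⟨by rw [h1, hy1], ?_⟩
      rw [h1, h2, hy1, one_pow, th1_zero le_rfl, mul_zero, add_zero, Real.sqrt_one, mul_one]
    refine ⟨⟨?_, Or.inl (by rw [h1, hy1])⟩, h3⟩
    obtain ⟨-, -, -, h4⟩ := FootBall_D h hε h3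
    rw [h.mod _ (by linarith), h1, h2, hy1, pow_two ε, hε]
    ring

private theorem FootBall_circR (h : TubP P u β) {ε : ℝ} (hε : ε * ε = 1) {w : E}
    (hw : w ∈ FbQ P u ∩ FbD u β ε) : w ∈ FbR u β := by
  rw [FootBall_QD h hε] at hw
  obtain ⟨y, ⟨hy, hy1⟩, rfl⟩ := hw
  obtain ⟨h1, h2⟩ := FootBall_pt h.hu hy ε
  refine ⟨by rw [h1, hy1], ?_⟩
  rw [h1, h2, hy1, one_pow, th1_zero le_rfl, pow_two ε, hε]
  ring

private theorem FootBall_QR (h : TubP P u β) {w : E} (hq : w ∈ FbQ P u) (hr : w ∈ FbR u β) :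
    w ∈ FbD u β 1 ∨ w ∈ FbD u β (-1) := by
  rcases (FootBall_Z h w).1 (FootBall_Q _ hq) with h1 | h1 | h1
  · obtain ⟨h2, h3, h4⟩ := FootBall_R h hr
    have hr1 : ‖orth u w‖ = 1 := by
      rcases hq.2 with h5 | h5
      · exact le_antisymm h2 h5
      · rw [← sq_abs] at h3
        nlinarith
    have h6 : ⟪u, w⟫ ^ 2 = 1 := by
      rw [hr.2, hr1, one_pow, th1_zero le_rfl]
      ring
    have h7 : ‖orth u w‖ ^ 2 + β * th1 (‖orth u w‖ ^ 2) = 1 := by
      rw [hr1, one_pow, th1_zero le_rfl]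
      ring
    have h9 : (⟪u, w⟫ - 1) * (⟪u, w⟫ + 1) = 0 := by linear_combination h6
    rcases mul_eq_zero.1 h9 with h8 | h8
    · exact Or.inl ⟨h2, by rw [h7, Real.sqrt_one]; linarith⟩
    · exact Or.inr ⟨h2, by rw [h7, Real.sqrt_one]; linarith⟩
  · exact Or.inl h1
  · exact Or.inr h1

private theorem FootBall_th1 : Continuous th1 := th1_smooth.continuous

private theorem FootBall_Fmono (h : TubP P u β) : Monotone fun z => z - β * th1 z := by
  have hd : Differentiable ℝ th1 := th1_smooth.differentiable (by simp)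
  refine monotone_of_deriv_nonneg (differentiable_id.sub (hd.const_mul β)) fun z => ?_
  have h1 : deriv (fun z => z - β * th1 z) z = 1 - β * deriv th1 z := by
    have h2 : HasDerivAt (fun z => z - β * th1 z) (1 - β * deriv th1 z) z :=
      (hasDerivAt_id z).sub ((hd z).hasDerivAt.const_mul β)
    exact h2.deriv
  rw [h1]
  have h2 := h.hθ z
  have h3 : β * deriv th1 z ≤ β * |deriv th1 z| :=
    mul_le_mul_of_nonneg_left (le_abs_self _) h.hβ.le
  linarith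

private theorem FootBall_disc (u : E) : IsCompact {y : E | ⟪u, y⟫ = 0 ∧ ‖y‖ ≤ 1} ∧
    Convex ℝ {y : E | ⟪u, y⟫ = 0 ∧ ‖y‖ ≤ 1} := by
  have h1 : {y : E | ⟪u, y⟫ = 0 ∧ ‖y‖ ≤ 1} = {y : E | ⟪u, y⟫ = 0} ∩ Metric.closedBall 0 1 := by
    ext y
    rw [mem_inter_iff, mem_closedBall_zero_iff]
    exact Iff.rfl
  rw [h1]
  constructor
  · exact (isCompact_closedBall (0 : E) 1).inter_left
      (isClosed_eq (by fun_prop) continuous_const)
  · refine Convex.inter (fun x hx y hy a b _ _ _ => ?_) (convex_closedBall 0 1)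
    have hx' : ⟪u, x⟫ = 0 := hx
    have hy' : ⟪u, y⟫ = 0 := hy
    show ⟪u, a • x + b • y⟫ = 0
    rw [inner_add_right, inner_smul_right, inner_smul_right, hx', hy', mul_zero, mul_zero, add_zero]

private theorem FootBall_Dim (hu : ‖u‖ = 1) (β ε : ℝ) :
    FbD u β ε = (fun y => y + (ε * √(‖y‖ ^ 2 + β * th1 (‖y‖ ^ 2))) • u) ''
      {y : E | ⟪u, y⟫ = 0 ∧ ‖y‖ ≤ 1} := by
  ext w
  constructor
  · rintro ⟨h1, h2⟩
    refine ⟨orth u w, ⟨inner_orth hu w, h1⟩, ?_⟩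
    show orth u w + (ε * √(‖orth u w‖ ^ 2 + β * th1 (‖orth u w‖ ^ 2))) • u = w
    rw [← h2]
    exact FootBall_dec u w
  · rintro ⟨y, ⟨hy, hy1⟩, rfl⟩
    obtain ⟨h1, h2⟩ := FootBall_pt hu hy (ε * √(‖y‖ ^ 2 + β * th1 (‖y‖ ^ 2)))
    exact ⟨by rw [h1]; exact hy1, by rw [h1, h2]⟩

private theorem FootBall_Dcont (u : E) (β ε : ℝ) :
    Continuous fun y : E => y + (ε * √(‖y‖ ^ 2 + β * th1 (‖y‖ ^ 2))) • u := by
  have := FootBall_th1
  fun_prop

private theorem FootBall_Dlift (hu : ‖u‖ = 1) (β ε : ℝ) : LiftS (FbD u β ε) := by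
  obtain ⟨h1, h2⟩ := FootBall_disc u
  refine LiftS.of_maps (liftS_convex_compact h1 h2)
    (φ := fun y => y + (ε * √(‖y‖ ^ 2 + β * th1 (‖y‖ ^ 2))) • u) (ψ := orth u)
    (FootBall_Dcont u β ε).continuousOn (contDiff_orth u).continuous.continuousOn ?_ ?_ ?_
  · intro y hy
    rw [FootBall_Dim hu]
    exact mem_image_of_mem _ hy
  · intro w hw
    exact ⟨inner_orth hu w, hw.1⟩
  · intro w hw
    show orth u w + (ε * √(‖orth u w‖ ^ 2 + β * th1 (‖orth u w‖ ^ 2))) • u = w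
    rw [← hw.2]
    exact FootBall_dec u w

private theorem FootBall_Dconn (hu : ‖u‖ = 1) (β ε : ℝ) : IsPreconnected (FbD u β ε) := by
  obtain ⟨h1, h2⟩ := FootBall_disc u
  rw [FootBall_Dim hu]
  exact h2.isPreconnected.image _ (FootBall_Dcont u β ε).continuousOn

private theorem FootBall_orthc (u : E) : Continuous (orth u) := (contDiff_orth u).continuous

private theorem FootBall_Dclosed (u : E) (β ε : ℝ) : IsClosed (FbD u β ε) := by
  have h1 := FootBall_th1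
  have h2 := FootBall_orthc u
  have h3 : FbD u β ε = {w | ‖orth u w‖ ≤ 1} ∩
      {w | ⟪u, w⟫ = ε * √(‖orth u w‖ ^ 2 + β * th1 (‖orth u w‖ ^ 2))} := rfl
  rw [h3]
  exact (isClosed_le (by fun_prop) continuous_const).inter (isClosed_eq (by fun_prop) (by fun_prop))

private theorem FootBall_Rclosed (u : E) (β : ℝ) : IsClosed (FbR u β) := by
  have h1 := FootBall_th1
  have h2 := FootBall_orthc u
  have h3 : FbR u β = {w | ‖orth u w‖ ≤ 1} ∩
      {w | ⟪u, w⟫ ^ 2 = ‖orth u w‖ ^ 2 - β * th1 (‖orth u w‖ ^ 2)} := rfl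
  rw [h3]
  exact (isClosed_le (by fun_prop) continuous_const).inter (isClosed_eq (by fun_prop) (by fun_prop))

private theorem FootBall_Qclosed (h : TubP P u β) : IsClosed (FbQ P u) := by
  have h1 := h.sm.continuous
  have h2 := FootBall_orthc u
  have h3 : FbQ P u = {w | P w = 0} ∩ ({w | 1 ≤ ‖orth u w‖} ∪ {w | 3 ≤ |⟪u, w⟫|}) := rfl
  rw [h3]
  exact (isClosed_eq h1 continuous_const).inter
    ((isClosed_le continuous_const (by fun_prop)).union
      (isClosed_le continuous_const (by fun_prop)))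

/-- The tube is connected. -/
private theorem FootBall_Rconn (hE : Module.finrank ℝ E = 3) (h : TubP P u β) :
    IsPreconnected (FbR u β) := by
  have hβ := h.hβ
  have hβ1 := h.hβ1
  have hm := FootBall_Fmono h
  have hcirc := FootBall_circ hE h.hu
  obtain ⟨S, hS⟩ : ∃ S : Set ℝ, S = {t | (0 ≤ t ∧ t ≤ 1) ∧ 0 ≤ t ^ 2 - β * th1 (t ^ 2)} :=
    ⟨_, rfl⟩
  have hSc : IsPreconnected S := by
    refine Set.OrdConnected.isPreconnected ⟨fun x hx y hy z hz => ?_⟩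
    rw [hS] at hx hy ⊢
    obtain ⟨⟨hx0, hx1⟩, hx2⟩ := hx
    obtain ⟨⟨hy0, hy1⟩, hy2⟩ := hy
    obtain ⟨hz1, hz2⟩ := hz
    refine ⟨⟨by linarith, by linarith⟩, hx2.trans (hm ?_)⟩
    nlinarith
  have hfc : ∀ ε : ℝ, Continuous fun q : E × ℝ =>
      q.2 • q.1 + (ε * √(q.2 ^ 2 - β * th1 (q.2 ^ 2))) • u := by
    intro ε
    have := FootBall_th1
    fun_prop
  have hpc : ∀ ε : ℝ, IsPreconnected ((fun q : E × ℝ =>
      q.2 • q.1 + (ε * √(q.2 ^ 2 - β * th1 (q.2 ^ 2))) • u) ''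
        ({y : E | ⟪u, y⟫ = 0 ∧ ‖y‖ = 1} ×ˢ S)) := fun ε =>
    (hcirc.isPreconnected.prod hSc).image _ (hfc ε).continuousOn
  have hin : ∀ ε : ℝ, ε * ε = 1 → (fun q : E × ℝ =>
      q.2 • q.1 + (ε * √(q.2 ^ 2 - β * th1 (q.2 ^ 2))) • u) ''
        ({y : E | ⟪u, y⟫ = 0 ∧ ‖y‖ = 1} ×ˢ S) ⊆ FbR u β := by
    rintro ε hε w ⟨⟨y, t⟩, ⟨⟨hy, hy1⟩, ht⟩, rfl⟩
    rw [hS] at ht
    obtain ⟨⟨ht0, ht1⟩, ht2⟩ := ht
    have hy' : ⟪u, t • y⟫ = 0 := by rw [inner_smul_right, hy, mul_zero]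
    obtain ⟨e1, e2⟩ := FootBall_pt h.hu hy' (ε * √(t ^ 2 - β * th1 (t ^ 2)))
    have e3 : ‖t • y‖ = t := by
      have : ‖y‖ = 1 := hy1
      rw [norm_smul, this, mul_one, Real.norm_of_nonneg ht0]
    show t • y + (ε * √(t ^ 2 - β * th1 (t ^ 2))) • u ∈ FbR u β
    refine ⟨by rw [e1, e3]; exact ht1, ?_⟩
    rw [e1, e2, e3, mul_pow, Real.sq_sqrt ht2, pow_two ε, hε, one_mul]
  have hcov : FbR u β ⊆ (fun q : E × ℝ =>
      q.2 • q.1 + ((1 : ℝ) * √(q.2 ^ 2 - β * th1 (q.2 ^ 2))) • u) ''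
        ({y : E | ⟪u, y⟫ = 0 ∧ ‖y‖ = 1} ×ˢ S) ∪ (fun q : E × ℝ =>
      q.2 • q.1 + ((-1 : ℝ) * √(q.2 ^ 2 - β * th1 (q.2 ^ 2))) • u) ''
        ({y : E | ⟪u, y⟫ = 0 ∧ ‖y‖ = 1} ×ˢ S) := by
    intro w hw
    obtain ⟨h1, h2⟩ := hw
    have h0 : ‖orth u w‖ ≠ 0 := by
      intro h0
      rw [h0] at h2
      rw [show ((0 : ℝ) ^ 2) = 0 by norm_num, th1_one (by norm_num)] at h2
      nlinarith [sq_nonneg ⟪u, w⟫]
    have h3 : (‖orth u w‖⁻¹ • orth u w, ‖orth u w‖) ∈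
        ({y : E | ⟪u, y⟫ = 0 ∧ ‖y‖ = 1} ×ˢ S) := by
      refine ⟨⟨?_, ?_⟩, ?_⟩
      · show ⟪u, ‖orth u w‖⁻¹ • orth u w⟫ = 0
        rw [inner_smul_right, inner_orth h.hu, mul_zero]
      · show ‖‖orth u w‖⁻¹ • orth u w‖ = 1
        rw [norm_smul, norm_inv, norm_norm, inv_mul_cancel₀ h0]
      · rw [hS]
        refine ⟨⟨norm_nonneg _, h1⟩, ?_⟩
        show 0 ≤ ‖orth u w‖ ^ 2 - β * th1 (‖orth u w‖ ^ 2)
        rw [← h2]
        exact sq_nonneg _
    have h4 : ‖orth u w‖ • (‖orth u w‖⁻¹ • orth u w) = orth u w := by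
      rw [smul_smul, mul_inv_cancel₀ h0, one_smul]
    rcases le_total 0 ⟪u, w⟫ with h5 | h5
    · refine Or.inl ⟨_, h3, ?_⟩
      show ‖orth u w‖ • (‖orth u w‖⁻¹ • orth u w) +
        ((1 : ℝ) * √(‖orth u w‖ ^ 2 - β * th1 (‖orth u w‖ ^ 2))) • u = w
      rw [h4, ← h2, Real.sqrt_sq h5, one_mul]
      exact FootBall_dec u w
    · refine Or.inr ⟨_, h3, ?_⟩
      show ‖orth u w‖ • (‖orth u w‖⁻¹ • orth u w) +
        ((-1 : ℝ) * √(‖orth u w‖ ^ 2 - β * th1 (‖orth u w‖ ^ 2))) • u = w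
      rw [h4, ← h2, ← neg_sq, Real.sqrt_sq (by linarith)]
      have e : (-1 : ℝ) * -⟪u, w⟫ = ⟪u, w⟫ := by ring
      rw [e]
      exact FootBall_dec u w
  have heq : FbR u β = (fun q : E × ℝ =>
      q.2 • q.1 + ((1 : ℝ) * √(q.2 ^ 2 - β * th1 (q.2 ^ 2))) • u) ''
        ({y : E | ⟪u, y⟫ = 0 ∧ ‖y‖ = 1} ×ˢ S) ∪ (fun q : E × ℝ =>
      q.2 • q.1 + ((-1 : ℝ) * √(q.2 ^ 2 - β * th1 (q.2 ^ 2))) • u) ''
        ({y : E | ⟪u, y⟫ = 0 ∧ ‖y‖ = 1} ×ˢ S) :=
    Subset.antisymm hcov (union_subset (hin 1 (by norm_num)) (hin (-1) (by norm_num)))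
  -- a common point
  obtain ⟨t, ht, ht0⟩ : ∃ t ∈ Icc (0 : ℝ) 1, t ^ 2 - β * th1 (t ^ 2) = 0 := by
    have hc : ContinuousOn (fun t : ℝ => t ^ 2 - β * th1 (t ^ 2)) (Icc 0 1) := by
      have := FootBall_th1
      fun_prop
    have h5 := intermediate_value_Icc (zero_le_one' ℝ) hc
    have h6 : (0 : ℝ) ∈ Icc ((0 : ℝ) ^ 2 - β * th1 ((0 : ℝ) ^ 2))
        ((1 : ℝ) ^ 2 - β * th1 ((1 : ℝ) ^ 2)) := by
      rw [show ((0 : ℝ) ^ 2) = 0 by norm_num, show ((1 : ℝ) ^ 2) = 1 by norm_num,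
        th1_one (by norm_num), th1_zero le_rfl]
      constructor <;> linarith
    obtain ⟨t, ht, h7⟩ := h5 h6
    exact ⟨t, ht, h7⟩
  obtain ⟨y, hy⟩ := hcirc.nonempty
  have hq : (y, t) ∈ ({y : E | ⟪u, y⟫ = 0 ∧ ‖y‖ = 1} ×ˢ S) := by
    refine ⟨hy, ?_⟩
    rw [hS]
    exact ⟨⟨ht.1, ht.2⟩, ht0.ge⟩
  have hpt : ∀ ε : ℝ, t • y ∈ (fun q : E × ℝ =>
      q.2 • q.1 + (ε * √(q.2 ^ 2 - β * th1 (q.2 ^ 2))) • u) ''
        ({y : E | ⟪u, y⟫ = 0 ∧ ‖y‖ = 1} ×ˢ S) := by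
    intro ε
    refine ⟨_, hq, ?_⟩
    show t • y + (ε * √(t ^ 2 - β * th1 (t ^ 2))) • u = t • y
    rw [ht0, Real.sqrt_zero, mul_zero, zero_smul, add_zero]
  rw [heq]
  exact IsPreconnected.union (t • y) (hpt 1) (hpt (-1)) (hpc 1) (hpc (-1))

private theorem FootBall_tip (h : TubP P u β) (ε : ℝ) : (ε * √β) • u ∈ FbD u β ε := by
  have e0 : ⟪u, (0 : E)⟫ = 0 := inner_zero_right u
  obtain ⟨e1, e2⟩ := FootBall_pt h.hu e0 (ε * √β)
  rw [zero_add] at e1 e2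
  refine ⟨by rw [e1, norm_zero]; norm_num, ?_⟩
  rw [e1, e2, norm_zero, show ((0 : ℝ) ^ 2) = 0 by norm_num, th1_one (by norm_num), mul_one,
    zero_add]

end geo

/-- A clopen part contains the components of its points. -/
private theorem FootBall_clp {D X : Set E} (h : Clp D X) {z : E} (hz : z ∈ D) :
    connectedComponentIn X z ⊆ D := by
  have h1 : IsPreconnected (connectedComponentIn X z) := isPreconnected_connectedComponentIn
  have h2 : connectedComponentIn X z ⊆ D ∪ X \ D := by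
    intro y hy
    by_cases hyD : y ∈ D
    · exact Or.inl hyD
    · exact Or.inr ⟨connectedComponentIn_subset X z hy, hyD⟩
  have hzX : z ∈ connectedComponentIn X z := mem_connectedComponentIn (h.sub hz)
  intro y hy
  by_contra hyD
  obtain ⟨x, -, hx1, hx2⟩ := isPreconnected_closed_iff.1 h1 D (X \ D) h.cl h.cl' h2
    ⟨z, hzX, hz⟩ ⟨y, hy, connectedComponentIn_subset X z hy, hyD⟩
  exact hx2.2 hx1

private theorem FootBall_zconn (hE : Module.finrank ℝ E = 3) {k : E → ℝ} (hk : ContDiff ℝ ∞ k)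
    (hb : IsBall k) : IsPreconnected {x | k x = 0} := by
  obtain ⟨φ, ψ, hφ, hψ, e1, -, -, e3⟩ := carries_of_isBall k hk hb
  have hrank : 1 < Module.rank ℝ E := by
    rw [← Module.finrank_eq_rank, hE]
    exact_mod_cast (by norm_num : 1 < 3)
  have h1 : IsConnected (Metric.sphere (0 : E) 1) := isConnected_sphere hrank 0 zero_le_one
  have h2 : {x | k x = 0} = ψ '' Metric.sphere (0 : E) 1 := by
    rw [← e3, image_image]
    ext x
    constructor
    · intro hx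
      exact ⟨x, hx, e1 x⟩
    · rintro ⟨y, hy, rfl⟩
      show ψ (φ y) ∈ {x | k x = 0}
      rw [e1]
      exact hy
  rw [h2]
  exact h1.isPreconnected.image _ hψ.continuous.continuousOn

private theorem FootBall_fin (hE : Module.finrank ℝ E = 3) {P : E → ℝ} {u : E} {β : ℝ}
    (h : TubP P u β) (hbad : TBad P u β) (h1 : SlE (tubK P u (-β)))
    (h3 : NoD (tubK P u (-β)))
    (hne : ((1 : ℝ) * √β) • u ∉ cE (tubK P u (-β)) (((-1 : ℝ) * √β) • u)) {w : E}
    (hw : tubK P u (-β) w = 0) (hl : LiftS (cE (tubK P u (-β)) w)) :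
    ∃ k : E → ℝ, Dom k ∧ IsBall k ∧ (∀ w, k w ≤ 0 → k =ᶠ[𝓝 w] tubK P u (-β)) ∧
      Clp {w | k w ≤ 0} {w | tubK P u (-β) w ≤ 0} ∧
      ((k (-((5 : ℝ) • u)) ≤ 0 ∧ 0 < k ((5 : ℝ) • u)) ∨
        (k ((5 : ℝ) • u) ≤ 0 ∧ 0 < k (-((5 : ℝ) • u)))) := by
  have hβ := h.hβ
  have hβ1 := h.hβ1
  have hsm := tubK_smooth h (-β)
  have hreg : ∀ x, tubK P u (-β) x = 0 → gradient (tubK P u (-β)) x ≠ 0 := fun x hx =>
    tubK_reg h (by rw [abs_neg, abs_of_pos hβ]) (by linarith) hx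
  obtain ⟨s, hs, k, hD, hB, hle, hev, hclp, -⟩ := inner_ball hE hsm (tubK_bdd h (-β)) hreg hw hl
    fun z hz hzE => (h1 w hw).2 hl z hz hzE
  have hcomp : IsCompact {z | k z ≤ 0} := Metric.isCompact_of_isClosed_isBounded
    (isClosed_le hD.smooth.continuous continuous_const) hD.bdd
  obtain ⟨z, hz, hz4⟩ : ∃ z, k z ≤ 0 ∧ ‖z‖ ≤ 4 := by
    by_contra hcon
    push Not at hcon
    exact h3 s hs {z | k z ≤ 0} hclp hcomp hD.conn.nonempty hD.lift fun z hz => hcon z hz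
  have hsub := FootBall_clp hclp (show z ∈ {z | k z ≤ 0} from hz)
  rcases hs with hs | hs
  · -- a piece of the body
    subst hs
    have hset : {z | (1 : ℝ) * tubK P u (-β) z ≤ 0} = {z | tubK P u (-β) z ≤ 0} := by
      ext x
      show (1 : ℝ) * tubK P u (-β) x ≤ 0 ↔ tubK P u (-β) x ≤ 0
      rw [one_mul]
    rw [hset] at hclp hsub
    have hle' : ∀ z, k z ≤ 0 → tubK P u (-β) z ≤ 0 := by
      intro y hy
      have := hle y hy
      rwa [one_mul] at this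
    refine ⟨k, hD, hB, fun y hy => ?_, hclp, ?_⟩
    · filter_upwards [hev y hy] with x hx
      rw [hx, one_mul]
    -- not both sectors
    have hnot : ¬ (k (-((5 : ℝ) • u)) ≤ 0 ∧ k ((5 : ℝ) • u) ≤ 0) := by
      rintro ⟨h4, h5⟩
      refine hbad β hβ le_rfl ?_
      exact hD.conn.isPreconnected.subset_connectedComponentIn
        (show -((5 : ℝ) • u) ∈ {z | k z ≤ 0} from h4) (fun y hy => hle' y hy)
        (show (5 : ℝ) • u ∈ {z | k z ≤ 0} from h5)
    rcases le_total ⟪u, z⟫ 0 with h4 | h4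
    · left
      have h5 := tub_left h (s := -β) le_rfl (by linarith) (w := z) (by linarith) (hle' z hz) h4
        (Or.inl (by linarith))
      have h6 : -((5 : ℝ) • u) ∈ connectedComponentIn {w | tubK P u (-β) w ≤ 0}
          (-((5 : ℝ) • u)) :=
        mem_connectedComponentIn (connectedComponentIn_nonempty_iff.1 ⟨z, h5⟩)
      rw [connectedComponentIn_eq h5] at h6
      have h7 : k (-((5 : ℝ) • u)) ≤ 0 := hsub h6
      exact ⟨h7, not_le.1 fun h8 => hnot ⟨h7, h8⟩⟩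
    · right
      have h5 := tub_right h (s := -β) le_rfl (by linarith) (w := z) (by linarith) (hle' z hz) h4
        (Or.inl (by linarith))
      have h6 : ((5 : ℝ) • u) ∈ connectedComponentIn {w | tubK P u (-β) w ≤ 0}
          ((5 : ℝ) • u) :=
        mem_connectedComponentIn (connectedComponentIn_nonempty_iff.1 ⟨z, h5⟩)
      rw [connectedComponentIn_eq h5] at h6
      have h7 : k ((5 : ℝ) • u) ≤ 0 := hsub h6
      exact ⟨h7, not_le.1 fun h8 => hnot ⟨h8, h7⟩⟩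
  · -- a piece of the outside
    exfalso
    subst hs
    have hset : {z | (-1 : ℝ) * tubK P u (-β) z ≤ 0} = {z | 0 ≤ tubK P u (-β) z} := by
      ext x
      show (-1 : ℝ) * tubK P u (-β) x ≤ 0 ↔ 0 ≤ tubK P u (-β) x
      constructor <;> intro h <;> linarith
    rw [hset] at hclp hsub
    obtain ⟨y, hy, hy1⟩ := (FootBall_circ hE h.hu).nonempty
    have hmid : ∀ x, ‖x‖ ≤ 4 → 0 ≤ tubK P u (-β) x →
        x ∈ connectedComponentIn {w | 0 ≤ tubK P u (-β) w} ((5 : ℝ) • y) := fun x hx hx' =>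
      tub_mid hE h (s := -β) (by rw [abs_neg, abs_of_pos hβ]) hy1 hy hx hx'
    have hz0 : 0 ≤ tubK P u (-β) z := by
      have := hle z hz
      linarith
    have h5 := hmid z hz4 hz0
    have htip : ∀ ε : ℝ, (ε = 1 ∨ ε = -1) → k ((ε * √β) • u) = 0 ∧
        tubK P u (-β) ((ε * √β) • u) = 0 := by
      intro ε hε
      have hεε : ε * ε = 1 := by rcases hε with h | h <;> rw [h] <;> norm_num
      have h6 := FootBall_tip h ε
      have h7 : tubK P u (-β) ((ε * √β) • u) = 0 := by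
        rw [FootBall_Z h]
        rcases hε with h8 | h8
        · rw [h8] at h6 ⊢
          exact Or.inr (Or.inl h6)
        · rw [h8] at h6 ⊢
          exact Or.inr (Or.inr h6)
      have h8 := hmid _ (FootBall_D h hεε h6).2.2.2 h7.ge
      rw [connectedComponentIn_eq h5] at h8
      have h9 : k ((ε * √β) • u) ≤ 0 := hsub h8
      refine ⟨?_, h7⟩
      rw [(hev _ h9).eq_of_nhds, h7, mul_zero]
    refine hne ?_
    have h6 := FootBall_zconn hE hD.smooth hB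
    refine h6.subset_connectedComponentIn
      (show ((-1 : ℝ) * √β) • u ∈ {x | k x = 0} from (htip (-1) (Or.inr rfl)).1) ?_
      (show ((1 : ℝ) * √β) • u ∈ {x | k x = 0} from (htip 1 (Or.inl rfl)).1)
    intro x hx
    have hx' : k x = 0 := hx
    have h7 := (hev x hx'.le).eq_of_nhds
    rw [hx'] at h7
    show tubK P u (-β) x = 0
    linarith

/-- PROOF. The two feet: `Y_A`, `Y_B` = the components of `{tubK (-β) = 0}` of the tips
`∓ √β u` (`tub_left`, `tub_right`: near them the body is the left, right sector). They are different,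
because the tips lie in different components of `{tubK (-β) ≤ 0}` (`hbad β`), and a component of the
zero set is in one component of `{· ≤ 0}`. `foot_lift` (with the two discs over `ρ ≤ 1`,
`a = ∓ √(ρ² + β χ)`, `R` the annulus `a² = ρ² - β χ`, `ρ ≤ 1`, of the slice `tubK β`; the two slices
agree off `ρ ≤ 1, |a| ≤ 3`; its component is `LiftS` or `Dep3` by `h2`): `Y_A` or `Y_B` is `LiftS`,
call it `Y`. `inner_ball` for `g = tubK (-β)` and `Y`: `s`, `k` with `{k ≤ 0}` clopen in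
`{s * g ≤ 0}`. By `NoD` (`Dom k` gives `LiftS {k ≤ 0}`) it meets the ball of radius `4`. If `s = -1`
then by `tub_mid` it contains the middle, hence the points of both feet, so `k = 0` there; but
`{k = 0}` is connected (`IsBall`, finrank 3), so it is in one foot: contradiction. If `s = 1` it
contains one of the sectors (`tub_left`, `tub_right`), and not both by `hbad`. -/
theorem foot_ball (hE : Module.finrank ℝ E = 3) {P : E → ℝ} {u : E} {β : ℝ} (h : TubP P u β)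
    (hbad : TBad P u β) (h1 : SlE (tubK P u (-β))) (h2 : SlE (tubK P u β))
    (h3 : NoD (tubK P u (-β))) :
    ∃ k : E → ℝ, Dom k ∧ IsBall k ∧ (∀ w, k w ≤ 0 → k =ᶠ[𝓝 w] tubK P u (-β)) ∧
      Clp {w | k w ≤ 0} {w | tubK P u (-β) w ≤ 0} ∧
      ((k (-((5 : ℝ) • u)) ≤ 0 ∧ 0 < k ((5 : ℝ) • u)) ∨
        (k ((5 : ℝ) • u) ≤ 0 ∧ 0 < k (-((5 : ℝ) • u)))) := by
  have hβ := h.hβ
  have hβ1 := h.hβ1
  obtain ⟨g, hg⟩ : ∃ g, g = tubK P u (-β) := ⟨_, rfl⟩
  obtain ⟨g', hg'⟩ : ∃ g', g' = tubK P u β := ⟨_, rfl⟩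
  have hsm : ContDiff ℝ ∞ g := by rw [hg]; exact tubK_smooth h (-β)
  have hreg : ∀ x, g x = 0 → gradient g x ≠ 0 := by
    intro x hx
    rw [hg] at hx ⊢
    exact tubK_reg h (by rw [abs_neg, abs_of_pos hβ]) (by linarith) hx
  have hbd : Bornology.IsBounded {x | g x = 0} := by rw [hg]; exact tubK_bdd h (-β)
  obtain ⟨a, ha⟩ : ∃ a, a = ((1 : ℝ) * √β) • u := ⟨_, rfl⟩
  obtain ⟨b, hb⟩ : ∃ b, b = ((-1 : ℝ) * √β) • u := ⟨_, rfl⟩
  have haD : a ∈ FbD u β 1 := by rw [ha]; exact FootBall_tip h 1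
  have hbD : b ∈ FbD u β (-1) := by rw [hb]; exact FootBall_tip h (-1)
  have ha0 : g a = 0 := by rw [hg, FootBall_Z h]; exact Or.inr (Or.inl haD)
  have hb0 : g b = 0 := by rw [hg, FootBall_Z h]; exact Or.inr (Or.inr hbD)
  have hD1 : ∀ x ∈ FbD u β 1, g x = 0 := fun x hx => by
    rw [hg, FootBall_Z h]; exact Or.inr (Or.inl hx)
  have hD2 : ∀ x ∈ FbD u β (-1), g x = 0 := fun x hx => by
    rw [hg, FootBall_Z h]; exact Or.inr (Or.inr hx)
  -- the two feet are different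
  have hne : a ∉ cE g b := by
    intro hc
    have e1 : connectedComponentIn {x | g x = 0} b ⊆ connectedComponentIn {x | g x ≤ 0} b :=
      connectedComponentIn_mono b fun x hx => le_of_eq hx
    have e2 : a ∈ connectedComponentIn {x | g x ≤ 0} b := e1 hc
    have iu : ∀ t : ℝ, ⟪u, t • u⟫ = t := by
      intro t
      rw [inner_smul_right, real_inner_self_eq_norm_sq, h.hu]
      ring
    have hsq := Real.sqrt_nonneg β
    have e3 : b ∈ connectedComponentIn {x | g x ≤ 0} (-((5 : ℝ) • u)) := by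
      rw [hg] at hb0 ⊢
      refine tub_left h le_rfl (by linarith) ?_ hb0.le ?_ (Or.inl (by linarith))
      · have := (FootBall_D h (by norm_num) hbD).2.2.2
        linarith
      · rw [hb, iu]
        linarith
    have e4 : a ∈ connectedComponentIn {x | g x ≤ 0} ((5 : ℝ) • u) := by
      rw [hg] at ha0 ⊢
      refine tub_right h le_rfl (by linarith) ?_ ha0.le ?_ (Or.inl (by linarith))
      · have := (FootBall_D h (by norm_num) haD).2.2.2
        linarith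
      · rw [ha, iu]
        linarith
    refine hbad β hβ le_rfl ?_
    rw [← hg]
    rw [connectedComponentIn_eq e3, connectedComponentIn_eq e2, ← connectedComponentIn_eq e4]
    exact mem_connectedComponentIn (connectedComponentIn_nonempty_iff.1 ⟨a, e4⟩)
  have hY1 : Pc {x | g x = 0} (cE g a) := comp_pc hsm hreg ha0
  have hY2 : Pc {x | g x = 0} (cE g b) := comp_pc hsm hreg hb0
  have hDY1 : FbD u β 1 ⊆ cE g a :=
    (FootBall_Dconn h.hu β 1).subset_connectedComponentIn haD hD1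
  have hDY2 : FbD u β (-1) ⊆ cE g b :=
    (FootBall_Dconn h.hu β (-1)).subset_connectedComponentIn hbD hD2
  have hdis : Disjoint (cE g a) (cE g b) := by
    rw [Set.disjoint_left]
    intro x hx hx'
    have e1 : cE g a = cE g x := connectedComponentIn_eq hx
    have e2 : cE g b = cE g x := connectedComponentIn_eq hx'
    refine hne ?_
    rw [e2, ← e1]
    exact mem_connectedComponentIn ha0
  have hQ0 : ∀ x ∈ FbQ P u, g x = 0 := fun x hx => by rw [hg]; exact FootBall_Q _ hx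
  have cQ := FootBall_Qclosed h
  have hU1 : cE g a ∩ FbQ P u ∪ FbD u β 1 = cE g a := by
    ext x
    constructor
    · rintro (hx | hx)
      · exact hx.1
      · exact hDY1 hx
    · intro hx
      have hx0 : g x = 0 := hY1.sub hx
      rw [hg] at hx0
      rcases (FootBall_Z h x).1 hx0 with h4 | h4 | h4
      · exact Or.inl ⟨hx, h4⟩
      · exact Or.inr h4
      · exact absurd (hDY2 h4) (Set.disjoint_left.1 hdis hx)
  have hU2 : cE g b ∩ FbQ P u ∪ FbD u β (-1) = cE g b := by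
    ext x
    constructor
    · rintro (hx | hx)
      · exact hx.1
      · exact hDY2 hx
    · intro hx
      have hx0 : g x = 0 := hY2.sub hx
      rw [hg] at hx0
      rcases (FootBall_Z h x).1 hx0 with h4 | h4 | h4
      · exact Or.inl ⟨hx, h4⟩
      · exact absurd hx (Set.disjoint_left.1 hdis (hDY1 h4))
      · exact Or.inr h4
  have hC1 : cE g a ∩ FbQ P u ∩ FbD u β 1 = FbQ P u ∩ FbD u β 1 := by
    ext x
    exact ⟨fun hx => ⟨hx.1.2, hx.2⟩, fun hx => ⟨⟨hDY1 hx.2, hx.1⟩, hx.2⟩⟩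
  have hC2 : cE g b ∩ FbQ P u ∩ FbD u β (-1) = FbQ P u ∩ FbD u β (-1) := by
    ext x
    exact ⟨fun hx => ⟨hx.1.2, hx.2⟩, fun hx => ⟨⟨hDY2 hx.2, hx.1⟩, hx.2⟩⟩
  have hK : ∀ ε : ℝ, ε * ε = 1 → IsConnected (FbQ P u ∩ FbD u β ε) := by
    intro ε hε
    rw [FootBall_QD h hε]
    exact (FootBall_circ hE h.hu).image _ (by fun_prop)
  have hR1 : cE g a ∩ FbQ P u ∩ FbR u β ⊆ FbD u β 1 := by
    rintro x ⟨⟨hx1, hx2⟩, hx3⟩
    rcases FootBall_QR h hx2 hx3 with h4 | h4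
    · exact h4
    · exact absurd (hDY2 h4) (Set.disjoint_left.1 hdis hx1)
  have hR2 : cE g b ∩ FbQ P u ∩ FbR u β ⊆ FbD u β (-1) := by
    rintro x ⟨⟨hx1, hx2⟩, hx3⟩
    rcases FootBall_QR h hx2 hx3 with h4 | h4
    · exact absurd hx1 (Set.disjoint_left.1 hdis (hDY1 h4))
    · exact h4
  have cP1 : IsClosed (cE g a ∩ FbQ P u) := hY1.cl.inter cQ
  have cP2 : IsClosed (cE g b ∩ FbQ P u) := hY2.cl.inter cQ
  have cD1 := FootBall_Dclosed u β 1
  have cD2 := FootBall_Dclosed u β (-1)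
  have cR := FootBall_Rclosed u β
  obtain ⟨p, hp⟩ := (hK 1 (by norm_num)).nonempty
  obtain ⟨p', hp'⟩ := (hK (-1) (by norm_num)).nonempty
  -- the connected sum
  have hTc : IsConnected (cE g a ∩ FbQ P u ∪ FbR u β ∪ cE g b ∩ FbQ P u) := by
    refine foot_conn cP1 cD1 cP2 cD2 ?_ ?_ ?_ ?_ (FootBall_Rconn hE h) ?_ ?_
    · rw [hU1]
      exact hY1.conn.isPreconnected
    · rw [hU2]
      exact hY2.conn.isPreconnected
    · rw [hC1]
      exact hK 1 (by norm_num)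
    · rw [hC2]
      exact hK (-1) (by norm_num)
    · exact ⟨p, ⟨hDY1 hp.2, hp.1⟩, FootBall_circR h (by norm_num) hp⟩
    · exact ⟨p', ⟨hDY2 hp'.2, hp'.1⟩, FootBall_circR h (by norm_num) hp'⟩
  have hTp : Pc {x | g' x = 0} (cE g a ∩ FbQ P u ∪ FbR u β ∪ cE g b ∩ FbQ P u) := by
    refine ⟨?_, hTc, (cP1.union cR).union cP2, ?_⟩
    · intro x hx
      show g' x = 0
      rw [hg', FootBall_Z' h]
      rcases hx with (hx | hx) | hx
      · exact Or.inl hx.2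
      · exact Or.inr hx
      · exact Or.inl hx.2
    · have e1 : {x | g' x = 0} \ (cE g a ∩ FbQ P u ∪ FbR u β ∪ cE g b ∩ FbQ P u) =
          ({x | g x = 0} \ cE g a) ∩ ({x | g x = 0} \ cE g b) := by
        ext x
        constructor
        · rintro ⟨hx, hx'⟩
          have hx0 : g' x = 0 := hx
          rw [hg', FootBall_Z' h] at hx0
          have hxR : x ∉ FbR u β := fun h4 => hx' (Or.inl (Or.inr h4))
          have hxQ : x ∈ FbQ P u := hx0.resolve_right hxR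
          exact ⟨⟨hQ0 x hxQ, fun h4 => hx' (Or.inl (Or.inl ⟨h4, hxQ⟩))⟩,
            ⟨hQ0 x hxQ, fun h4 => hx' (Or.inr ⟨h4, hxQ⟩)⟩⟩
        · rintro ⟨⟨hx, hxa⟩, ⟨-, hxb⟩⟩
          have hx0 : g x = 0 := hx
          rw [hg, FootBall_Z h] at hx0
          have hxQ : x ∈ FbQ P u := by
            rcases hx0 with h4 | h4 | h4
            · exact h4
            · exact absurd (hDY1 h4) hxa
            · exact absurd (hDY2 h4) hxb
          refine ⟨?_, ?_⟩
          · show g' x = 0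
            rw [hg', FootBall_Z' h]
            exact Or.inl hxQ
          · rintro ((h4 | h4) | h4)
            · exact hxa h4.1
            · rcases FootBall_QR h hxQ h4 with h5 | h5
              · exact hxa (hDY1 h5)
              · exact hxb (hDY2 h5)
            · exact hxb h4.1
      rw [e1]
      exact hY1.cl'.inter hY2.cl'
  have hpR : p ∈ FbR u β := FootBall_circR h (by norm_num) hp
  have hpg : g' p = 0 := by rw [hg', FootBall_Z' h]; exact Or.inr hpR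
  have hT : LiftS (cE g a ∩ FbQ P u ∪ FbR u β ∪ cE g b ∩ FbQ P u) ∨
      Dep3 (cE g a ∩ FbQ P u ∪ FbR u β ∪ cE g b ∩ FbQ P u) := by
    have e1 : cE g' p = cE g a ∩ FbQ P u ∪ FbR u β ∪ cE g b ∩ FbQ P u :=
      hTp.eq_comp (Or.inl (Or.inr hpR))
    rw [← e1]
    rw [hg'] at hpg ⊢
    exact (h2 p hpg).1
  -- one of the feet is a sphere
  have hfoot : LiftS (cE g a) ∨ LiftS (cE g b) := by
    rw [← hU1, ← hU2]
    refine foot_lift hE hsm hbd hreg cP1 cD1 cP2 cD2 cR ?_ ?_ (FootBall_Dlift h.hu β 1)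
      (FootBall_Dlift h.hu β (-1)) ?_ ?_ hR1 hR2 hT
    · rw [hU1]
      exact hY1
    · rw [hU1, hU2]
      exact hdis
    · rw [hC1]
      exact (hK 1 (by norm_num)).isPreconnected
    · rw [hC2]
      exact (hK (-1) (by norm_num)).isPreconnected
  rw [hg] at hne ha0 hb0 hfoot
  rw [ha, hb] at hne
  rcases hfoot with h4 | h4
  · exact FootBall_fin hE h hbad h1 h3 hne ha0 h4
  · exact FootBall_fin hE h hbad h1 h3 hne hb0 h4

end Pool.Schoen
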