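import Pool.Agent.H.MP_6c077c_gt.N3.GrStr

/-! The graph over the left sector and the horn: the sweep of the left sector. -/

set_option autoImplicit false

namespace Pool.Schoen

open Filter Set Metric
open scoped Topology RealInnerProductSpace ContDiff

section clp

variable {E : Type*} [NormedAddCommGroup E] [InnerProductSpace ℝ E]

/-- A clopen part contains the components of its points. -/
theorem GrA_clp {D X : Set E} (h : Clp D X) {x y : E} (hx : x ∈ D)
    (hy : y ∈ connectedComponentIn X x) : y ∈ D := by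
  by_contra hyD
  have hpc : IsPreconnected (connectedComponentIn X x) := isPreconnected_connectedComponentIn
  rw [isPreconnected_closed_iff] at hpc
  obtain ⟨z, -, hz1, hz2⟩ := hpc D (X \ D) h.cl h.cl'
    (fun z hz => by
      by_cases hzD : z ∈ D
      · exact Or.inl hzD
      · exact Or.inr ⟨connectedComponentIn_subset _ _ hz, hzD⟩)
    ⟨x, mem_connectedComponentIn (h.sub hx), hx⟩
    ⟨y, hy, connectedComponentIn_subset _ _ hy, hyD⟩
  exact hz2.2 hz1

end clp

variable {E : Type*} [NormedAddCommGroup E] [InnerProductSpace ℝ E] [FiniteDimensional ℝ E]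

/-- The axis of the horn. -/
def hornJ (u : E) (b : ℝ) : Set E := segment ℝ 0 (-(√b • u))

theorem hornJ_compact (u : E) (b : ℝ) : IsCompact (hornJ u b) := by
  unfold hornJ
  rw [segment_eq_image]
  exact isCompact_Icc.image (by fun_prop)

theorem hornJ_mem {u : E} {b t : ℝ} (hb : 0 < b) (h0 : 0 ≤ t) (h1 : t ≤ √b) :
    -(t • u) ∈ hornJ u b := by
  have hs : 0 < √b := Real.sqrt_pos.2 hb
  refine ⟨1 - t / √b, t / √b, ?_, by positivity, by ring, ?_⟩
  · rw [sub_nonneg, div_le_one hs]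
    exact h1
  · rw [smul_zero, zero_add, smul_neg, smul_smul, div_mul_cancel₀ _ hs.ne']

theorem hornJ_cases {u : E} {b : ℝ} (hb : 0 < b) {w : E} (hw : w ∈ hornJ u b) :
    ∃ t, 0 ≤ t ∧ t ≤ √b ∧ w = -(t • u) := by
  have hs : 0 < √b := Real.sqrt_pos.2 hb
  obtain ⟨x, y, hx, hy, hxy, rfl⟩ := hw
  refine ⟨y * √b, by positivity, ?_, ?_⟩
  · have : y ≤ 1 := by linarith
    nlinarith
  · rw [smul_zero, zero_add, smul_neg, smul_smul]

theorem GrA_orth {u : E} (hu : ‖u‖ = 1) (t : ℝ) : orth u (t • u) = 0 := by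
  have huu : ⟪u, u⟫ = 1 := by rw [real_inner_self_eq_norm_sq, hu]; norm_num
  rw [orth, real_inner_smul_right, huu, mul_one, sub_self]

/-- The sweep of the left sector at the small level `b`, linear near the horn. -/
structure GrA (P : E → ℝ) (u : E) (β : ℝ) (k : E → ℝ) (b : ℝ) (kb gt : E → ℝ) (r : ℝ) : Prop where
  hb : 0 < b
  hbβ : b ≤ β / 8
  hM : ∀ z, |deriv ps0 z| * b ≤ β
  lb : LBall P u b kb
  far : ∀ w, 4 < ‖w‖ → (kb w ≤ 0 ↔ k w ≤ 0)
  sm : ContDiff ℝ ∞ gt
  hr : 0 < r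
  hrb : r ≤ √b / 4
  lin : ∀ w, infDist w (hornJ u b) ≤ r → gt =ᶠ[𝓝 w] fun z => -⟪u, z⟫
  nz : ∀ w, kb w ≤ 0 → gradient gt w ≠ 0
  wall : ∀ w, kb w = 0 → r ≤ infDist w (hornJ u b) → ∀ t : ℝ, 0 ≤ t → t ≤ 1 →
    t • gradient kb w + (1 - t) • gradient gt w ≠ 0

theorem grA_exists (hE : Module.finrank ℝ E = 3) {P : E → ℝ} {u : E} {β : ℝ} (h : TubP P u β)
    {k : E → ℝ} (hk : LBall P u (3 / 4 * β) k) :
    ∃ (b : ℝ) (kb gt : E → ℝ) (r : ℝ), GrA P u β k b kb gt r := by
  have hβ := h.hβ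
  have hu := h.hu
  obtain ⟨M, hM0, hM⟩ := ps0_deriv
  obtain ⟨b, hbd⟩ : ∃ b, b = min (β / 8) (β / M) := ⟨_, rfl⟩
  have hb : 0 < b := by
    rw [hbd]
    exact lt_min (by positivity) (by positivity)
  have hb1 : b ≤ β / 8 := by
    rw [hbd]
    exact min_le_left _ _
  have hb2 : b ≤ β / M := by
    rw [hbd]
    exact min_le_right _ _
  have hb3 : M * b ≤ β := by
    have := (le_div_iff₀ hM0).1 hb2
    linarith
  have hbs : b ≤ 1 / 800 := by
    have := h.hβ1
    linarith
  have hs : 0 < √b := Real.sqrt_pos.2 hb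
  have hss : √b * √b = b := Real.mul_self_sqrt hb.le
  have hs1 : √b < 1 / 4 := by nlinarith
  obtain ⟨kb, hkb, hfar⟩ := hk.move h (by positivity) (by linarith) hb (by linarith)
  have huu : ⟪u, u⟫ = 1 := by rw [real_inner_self_eq_norm_sq, hu]; norm_num
  -- the values on the axis
  have hax : ∀ t : ℝ, 0 ≤ t → t ≤ √b → tubK P u (-b) (-(t • u)) = b - t ^ 2 := by
    intro t ht0 ht1
    have h1 : -(t • u) = (-t) • u := (neg_smul t u).symm
    have h2 : ‖(-t) • u‖ ≤ 1 / 2 := by
      rw [norm_smul, hu, mul_one, Real.norm_eq_abs, abs_neg, abs_of_nonneg ht0]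
      linarith
    rw [tubK, h1, h.mod _ (by linarith), tubC_one hu h2, GrA_orth hu, norm_zero,
      real_inner_smul_right, huu]
    ring
  have hp0 : kb (-(√b • u)) ≤ 0 := by
    have h1 : tubK P u (-b) (-(√b • u)) ≤ 0 := by
      rw [hax _ hs.le le_rfl, pow_two, hss]
      linarith
    have h2 : ‖-(√b • u)‖ ≤ 9 := by
      rw [norm_neg, norm_smul, hu, mul_one, Real.norm_of_nonneg hs.le]
      linarith
    have h3 : ⟪u, -(√b • u)⟫ = -√b := by
      rw [inner_neg_right, real_inner_smul_right, huu, mul_one]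
    have h4 := tub_left h (s := -b) (by linarith) (by linarith) h2 h1 (by rw [h3]; linarith)
      (Or.inl (by linarith))
    exact GrA_clp hkb.clp (show -((5 : ℝ) • u) ∈ {w | kb w ≤ 0} from hkb.left) h4
  obtain ⟨g, r0, hg, hr0, hg1, hg2, hg3, hg4⟩ := sweep3 hE hkb.dom hkb.ball hu hb (by
    have h1 : ∀ᶠ w in 𝓝 (-(√b • u)), ‖w‖ < 1 / 2 := by
      have hc : Continuous fun w : E => ‖w‖ := continuous_norm
      refine (hc.tendsto _).eventually (gt_mem_nhds ?_)
      rw [norm_neg, norm_smul, hu, mul_one, Real.norm_of_nonneg hs.le]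
      linarith
    filter_upwards [h1, hkb.germ _ hp0] with w hw1 hw2
    rw [hw2, tubK, h.mod _ (by linarith), tubC_one hu hw1.le]
    ring)
  -- the cut-off
  obtain ⟨I, hI⟩ : ∃ I : Set E, I = {w | w ∈ hornJ u b ∧ r0 / 2 ≤ ‖w + √b • u‖} := ⟨_, rfl⟩
  have hIc : IsCompact I := by
    rw [hI]
    have hc : Continuous fun w : E => ‖w + √b • u‖ := by fun_prop
    exact (hornJ_compact u b).inter_right (isClosed_le continuous_const hc)
  have hDcl : IsClosed {w | kb w ≤ 0} := hkb.clp.cl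
  have hdis : Disjoint I {w | kb w ≤ 0} := by
    rw [disjoint_left]
    intro w hw hwk
    rw [hI] at hw
    obtain ⟨hwJ, hwr⟩ := hw
    obtain ⟨t, ht0, ht1, rfl⟩ := hornJ_cases hb hwJ
    have h1 : tubK P u (-b) (-(t • u)) ≤ 0 := hkb.clp.sub hwk
    rw [hax t ht0 ht1] at h1
    have h2 : t = √b := by
      refine le_antisymm ht1 ?_
      by_contra h3
      push Not at h3
      nlinarith
    rw [h2] at hwr
    rw [neg_add_cancel, norm_zero] at hwr
    linarith
  obtain ⟨δ, hδ, hδd⟩ := hdis.exists_cthickenings hIc hDcl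
  obtain ⟨ζ, z1, z2, z3⟩ :=
    exists_contMDiffMap_one_nhds_of_subset_interior (modelWithCornersSelf ℝ E) (n := (⊤ : ℕ∞))
      hDcl (t := (cthickening δ I)ᶜ) (by
        rw [isClosed_cthickening.isOpen_compl.interior_eq]
        intro w hw hw'
        exact disjoint_left.1 hδd hw' (self_subset_cthickening _ hw))
  have hζ : ContDiff ℝ ∞ ζ := ζ.contMDiff.contDiff
  have hζD : ∀ w, kb w ≤ 0 → ∀ᶠ y in 𝓝 w, ζ y = 1 := fun w hw =>
    z1.filter_mono (nhds_le_nhdsSet (show w ∈ {w | kb w ≤ 0} from hw))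
  obtain ⟨gt, hgt⟩ : ∃ gt : E → ℝ, gt = fun w => -⟪u, w⟫ + ζ w * (g w + √b + ⟪u, w⟫) := ⟨_, rfl⟩
  have hgts : ContDiff ℝ ∞ gt := by
    rw [hgt]
    have h1 : ContDiff ℝ ∞ fun w : E => ⟪u, w⟫ := (innerSL ℝ u).contDiff
    exact h1.neg.add (hζ.mul ((hg.add contDiff_const).add h1))
  obtain ⟨U, hU⟩ : ∃ U : Set E, U = {w | gt =ᶠ[𝓝 w] fun z => -⟪u, z⟫} := ⟨_, rfl⟩
  have hUo : IsOpen U := by
    rw [hU]
    exact isOpen_setOfPred_eventually_nhds
  have hJU : hornJ u b ⊆ U := by
    intro w hw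
    rw [hU]
    by_cases hw1 : ‖w + √b • u‖ < r0
    · have h1 : ∀ᶠ z in 𝓝 w, ‖z + √b • u‖ < r0 := by
        have hc : Continuous fun z : E => ‖z + √b • u‖ := by fun_prop
        exact (hc.tendsto w).eventually (gt_mem_nhds hw1)
      filter_upwards [h1] with z hz
      rw [hgt]
      show -⟪u, z⟫ + ζ z * (g z + √b + ⟪u, z⟫) = -⟪u, z⟫
      rw [hg1 z hz.le]
      ring
    · push Not at hw1
      have hwI : w ∈ I := by
        rw [hI]
        exact ⟨hw, by linarith⟩
      have h1 : ∀ᶠ z in 𝓝 w, z ∈ cthickening δ I :=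
        mem_of_superset (isOpen_thickening.mem_nhds (self_subset_thickening hδ I hwI))
          (thickening_subset_cthickening δ I)
      filter_upwards [h1] with z hz
      rw [hgt]
      show -⟪u, z⟫ + ζ z * (g z + √b + ⟪u, z⟫) = -⟪u, z⟫
      rw [z2 z (not_not.2 hz)]
      ring
  obtain ⟨r1, hr1, hr1U⟩ := (hornJ_compact u b).exists_cthickening_subset_open hUo hJU
  obtain ⟨r, hrd⟩ : ∃ r, r = min r1 (√b / 4) := ⟨_, rfl⟩
  have hr : 0 < r := by
    rw [hrd]
    exact lt_min hr1 (by positivity)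
  refine ⟨b, kb, gt, r, hb, hb1, fun z => ?_, hkb, hfar, hgts, hr, ?_, fun w hw => ?_,
    fun w hw => ?_, fun w hw hwr t ht0 ht1 => ?_⟩
  · have h1 := hM z
    nlinarith [abs_nonneg (deriv ps0 z)]
  · rw [hrd]
    exact min_le_right _ _
  · have h1 : w ∈ U := by
      refine hr1U ?_
      obtain ⟨y, hy, hyd⟩ := (hornJ_compact u b).exists_infDist_eq_dist
        ⟨0, left_mem_segment ℝ _ _⟩ w
      refine mem_cthickening_of_dist_le w y r1 _ hy ?_
      rw [← hyd]
      exact hw.trans (by rw [hrd]; exact min_le_left _ _)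
    rw [hU] at h1
    exact h1
  · have h1 : gt =ᶠ[𝓝 w] fun z => g z + √b := by
      filter_upwards [hζD w hw] with z hz
      rw [hgt]
      show -⟪u, z⟫ + ζ z * (g z + √b + ⟪u, z⟫) = g z + √b
      rw [hz]
      ring
    have h2 : gradient gt w = gradient g w := by
      unfold gradient
      rw [h1.fderiv_eq, fderiv_add_const]
    rw [h2]
    exact hg2 w hw
  · have h1 : gt =ᶠ[𝓝 w] fun z => g z + √b := by
      filter_upwards [hζD w hw.le] with z hz
      rw [hgt]
      show -⟪u, z⟫ + ζ z * (g z + √b + ⟪u, z⟫) = g z + √b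
      rw [hz]
      ring
    have h2 : gradient gt w = gradient g w := by
      unfold gradient
      rw [h1.fderiv_eq, fderiv_add_const]
    rw [h2]
    have hne : w ≠ -(√b • u) := by
      intro h3
      have h4 : infDist w (hornJ u b) = 0 := by
        refine infDist_zero_of_mem ?_
        rw [h3]
        exact right_mem_segment ℝ _ _
      linarith
    rcases eq_or_lt_of_le ht1 with h3 | h3
    · rw [h3, one_smul, sub_self, zero_smul, add_zero]
      exact hkb.dom.reg w hw
    · intro h4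
      have h5 : 0 < 1 - t := by linarith
      refine hg3 w hw hne (t / (1 - t)) (by positivity) ?_
      have h6 : (1 - t) • (gradient g w + (t / (1 - t)) • gradient kb w) = 0 := by
        rw [smul_add, smul_smul, mul_div_cancel₀ _ h5.ne', add_comm]
        exact h4
      exact (smul_eq_zero.1 h6).resolve_left h5.ne'

end Pool.Schoen
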