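import Pool.Agent.H.MP_6c077c_gt.N3.GrA

/-! The graph over the left sector and the horn: the horn. -/

set_option autoImplicit false

namespace Pool.Schoen

open Filter Set Metric
open scoped Topology RealInnerProductSpace ContDiff

variable {E : Type*} [NormedAddCommGroup E] [InnerProductSpace ℝ E] [FiniteDimensional ℝ E]

/-- The critical slice with the horn. -/
noncomputable def hnC (P : E → ℝ) (u : E) (κ : ℝ → ℝ) (w : E) : ℝ := P w + tubC u w * κ ⟪u, w⟫

/-- The horn function: the critical slice is the left sector at the level `b` and a thin horn. -/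
structure GrB (P : E → ℝ) (u : E) (β b : ℝ) (kb : E → ℝ) (r : ℝ) (κ : ℝ → ℝ) : Prop where
  kap : KapD κ β
  le : ∀ a, κ a ≤ b
  reg9 : ∀ w, ‖w‖ ≤ 9 → ⟪u, w⟫ ≤ 0 → hnC P u κ w ≤ 0 →
    kb w ≤ 0 ∨ infDist w (hornJ u b) ≤ r / 2
  eqb : ∀ w, kb w ≤ 0 → r ≤ infDist w (hornJ u b) → hnC P u κ =ᶠ[𝓝 w] tubK P u (-b)

/-- Points close to the axis. -/
theorem GrB_dist {u : E} (hu : ‖u‖ = 1) {b μ : ℝ} (hb : 0 < b) (hμ : 0 < μ) {w : E}
    (h1 : ‖orth u w‖ ^ 2 ≤ 3 / 2 * μ) (h2 : ⟪u, w⟫ ≤ 0) (h3 : ⟪u, w⟫ ^ 2 ≤ b + μ) :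
    infDist w (hornJ u b) ^ 2 ≤ 5 / 2 * μ := by
  have hs : 0 < √b := Real.sqrt_pos.2 hb
  have hss : √b * √b = b := Real.mul_self_sqrt hb.le
  have huu : ⟪u, u⟫ = 1 := by rw [real_inner_self_eq_norm_sq, hu]; norm_num
  have key : ∀ t, 0 ≤ t → t ≤ √b → infDist w (hornJ u b) ^ 2 ≤
      ‖orth u w‖ ^ 2 + (⟪u, w⟫ + t) ^ 2 := by
    intro t ht0 ht1
    have h4 := infDist_le_dist_of_mem (x := w) (hornJ_mem (u := u) hb ht0 ht1)
    rw [dist_eq_norm, sub_neg_eq_add] at h4
    have h5 := norm_sq_orth hu (w + t • u)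
    have h6 : orth u (w + t • u) = orth u w := by
      unfold orth
      rw [inner_add_right, real_inner_smul_right, huu]
      module
    have h7 : ⟪u, w + t • u⟫ = ⟪u, w⟫ + t := by
      rw [inner_add_right, real_inner_smul_right, huu, mul_one]
    rw [h6, h7] at h5
    have h8 : 0 ≤ infDist w (hornJ u b) := infDist_nonneg
    nlinarith
  by_cases hc : -⟪u, w⟫ ≤ √b
  · have h4 := key (-⟪u, w⟫) (by linarith) hc
    nlinarith
  · push Not at hc
    have h4 := key (√b) hs.le le_rfl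
    have h5 : (⟪u, w⟫ + √b) ^ 2 ≤ μ := by nlinarith
    nlinarith

theorem grB_exists {P : E → ℝ} {u : E} {β : ℝ} (h : TubP P u β)
    {k : E → ℝ} {b : ℝ} {kb gt : E → ℝ} {r : ℝ} (hA : GrA P u β k b kb gt r) :
    ∃ κ : ℝ → ℝ, GrB P u β b kb r κ := by
  have hβ := h.hβ
  have hβ1 := h.hβ1
  have hu := h.hu
  have hb := hA.hb
  have hbβ := hA.hbβ
  have hr := hA.hr
  have hbs : b ≤ 1 / 800 := by linarith
  obtain ⟨μ, hμd⟩ : ∃ μ, μ = min (r ^ 2) b / 16 := ⟨_, rfl⟩
  have hμ : 0 < μ := by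
    rw [hμd]
    have : 0 < min (r ^ 2) b := lt_min (by positivity) hb
    positivity
  have hμr : μ ≤ r ^ 2 / 16 := by
    rw [hμd]
    have := min_le_left (r ^ 2) b
    linarith
  have hμb : μ ≤ b / 16 := by
    rw [hμd]
    have := min_le_right (r ^ 2) b
    linarith
  obtain ⟨ς, hςd⟩ : ∃ ς, ς = μ / (2 * (b + μ)) := ⟨_, rfl⟩
  have hς : 0 < ς := by
    rw [hςd]
    positivity
  have hςb : ς * (b + μ) = μ / 2 := by
    rw [hςd]
    field_simp
  have hς1 : ς < 1 := by
    rw [hςd, div_lt_one (by positivity)]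
    linarith
  obtain ⟨κ, k1, k2, k3, k4, k5, k6, k7⟩ := exists_kap (b := b) (q := μ / 2) (ν := √b / 2) (ς := ς)
    hb (by positivity) (by linarith) (by have := Real.sqrt_pos.2 hb; positivity)
    (by
      have hss : √b * √b = b := Real.mul_self_sqrt hb.le
      nlinarith) hς hς1
  have hzero : κ 0 = 0 := by
    have h1 := k2 0
    have h2 : κ 0 ≤ (1 - ς) * 0 ^ 2 := h1.2.2
    rw [zero_pow two_ne_zero, mul_zero] at h2
    linarith [h1.1]
  have hle : ∀ a, κ a ≤ a ^ 2 := by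
    intro a
    have h1 := (k2 a).2.2
    nlinarith [sq_nonneg a]
  -- the dichotomy
  have hsmall : ∀ w : E, ‖w‖ ≤ 10 → ⟪u, w⟫ ≤ 0 → ⟪u, w⟫ ^ 2 ≤ b + μ →
      ‖orth u w‖ ^ 2 ≤ ⟪u, w⟫ ^ 2 → tubC u w = 1 := by
    intro w _ _ h1 h2
    refine tubC_one hu ?_
    have h3 := norm_sq_orth hu w
    have h4 : ‖w‖ ^ 2 ≤ (1 / 2) ^ 2 := by linarith
    nlinarith [norm_nonneg w]
  have hκb : ∀ a, a ≤ 0 → b + μ < a ^ 2 → κ a = b := by
    intro a ha h1
    refine k3 a ha ?_
    nlinarith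
  have hdist : ∀ w : E, infDist w (hornJ u b) ^ 2 ≤ 5 / 2 * μ → infDist w (hornJ u b) ≤ r / 2 := by
    intro w h1
    have h2 : 0 ≤ infDist w (hornJ u b) := infDist_nonneg
    nlinarith
  refine ⟨κ, ⟨k1, hzero, fun a => ⟨(k2 a).1, (k2 a).2.1.trans hbβ⟩, hle, fun a ha => ?_,
    fun a z => ?_⟩, fun a => (k2 a).2.1, fun w hw9 hwa hw0 => ?_, fun w hwk hwr => ?_⟩
  · have h1 := k7 a
    have h2 : 0 < a ^ 2 := by positivity
    nlinarith
  · have h1 := hA.hM z
    have h2 := (k2 a).2.1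
    have h3 := abs_nonneg (deriv ps0 z)
    nlinarith
  · -- the critical slice in the ball
    by_cases hcase : tubK P u (-b) w ≤ 0
    · left
      by_cases ha0 : w = 0 ∨ ⟪u, w⟫ < 0 ∨ True
      · have h4 := tub_left h (s := -b) (by linarith) (by linarith) hw9 hcase hwa
          (Or.inl (by linarith))
        exact GrA_clp hA.lb.clp (show -((5 : ℝ) • u) ∈ {w | kb w ≤ 0} from hA.lb.left) h4
      · exact absurd (Or.inr (Or.inr trivial)) ha0
    · right
      push Not at hcase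
      have hC := tubC_mem u w
      have hP := h.mod w (by linarith)
      rw [tubK, hP] at hcase
      rw [hnC, hP] at hw0
      have h1 : ⟪u, w⟫ ^ 2 ≤ b + μ := by
        by_contra h2
        push Not at h2
        rw [hκb _ hwa h2] at hw0
        linarith
      have h2 : ‖orth u w‖ ^ 2 ≤ ⟪u, w⟫ ^ 2 := by
        have h3 := (k2 ⟪u, w⟫).1
        nlinarith [mul_nonneg hC.1 h3]
      have h3 := hsmall w (by linarith) hwa h1 h2
      rw [h3, one_mul] at hw0
      have h4 := k6 _ hwa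
      refine hdist w (GrB_dist hu hb hμ ?_ hwa h1)
      rcases le_total b ((1 - ς) * ⟪u, w⟫ ^ 2) with h5 | h5
      · rw [min_eq_left h5] at h4
        linarith
      · rw [min_eq_right h5] at h4
        nlinarith [sq_nonneg ⟪u, w⟫]
  · -- near the wall
    by_cases hw4 : 4 < ‖w‖
    · have h1 : ∀ᶠ z in 𝓝 w, 4 < ‖z‖ :=
        (continuous_norm.tendsto w).eventually (lt_mem_nhds hw4)
      filter_upwards [h1] with z hz
      rw [hnC, tubK, tubC_zero hu hz.le]
      ring
    · push Not at hw4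
      have hka : tubK P u (-b) w ≤ 0 := hA.lb.clp.sub hwk
      have ha : ⟪u, w⟫ < 0 := by
        by_contra h1
        push Not at h1
        have h4 := tub_right h (s := -b) (by linarith) (by linarith) (by linarith) hka h1
          (Or.inl (by linarith))
        have hK : ∀ z ∈ connectedComponentIn {w | tubK P u (-b) w ≤ 0} w, kb z ≤ 0 := fun z hz =>
          GrA_clp hA.lb.clp (show w ∈ {w | kb w ≤ 0} from hwk) hz
        have h5 : (5 : ℝ) • u ∈ connectedComponentIn {w | tubK P u (-b) w ≤ 0} w := by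
          rw [← connectedComponentIn_eq h4]
          refine mem_connectedComponentIn ?_
          exact mem_of_mem_of_subset (by
            by_contra h6
            rw [connectedComponentIn_eq_empty h6] at h4
            exact h4) (Subset.refl _)
        have h6 := hK _ h5
        have h7 := hA.lb.right
        linarith
      have h2 : b + μ < ⟪u, w⟫ ^ 2 := by
        by_contra h3
        push Not at h3
        rw [tubK, h.mod w (by linarith)] at hka
        have hC := tubC_mem u w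
        have h4 : ‖orth u w‖ ^ 2 ≤ ⟪u, w⟫ ^ 2 := by nlinarith [mul_nonneg hb.le hC.1]
        rw [hsmall w (by linarith) ha.le h3 h4] at hka
        have h5 := hdist w (GrB_dist hu hb hμ (by linarith) ha.le h3)
        linarith
      have hcu : Continuous fun z : E => ⟪u, z⟫ := by fun_prop
      have e1 : ∀ᶠ z in 𝓝 w, ⟪u, z⟫ < 0 := (hcu.tendsto w).eventually (gt_mem_nhds ha)
      have e2 : ∀ᶠ z in 𝓝 w, b + μ < ⟪u, z⟫ ^ 2 :=
        ((hcu.pow 2).tendsto w).eventually (lt_mem_nhds h2)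
      filter_upwards [e1, e2] with z hz1 hz2
      rw [hnC, tubK, hκb _ hz1.le hz2]
      ring

end Pool.Schoen
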