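import Pool.Agent.H.MP_6c077c_gt.N3.GrB

/-! The graph over the left sector and the horn: neighbourhoods. -/

set_option autoImplicit false

namespace Pool.Schoen

open Filter Set Metric
open scoped Topology RealInnerProductSpace ContDiff

variable {E : Type*} [NormedAddCommGroup E] [InnerProductSpace ℝ E] [FiniteDimensional ℝ E]

/-- The compact set over which the graph lives. -/
def grK (P : E → ℝ) (u : E) (κ : ℝ → ℝ) (b : ℝ) (kb : E → ℝ) (r : ℝ) : Set E :=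
  {w | kb w ≤ 0} ∪ {w | infDist w (hornJ u b) ≤ r / 2 ∧ ⟪u, w⟫ ≤ 0 ∧ hnC P u κ w ≤ 0}

/-- The neighbourhood of radius `δ`. -/
structure GrC (P : E → ℝ) (u : E) (β b : ℝ) (kb gt : E → ℝ) (r : ℝ) (κ : ℝ → ℝ) (K : Set E)
    (δ ε : ℝ) : Prop where
  cpt : IsCompact K
  zero : (0 : E) ∈ K
  sub : ∀ w, kb w ≤ 0 → w ∈ K
  mem : ∀ w ∈ K, kb w ≤ 0 ∨ (infDist w (hornJ u b) ≤ r / 2 ∧ ⟪u, w⟫ ≤ 0 ∧ hnC P u κ w ≤ 0)
  hδ : 0 < δ
  hε : 0 < ε
  in9 : ∀ w, ‖w‖ ≤ 9 → ⟪u, w⟫ ≤ 0 → hnC P u κ w ≤ 0 → w ∈ K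
  far : ∀ w, infDist w K ≤ δ → hnC P u κ w ≤ 0 → w ∈ K ∨ (‖w‖ < 9 / 2 ∧ 0 < ⟪u, w⟫)
  gap : ∀ w, infDist w K ≤ δ → 0 ≤ ⟪u, w⟫ → ‖w‖ < 9 / 2 ∨ 8 < ‖w‖
  nz : ∀ w, infDist w K ≤ δ → gradient gt w ≠ 0
  wall : ∀ w s, infDist w K ≤ δ → |s| ≤ ε → r ≤ infDist w (hornJ u b) → hnK P u β κ s w = 0 →
    ∀ t : ℝ, 0 ≤ t → t ≤ 1 → t • gradient (hnK P u β κ s) w + (1 - t) • gradient gt w ≠ 0

theorem hnC_smooth {P : E → ℝ} {u : E} {β : ℝ} {κ : ℝ → ℝ} (h : TubP P u β) (hκ : KapD κ β) :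
    ContDiff ℝ ∞ (hnC P u κ) := by
  unfold hnC
  exact h.sm.add ((tubC_smooth u).mul (hκ.sm.comp (innerSL ℝ u).contDiff))

theorem hornJ_norm {u : E} (hu : ‖u‖ = 1) {b r : ℝ} (hb : 0 < b) (hr : 0 ≤ r) {w : E}
    (h : infDist w (hornJ u b) ≤ r) : ‖w‖ ≤ √b + r := by
  obtain ⟨y, hy, hyd⟩ := (hornJ_compact u b).exists_infDist_eq_dist
    ⟨0, left_mem_segment ℝ _ _⟩ w
  obtain ⟨t, ht0, ht1, rfl⟩ := hornJ_cases hb hy
  rw [hyd, dist_eq_norm, sub_neg_eq_add] at h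
  have h1 : ‖w‖ ≤ ‖w + t • u‖ + ‖t • u‖ := by
    have := norm_sub_le (w + t • u) (t • u)
    rwa [add_sub_cancel_right] at this
  rw [norm_smul, hu, mul_one, Real.norm_of_nonneg ht0] at h1
  linarith

/-- The left sector has `⟪u, w⟫ < 0` in the ball. -/
theorem GrC_left {P : E → ℝ} {u : E} {β b : ℝ} {kb : E → ℝ} (h : TubP P u β) (hb : 0 < b)
    (hbβ : b ≤ β) (hl : LBall P u b kb) {w : E} (hw : kb w ≤ 0) (hw9 : ‖w‖ ≤ 9) : ⟪u, w⟫ < 0 := by
  by_contra h1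
  push Not at h1
  have hka : tubK P u (-b) w ≤ 0 := hl.clp.sub hw
  have h4 := tub_right h (s := -b) (by linarith) (by linarith) hw9 hka h1 (Or.inl (by linarith))
  have h5 : (5 : ℝ) • u ∈ connectedComponentIn {w | tubK P u (-b) w ≤ 0} w := by
    rw [← connectedComponentIn_eq h4]
    refine mem_connectedComponentIn ?_
    by_contra h6
    rw [connectedComponentIn_eq_empty h6] at h4
    exact h4
  have h6 : (5 : ℝ) • u ∈ {w | kb w ≤ 0} := GrA_clp hl.clp (show w ∈ {w | kb w ≤ 0} from hw) h5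
  have h7 := hl.right
  have h8 : kb ((5 : ℝ) • u) ≤ 0 := h6
  linarith

/-- A neighbourhood of a compact set in an open set, with `infDist`. -/
theorem GrC_nbhd {K U : Set E} (hK : IsCompact K) (hKn : K.Nonempty) (hU : IsOpen U) (hKU : K ⊆ U) :
    ∃ δ, 0 < δ ∧ ∀ w, infDist w K ≤ δ → w ∈ U := by
  obtain ⟨δ, hδ, h⟩ := hK.exists_cthickening_subset_open hU hKU
  refine ⟨δ, hδ, fun w hw => h ?_⟩
  obtain ⟨y, hy, hyd⟩ := hK.exists_infDist_eq_dist hKn w
  exact mem_cthickening_of_dist_le w y δ _ hy (by rw [← hyd]; exact hw)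

theorem GrC_grad_cont {P : E → ℝ} {u : E} {β : ℝ} {κ : ℝ → ℝ} (h : TubP P u β) (hκ : KapD κ β) :
    Continuous fun q : ℝ × E => gradient (hnK P u β κ q.1) q.2 := by
  have h1 := hnK_smooth h hκ
  have h2 : ∀ q : ℝ × E, fderiv ℝ (hnK P u β κ q.1) q.2 =
      (fderiv ℝ (fun q : ℝ × E => hnK P u β κ q.1 q.2) q).comp
        (ContinuousLinearMap.inr ℝ ℝ E) := by
    intro q
    have h3 : HasFDerivAt (fun q : ℝ × E => hnK P u β κ q.1 q.2)
        (fderiv ℝ (fun q : ℝ × E => hnK P u β κ q.1 q.2) q) (q.1, q.2) :=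
      ((h1.differentiable (by simp)) q).hasFDerivAt
    have h4 : HasFDerivAt (fun w : E => (q.1, w)) (ContinuousLinearMap.inr ℝ ℝ E) q.2 :=
      hasFDerivAt_prodMk_right q.1 q.2
    exact (h3.comp q.2 h4).fderiv
  have h5 : Continuous fun q : ℝ × E => fderiv ℝ (fun q : ℝ × E => hnK P u β κ q.1 q.2) q :=
    h1.continuous_fderiv (by simp)
  have h6 : Continuous fun q : ℝ × E => fderiv ℝ (hnK P u β κ q.1) q.2 := by
    have h7 : (fun q : ℝ × E => fderiv ℝ (hnK P u β κ q.1) q.2) = fun q : ℝ × E =>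
        (fderiv ℝ (fun q : ℝ × E => hnK P u β κ q.1 q.2) q).comp
          (ContinuousLinearMap.inr ℝ ℝ E) := funext h2
    rw [h7]
    exact h5.clm_comp continuous_const
  exact (InnerProductSpace.toDual ℝ E).symm.continuous.comp h6

theorem grC_exists {P : E → ℝ} {u : E} {β : ℝ} (h : TubP P u β)
    {k : E → ℝ} {b : ℝ} {kb gt : E → ℝ} {r : ℝ} (hA : GrA P u β k b kb gt r) {κ : ℝ → ℝ}
    (hB : GrB P u β b kb r κ) :
    ∃ (K : Set E) (δ ε : ℝ), GrC P u β b kb gt r κ K δ ε := by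
  have hβ := h.hβ
  have hβ1 := h.hβ1
  have hu := h.hu
  have hb := hA.hb
  have hbβ := hA.hbβ
  have hr := hA.hr
  have hbs : b ≤ 1 / 800 := by linarith
  have hs : 0 < √b := Real.sqrt_pos.2 hb
  have hss : √b * √b = b := Real.mul_self_sqrt hb.le
  have hs1 : √b < 1 / 4 := by nlinarith
  have hrb := hA.hrb
  have : ProperSpace E := FiniteDimensional.proper ℝ E
  have hCs := hnC_smooth h hB.kap
  have hCc := hCs.continuous
  have hcu : Continuous fun z : E => ⟪u, z⟫ := by fun_prop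
  obtain ⟨K, hK⟩ : ∃ K, K = grK P u κ b kb r := ⟨_, rfl⟩
  have hKmem : ∀ w, w ∈ K ↔ kb w ≤ 0 ∨
      (infDist w (hornJ u b) ≤ r / 2 ∧ ⟪u, w⟫ ≤ 0 ∧ hnC P u κ w ≤ 0) := by
    intro w
    rw [hK]
    rfl
  have hKc : IsCompact K := by
    rw [hK]
    refine IsCompact.union ?_ ?_
    · exact isCompact_of_isClosed_isBounded hA.lb.clp.cl hA.lb.dom.bdd
    · refine isCompact_of_isClosed_isBounded ?_ ?_
      · exact (isClosed_le (continuous_infDist_pt _) continuous_const).inter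
          ((isClosed_le hcu continuous_const).inter (isClosed_le hCc continuous_const))
      · refine (isBounded_closedBall (x := (0 : E)) (r := √b + r / 2)).subset fun w hw => ?_
        rw [mem_closedBall_zero_iff]
        exact hornJ_norm hu hb (by positivity) hw.1
  have h0K : (0 : E) ∈ K := by
    rw [hKmem]
    right
    refine ⟨?_, ?_, ?_⟩
    · have h1 : infDist 0 (hornJ u b) = 0 := infDist_zero_of_mem (left_mem_segment ℝ _ _)
      rw [h1]
      positivity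
    · rw [inner_zero_right]
    · rw [hnC, inner_zero_right, hB.kap.zero, mul_zero, add_zero, h.mod 0 (by simp)]
      simp [orth]
  have hKn : K.Nonempty := ⟨0, h0K⟩
  have hK9 : ∀ w ∈ K, ‖w‖ ≤ 9 → 0 ≤ ⟪u, w⟫ → w = 0 := by
    intro w hw hw9 hwa
    rcases (hKmem w).1 hw with h1 | ⟨h1, h2, h3⟩
    · have := GrC_left h hb (by linarith) hA.lb h1 hw9
      linarith
    · have h4 : ⟪u, w⟫ = 0 := le_antisymm h2 hwa
      rw [hnC, h4, hB.kap.zero, mul_zero, add_zero, h.mod w (by linarith), h4] at h3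
      have h5 := norm_sq_orth hu w
      rw [h4] at h5
      have h6 : ‖w‖ ^ 2 ≤ 0 := by nlinarith
      have h7 : ‖w‖ = 0 := by nlinarith [norm_nonneg w, sq_nonneg ‖w‖]
      exact norm_eq_zero.1 h7
  have hin9 : ∀ w, ‖w‖ ≤ 9 → ⟪u, w⟫ ≤ 0 → hnC P u κ w ≤ 0 → w ∈ K := by
    intro w h1 h2 h3
    rw [hKmem]
    rcases hB.reg9 w h1 h2 h3 with h4 | h4
    · exact Or.inl h4
    · exact Or.inr ⟨h4, h2, h3⟩
  -- first neighbourhood
  obtain ⟨δ1, hδ1, hδ1'⟩ := GrC_nbhd hKc hKn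
    (U := {w | w ∈ ({w | tubK P u (-b) w ≤ 0} \ {w | kb w ≤ 0}) ∩ {w : E | 9 / 2 ≤ ‖w‖}}ᶜ)
    (by
      have h1 : IsClosed (({w | tubK P u (-b) w ≤ 0} \ {w | kb w ≤ 0}) ∩ {w : E | 9 / 2 ≤ ‖w‖}) :=
        hA.lb.clp.cl'.inter (isClosed_le continuous_const continuous_norm)
      exact h1.isOpen_compl)
    (by
      intro w hw hw'
      obtain ⟨⟨h1, h2⟩, h3⟩ := hw'
      rcases (hKmem w).1 hw with h4 | ⟨h4, -, -⟩
      · exact h2 h4
      · have h5 := hornJ_norm hu hb (by positivity) h4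
        have h6 : 9 / 2 ≤ ‖w‖ := h3
        linarith)
  -- second neighbourhood
  obtain ⟨δ2, hδ2, hδ2'⟩ := GrC_nbhd hKc hKn
    (U := {w : E | 0 ≤ ⟪u, w⟫ ∧ 9 / 2 ≤ ‖w‖ ∧ ‖w‖ ≤ 8}ᶜ)
    (by
      have h1 : IsClosed {w : E | 0 ≤ ⟪u, w⟫ ∧ 9 / 2 ≤ ‖w‖ ∧ ‖w‖ ≤ 8} :=
        (isClosed_le continuous_const hcu).inter
          ((isClosed_le continuous_const continuous_norm).inter
            (isClosed_le continuous_norm continuous_const))
      exact h1.isOpen_compl)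
    (by
      rintro w hw ⟨h1, h2, h3⟩
      have h4 := hK9 w hw (by linarith) h1
      rw [h4, norm_zero] at h2
      linarith)
  -- third neighbourhood
  have hgc : Continuous (gradient gt) :=
    (InnerProductSpace.toDual ℝ E).symm.continuous.comp (hA.sm.continuous_fderiv (by simp))
  have huu : ⟪u, u⟫ = 1 := by rw [real_inner_self_eq_norm_sq, hu]; norm_num
  have hlin : ∀ w, infDist w (hornJ u b) ≤ r → gradient gt w = -u := by
    intro w hw
    have h1 := hA.lin w hw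
    have h2 : HasGradientAt (fun z : E => -⟪u, z⟫) (-u) w := by
      have h3 : HasGradientAt (fun z : E => ⟪u, z⟫) u w := by
        rw [hasGradientAt_iff_hasFDerivAt]
        exact (innerSL ℝ u).hasFDerivAt
      rw [hasGradientAt_iff_hasFDerivAt] at h3 ⊢
      rw [map_neg]
      exact h3.neg
    exact (h2.congr_of_eventuallyEq h1).gradient
  have hu0 : u ≠ 0 := by
    intro h1
    rw [h1, norm_zero] at hu
    exact zero_ne_one hu
  obtain ⟨δ3, hδ3, hδ3'⟩ := GrC_nbhd hKc hKn (U := {w | gradient gt w ≠ 0})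
    (isOpen_ne_fun hgc continuous_const)
    (by
      intro w hw
      rcases (hKmem w).1 hw with h4 | ⟨h4, -, -⟩
      · exact hA.nz w h4
      · show gradient gt w ≠ 0
        rw [hlin w (by linarith)]
        exact neg_ne_zero.2 hu0)
  -- fourth neighbourhood
  obtain ⟨B, hBd⟩ : ∃ B : Set ((ℝ × E) × ℝ), B = {q | r ≤ infDist q.1.2 (hornJ u b) ∧
      hnK P u β κ q.1.1 q.1.2 = 0 ∧ q.2 • gradient (hnK P u β κ q.1.1) q.1.2 +
        (1 - q.2) • gradient gt q.1.2 = 0} := ⟨_, rfl⟩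
  have hBc : IsClosed B := by
    rw [hBd]
    have c1 : Continuous fun q : (ℝ × E) × ℝ => infDist q.1.2 (hornJ u b) :=
      (continuous_infDist_pt _).comp (by fun_prop)
    have c2 : Continuous fun q : (ℝ × E) × ℝ => hnK P u β κ q.1.1 q.1.2 :=
      (hnK_smooth h hB.kap).continuous.comp continuous_fst
    have c3 : Continuous fun q : (ℝ × E) × ℝ => gradient (hnK P u β κ q.1.1) q.1.2 :=
      (GrC_grad_cont h hB.kap).comp continuous_fst
    have c4 : Continuous fun q : (ℝ × E) × ℝ => gradient gt q.1.2 :=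
      hgc.comp (by fun_prop)
    refine (isClosed_le continuous_const c1).inter ((isClosed_eq c2 continuous_const).inter ?_)
    exact isClosed_eq ((continuous_snd.smul c3).add ((continuous_const.sub continuous_snd).smul c4))
      continuous_const
  have hKB : ({(0 : ℝ)} ×ˢ K) ×ˢ Icc (0 : ℝ) 1 ⊆ Bᶜ := by
    rintro ⟨⟨s, w⟩, t⟩ ⟨⟨hs0, hw⟩, ht⟩ hq
    rw [hBd] at hq
    obtain ⟨q1, q2, q3⟩ := hq
    simp only at hs0 hw ht q1 q2 q3
    have hs0' : s = 0 := hs0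
    subst hs0'
    have h1 : kb w ≤ 0 := by
      rcases (hKmem w).1 hw with h4 | ⟨h4, -, -⟩
      · exact h4
      · linarith
    have h2 : hnK P u β κ 0 = hnC P u κ := by
      funext z
      rw [hnK_small h (by rw [abs_zero]; positivity), hnC, sub_zero]
    have h3 := hB.eqb w h1 q1
    have h4 := hA.lb.germ w h1
    have h5 : hnK P u β κ 0 =ᶠ[𝓝 w] kb := by
      rw [h2]
      filter_upwards [h3, h4] with z hz1 hz2
      rw [hz1, hz2]
    have h6 : kb w = 0 := by rw [← h5.self_of_nhds, q2]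
    have h7 : gradient (hnK P u β κ 0) w = gradient kb w := by
      unfold gradient
      rw [h5.fderiv_eq]
    rw [h7] at q3
    exact hA.wall w h6 q1 t ht.1 ht.2 q3
  have hKc3 : IsCompact (({(0 : ℝ)} ×ˢ K) ×ˢ Icc (0 : ℝ) 1) :=
    (isCompact_singleton.prod hKc).prod isCompact_Icc
  obtain ⟨δ4, hδ4, hδ4'⟩ := hKc3.exists_cthickening_subset_open hBc.isOpen_compl hKB
  -- together
  obtain ⟨δ, hδd⟩ : ∃ δ, δ = min (min δ1 δ2) (min δ3 δ4) := ⟨_, rfl⟩
  have hδ : 0 < δ := by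
    rw [hδd]
    exact lt_min (lt_min hδ1 hδ2) (lt_min hδ3 hδ4)
  have d1 : δ ≤ δ1 := by
    rw [hδd]
    exact (min_le_left _ _).trans (min_le_left _ _)
  have d2 : δ ≤ δ2 := by
    rw [hδd]
    exact (min_le_left _ _).trans (min_le_right _ _)
  have d3 : δ ≤ δ3 := by
    rw [hδd]
    exact (min_le_right _ _).trans (min_le_left _ _)
  have d4 : δ ≤ δ4 := by
    rw [hδd]
    exact (min_le_right _ _).trans (min_le_right _ _)
  refine ⟨K, δ, δ4, hKc, h0K, fun w hw => (hKmem w).2 (Or.inl hw), fun w hw => (hKmem w).1 hw, hδ,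
    hδ4, hin9, fun w hw hw0 => ?_, fun w hw hwa => ?_, fun w hw => hδ3' w (hw.trans d3),
    fun w s hw hs' hwr hws t ht0 ht1 h0 => ?_⟩
  · by_cases hw4 : 9 / 2 ≤ ‖w‖
    · left
      have h1 := hδ1' w (hw.trans d1)
      by_contra h2
      refine h1 ⟨⟨?_, fun h3 => h2 ((hKmem w).2 (Or.inl h3))⟩, hw4⟩
      show tubK P u (-b) w ≤ 0
      rw [hnC, tubC_zero hu (by linarith)] at hw0
      rw [tubK, tubC_zero hu (by linarith)]
      linarith
    · push Not at hw4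
      rcases le_or_gt ⟪u, w⟫ 0 with h1 | h1
      · exact Or.inl (hin9 w (by linarith) h1 hw0)
      · exact Or.inr ⟨hw4, h1⟩
  · have h1 := hδ2' w (hw.trans d2)
    by_contra h2
    push Not at h2
    exact h1 ⟨hwa, h2.1, h2.2⟩
  · have h1 : ((s, w), t) ∈ cthickening δ4 (({(0 : ℝ)} ×ˢ K) ×ˢ Icc (0 : ℝ) 1) := by
      obtain ⟨y, hy, hyd⟩ := hKc.exists_infDist_eq_dist hKn w
      refine mem_cthickening_of_dist_le _ (((0 : ℝ), y), t) δ4 _ ⟨⟨rfl, hy⟩, ht0, ht1⟩ ?_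
      rw [Prod.dist_eq, Prod.dist_eq]
      refine max_le (max_le ?_ ?_) ?_
      · rw [Real.dist_eq, sub_zero]
        exact hs'
      · show dist w y ≤ δ4
        rw [← hyd]
        exact hw.trans d4
      · simp [hδ4.le]
    have h2 := hδ4' h1
    rw [hBd] at h2
    exact h2 ⟨hwr, hws, h0⟩

end Pool.Schoen
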