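import Pool.Agent.H.MP_6c077c_gt.N3.GrC

/-! The graph over the left sector and the horn: existence. -/

set_option autoImplicit false

namespace Pool.Schoen

open Filter Set Metric
open scoped Topology RealInnerProductSpace ContDiff

theorem GrDef_lam {z : ℝ} (h : z ≤ -(1 / 4)) : lam0 z ≤ -(1 / 4) := by
  unfold lam0
  obtain ⟨T, hT⟩ : ∃ T, T = Real.smoothTransition (((z + 3 / 4) ^ 2 - 1 / 256) * (256 / 3)) :=
    ⟨_, rfl⟩
  have h0 : 0 ≤ T := by
    rw [hT]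
    exact Real.smoothTransition.nonneg _
  have h1 : T ≤ 1 := by
    rw [hT]
    exact Real.smoothTransition.le_one _
  rw [← hT]
  rcases le_total 0 (z + 3 / 4) with h2 | h2
  · nlinarith
  · nlinarith

variable {E : Type*} [NormedAddCommGroup E] [InnerProductSpace ℝ E] [FiniteDimensional ℝ E]

/-- Directional derivatives of the slices near the horn. -/
theorem GrDef_dir {κ : ℝ → ℝ} (hκ : ContDiff ℝ ∞ κ) {u : E} (hu : ‖u‖ = 1) {s : ℝ} {f : E → ℝ}
    {w : E} (hf : f =ᶠ[𝓝 w] fun z => ‖orth u z‖ ^ 2 - ⟪u, z⟫ ^ 2 + κ ⟪u, z⟫ - s) :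
    fderiv ℝ f w (orth u w) = 2 * ‖orth u w‖ ^ 2 ∧
      (orth u w = 0 → fderiv ℝ f w u = -(2 * ⟪u, w⟫) + deriv κ ⟪u, w⟫) := by
  have huu : ⟪u, u⟫ = 1 := by rw [real_inner_self_eq_norm_sq, hu]; norm_num
  obtain ⟨g, hg⟩ : ∃ g : E → ℝ, g = fun z => ‖orth u z‖ ^ 2 - ⟪u, z⟫ ^ 2 + κ ⟪u, z⟫ - s := ⟨_, rfl⟩
  rw [← hg] at hf
  have ho : ContDiff ℝ ∞ fun z : E => orth u z := by
    unfold orth
    exact contDiff_id.sub (((innerSL ℝ u).contDiff).smul contDiff_const)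
  have hi : ContDiff ℝ ∞ fun z : E => ⟪u, z⟫ := (innerSL ℝ u).contDiff
  have hgs : ContDiff ℝ ∞ g := by
    rw [hg]
    exact ((((contDiff_norm_sq ℝ).comp ho).sub (hi.pow 2)).add (hκ.comp hi)).sub contDiff_const
  have hgd := (hgs.differentiable (by simp)) w
  have hline : ∀ v : E, HasDerivAt (fun t : ℝ => g (w + t • v)) (fderiv ℝ g w v) 0 := by
    intro v
    have h1 : HasDerivAt (fun t : ℝ => w + t • v) v 0 := by
      have h2 := ((hasDerivAt_id (0 : ℝ)).smul_const v).const_add w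
      simpa using h2
    have h2 : HasFDerivAt g (fderiv ℝ g w) (w + (0 : ℝ) • v) := by
      rw [zero_smul, add_zero]
      exact hgd.hasFDerivAt
    exact h2.comp_hasDerivAt (0 : ℝ) h1
  rw [hf.fderiv_eq]
  constructor
  · have h1 := hline (orth u w)
    have h2 : ∀ t : ℝ, g (w + t • orth u w) =
        (1 + t) ^ 2 * ‖orth u w‖ ^ 2 - ⟪u, w⟫ ^ 2 + κ ⟪u, w⟫ - s := by
      intro t
      have h3 : ⟪u, w + t • orth u w⟫ = ⟪u, w⟫ := by
        rw [inner_add_right, real_inner_smul_right, inner_orth hu, mul_zero, add_zero]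
      have h4 : orth u (w + t • orth u w) = (1 + t) • orth u w := by
        have h5 : orth u (w + t • orth u w) = w + t • orth u w - ⟪u, w⟫ • u := by
          rw [orth, h3]
        rw [h5]
        unfold orth
        module
      rw [hg]
      show ‖orth u (w + t • orth u w)‖ ^ 2 - ⟪u, w + t • orth u w⟫ ^ 2 +
        κ ⟪u, w + t • orth u w⟫ - s = _
      rw [h3, h4, norm_smul, mul_pow, Real.norm_eq_abs, sq_abs]
    have h3 : HasDerivAt (fun t : ℝ => (1 + t) ^ 2 * ‖orth u w‖ ^ 2 - ⟪u, w⟫ ^ 2 + κ ⟪u, w⟫ - s)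
        (2 * ‖orth u w‖ ^ 2) 0 := by
      have h4 : HasDerivAt (fun t : ℝ => 1 + t) 1 0 := by
        simpa using (hasDerivAt_id (0 : ℝ)).const_add (1 : ℝ)
      have h5 := ((((h4.pow 2).mul_const (‖orth u w‖ ^ 2)).sub_const (⟪u, w⟫ ^ 2)).add_const
        (κ ⟪u, w⟫)).sub_const s
      simpa using h5
    have h4 : (fun t : ℝ => g (w + t • orth u w)) =
        fun t : ℝ => (1 + t) ^ 2 * ‖orth u w‖ ^ 2 - ⟪u, w⟫ ^ 2 + κ ⟪u, w⟫ - s := funext h2
    rw [h4] at h1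
    exact h1.unique h3
  · intro ho0
    have h1 := hline u
    have h2 : ∀ t : ℝ, g (w + t • u) = -(⟪u, w⟫ + t) ^ 2 + κ (⟪u, w⟫ + t) - s := by
      intro t
      have h3 : ⟪u, w + t • u⟫ = ⟪u, w⟫ + t := by
        rw [inner_add_right, real_inner_smul_right, huu, mul_one]
      have h4 : orth u (w + t • u) = 0 := by
        have h5 : orth u (w + t • u) = orth u w := by
          unfold orth
          rw [h3]
          module
        rw [h5, ho0]
      rw [hg]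
      show ‖orth u (w + t • u)‖ ^ 2 - ⟪u, w + t • u⟫ ^ 2 + κ ⟪u, w + t • u⟫ - s = _
      rw [h3, h4, norm_zero]
      ring
    have h3 : HasDerivAt (fun t : ℝ => -(⟪u, w⟫ + t) ^ 2 + κ (⟪u, w⟫ + t) - s)
        (-(2 * ⟪u, w⟫) + deriv κ ⟪u, w⟫) 0 := by
      have h4 : HasDerivAt (fun t : ℝ => ⟪u, w⟫ + t) 1 0 := by
        simpa using (hasDerivAt_id (0 : ℝ)).const_add ⟪u, w⟫
      have h5 : HasDerivAt κ (deriv κ ⟪u, w⟫) (⟪u, w⟫ + 0) := by
        rw [add_zero]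
        exact ((hκ.differentiable (by simp)) _).hasDerivAt
      have h6 := h5.comp (0 : ℝ) h4
      have h7 := ((h4.pow 2).neg.add h6).sub_const s
      simpa using h7
    have h4 : (fun t : ℝ => g (w + t • u)) =
        fun t : ℝ => -(⟪u, w⟫ + t) ^ 2 + κ (⟪u, w⟫ + t) - s := funext h2
    rw [h4] at h1
    exact h1.unique h3

/-- The numbers and functions of the graph. -/
structure GrX (P : E → ℝ) (u : E) (β b : ℝ) (k kb gt : E → ℝ) (r : ℝ) (κ : ℝ → ℝ) (K : Set E)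
    (δ ε0 : ℝ) (a0 ε η : ℝ) (ϑ1 ϑ3 ξ ϑ G : E → ℝ) : Prop where
  A : GrA P u β k b kb gt r
  B : GrB P u β b kb r κ
  C : GrC P u β b kb gt r κ K δ ε0
  ha0 : 0 < a0
  ha0δ : a0 ≤ δ / 8
  ha0β : a0 ≤ β / 4
  ha0r : a0 ≤ r / 8
  pos : ∀ w, infDist w K ≤ δ → δ / 2 ≤ infDist w K → (⟪u, w⟫ ≤ a0 ∨ 9 / 2 ≤ ‖w‖) →
    ε < hnC P u κ w
  hε : 0 < ε
  hε0 : ε ≤ ε0
  hεβ : ε ≤ β / 8
  hεr : ε ≤ r ^ 2 / 2
  hη : 0 < η
  hηa : η ≤ a0 / 2
  hηh : η ≤ 1 / 2
  one : ∀ w, infDist w K ≤ δ / 2 → ∀ᶠ y in 𝓝 w, ϑ1 y = 1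
  th31 : ∀ w : E, ‖w‖ ≤ 6 → ϑ3 w = 1
  th30 : ∀ w : E, 8 ≤ ‖w‖ → ϑ3 w = 0
  xi0 : ∀ w : E, ⟪u, w⟫ ≤ 6 / 5 * η → ξ w = 0
  xi1 : ∀ w : E, 9 / 5 * η ≤ ⟪u, w⟫ → ξ w = 1
  thv : ∀ w, ϑ w = ϑ1 w * (1 - ϑ3 w * ξ w)
  thz : ∀ w, ϑ w ≠ 0 → infDist w K < δ
  Gv : ∀ w, G w = η ^ 2 + 3 * η * gt w
  Gb : ∀ w, ϑ w ≠ 0 → |G w| ≤ ε / 4
  Gg : ∀ w, gradient G w = (3 * η) • gradient gt w

variable {P : E → ℝ} {u : E} {β b : ℝ} {k kb gt : E → ℝ} {r : ℝ} {κ : ℝ → ℝ} {K : Set E}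
  {δ ε0 : ℝ} {a0 ε η : ℝ} {ϑ1 ϑ3 ξ ϑ G : E → ℝ}

/-- Points of the body on the right. -/
theorem GrDef_right (h : TubP P u β) (hκ : KapD κ β) {w : E} (hw : ‖w‖ < 9 / 2)
    (hw0 : hnC P u κ w ≤ 0) : ‖w‖ ^ 2 ≤ 2 * ⟪u, w⟫ ^ 2 := by
  rw [hnC, h.mod w (by linarith)] at hw0
  have h1 := norm_sq_orth h.hu w
  have h2 := mul_nonneg (tubC_mem u w).1 (hκ.mem ⟪u, w⟫).1
  linarith

theorem GrDef_small (h : TubP P u β) {w : E} (hw : ‖w‖ ^ 2 ≤ β / 2) : tubC u w = 1 := by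
  refine tubC_one h.hu ?_
  have := h.hβ1
  nlinarith [norm_nonneg w]

theorem GrDef_ax (h : TubP P u β) (X : GrX P u β b k kb gt r κ K δ ε0 a0 ε η ϑ1 ϑ3 ξ ϑ G) {w : E}
    (hw : ϑ w ≠ 0) (hw6 : ‖w‖ ≤ 6) : ⟪u, w⟫ < 9 / 5 * η := by
  by_contra h6
  refine hw ?_
  rw [X.thv, X.xi1 w (not_lt.1 h6), X.th31 w hw6]
  ring

/-- Above the graph near the end of the horn. -/
theorem GrDef_end (h : TubP P u β) (X : GrX P u β b k kb gt r κ K δ ε0 a0 ε η ϑ1 ϑ3 ξ ϑ G) {w : E}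
    {s : ℝ} (hs0 : -β ≤ s) (hsε : s ≤ ε) (hws : hnK P u β κ s w ≤ 0) (hCε : hnC P u κ w ≤ ε)
    (h2 : 6 / 5 * η ≤ ⟪u, w⟫) (h3 : ‖w‖ < 9 / 2) (h5 : ⟪u, w⟫ < 9 / 5 * η) :
    G w - s ≤ -η ^ 2 := by
  have hβ := h.hβ
  have hβ1 := h.hβ1
  have hη := X.hη
  have hηa := X.hηa
  have h6 := norm_sq_orth h.hu w
  have hP := h.mod w (by linarith)
  have hCm := tubC_mem u w
  have hκm := X.B.kap.mem ⟪u, w⟫
  have h7 : ‖orth u w‖ ^ 2 ≤ ⟪u, w⟫ ^ 2 + ε := by
    rw [hnC, hP] at hCε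
    have := mul_nonneg hCm.1 hκm.1
    linarith
  have h8 : ⟪u, w⟫ ^ 2 ≤ a0 ^ 2 := by
    refine pow_le_pow_left₀ ?_ ?_ 2
    · have : 0 < 6 / 5 * η := by positivity
      linarith
    · linarith
  have h8r : a0 ^ 2 ≤ r ^ 2 / 64 := by
    have h9 : a0 ^ 2 ≤ (r / 8) ^ 2 := pow_le_pow_left₀ X.ha0.le X.ha0r 2
    have h10 : (r / 8) ^ 2 = r ^ 2 / 64 := by ring
    rwa [h10] at h9
  have h8β : a0 ^ 2 ≤ β / 16 := by
    have h9 : a0 ^ 2 ≤ (β / 4) ^ 2 := pow_le_pow_left₀ X.ha0.le X.ha0β 2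
    have h10 : (β / 4) ^ 2 ≤ β / 16 := by nlinarith
    exact h9.trans h10
  have hεr := X.hεr
  have hεβ := X.hεβ
  have hr2 : 0 ≤ r ^ 2 := sq_nonneg r
  have h9 : ‖w‖ ^ 2 ≤ r ^ 2 := by linarith
  have h10 : ‖w‖ ≤ r := by
    have h10 := abs_le_of_sq_le_sq h9 X.A.hr.le
    rwa [abs_norm] at h10
  have hJ0 : (0 : E) ∈ hornJ u b := left_mem_segment ℝ _ _
  have hJn : infDist w (hornJ u b) ≤ ‖w‖ := by
    have := infDist_le_dist_of_mem (x := w) hJ0
    rwa [dist_zero_right] at this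
  have h11 := (X.A.lin w (hJn.trans h10)).self_of_nhds
  have h12 : ‖w‖ ^ 2 ≤ β / 2 := by linarith
  have h13 := GrDef_small h h12
  have ho := sq_nonneg ‖orth u w‖
  have h14 : -⟪u, w⟫ ^ 2 ≤ s := by
    by_cases h15 : |s| ≤ β / 4
    · rw [hnK_small h h15, hP, h13] at hws
      linarith [hκm.1]
    · exfalso
      have h16 : s < -(β / 4) := by
        by_contra h17
        push Not at h17
        exact h15 (abs_le.2 ⟨by linarith, by linarith⟩)
      have h17 : s / β ≤ -(1 / 4) := by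
        rw [div_le_iff₀ hβ]
        linarith
      have h18 := GrDef_lam h17
      rw [hnK, hP, h13] at hws
      have h19 := mul_nonneg (ps0_mem (s / β)).1 hκm.1
      have h20 : β * lam0 (s / β) ≤ β * (-(1 / 4)) := mul_le_mul_of_nonneg_left h18 hβ.le
      linarith
  rw [X.Gv, h11]
  have h21 : 0 ≤ (⟪u, w⟫ - 6 / 5 * η) * (9 / 5 * η - ⟪u, w⟫) :=
    mul_nonneg (by linarith) (by linarith)
  have h22 : 0 < η ^ 2 := by positivity
  nlinarith

/-- The lateral condition. -/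
theorem GrDef_lat (h : TubP P u β) (X : GrX P u β b k kb gt r κ K δ ε0 a0 ε η ϑ1 ϑ3 ξ ϑ G) {w : E}
    {s : ℝ} (hs0 : -β ≤ s) (hsε : s ≤ ε) (hws : hnK P u β κ s w ≤ 0) (hwϑ : ϑ w ≠ 0) :
    (∀ᶠ z in 𝓝 w, ϑ z = 1) ∨ G w - s ≤ -η ^ 2 := by
  have hβ := h.hβ
  have hη := X.hη
  have hcu : Continuous fun z : E => ⟪u, z⟫ := by fun_prop
  have hd := X.thz w hwϑ
  have hεβ := X.hεβ
  have hCε : hnC P u κ w ≤ ε := by
    rcases le_or_gt s 0 with h1 | h1
    · have h2 := hnK_ge h X.B.kap hs0 h1 w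
      rw [hnC]
      linarith [X.hε]
    · rw [hnK_small h (by rw [abs_of_pos h1]; linarith)] at hws
      have h2 := tubC_mem u w
      have h3 : tubC u w * s ≤ 1 * s := mul_le_mul_of_nonneg_right h2.2 h1.le
      rw [hnC]
      rw [mul_sub] at hws
      linarith
  have h1 : infDist w K < δ / 2 ∨ (a0 < ⟪u, w⟫ ∧ ‖w‖ < 9 / 2) := by
    by_contra h2
    push Not at h2
    have h3 := X.pos w hd.le h2.1 (by
      rcases le_or_gt ⟪u, w⟫ a0 with h4 | h4
      · exact Or.inl h4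
      · exact Or.inr (h2.2 h4))
    linarith
  rcases h1 with h1 | ⟨h1, h2⟩
  · have e1 := X.one w h1.le
    rcases lt_or_ge ⟪u, w⟫ (6 / 5 * η) with h2 | h2
    · left
      have e2 : ∀ᶠ z in 𝓝 w, ⟪u, z⟫ < 6 / 5 * η := (hcu.tendsto w).eventually (gt_mem_nhds h2)
      filter_upwards [e1, e2] with z hz1 hz2
      rw [X.thv, hz1, X.xi0 z hz2.le]
      ring
    · rcases X.C.gap w hd.le (by
        have : 0 < 6 / 5 * η := by positivity
        linarith) with h3 | h3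
      · right
        exact GrDef_end h X hs0 hsε hws hCε h2 h3 (GrDef_ax h X hwϑ (by linarith))
      · left
        have e2 : ∀ᶠ z in 𝓝 w, 8 < ‖z‖ :=
          (continuous_norm.tendsto w).eventually (lt_mem_nhds h3)
        filter_upwards [e1, e2] with z hz1 hz2
        rw [X.thv, hz1, X.th30 z hz2.le]
        ring
  · exfalso
    have h3 := GrDef_ax h X hwϑ (by linarith)
    have h4 := X.hηa
    linarith

/-- The left sector. -/
theorem GrDef_left (h : TubP P u β) (hk : LBall P u (3 / 4 * β) k)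
    (X : GrX P u β b k kb gt r κ K δ ε0 a0 ε η ϑ1 ϑ3 ξ ϑ G) {w : E}
    (hwϑ : ϑ w ≠ 0) (hwt : tubK P u (-(3 / 4 * β)) w ≤ 0) : k w ≤ 0 := by
  have hβ := h.hβ
  have hb := X.A.hb
  have hbβ := X.A.hbβ
  have hd := X.thz w hwϑ
  have hCm := tubC_mem u w
  have hκb := X.B.le ⟪u, w⟫
  have hss : √b * √b = b := Real.mul_self_sqrt hb.le
  have h1 : hnC P u κ w ≤ 0 := by
    rw [tubK] at hwt
    rw [hnC]
    have h2 : tubC u w * κ ⟪u, w⟫ ≤ tubC u w * (3 / 4 * β) :=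
      mul_le_mul_of_nonneg_left (by linarith) hCm.1
    linarith
  rcases X.C.far w hd.le h1 with h2 | ⟨h2, h3⟩
  · rcases X.C.mem w h2 with h4 | ⟨h4, h5, -⟩
    · by_cases h6 : 4 < ‖w‖
      · exact (X.A.far w h6).1 h4
      · push Not at h6
        have h7 := GrC_left h hb (by linarith) X.A.lb h4 (by linarith)
        have h8 := tub_left h (s := -(3 / 4 * β)) (by linarith) (by linarith) (by linarith) hwt
          h7.le (Or.inr (Or.inl h7))
        exact GrA_clp hk.clp (show -((5 : ℝ) • u) ∈ {w | k w ≤ 0} from hk.left) h8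
    · exfalso
      have hr := X.A.hr
      have hrb := X.A.hrb
      have h6 := hornJ_norm h.hu hb (by positivity) h4
      have h7 : ‖w‖ ≤ 9 / 8 * √b := by linarith
      have h8 : ‖w‖ ^ 2 ≤ 81 / 64 * b := by
        have h9 : ‖w‖ ^ 2 ≤ (9 / 8 * √b) ^ 2 := pow_le_pow_left₀ (norm_nonneg w) h7 2
        have h10 : (9 / 8 * √b) ^ 2 = 81 / 64 * (√b * √b) := by ring
        rwa [h10, hss] at h9
      have h9 := norm_sq_orth h.hu w
      have h10 := GrDef_small h (w := w) (by linarith)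
      have h11 : ‖w‖ ≤ 10 := by
        have := h.hβ1
        nlinarith [norm_nonneg w]
      rw [tubK, h.mod w h11, h10] at hwt
      linarith [sq_nonneg ‖orth u w‖]
  · exfalso
    have h5 := GrDef_ax h X hwϑ (by linarith)
    have h6 := GrDef_right h X.B.kap h2 h1
    have h7 : ⟪u, w⟫ ^ 2 ≤ a0 ^ 2 := pow_le_pow_left₀ h3.le (by linarith [X.hηa]) 2
    have h8 : a0 ^ 2 ≤ β / 16 := by
      have h9 : a0 ^ 2 ≤ (β / 4) ^ 2 := pow_le_pow_left₀ X.ha0.le X.ha0β 2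
      have h10 : (β / 4) ^ 2 ≤ β / 16 := by
        have := h.hβ1
        nlinarith
      exact h9.trans h10
    have h9 := GrDef_small h (w := w) (by linarith)
    rw [tubK, h.mod w (by linarith), h9] at hwt
    linarith [sq_nonneg ‖orth u w‖]

theorem GrDef_one (h : TubP P u β) (hk : LBall P u (3 / 4 * β) k)
    (X : GrX P u β b k kb gt r κ K δ ε0 a0 ε η ϑ1 ϑ3 ξ ϑ G) {w : E} (hwk : k w ≤ 0) : ϑ w = 1 := by
  have hβ := h.hβ
  have hb := X.A.hb
  have hbβ := X.A.hbβ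
  have hη := X.hη
  have h1 : {w | k w ≤ 0} ⊆ {w | tubK P u (-b) w ≤ 0} := by
    intro z hz
    have h2 : tubK P u (-(3 / 4 * β)) z ≤ 0 := hk.clp.sub hz
    have h3 := tubC_mem u z
    have h4 : tubC u z * b ≤ tubC u z * (3 / 4 * β) :=
      mul_le_mul_of_nonneg_left (by linarith) h3.1
    show tubK P u (-b) z ≤ 0
    rw [tubK] at h2 ⊢
    linarith
  have h2 : w ∈ connectedComponentIn {w | tubK P u (-b) w ≤ 0} (-((5 : ℝ) • u)) :=
    hk.dom.conn.isPreconnected.subset_connectedComponentIn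
      (show -((5 : ℝ) • u) ∈ {w | k w ≤ 0} from hk.left) h1 hwk
  have h3 : kb w ≤ 0 :=
    GrA_clp X.A.lb.clp (show -((5 : ℝ) • u) ∈ {w | kb w ≤ 0} from X.A.lb.left) h2
  have h4 : ϑ1 w = 1 := (X.one w (by
    rw [infDist_zero_of_mem (X.C.sub w h3)]
    linarith [X.C.hδ])).self_of_nhds
  rw [X.thv, h4]
  by_cases h5 : ‖w‖ ≤ 9
  · have h6 := GrC_left h hb (by linarith) X.A.lb h3 h5
    rw [X.xi0 w (by
      have : 0 < 6 / 5 * η := by positivity
      linarith)]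
    ring
  · push Not at h5
    rw [X.th30 w (by linarith)]
    ring

theorem GrDef_grad (X : GrX P u β b k kb gt r κ K δ ε0 a0 ε η ϑ1 ϑ3 ξ ϑ G) {w : E}
    (hJ : infDist w (hornJ u b) ≤ r) : gradient gt w = -u := by
  have h2 : HasGradientAt (fun z : E => -⟪u, z⟫) (-u) w := by
    have h3 : HasGradientAt (fun z : E => ⟪u, z⟫) u w := by
      rw [hasGradientAt_iff_hasFDerivAt]
      exact (innerSL ℝ u).hasFDerivAt
    rw [hasGradientAt_iff_hasFDerivAt] at h3 ⊢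
    rw [map_neg]
    exact h3.neg
  exact (h2.congr_of_eventuallyEq (X.A.lin w hJ)).gradient

theorem GrDef_corner (h : TubP P u β) (X : GrX P u β b k kb gt r κ K δ ε0 a0 ε η ϑ1 ϑ3 ξ ϑ G)
    {w : E} (hwϑ : ϑ w ≠ 0) (hw0 : hnK P u β κ (G w) w = 0) {t : ℝ} (ht0 : 0 ≤ t) (ht1 : t ≤ 1) :
    t • gradient (hnK P u β κ (G w)) w + (1 - t) • gradient G w ≠ 0 := by
  intro h0
  have hβ := h.hβ
  have hu := h.hu
  have hη := X.hη
  have hb := X.A.hb
  have hr := X.A.hr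
  have huu : ⟪u, u⟫ = 1 := by rw [real_inner_self_eq_norm_sq, hu]; norm_num
  have hd := X.thz w hwϑ
  have hGw := X.Gb w hwϑ
  have hεβ := X.hεβ
  have hε0 := X.hε0
  have hε := X.hε
  rw [X.Gg, smul_smul] at h0
  by_cases hJ : r ≤ infDist w (hornJ u b)
  · have hD : 0 < t + (1 - t) * (3 * η) := by
      rcases eq_or_lt_of_le ht0 with h1 | h1
      · rw [← h1]
        simp only [sub_zero, one_mul, zero_add]
        positivity
      · have : 0 ≤ (1 - t) * (3 * η) := mul_nonneg (by linarith) (by positivity)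
        linarith
    refine X.C.wall w (G w) hd.le (by linarith) hJ hw0 (t / (t + (1 - t) * (3 * η)))
      (by positivity) ?_ ?_
    · rw [div_le_one hD]
      have : 0 ≤ (1 - t) * (3 * η) := mul_nonneg (by linarith) (by positivity)
      linarith
    · have h1 : 1 - t / (t + (1 - t) * (3 * η)) =
          (1 - t) * (3 * η) / (t + (1 - t) * (3 * η)) := by
        rw [eq_div_iff hD.ne', sub_mul, div_mul_cancel₀ _ hD.ne']
        ring
      rw [h1]
      have h2 : (t + (1 - t) * (3 * η)) • ((t / (t + (1 - t) * (3 * η))) •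
          gradient (hnK P u β κ (G w)) w + ((1 - t) * (3 * η) / (t + (1 - t) * (3 * η))) •
            gradient gt w) = 0 := by
        rw [smul_add, smul_smul, smul_smul, mul_div_cancel₀ _ hD.ne', mul_div_cancel₀ _ hD.ne']
        exact h0
      exact (smul_eq_zero.1 h2).resolve_left hD.ne'
  · push Not at hJ
    have hlin := X.A.lin w hJ.le
    have hwn := hornJ_norm hu hb hr.le hJ.le
    have hs : 0 < √b := Real.sqrt_pos.2 hb
    have hss : √b * √b = b := Real.mul_self_sqrt hb.le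
    have hs1 : √b < 1 / 4 := by
      have := X.A.hbβ
      have := h.hβ1
      nlinarith
    have hrb := X.A.hrb
    have hwn' : ‖w‖ < 1 / 2 := by linarith
    have e1 : ∀ᶠ z in 𝓝 w, ‖z‖ < 1 / 2 :=
      (continuous_norm.tendsto w).eventually (gt_mem_nhds hwn')
    have hf : hnK P u β κ (G w) =ᶠ[𝓝 w]
        fun z => ‖orth u z‖ ^ 2 - ⟪u, z⟫ ^ 2 + κ ⟪u, z⟫ - G w := by
      filter_upwards [e1] with z hz
      rw [hnK_small h (by linarith), h.mod z (by linarith), tubC_one hu hz.le]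
      ring
    obtain ⟨d1, d2⟩ := GrDef_dir X.B.kap.sm hu hf
    rw [GrDef_grad X hJ.le] at h0
    have hgi : ∀ v : E, ⟪gradient (hnK P u β κ (G w)) w, v⟫ =
        fderiv ℝ (hnK P u β κ (G w)) w v := by
      intro v
      rw [gradient, InnerProductSpace.toDual_symm_apply]
    have i1 : t * (2 * ‖orth u w‖ ^ 2) = 0 := by
      have h3 := congrArg (fun z : E => ⟪z, orth u w⟫) h0
      simp only [inner_add_left, real_inner_smul_left, inner_neg_left, inner_zero_left, hgi, d1,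
        inner_orth hu] at h3
      linarith
    have hval : -⟪u, w⟫ ^ 2 + κ ⟪u, w⟫ + ‖orth u w‖ ^ 2 - (η ^ 2 - 3 * η * ⟪u, w⟫) = 0 := by
      have h3 := hf.self_of_nhds
      rw [hw0] at h3
      have h4 := X.Gv w
      rw [hlin.self_of_nhds] at h4
      rw [h4] at h3
      linarith
    rcases eq_or_lt_of_le ht0 with h3 | h3
    · rw [← h3, zero_smul, zero_add, sub_zero, one_mul, smul_neg, neg_eq_zero] at h0
      have h4 := (smul_eq_zero.1 h0).resolve_left (by positivity)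
      rw [h4, norm_zero] at hu
      exact zero_ne_one hu
    · have h4 : ‖orth u w‖ ^ 2 = 0 := by
        rcases mul_eq_zero.1 i1 with h5 | h5
        · exact absurd h5 h3.ne'
        · linarith
      have h5 : orth u w = 0 := by
        rw [← norm_eq_zero]
        exact pow_eq_zero_iff two_ne_zero |>.1 h4
      have i2 : t * (-(2 * ⟪u, w⟫) + deriv κ ⟪u, w⟫) - (1 - t) * (3 * η) = 0 := by
        have h6 := congrArg (fun z : E => ⟪z, u⟫) h0
        simp only [inner_add_left, real_inner_smul_left, inner_neg_left, inner_zero_left, hgi,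
          d2 h5, huu] at h6
        linarith
      have h6 := X.B.kap.le ⟪u, w⟫
      have h7 : 0 < ⟪u, w⟫ := by
        rw [h4] at hval
        by_contra h8
        push Not at h8
        have h9 : 0 < η ^ 2 := by positivity
        have h10 : 0 ≤ η * -⟪u, w⟫ := mul_nonneg hη.le (by linarith)
        linarith
      have h8 := X.B.kap.der ⟪u, w⟫ h7.ne'
      have h9 : deriv κ ⟪u, w⟫ < 2 * ⟪u, w⟫ := by
        by_contra h10
        push Not at h10
        have := mul_le_mul_of_nonneg_left h10 h7.le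
        nlinarith
      have h10 : 0 ≤ (1 - t) * (3 * η) := mul_nonneg (by linarith) (by positivity)
      have h11 : 0 < t * (2 * ⟪u, w⟫ - deriv κ ⟪u, w⟫) := mul_pos h3 (by linarith)
      linarith

/-- The graph data exist. -/
theorem gr_exists (hE : Module.finrank ℝ E = 3) {P : E → ℝ} {u : E} {β : ℝ} (h : TubP P u β)
    {k : E → ℝ} (hk : LBall P u (3 / 4 * β) k) :
    ∃ (κ : ℝ → ℝ) (ε : ℝ) (G ϑ : E → ℝ), KapD κ β ∧ GrE P u β κ k ε G ϑ := by
  obtain ⟨b, kb, gt, r, hA⟩ := grA_exists hE h hk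
  obtain ⟨κ, hB⟩ := grB_exists h hA
  obtain ⟨K, δ, ε0, hC⟩ := grC_exists h hA hB
  have hβ := h.hβ
  have hβ1 := h.hβ1
  have hu := h.hu
  have hb := hA.hb
  have hbβ := hA.hbβ
  have hr := hA.hr
  have hbs : b ≤ 1 / 800 := by linarith
  have hs : 0 < √b := Real.sqrt_pos.2 hb
  have hss : √b * √b = b := Real.mul_self_sqrt hb.le
  have hs1 : √b < 1 / 4 := by nlinarith
  have hrb := hA.hrb
  have hδ := hC.hδ
  have huu : ⟪u, u⟫ = 1 := by rw [real_inner_self_eq_norm_sq, hu]; norm_num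
  have : ProperSpace E := FiniteDimensional.proper ℝ E
  have hKn : K.Nonempty := ⟨0, hC.zero⟩
  have hcu : Continuous fun z : E => ⟪u, z⟫ := by fun_prop
  have hiK : Continuous fun z : E => infDist z K := continuous_infDist_pt K
  have hCc := (hnC_smooth h hB.kap).continuous
  have hJ0 : (0 : E) ∈ hornJ u b := left_mem_segment ℝ _ _
  have hJnorm : ∀ w : E, infDist w (hornJ u b) ≤ ‖w‖ := by
    intro w
    have := infDist_le_dist_of_mem (x := w) hJ0
    rwa [dist_zero_right] at this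
  have hKnorm : ∀ w : E, infDist w K ≤ ‖w‖ := by
    intro w
    have := infDist_le_dist_of_mem (x := w) hC.zero
    rwa [dist_zero_right] at this
  -- the axial bound
  obtain ⟨a0, ha0d⟩ : ∃ a0, a0 = min (min (δ / 8) (β / 4)) (r / 8) := ⟨_, rfl⟩
  have ha0 : 0 < a0 := by
    rw [ha0d]
    exact lt_min (lt_min (by positivity) (by positivity)) (by positivity)
  have ha0δ : a0 ≤ δ / 8 := by
    rw [ha0d]
    exact (min_le_left _ _).trans (min_le_left _ _)
  have ha0β : a0 ≤ β / 4 := by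
    rw [ha0d]
    exact (min_le_left _ _).trans (min_le_right _ _)
  have ha0r : a0 ≤ r / 8 := by
    rw [ha0d]
    exact min_le_right _ _
  -- the compact neighbourhood
  have hNc : IsCompact {w | infDist w K ≤ δ} := by
    refine isCompact_of_isClosed_isBounded (isClosed_le hiK continuous_const) ?_
    obtain ⟨R, hR⟩ := hC.cpt.isBounded.exists_norm_le
    refine (isBounded_closedBall (x := (0 : E)) (r := R + δ)).subset fun w hw => ?_
    rw [mem_closedBall_zero_iff]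
    obtain ⟨y, hy, hyd⟩ := hC.cpt.exists_infDist_eq_dist hKn w
    have h1 := hR y hy
    have hw' : infDist w K ≤ δ := hw
    rw [hyd, dist_eq_norm] at hw'
    have h2 : ‖w‖ ≤ ‖w - y‖ + ‖y‖ := by
      have := norm_add_le (w - y) y
      rwa [sub_add_cancel] at this
    linarith
  -- the critical slice is positive off the neighbourhood
  obtain ⟨ε2, hε2, hε2'⟩ : ∃ ε2 : ℝ, 0 < ε2 ∧ ∀ w, infDist w K ≤ δ → δ / 2 ≤ infDist w K →
      (⟪u, w⟫ ≤ a0 ∨ 9 / 2 ≤ ‖w‖) → ε2 < hnC P u κ w := by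
    obtain ⟨X, hX⟩ : ∃ X : Set E, X = {w | infDist w K ≤ δ} ∩ ({w | δ / 2 ≤ infDist w K} ∩
        ({w | ⟪u, w⟫ ≤ a0} ∪ {w | 9 / 2 ≤ ‖w‖})) := ⟨_, rfl⟩
    have hXc : IsCompact X := by
      rw [hX]
      exact hNc.inter_right ((isClosed_le continuous_const hiK).inter
        ((isClosed_le hcu continuous_const).union (isClosed_le continuous_const continuous_norm)))
    have hpos : ∀ w ∈ X, 0 < hnC P u κ w := by
      intro w hw
      rw [hX] at hw
      obtain ⟨h1, h2, h3⟩ := hw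
      have h1' : infDist w K ≤ δ := h1
      have h2' : δ / 2 ≤ infDist w K := h2
      by_contra h4
      push Not at h4
      rcases hC.far w h1' h4 with h5 | ⟨h5, h6⟩
      · have h7 : infDist w K = 0 := infDist_zero_of_mem h5
        linarith
      · rcases h3 with h7 | h7
        · have h8 : ⟪u, w⟫ ≤ a0 := h7
          have h9 := GrDef_right h hB.kap h5 h4
          have h10 := hKnorm w
          have h11 : ⟪u, w⟫ ^ 2 ≤ a0 ^ 2 := pow_le_pow_left₀ h6.le h8 2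
          have h12 : ‖w‖ ^ 2 < (2 * a0) ^ 2 := by
            have h13 : 0 < a0 ^ 2 := by positivity
            have h14 : (2 * a0) ^ 2 = 4 * a0 ^ 2 := by ring
            linarith
          have h13 := abs_lt_of_sq_lt_sq h12 (by positivity)
          rw [abs_norm] at h13
          linarith
        · have h8 : 9 / 2 ≤ ‖w‖ := h7
          linarith
    rcases X.eq_empty_or_nonempty with hXe | hXn
    · refine ⟨1, one_pos, fun w h1 h2 h3 => ?_⟩
      have h4 : w ∈ X := by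
        rw [hX]
        exact ⟨h1, h2, h3⟩
      rw [hXe] at h4
      exact absurd h4 (notMem_empty w)
    · obtain ⟨w0, hw0, hmin⟩ := hXc.exists_isMinOn hXn hCc.continuousOn
      have h5 := hpos w0 hw0
      refine ⟨hnC P u κ w0 / 2, by positivity, fun w h1 h2 h3 => ?_⟩
      have h4 : w ∈ X := by
        rw [hX]
        exact ⟨h1, h2, h3⟩
      have h6 : hnC P u κ w0 ≤ hnC P u κ w := hmin h4
      linarith
  -- the height
  obtain ⟨ε, hεd⟩ : ∃ ε, ε = min (min (min ε0 ε2) (β / 8)) (r ^ 2 / 2) := ⟨_, rfl⟩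
  have hε : 0 < ε := by
    rw [hεd]
    exact lt_min (lt_min (lt_min hC.hε hε2) (by positivity)) (by positivity)
  have hε0 : ε ≤ ε0 := by
    rw [hεd]
    exact ((min_le_left _ _).trans (min_le_left _ _)).trans (min_le_left _ _)
  have hεε2 : ε ≤ ε2 := by
    rw [hεd]
    exact ((min_le_left _ _).trans (min_le_left _ _)).trans (min_le_right _ _)
  have hεβ : ε ≤ β / 8 := by
    rw [hεd]
    exact (min_le_left _ _).trans (min_le_right _ _)
  have hεr : ε ≤ r ^ 2 / 2 := by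
    rw [hεd]
    exact min_le_right _ _
  -- the bound of the graph
  obtain ⟨T, hT0, hT⟩ : ∃ T : ℝ, 0 ≤ T ∧ ∀ w, infDist w K ≤ δ → |gt w| ≤ T := by
    obtain ⟨T, hT⟩ := hNc.exists_bound_of_continuousOn hA.sm.continuous.continuousOn
    refine ⟨max T 0, le_max_right _ _, fun w hw => ?_⟩
    have := hT w hw
    rw [Real.norm_eq_abs] at this
    exact this.trans (le_max_left _ _)
  obtain ⟨η, hηd⟩ : ∃ η, η = min (min (ε / (4 * (1 + 3 * T))) (a0 / 2)) (1 / 2) := ⟨_, rfl⟩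
  have hη : 0 < η := by
    rw [hηd]
    exact lt_min (lt_min (by positivity) (by positivity)) (by norm_num)
  have hη1 : η * (1 + 3 * T) ≤ ε / 4 := by
    have h1 : η ≤ ε / (4 * (1 + 3 * T)) := by
      rw [hηd]
      exact (min_le_left _ _).trans (min_le_left _ _)
    have h2 : (0 : ℝ) < 4 * (1 + 3 * T) := by positivity
    rw [le_div_iff₀ h2] at h1
    linarith
  have hηa : η ≤ a0 / 2 := by
    rw [hηd]
    exact (min_le_left _ _).trans (min_le_right _ _)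
  have hηh : η ≤ 1 / 2 := by
    rw [hηd]
    exact min_le_right _ _
  -- the cut-offs
  obtain ⟨ϑ1, z1, z2, z3⟩ :=
    exists_contMDiffMap_one_nhds_of_subset_interior (modelWithCornersSelf ℝ E) (n := (⊤ : ℕ∞))
      (s := {w : E | infDist w K ≤ δ / 2}) (isClosed_le hiK continuous_const)
      (t := {w : E | infDist w K < δ}) (by
        rw [(isOpen_lt hiK continuous_const).interior_eq]
        intro w hw
        have hw' : infDist w K ≤ δ / 2 := hw
        show infDist w K < δ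
        linarith)
  have hϑ1 : ContDiff ℝ ∞ ϑ1 := ϑ1.contMDiff.contDiff
  have hϑ1n : ∀ w, infDist w K ≤ δ / 2 → ∀ᶠ y in 𝓝 w, ϑ1 y = 1 := fun w hw =>
    z1.filter_mono (nhds_le_nhdsSet (show w ∈ {w : E | infDist w K ≤ δ / 2} from hw))
  have hϑ1z : ∀ w, ϑ1 w ≠ 0 → infDist w K < δ := by
    intro w hw
    by_contra h1
    exact hw (z2 w h1)
  obtain ⟨ϑ3, hϑ3d⟩ : ∃ ϑ3 : E → ℝ, ϑ3 = fun w =>
    Real.smoothTransition ((64 - ‖w‖ ^ 2) / 28) := ⟨_, rfl⟩
  have hϑ3 : ContDiff ℝ ∞ ϑ3 := by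
    rw [hϑ3d]
    exact Real.smoothTransition.contDiff.comp
      ((contDiff_const.sub (contDiff_norm_sq ℝ)).div_const _)
  have hϑ3m : ∀ w, 0 ≤ ϑ3 w ∧ ϑ3 w ≤ 1 := fun w => by
    rw [hϑ3d]
    exact ⟨Real.smoothTransition.nonneg _, Real.smoothTransition.le_one _⟩
  have hϑ31 : ∀ w : E, ‖w‖ ≤ 6 → ϑ3 w = 1 := by
    intro w hw
    rw [hϑ3d]
    refine Real.smoothTransition.one_of_one_le ?_
    rw [le_div_iff₀ (by norm_num)]
    nlinarith [norm_nonneg w]
  have hϑ30 : ∀ w : E, 8 ≤ ‖w‖ → ϑ3 w = 0 := by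
    intro w hw
    rw [hϑ3d]
    refine Real.smoothTransition.zero_of_nonpos ?_
    refine div_nonpos_of_nonpos_of_nonneg ?_ (by norm_num)
    nlinarith [norm_nonneg w]
  obtain ⟨ξ, hξd⟩ : ∃ ξ : E → ℝ, ξ = fun w =>
    Real.smoothTransition ((⟪u, w⟫ / η - 6 / 5) / (3 / 5)) := ⟨_, rfl⟩
  have hξ : ContDiff ℝ ∞ ξ := by
    rw [hξd]
    have h1 : ContDiff ℝ ∞ fun z : E => ⟪u, z⟫ := (innerSL ℝ u).contDiff
    exact Real.smoothTransition.contDiff.comp (((h1.div_const _).sub contDiff_const).div_const _)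
  have hξm : ∀ w, 0 ≤ ξ w ∧ ξ w ≤ 1 := fun w => by
    rw [hξd]
    exact ⟨Real.smoothTransition.nonneg _, Real.smoothTransition.le_one _⟩
  have hξ0 : ∀ w : E, ⟪u, w⟫ ≤ 6 / 5 * η → ξ w = 0 := by
    intro w hw
    rw [hξd]
    refine Real.smoothTransition.zero_of_nonpos ?_
    refine div_nonpos_of_nonpos_of_nonneg ?_ (by norm_num)
    rw [sub_nonpos, div_le_iff₀ hη]
    exact hw
  have hξ1 : ∀ w : E, 9 / 5 * η ≤ ⟪u, w⟫ → ξ w = 1 := by
    intro w hw
    rw [hξd]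
    refine Real.smoothTransition.one_of_one_le ?_
    rw [le_div_iff₀ (by norm_num), le_sub_iff_add_le, le_div_iff₀ hη]
    linarith
  obtain ⟨ϑ, hϑd⟩ : ∃ ϑ : E → ℝ, ϑ = fun w => ϑ1 w * (1 - ϑ3 w * ξ w) := ⟨_, rfl⟩
  have hϑs : ContDiff ℝ ∞ ϑ := by
    rw [hϑd]
    exact hϑ1.mul (contDiff_const.sub (hϑ3.mul hξ))
  have hϑv : ∀ w, ϑ w = ϑ1 w * (1 - ϑ3 w * ξ w) := fun w => by rw [hϑd]
  have hϑz : ∀ w, ϑ w ≠ 0 → infDist w K < δ := by
    intro w hw
    refine hϑ1z w fun h1 => hw ?_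
    rw [hϑv, h1, zero_mul]
  obtain ⟨G, hGd⟩ : ∃ G : E → ℝ, G = fun w => η ^ 2 + 3 * η * gt w := ⟨_, rfl⟩
  have hGs : ContDiff ℝ ∞ G := by
    rw [hGd]
    exact contDiff_const.add (contDiff_const.mul hA.sm)
  have hGv : ∀ w, G w = η ^ 2 + 3 * η * gt w := fun w => by rw [hGd]
  have hGb : ∀ w, ϑ w ≠ 0 → |G w| ≤ ε / 4 := by
    intro w hw
    have h1 := abs_le.1 (hT w (hϑz w hw).le)
    rw [hGv, abs_le]
    have h2 : η * gt w ≤ η * T := mul_le_mul_of_nonneg_left h1.2 hη.le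
    have h3 : η * -T ≤ η * gt w := mul_le_mul_of_nonneg_left h1.1 hη.le
    have h4 : 0 ≤ η ^ 2 := sq_nonneg η
    have h5 : η ^ 2 ≤ η := by nlinarith
    constructor
    · linarith
    · linarith
  have hGg : ∀ w, gradient G w = (3 * η) • gradient gt w := by
    intro w
    have h1 : fderiv ℝ G w = (3 * η) • fderiv ℝ gt w := by
      rw [hGd]
      rw [fderiv_const_add, fderiv_const_mul ((hA.sm.differentiable (by simp)) w)]
    unfold gradient
    rw [h1, map_smul]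
  have hgt0 : gt 0 = 0 := by
    have h1 := (hA.lin 0 (by
      rw [infDist_zero_of_mem hJ0]
      exact hr.le)).self_of_nhds
    rw [h1]
    show -⟪u, (0 : E)⟫ = 0
    rw [inner_zero_right, neg_zero]
  have X : GrX P u β b k kb gt r κ K δ ε0 a0 ε η ϑ1 ϑ3 ξ ϑ G :=
    ⟨hA, hB, hC, ha0, ha0δ, ha0β, ha0r,
      fun w h1 h2 h3 => hεε2.trans_lt (hε2' w h1 h2 h3), hε, hε0, hεβ, hεr, hη, hηa,
      hηh, hϑ1n, hϑ31, hϑ30, hξ0, hξ1, hϑv, hϑz, hGv, hGb, hGg⟩
  refine ⟨κ, ε, G, ϑ, hB.kap, hε, hεβ, by linarith, hGs, hϑs, fun w => ?_, ?_, hGb, ⟨?_, ?_⟩,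
    ⟨η ^ 2, by positivity, fun w s hs0 hsε hws hwϑ => GrDef_lat h X hs0 hsε hws hwϑ⟩,
    fun w hwϑ hwt => GrDef_left h hk X hwϑ hwt, fun w hwk => GrDef_one h hk X hwk,
    fun w hwϑ _ => ?_, fun w hwϑ hw0 t ht0 ht1 => GrDef_corner h X hwϑ hw0 ht0 ht1⟩
  · -- mem
    rw [hϑv]
    have h1 := hϑ3m w
    have h2 := hξm w
    have h3 := z3 w
    have h4 : 0 ≤ ϑ3 w * ξ w := mul_nonneg h1.1 h2.1
    have h5 : ϑ3 w * ξ w ≤ 1 := mul_le_one₀ h1.2 h2.1 h2.2
    exact ⟨mul_nonneg h3.1 (by linarith), mul_le_one₀ h3.2 (by linarith) (by linarith)⟩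
  · exact hNc.isBounded.subset fun w hw => (hϑz w hw).le
  · rw [hϑv, (hϑ1n 0 (by rw [infDist_zero_of_mem hC.zero]; positivity)).self_of_nhds,
      hξ0 0 (by rw [inner_zero_right]; positivity), mul_zero, sub_zero, mul_one]
  · rw [hGv, hgt0]
    positivity
  · -- nhor
    rw [hGg]
    exact smul_ne_zero (by positivity) (hC.nz w (hϑz w hwϑ).le)

end Pool.Schoen
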