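import Pool.Agent.H.MP_6c077c_gt.N3.HNA

/-! The vertical normal form with a horn. -/

set_option autoImplicit false

namespace Pool.Schoen

open Filter Set
open scoped Topology RealInnerProductSpace ContDiff

section E

variable {E : Type*} [NormedAddCommGroup E] [InnerProductSpace ℝ E] [FiniteDimensional ℝ E]
variable {P : E → ℝ} {u : E} {β : ℝ} {κ : ℝ → ℝ}

/-- the difference of the normal forms with and without the horn -/
private noncomputable def HN_D (u : E) (β : ℝ) (κ : ℝ → ℝ) (s : ℝ) (w : E) : ℝ :=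
  tubC u w * (ps0 (s / β) * κ ⟪u, w⟫ - β * lam0 (s / β) + s)

private theorem HN_comp {W : Type*} [NormedAddCommGroup W] [NormedSpace ℝ W] (hκ : KapD κ β)
    {a : W → ℝ} {b : W → E} (ha : ContDiff ℝ ∞ a) (hb : ContDiff ℝ ∞ b) :
    ContDiff ℝ ∞ fun p => HN_D u β κ (a p) (b p) := by
  have h1 : ContDiff ℝ ∞ fun p => tubC u (b p) := (tubC_smooth u).comp hb
  have h2 : ContDiff ℝ ∞ fun p => ps0 (a p / β) := ps0_smooth.comp (ha.div_const β)
  have h3 : ContDiff ℝ ∞ fun p => lam0 (a p / β) := lam0_smooth.comp (ha.div_const β)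
  have h4 : ContDiff ℝ ∞ fun p => κ ⟪u, b p⟫ := hκ.sm.comp (contDiff_const.inner ℝ hb)
  exact h1.mul (((h2.mul h4).sub (contDiff_const.mul h3)).add ha)

private theorem HN_zero (hβ : 0 < β) {s : ℝ} (hs : 7 / 8 * β ≤ |s|) (w : E) :
    HN_D u β κ s w = 0 := by
  have h1 : 7 / 8 ≤ |s / β| := by
    rw [abs_div, abs_of_pos hβ, le_div_iff₀ hβ]
    exact hs
  have h2 : 1 / 8 ≤ |s / β + 3 / 4| := by
    rcases le_abs.1 h1 with h | h
    · exact le_trans (by linarith) (le_abs_self _)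
    · exact le_trans (by linarith) (neg_le_abs _)
  rw [HN_D, ps0_zero (by linarith), lam0_id h2]
  field_simp
  ring

private theorem HN_slab (P : E → ℝ) (u : E) (β : ℝ) (κ : ℝ → ℝ) (s : ℝ) (w : E) :
    tubK P u s w + HN_D u β κ s w = hnK P u β κ s w := by
  unfold tubK HN_D hnK
  ring

private theorem HN_form (P : E → ℝ) (u : E) (β : ℝ) (κ : ℝ → ℝ) (t s : ℝ) (w : E) :
    tubK P u s w + t * HN_D u β κ s w = P w + tubC u w * ((t * ps0 (s / β)) * κ ⟪u, w⟫ -
      ((1 - t) * s + t * (β * lam0 (s / β)))) := by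
  unfold tubK HN_D
  ring

private theorem HN_lam {t s : ℝ} (hβ : 0 < β) (ht0 : 0 ≤ t) (ht1 : t ≤ 1) (hs : |s| ≤ β) :
    |(1 - t) * s + t * (β * lam0 (s / β))| ≤ β := by
  have h1 : |s / β| ≤ 1 := by
    rw [abs_div, abs_of_pos hβ, div_le_one hβ]
    exact hs
  have h2 := abs_le.1 (lam0_abs h1)
  have h3 := abs_le.1 hs
  have h4 : |β * lam0 (s / β)| ≤ β := by
    rw [abs_mul, abs_of_pos hβ]
    exact mul_le_of_le_one_right hβ.le (lam0_abs h1)
  have h5 := abs_le.1 h4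
  rw [abs_le]
  constructor <;> nlinarith

/-- the slices of the homotopy are regular -/
private theorem HN_reg (h : TubP P u β) (hκ : KapD κ β) {t s : ℝ} (ht0 : 0 ≤ t) (ht1 : t ≤ 1)
    (hs : |s| ≤ β) {w : E} (hw : tubK P u s w + t * HN_D u β κ s w = 0) (hw0 : w ≠ 0) :
    gradient (fun z => tubK P u s z + t * HN_D u β κ s z) w ≠ 0 := by
  have e : (fun z => tubK P u s z + t * HN_D u β κ s z) = fun z =>
      P z + tubC u z * ((fun a => (t * ps0 (s / β)) * κ a) ⟪u, z⟫ -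
        ((1 - t) * s + t * (β * lam0 (s / β)))) := by
    funext z
    rw [HN_form]
  rw [HN_form] at hw
  rw [e]
  have hp := ps0_mem (s / β)
  have hp0 : 0 ≤ t * ps0 (s / β) := mul_nonneg ht0 hp.1
  have hp1 : t * ps0 (s / β) ≤ 1 := mul_le_one₀ ht1 hp.1 hp.2
  refine tub_reg h (contDiff_const.mul hκ.sm) (fun a => ?_) (fun a ha => ?_) hw hw0
  · have h1 := hκ.mem a
    have h2 := abs_le.1 (HN_lam h.hβ ht0 ht1 hs)
    have h3 : 0 ≤ t * ps0 (s / β) * κ a := mul_nonneg hp0 h1.1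
    have h4 : t * ps0 (s / β) * κ a ≤ β / 8 := by
      calc t * ps0 (s / β) * κ a ≤ 1 * κ a := mul_le_mul_of_nonneg_right hp1 h1.1
        _ ≤ β / 8 := by rw [one_mul]; exact h1.2
    have := h.hβ
    rw [abs_le]
    constructor <;> linarith [h2.1, h2.2]
  · have hd : deriv (fun a => t * ps0 (s / β) * κ a) a = t * ps0 (s / β) * deriv κ a :=
      deriv_const_mul _ (hκ.sm.differentiable (by simp) a)
    rw [hd]
    have h1 := hκ.der a ha
    have h2 : 0 < a ^ 2 := by positivity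
    have e2 : a * (t * ps0 (s / β) * deriv κ a) = (t * ps0 (s / β)) * (a * deriv κ a) := by ring
    rw [e2]
    rcases le_or_gt (a * deriv κ a) 0 with h3 | h3
    · have := mul_nonpos_of_nonneg_of_nonpos hp0 h3
      linarith
    · have := mul_le_of_le_one_left h3.le hp1
      linarith

private theorem HN_at0 (h : TubP P u β) (hκ : KapD κ β) (t s : ℝ) :
    tubK P u s (0 : E) + t * HN_D u β κ s (0 : E) = -((1 - t) * s + t * (β * lam0 (s / β))) := by
  have h1 : P 0 = 0 := by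
    rw [h.mod 0 (by simp)]
    simp [orth]
  rw [HN_form, h1, tubC_one h.hu (by simp), inner_zero_right, hκ.zero]
  ring

private theorem HN_s0 (h : TubP P u β) (hκ : KapD κ β) {t s : ℝ} (ht0 : 0 ≤ t) (ht1 : t ≤ 1)
    (hw : tubK P u s (0 : E) + t * HN_D u β κ s (0 : E) = 0) : s = 0 := by
  rw [HN_at0 h hκ, neg_eq_zero] at hw
  have hβ := h.hβ
  have h1 : (1 - t) * (s / β) + t * lam0 (s / β) = 0 := by
    have h2 : (1 - t) * (s / β) + t * lam0 (s / β) =
        ((1 - t) * s + t * (β * lam0 (s / β))) / β := by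
      field_simp
    rw [h2, hw, zero_div]
  have h3 := lam0_zero ht0 ht1 h1
  rw [div_eq_zero_iff] at h3
  exact h3.resolve_right hβ.ne'

/-- the vertical derivative -/
private theorem HN_dv (hβ : 0 < β) (hκ : KapD κ β) (P : E → ℝ) (s : ℝ) (w : E) :
    ∃ d, HasDerivAt (fun s => hnK P u β κ s w) d s ∧ d ≤ 0 := by
  have h1 : HasDerivAt (fun s : ℝ => s / β) (1 / β) s := (hasDerivAt_id s).div_const β
  have hp : HasDerivAt ps0 (deriv ps0 (s / β)) (s / β) :=
    (ps0_smooth.differentiable (by simp) _).hasDerivAt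
  have hl : HasDerivAt lam0 (deriv lam0 (s / β)) (s / β) :=
    (lam0_smooth.differentiable (by simp) _).hasDerivAt
  have h2 : HasDerivAt (ps0 ∘ fun s => s / β) (deriv ps0 (s / β) * (1 / β)) s := hp.comp s h1
  have h3 : HasDerivAt (lam0 ∘ fun s => s / β) (deriv lam0 (s / β) * (1 / β)) s := hl.comp s h1
  have h4 := (((h2.mul_const (κ ⟪u, w⟫)).sub (h3.const_mul β)).const_mul (tubC u w)).const_add (P w)
  refine ⟨_, h4, ?_⟩
  refine mul_nonpos_of_nonneg_of_nonpos (tubC_mem u w).1 ?_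
  have h5 : β * (deriv lam0 (s / β) * (1 / β)) = deriv lam0 (s / β) := by
    field_simp
  rw [h5]
  have hk := hκ.mem ⟪u, w⟫
  by_cases hz : |s / β| < 9 / 16
  · have h6 : deriv lam0 (s / β) = 1 := by
      have h7 : lam0 =ᶠ[𝓝 (s / β)] fun z => z := by
        have h8 : ∀ᶠ z in 𝓝 (s / β), |z| < 9 / 16 :=
          continuous_abs.continuousAt.eventually_lt continuousAt_const hz
        filter_upwards [h8] with z hz'
        refine lam0_id ?_
        have := (abs_lt.1 hz').1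
        exact le_trans (by linarith) (le_abs_self _)
      rw [h7.deriv_eq]
      exact (hasDerivAt_id _).deriv
    have h9 := hκ.dps ⟪u, w⟫ (s / β)
    have h10 : deriv ps0 (s / β) * κ ⟪u, w⟫ ≤ β :=
      (mul_le_mul_of_nonneg_right (le_abs_self _) hk.1).trans h9
    have h11 : deriv ps0 (s / β) * (1 / β) * κ ⟪u, w⟫ = (deriv ps0 (s / β) * κ ⟪u, w⟫) / β := by
      ring
    rw [h6, h11]
    have h12 := (div_le_one hβ).2 h10
    linarith
  · have h6 : deriv ps0 (s / β) = 0 := by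
      have h7 : ps0 =ᶠ[𝓝 (s / β)] fun _ => 0 := by
        have h8 : ∀ᶠ z in 𝓝 (s / β), 1 / 2 < |z| := by
          refine continuousAt_const.eventually_lt continuous_abs.continuousAt ?_
          rw [not_lt] at hz
          linarith
        filter_upwards [h8] with z hz'
        exact ps0_zero hz'.le
      rw [h7.deriv_eq]
      simp
    rw [h6]
    have := lam0_deriv (s / β)
    linarith

end E

variable {V : Type*} [NormedAddCommGroup V] [InnerProductSpace ℝ V] [FiniteDimensional ℝ V]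

private theorem HN_fdslc {F : V → ℝ} (hF : ContDiff ℝ ∞ F) (e : V) (c : ℝ)
    (y v : (ℝ ∙ e)ᗮ) : fderiv ℝ (slc F e c) y v = fderiv ℝ F ((y : V) + c • e) (v : V) := by
  have h1 : HasFDerivAt (fun y : (ℝ ∙ e)ᗮ => (y : V) + c • e) (ℝ ∙ e)ᗮ.subtypeL y :=
    (ℝ ∙ e)ᗮ.subtypeL.hasFDerivAt.add_const _
  have h2 : HasFDerivAt (slc F e c)
      ((fderiv ℝ F ((y : V) + c • e)).comp (ℝ ∙ e)ᗮ.subtypeL) y :=
    ((hF.differentiable (by simp) _).hasFDerivAt).comp y h1
  rw [h2.fderiv]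
  rfl

private theorem HN_line {F : V → ℝ} (hF : ContDiff ℝ ∞ F) (x e : V) {φ : ℝ → ℝ} {d : ℝ}
    (hφ : HasDerivAt φ d 0) (h : ∀ᶠ τ in 𝓝 (0 : ℝ), F (x + τ • e) = φ τ) :
    fderiv ℝ F x e = d := by
  have h1 : HasDerivAt (fun τ : ℝ => x + τ • e) e 0 := by
    have := ((hasDerivAt_id (0 : ℝ)).smul_const e).const_add x
    simpa using this
  have h2 : HasFDerivAt F (fderiv ℝ F x) (x + (0 : ℝ) • e) := by
    rw [zero_smul, add_zero]
    exact (hF.differentiable (by simp) x).hasFDerivAt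
  have h3 := h2.comp_hasDerivAt (0 : ℝ) h1
  have h4 : HasDerivAt (F ∘ fun τ : ℝ => x + τ • e) d 0 := hφ.congr_of_eventuallyEq h
  exact h3.unique h4

private theorem HN_hpr (e x : V) (τ : ℝ) : hpr e (x + τ • e) = hpr e x := by
  rw [← hprL_apply, map_add, map_smul, hprL_apply, hprL_apply, BaseDef_self, smul_zero, add_zero]

private theorem HN_dir {F : V → ℝ} {x v : V} (h : fderiv ℝ F x v ≠ 0) :
    ∃ w, fderiv ℝ F x w < 0 := by
  rcases lt_or_gt_of_ne h with h | h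
  · exact ⟨v, h⟩
  · refine ⟨-v, ?_⟩
    rw [map_neg]
    linarith

/-- the height -/
private noncomputable def HN_s (e : V) (c m : ℝ) (x : V) : ℝ := m * (⟪e, x⟫ - c)

/-- the homotopy -/
private noncomputable def HN_H (h : V → ℝ) (e : V) (c m β : ℝ) (u : (ℝ ∙ e)ᗮ) (κ : ℝ → ℝ) (t : ℝ)
    (x : V) : ℝ := h x + t * HN_D u β κ (HN_s e c m x) (hpr e x)

private theorem HN_s_smooth (e : V) (c m : ℝ) : ContDiff ℝ ∞ (HN_s e c m) :=
  contDiff_const.mul ((contDiff_const.inner ℝ contDiff_id).sub contDiff_const)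

private theorem HN_s_add {e : V} (he : ‖e‖ = 1) (c m : ℝ) (x : V) (τ : ℝ) :
    HN_s e c m (x + τ • e) = HN_s e c m x + m * τ := by
  have hee : ⟪e, e⟫ = 1 := by rw [real_inner_self_eq_norm_sq, he]; norm_num
  unfold HN_s
  rw [inner_add_right, real_inner_smul_right, hee]
  ring

private theorem HN_s_slc {e : V} (he : ‖e‖ = 1) (c m : ℝ) (x : V) (w : (ℝ ∙ e)ᗮ) :
    HN_s e c m ((w : V) + ⟪e, x⟫ • e) = HN_s e c m x := by
  unfold HN_s
  rw [inner_hpr he]

section fam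

variable {h : V → ℝ} {e : V} {c m β : ℝ} {u : (ℝ ∙ e)ᗮ} {P : (ℝ ∙ e)ᗮ → ℝ} {κ : ℝ → ℝ}

private theorem HN_joint (hs : ContDiff ℝ ∞ h) (hκ : KapD κ β) :
    ContDiff ℝ ∞ (fun p : ℝ × V => HN_H h e c m β u κ p.1 p.2) := by
  have hp : ContDiff ℝ ∞ (fun x : V => hpr e x) := (hprL e).contDiff
  have hD : ContDiff ℝ ∞ (fun p : ℝ × V => HN_D u β κ (HN_s e c m p.2) (hpr e p.2)) :=
    HN_comp (u := u) hκ ((HN_s_smooth e c m).comp contDiff_snd) (hp.comp contDiff_snd)
  have h1 : ContDiff ℝ ∞ (fun p : ℝ × V => h p.2) := hs.comp contDiff_snd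
  have h2 : ContDiff ℝ ∞ (fun p : ℝ × V => p.1) := contDiff_fst
  unfold HN_H
  exact h1.add (h2.mul hD)

private theorem HN_Hs (hs : ContDiff ℝ ∞ h) (hκ : KapD κ β) (t : ℝ) :
    ContDiff ℝ ∞ (HN_H h e c m β u κ t) :=
  (HN_joint hs hκ).comp (contDiff_const.prodMk contDiff_id)

private theorem HN_H0 : HN_H h e c m β u κ 0 = h := by
  funext x
  unfold HN_H
  ring

private theorem HN_Hslab (hv : VN h e c m β u P) (t : ℝ) {x : V} (hx : |HN_s e c m x| ≤ β) :
    HN_H h e c m β u κ t x = tubK P u (HN_s e c m x) (hpr e x) +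
      t * HN_D u β κ (HN_s e c m x) (hpr e x) := by
  unfold HN_H
  rw [hv.hh x hx]
  rfl

private theorem HN_Hslab1 (hv : VN h e c m β u P) {x : V} (hx : |HN_s e c m x| ≤ β) :
    HN_H h e c m β u κ 1 x = hnK P u β κ (HN_s e c m x) (hpr e x) := by
  rw [HN_Hslab hv 1 hx, one_mul, HN_slab]

private theorem HN_near (hβ : 0 < β) (t : ℝ) {x : V} (hx : 15 / 16 * β ≤ |HN_s e c m x|) :
    HN_H h e c m β u κ t =ᶠ[𝓝 x] h := by
  have h1 : ∀ᶠ y in 𝓝 x, 7 / 8 * β < |HN_s e c m y| := by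
    refine continuousAt_const.eventually_lt ((HN_s_smooth e c m).continuous.abs.continuousAt) ?_
    linarith
  filter_upwards [h1] with y hy
  unfold HN_H
  rw [HN_zero hβ hy.le, mul_zero, add_zero]

private theorem HN_xe (he : ‖e‖ = 1) (hm0 : 0 < m) {x : V} (h1 : hpr e x = 0)
    (h2 : HN_s e c m x = 0) : x = c • e := by
  have h3 := hpr_add he x
  have h4 : ⟪e, x⟫ = c := by
    unfold HN_s at h2
    have h6 := (mul_eq_zero.1 h2).resolve_left hm0.ne'
    linarith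
  rw [h1, h4] at h3
  simpa using h3.symm

private theorem HN_Hslc (hv : VN h e c m β u P) (t : ℝ) {x : V} (hx : |HN_s e c m x| ≤ β) :
    slc (HN_H h e c m β u κ t) e ⟪e, x⟫ = fun w => tubK P u (HN_s e c m x) w +
      t * HN_D u β κ (HN_s e c m x) w := by
  funext w
  unfold slc
  have h1 := HN_s_slc hv.he c m x w
  rw [HN_Hslab hv t (by rw [h1]; exact hx), h1, hpr_coe hv.he]

private theorem HN_hor (hv : VN h e c m β u P) (hm : Mo h e) (hκ : KapD κ β) {t : ℝ}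
    (ht0 : 0 ≤ t) (ht1 : t ≤ 1) {x : V} (hx : |HN_s e c m x| ≤ β)
    (h0 : HN_H h e c m β u κ t x = 0) (hw : hpr e x ≠ 0) :
    ∃ w : (ℝ ∙ e)ᗮ, fderiv ℝ (HN_H h e c m β u κ t) x (w : V) ≠ 0 := by
  have h00 := h0
  rw [HN_Hslab hv t hx] at h00
  have h1 := HN_reg hv.tub hκ ht0 ht1 hx h00 hw
  rw [← HN_Hslc hv t hx] at h1
  by_contra hcon
  push Not at hcon
  apply h1
  refine ext_inner_right ℝ fun w => ?_
  have h2 : fderiv ℝ (slc (HN_H h e c m β u κ t) e ⟪e, x⟫) (hpr e x) w =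
      ⟪gradient (slc (HN_H h e c m β u κ t) e ⟪e, x⟫) (hpr e x), w⟫ :=
    (InnerProductSpace.toDual_symm_apply (𝕜 := ℝ)).symm
  rw [← h2, HN_fdslc (HN_Hs hm.smooth hκ t), hpr_add hv.he, hcon w, inner_zero_left]

private theorem HN_vert (hv : VN h e c m β u P) (hm : Mo h e) (hκ : KapD κ β) (t : ℝ)
    {x : V} (hs : HN_s e c m x = 0) (hw : hpr e x = 0) :
    fderiv ℝ (HN_H h e c m β u κ t) x e = -m := by
  have hβ := hv.tub.hβ
  have h2 : HasDerivAt (fun τ : ℝ => (-m) * τ) (-m) 0 := by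
    have := (hasDerivAt_id (0 : ℝ)).const_mul (-m)
    simpa using this
  refine HN_line (HN_Hs hm.smooth hκ t) x e h2 ?_
  have h3 : ∀ᶠ τ in 𝓝 (0 : ℝ), |m * τ| < β / 2 := by
    have hc : Continuous fun τ : ℝ => |m * τ| := (continuous_const.mul continuous_id).abs
    refine hc.continuousAt.eventually_lt continuousAt_const ?_
    rw [mul_zero, abs_zero]
    linarith
  filter_upwards [h3] with τ hτ
  have h4 : HN_s e c m (x + τ • e) = m * τ := by rw [HN_s_add hv.he, hs, zero_add]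
  rw [HN_Hslab hv t (by rw [h4]; linarith), h4, HN_hpr, hw, HN_at0 hv.tub hκ]
  have h5 : lam0 (m * τ / β) = m * τ / β := by
    refine lam0_id ?_
    have h6 : |m * τ / β| < 1 / 2 := by
      rw [abs_div, abs_of_pos hβ, div_lt_iff₀ hβ]
      linarith
    have := (abs_lt.1 h6).1
    exact le_trans (by linarith) (le_abs_self _)
  rw [h5]
  field_simp
  ring

private theorem HN_desc (hv : VN h e c m β u P) (hm : Mo h e) (hκ : KapD κ β) {t : ℝ}
    (ht : t ∈ Icc (0 : ℝ) 1) {x : V} (h0 : HN_H h e c m β u κ t x = 0) :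
    ∃ v, fderiv ℝ (HN_H h e c m β u κ t) x v < 0 := by
  have hβ := hv.tub.hβ
  have hm0 := hv.hm
  rcases lt_or_ge (|HN_s e c m x|) (15 / 16 * β) with hx | hx
  · have hx' : |HN_s e c m x| ≤ β := by linarith
    by_cases hw : hpr e x = 0
    · have hs : HN_s e c m x = 0 := by
        have h1 := h0
        rw [HN_Hslab hv t hx', hw] at h1
        exact HN_s0 hv.tub hκ ht.1 ht.2 h1
      refine ⟨e, ?_⟩
      rw [HN_vert hv hm hκ t hs hw]
      linarith
    · obtain ⟨w, hw'⟩ := HN_hor hv hm hκ ht.1 ht.2 hx' h0 hw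
      exact HN_dir hw'
  · have h1 := (HN_near (h := h) (u := u) (κ := κ) hβ t hx)
    have h2 : h x = 0 := by rw [← h1.eq_of_nhds]; exact h0
    have h3 := hm.reg x h2
    rw [h1.fderiv_eq]
    by_contra hcon
    push Not at hcon
    apply h3
    refine ext_inner_right ℝ fun w => ?_
    have h4 : fderiv ℝ h x w = ⟪gradient h x, w⟫ :=
      (InnerProductSpace.toDual_symm_apply (𝕜 := ℝ)).symm
    rw [← h4, inner_zero_left]
    have h5 := hcon w
    have h6 := hcon (-w)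
    rw [map_neg] at h6
    linarith

private theorem HN_bdd (hv : VN h e c m β u P) (hm : Mo h e) :
    ∃ R : ℝ, ∀ t ∈ Icc (0 : ℝ) 1, ∀ x, HN_H h e c m β u κ t x = 0 → ‖x‖ ≤ R := by
  have he := hv.he
  have hβ := hv.tub.hβ
  have hm0 := hv.hm
  obtain ⟨R, hR⟩ := hm.bdd.exists_norm_le
  refine ⟨max R (4 + (|c| + β / m)), fun t _ x h0 => ?_⟩
  unfold HN_H at h0
  by_cases h1 : HN_D u β κ (HN_s e c m x) (hpr e x) = 0
  · refine (hR x ?_).trans (le_max_left _ _)
    rw [h1, mul_zero, add_zero] at h0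
    exact h0
  · have h2 : |HN_s e c m x| < 7 / 8 * β := by
      by_contra hcon
      exact h1 (HN_zero hβ (not_lt.1 hcon) _)
    have h3 : ‖hpr e x‖ < 4 := by
      by_contra hcon
      apply h1
      rw [HN_D, tubC_zero hv.tub.hu (not_lt.1 hcon), zero_mul]
    have h4 : |⟪e, x⟫| ≤ |c| + β / m := by
      have h5 : |⟪e, x⟫ - c| ≤ β / m := by
        rw [le_div_iff₀ hm0]
        unfold HN_s at h2
        rw [abs_mul, abs_of_pos hm0] at h2
        linarith
      have h7 : |⟪e, x⟫| ≤ |⟪e, x⟫ - c| + |c| := by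
        have := abs_add_le (⟪e, x⟫ - c) c
        rwa [sub_add_cancel] at this
      linarith
    refine le_trans ?_ (le_max_right _ _)
    have h8 := hpr_add he x
    calc ‖x‖ = ‖((hpr e x : (ℝ ∙ e)ᗮ) : V) + ⟪e, x⟫ • e‖ := by rw [h8]
      _ ≤ ‖((hpr e x : (ℝ ∙ e)ᗮ) : V)‖ + ‖⟪e, x⟫ • e‖ := norm_add_le _ _
      _ ≤ 4 + (|c| + β / m) := by
          rw [norm_smul, he, mul_one, Real.norm_eq_abs]
          exact add_le_add h3.le h4

private theorem HN_hom (hv : VN h e c m β u P) (hm : Mo h e) (hκ : KapD κ β) :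
    Hom h (HN_H h e c m β u κ 1) := by
  have hG := HN_joint (e := e) (c := c) (m := m) (u := u) hm.smooth hκ
  refine ⟨HN_H h e c m β u κ, hG.continuous, HN_H0, rfl, HN_bdd hv hm, fun t ht x h0 => ?_⟩
  obtain ⟨v, hv'⟩ := HN_desc hv hm hκ ht h0
  refine ⟨v, ?_⟩
  have h2 : HasFDerivAt (fun p : ℝ × V => HN_H h e c m β u κ p.1 p.2)
      (fderiv ℝ (fun p : ℝ × V => HN_H h e c m β u κ p.1 p.2) (t, x)) (t, x) :=
    (hG.differentiable (by simp) _).hasFDerivAt
  have h3 : HasFDerivAt (HN_H h e c m β u κ t)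
      ((fderiv ℝ (fun p : ℝ × V => HN_H h e c m β u κ p.1 p.2) (t, x)).comp
      (ContinuousLinearMap.inr ℝ ℝ V)) x :=
    HasFDerivAt.comp x (f := fun y : V => (t, y)) h2 (hasFDerivAt_prodMk_right t x)
  rw [h3.fderiv] at hv'
  have h1 : Desc (fun s y => HN_H h e c m β u κ s y) (𝓝 t) x v := by
    refine desc_smooth (G := fun p : ℝ × V => HN_H h e c m β u κ p.1 p.2)
      (hG.of_le (by simp)).contDiffAt ?_
    simpa using hv'
  exact h1.mono nhdsWithin_le_nhds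

private theorem HN_crit (hv : VN h e c m β u P) (hm : Mo h e) (hκ : KapD κ β) {x : V}
    (hx : Crit (HN_H h e c m β u κ 1) e x) (hxs : |HN_s e c m x| ≤ β) : x = c • e := by
  have h1 : hnK P u β κ (HN_s e c m x) (hpr e x) = 0 := by
    rw [← HN_Hslab1 (κ := κ) hv hxs]
    exact hx.1
  have h2 : gradient (hnK P u β κ (HN_s e c m x)) (hpr e x) = 0 := by
    have h3 : slc (HN_H h e c m β u κ 1) e ⟪e, x⟫ = hnK P u β κ (HN_s e c m x) := by
      rw [HN_Hslc hv 1 hxs]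
      funext w
      rw [one_mul, HN_slab]
    rw [← h3]
    refine ext_inner_right ℝ fun w => ?_
    have h4 : fderiv ℝ (slc (HN_H h e c m β u κ 1) e ⟪e, x⟫) (hpr e x) w =
        ⟪gradient (slc (HN_H h e c m β u κ 1) e ⟪e, x⟫) (hpr e x), w⟫ :=
      (InnerProductSpace.toDual_symm_apply (𝕜 := ℝ)).symm
    rw [← h4, HN_fdslc (HN_Hs hm.smooth hκ 1), hpr_add hv.he, inner_zero_left]
    refine hx.2 _ ?_
    rw [real_inner_comm]
    exact BaseDef_inner e w
  by_cases h5 : hpr e x ≠ 0 ∨ HN_s e c m x ≠ 0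
  · exact absurd h2 (hnK_reg hv.tub hκ hxs h1 h5)
  · push Not at h5
    exact HN_xe hv.he hv.hm h5.1 h5.2

private theorem HN_down (hv : VN h e c m β u P) (hm : Mo h e) (hκ : KapD κ β) {x : V}
    (hx : |HN_s e c m x| < β) : fderiv ℝ (HN_H h e c m β u κ 1) x e ≤ 0 := by
  obtain ⟨d, hd, hd0⟩ := HN_dv (u := u) hv.tub.hβ hκ P (HN_s e c m x) (hpr e x)
  have h1 : HasDerivAt (fun τ : ℝ => hnK P u β κ (HN_s e c m x + m * τ) (hpr e x)) (d * m) 0 := by
    have h2 : HasDerivAt (fun τ : ℝ => HN_s e c m x + m * τ) m 0 := by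
      have := ((hasDerivAt_id (0 : ℝ)).const_mul m).const_add (HN_s e c m x)
      simpa using this
    have h3 : HasDerivAt (fun s => hnK P u β κ s (hpr e x)) d (HN_s e c m x + m * 0) := by
      rw [mul_zero, add_zero]
      exact hd
    exact HasDerivAt.comp (h₂ := fun s => hnK P u β κ s (hpr e x)) (0 : ℝ) h3 h2
  rw [HN_line (HN_Hs hm.smooth hκ 1) x e h1 ?_]
  · exact mul_nonpos_of_nonpos_of_nonneg hd0 hv.hm.le
  · have h4 : ∀ᶠ τ in 𝓝 (0 : ℝ), |HN_s e c m x + m * τ| < β := by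
      have hc : Continuous fun τ : ℝ => |HN_s e c m x + m * τ| :=
        (continuous_const.add (continuous_const.mul continuous_id)).abs
      refine hc.continuousAt.eventually_lt continuousAt_const ?_
      rw [mul_zero, add_zero]
      exact hx
    filter_upwards [h4] with τ hτ
    rw [HN_Hslab1 hv (by rw [HN_s_add hv.he]; exact hτ.le), HN_s_add hv.he, HN_hpr]

end fam

/-- PROOF. `h' = hnK` in the slab, `h` off it (they agree near `15/16 β ≤ |m (t - c)|`). The homotopy: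
in the slab `P + χ (τ ps0 κ - ((1 - τ) s + τ β lam0 (s / β)))`, regular by `tub_reg` off `w = 0`,
`s = 0` (`lam0_zero`), where the derivative in the direction of `e` is not zero. Horizontal zeros:
`hnK_reg`. Vertical derivative: `χ (ps0' κ / β - lam0') m`; `ps0' (s / β) ≠ 0` only for
`1/4 ≤ |s / β| ≤ 1/2`, where `lam0' = 1`. -/
theorem hn_exists {h : V → ℝ} {e : V} {c m β : ℝ} {u : (ℝ ∙ e)ᗮ} {P : (ℝ ∙ e)ᗮ → ℝ}
    (hv : VN h e c m β u P) (hm : Mo h e) {κ : ℝ → ℝ} (hκ : KapD κ β) :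
    ∃ h' : V → ℝ, ContDiff ℝ ∞ h' ∧ Hom h h' ∧
      (∀ x, |m * (⟪e, x⟫ - c)| ≤ β → h' x = hnK P u β κ (m * (⟪e, x⟫ - c)) (hpr e x)) ∧
      (∀ x, 15 / 16 * β ≤ |m * (⟪e, x⟫ - c)| → h' =ᶠ[𝓝 x] h) ∧
      (∀ x, Crit h' e x → |m * (⟪e, x⟫ - c)| ≤ β → x = c • e) ∧
      ∀ x, |m * (⟪e, x⟫ - c)| < β → fderiv ℝ h' x e ≤ 0 := by
  exact ⟨HN_H h e c m β u κ 1, HN_Hs hm.smooth hκ 1, HN_hom hv hm hκ,
    fun x hx => HN_Hslab1 hv hx, fun x hx => HN_near hv.tub.hβ 1 hx,
    fun x hx hxs => HN_crit hv hm hκ hx hxs, fun x hx => HN_down hv hm hκ hx⟩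

end Pool.Schoen
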