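import Pool.Agent.H.MP_6c077c_gt.F2.StepM
import Pool.Agent.H.MP_6c077c_gt.Ca.TipC

/-! A sweep of a ball from a boundary point. -/

set_option autoImplicit false

namespace Pool.Schoen

open Filter Set
open scoped Topology RealInnerProductSpace ContDiff

variable {E : Type*} [NormedAddCommGroup E] [InnerProductSpace ℝ E] [FiniteDimensional ℝ E]

/-- **The 3D lemma**, from the tip lemma. -/
theorem sweep3 (hE : Module.finrank ℝ E = 3) {k : E → ℝ} (hk : Dom k) (hkb : IsBall k) {u : E}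
    (hu : ‖u‖ = 1) {b : ℝ} (hb : 0 < b)
    (hp : ∀ᶠ w in 𝓝 (-(√b • u)), k w = ‖orth u w‖ ^ 2 - (⟪u, w⟫ ^ 2 - b)) :
    ∃ (g : E → ℝ) (r : ℝ), ContDiff ℝ ∞ g ∧ 0 < r ∧
      (∀ w, ‖w + √b • u‖ ≤ r → g w = -(⟪u, w⟫ + √b)) ∧
      (∀ w, k w ≤ 0 → gradient g w ≠ 0) ∧
      (∀ w, k w = 0 → w ≠ -(√b • u) → ∀ t : ℝ, 0 ≤ t → gradient g w + t • gradient k w ≠ 0) ∧
      ∀ w, k w ≤ 0 → w ≠ -(√b • u) → 0 < g w := by
  obtain ⟨r0, hr0, hp0⟩ := Metric.eventually_nhds_iff.1 hp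
  have hs : 0 < √b := Real.sqrt_pos.2 hb
  have hss : √b * √b = b := Real.mul_self_sqrt hb.le
  have huu : ⟪u, u⟫ = 1 := by rw [real_inner_self_eq_norm_sq, hu]; norm_num
  have hinn : ∀ x : E, ⟪u, x - -(√b • u)⟫ = ⟪u, x⟫ + √b := by
    intro x
    rw [sub_neg_eq_add, inner_add_right, real_inner_smul_right, huu, mul_one]
  have hno : ∀ x : E, ‖orth u x‖ ^ 2 = ‖x‖ ^ 2 - ⟪u, x⟫ ^ 2 := by
    intro x
    rw [orth, norm_sub_sq_real, real_inner_smul_right, norm_smul, hu, mul_one, Real.norm_eq_abs,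
      sq_abs, real_inner_comm]
    ring
  obtain ⟨g, g1, g2, g3, g4, g5⟩ := tip_fun hk.smooth hkb hk.reg (p := -(√b • u)) hu hs hr0
    (fun x hx => by
      rw [hp0 (by rwa [dist_eq_norm]), hno, hinn, sub_neg_eq_add, norm_add_sq_real,
        real_inner_smul_right, norm_smul, hu, mul_one, Real.norm_of_nonneg hs.le, real_inner_comm]
      have : √b ^ 2 = b := by rw [pow_two, hss]
      nlinarith)
  obtain ⟨r1, hr1, h1⟩ := Metric.eventually_nhds_iff.1 g2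
  refine ⟨g, r1 / 2, g1, by positivity, fun w hw => ?_, g3, fun w hw hne t ht h0 => ?_, g5⟩
  · rw [h1 (by rw [dist_eq_norm, sub_neg_eq_add]; linarith), hinn]
  · exact g4 w hw hne t ht (eq_neg_of_add_eq_zero_left h0)

end Pool.Schoen
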