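import Pool.Agent.H.MP_6c077c_gt.N3.TubB
import Pool.Agent.H.MP_6c077c_gt.N3.HN
import Pool.Agent.H.MP_6c077c_gt.N3.Sweep3

/-! The graph over the left sector and the horn: definition. -/

set_option autoImplicit false

namespace Pool.Schoen

open Filter Set
open scoped Topology RealInnerProductSpace ContDiff

variable {E : Type*} [NormedAddCommGroup E] [InnerProductSpace ℝ E] [FiniteDimensional ℝ E]

/-- The graph function `G` over the left sector and the horn, with the cut-off `ϑ`. -/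
structure GrE (P : E → ℝ) (u : E) (β : ℝ) (κ : ℝ → ℝ) (k : E → ℝ) (ε : ℝ) (G ϑ : E → ℝ) : Prop where
  hε : 0 < ε
  hεβ : ε ≤ β / 8
  hε1 : ε ≤ 1
  smG : ContDiff ℝ ∞ G
  smϑ : ContDiff ℝ ∞ ϑ
  mem : ∀ w, 0 ≤ ϑ w ∧ ϑ w ≤ 1
  bd : Bornology.IsBounded {w | ϑ w ≠ 0}
  hG : ∀ w, ϑ w ≠ 0 → |G w| ≤ ε / 4
  at0 : ϑ 0 = 1 ∧ 0 < G 0
  /-- over the support of `ϑ` the body below `ε` is over the part where `ϑ = 1`, or above the graph -/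
  lat : ∃ ε₁ : ℝ, 0 < ε₁ ∧ ∀ w s, -β ≤ s → s ≤ ε → hnK P u β κ s w ≤ 0 → ϑ w ≠ 0 →
    (∀ᶠ z in 𝓝 w, ϑ z = 1) ∨ G w - s ≤ -ε₁
  left : ∀ w, ϑ w ≠ 0 → tubK P u (-(3 / 4 * β)) w ≤ 0 → k w ≤ 0
  one : ∀ w, k w ≤ 0 → ϑ w = 1
  nhor : ∀ w, ϑ w ≠ 0 → hnK P u β κ (G w) w ≤ 0 → gradient G w ≠ 0
  corner : ∀ w, ϑ w ≠ 0 → hnK P u β κ (G w) w = 0 → ∀ t : ℝ, 0 ≤ t → t ≤ 1 →
    t • gradient (hnK P u β κ (G w)) w + (1 - t) • gradient G w ≠ 0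

end Pool.Schoen
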