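import Mathlib

/-! A smooth ramp function. -/

set_option autoImplicit false

namespace Pool.Schoen

open Filter Set
open scoped Topology ContDiff

private theorem Ramp_tsym (x : ℝ) :
    Real.smoothTransition x + Real.smoothTransition (1 - x) = 1 := by
  have h := Real.smoothTransition.pos_denom x
  unfold Real.smoothTransition
  rw [sub_sub_cancel, add_comm (expNegInvGlue (1 - x)) (expNegInvGlue x), ← add_div,
    div_self h.ne']

private theorem Ramp_tcd : ContDiff ℝ ∞ Real.smoothTransition := Real.smoothTransition.contDiff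

private theorem Ramp_tdiff : Differentiable ℝ Real.smoothTransition :=
  Ramp_tcd.differentiable (by simp)

private theorem Ramp_tderiv (x : ℝ) : 0 ≤ deriv Real.smoothTransition x :=
  Real.smoothTransition.monotone.deriv_nonneg

private theorem Ramp_tderiv0 {x : ℝ} (h : x < 0) : deriv Real.smoothTransition x = 0 := by
  have : Real.smoothTransition =ᶠ[𝓝 x] fun _ => (0 : ℝ) := by
    filter_upwards [Iio_mem_nhds h] with y hy
    exact Real.smoothTransition.zero_of_nonpos (le_of_lt hy)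
  rw [this.deriv_eq]
  simp

/-- PROOF. `S z = ∫ s in (-1)..z, T ((s + 1) / 2)` with `T = Real.smoothTransition`; `T x + T (1 - x) =
1` gives `S 1 = 1`. -/
theorem exists_ramp : ∃ S : ℝ → ℝ, ContDiff ℝ ∞ S ∧ (∀ z, z ≤ -1 → S z = 0) ∧
    (∀ z, 1 ≤ z → S z = z) ∧ (∀ z, 0 ≤ deriv S z ∧ deriv S z ≤ 1) ∧
    (∀ z, 0 ≤ S z ∧ z ≤ S z ∧ S z ≤ max z 0 + 1) := by
  set g : ℝ → ℝ := fun s => Real.smoothTransition ((s + 1) / 2) with hg
  have hgc : ContDiff ℝ ∞ g := Ramp_tcd.comp (by fun_prop)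
  have hgcont : Continuous g := hgc.continuous
  have hg0 : ∀ s, 0 ≤ g s := fun s => Real.smoothTransition.nonneg _
  have hg1 : ∀ s, g s ≤ 1 := fun s => Real.smoothTransition.le_one _
  set S : ℝ → ℝ := fun z => ∫ s in (-1 : ℝ)..z, g s with hS
  have hd : ∀ z, HasDerivAt S (g z) z := fun z =>
    intervalIntegral.integral_hasDerivAt_right (hgcont.intervalIntegrable _ _)
      (hgcont.stronglyMeasurableAtFilter _ _) hgcont.continuousAt
  have hdd : deriv S = g := funext fun z => (hd z).deriv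
  have hSd : Differentiable ℝ S := fun z => (hd z).differentiableAt
  have hSc : ContDiff ℝ ∞ S := by
    rw [contDiff_infty_iff_deriv]
    exact ⟨hSd, by rw [hdd]; exact hgc⟩
  have hlow : ∀ z, z ≤ -1 → S z = 0 := by
    intro z hz
    have : ∫ s in (-1 : ℝ)..z, g s = ∫ s in (-1 : ℝ)..z, (0 : ℝ) := by
      apply intervalIntegral.integral_congr
      intro s hs
      rw [uIcc_of_ge hz] at hs
      exact Real.smoothTransition.zero_of_nonpos (by linarith [hs.2])
    change ∫ s in (-1 : ℝ)..z, g s = 0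
    rw [this]; simp
  have hone : S 1 = 1 := by
    have h1 : ∫ s in (-1 : ℝ)..1, g (-s) = ∫ s in (-1 : ℝ)..1, g s := by
      rw [intervalIntegral.integral_comp_neg]; simp
    have h2 : (∫ s in (-1 : ℝ)..1, g s) + ∫ s in (-1 : ℝ)..1, g (-s) = 2 := by
      have hneg : IntervalIntegrable (fun s => g (-s)) MeasureTheory.volume (-1) 1 :=
        (hgcont.comp continuous_neg).intervalIntegrable _ _
      rw [← intervalIntegral.integral_add (hgcont.intervalIntegrable _ _) hneg]
      have : ∫ s in (-1 : ℝ)..1, (g s + g (-s)) = ∫ s in (-1 : ℝ)..1, (1 : ℝ) := by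
        apply intervalIntegral.integral_congr
        intro s _
        have := Ramp_tsym ((s + 1) / 2)
        rw [show 1 - (s + 1) / 2 = (-s + 1) / 2 by ring] at this
        exact this
      rw [this]; simp; norm_num
    change ∫ s in (-1 : ℝ)..1, g s = 1
    linarith
  have hhigh : ∀ z, 1 ≤ z → S z = z := by
    intro z hz
    have h1 : (∫ s in (-1 : ℝ)..1, g s) + ∫ s in (1 : ℝ)..z, g s = ∫ s in (-1 : ℝ)..z, g s :=
      intervalIntegral.integral_add_adjacent_intervals (hgcont.intervalIntegrable _ _)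
        (hgcont.intervalIntegrable _ _)
    have h2 : ∫ s in (1 : ℝ)..z, g s = ∫ s in (1 : ℝ)..z, (1 : ℝ) := by
      apply intervalIntegral.integral_congr
      intro s hs
      rw [uIcc_of_le hz] at hs
      exact Real.smoothTransition.one_of_one_le (by linarith [hs.1])
    have h3 : ∫ s in (1 : ℝ)..z, (1 : ℝ) = z - 1 := by simp
    have h4 : ∫ s in (-1 : ℝ)..1, g s = 1 := hone
    change ∫ s in (-1 : ℝ)..z, g s = z
    rw [← h1, h2, h3, h4]; ring
  have hmono : Monotone S := monotone_of_deriv_nonneg hSd fun z => by rw [hdd]; exact hg0 z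
  have hanti : Antitone fun z => S z - z := by
    refine antitone_of_deriv_nonpos (f := fun z => S z - z)
      (fun z => ((hd z).sub (hasDerivAt_id z)).differentiableAt) fun z => ?_
    have : HasDerivAt (fun z => S z - z) (g z - 1) z := (hd z).sub (hasDerivAt_id z)
    rw [this.deriv]
    linarith [hg1 z]
  refine ⟨S, hSc, hlow, hhigh, fun z => by rw [hdd]; exact ⟨hg0 z, hg1 z⟩, fun z => ⟨?_, ?_, ?_⟩⟩
  · rcases le_total z (-1) with h | h
    · rw [hlow z h]
    · rw [← hlow (-1) le_rfl]; exact hmono h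
  · rcases le_total z 1 with h | h
    · have := hanti h
      simp only [] at this
      rw [hone] at this
      linarith
    · exact (hhigh z h).ge
  · rcases le_total z 1 with h | h
    · have h1 := hmono h
      rw [hone] at h1
      linarith [le_max_right z 0]
    · rw [hhigh z h]
      linarith [le_max_left z 0]

/-- The function of the horn: a smooth minimum of `b` and `(1 - ς) a²` for `a ≤ 0`, cut off for
`ν / 2 ≤ a ≤ ν`. PROOF. `κ a = (b - q S ((b - (1 - ς) a²) / q)) (1 - T (2 a / ν - 1))`. -/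
theorem exists_kap {b q ν ς : ℝ} (hb : 0 < b) (hq : 0 < q) (hqb : q ≤ b / 4) (hν : 0 < ν)
    (hνb : ν ^ 2 ≤ b / 2) (hς : 0 < ς) (hς1 : ς < 1) : ∃ κ : ℝ → ℝ, ContDiff ℝ ∞ κ ∧
    (∀ a, 0 ≤ κ a ∧ κ a ≤ b ∧ κ a ≤ (1 - ς) * a ^ 2) ∧
    (∀ a, a ≤ 0 → b + q ≤ (1 - ς) * a ^ 2 → κ a = b) ∧
    (∀ a, a ≤ ν / 2 → (1 - ς) * a ^ 2 ≤ b - q → κ a = (1 - ς) * a ^ 2) ∧
    (∀ a, ν ≤ a → κ a = 0) ∧ (∀ a, a ≤ 0 → min b ((1 - ς) * a ^ 2) - q ≤ κ a) ∧
    ∀ a, a * deriv κ a ≤ 2 * (1 - ς) * a ^ 2 := by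
  obtain ⟨S, hSc, hlow, hhigh, hder, hbd⟩ := exists_ramp
  have hSd : Differentiable ℝ S := hSc.differentiable (by simp)
  have hmono : Monotone S := monotone_of_deriv_nonneg hSd fun z => (hder z).1
  set c : ℝ := 1 - ς with hc
  have hc0 : 0 < c := by rw [hc]; linarith
  set m : ℝ → ℝ := fun a => b - q * S ((b - c * a ^ 2) / q) with hm
  set w : ℝ → ℝ := fun a => 1 - Real.smoothTransition (2 * a / ν - 1) with hw
  have hmc : ContDiff ℝ ∞ m := by
    have : ContDiff ℝ ∞ fun a : ℝ => S ((b - c * a ^ 2) / q) := hSc.comp (by fun_prop)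
    exact contDiff_const.sub (contDiff_const.mul this)
  have hwc : ContDiff ℝ ∞ w := by
    have : ContDiff ℝ ∞ fun a : ℝ => Real.smoothTransition (2 * a / ν - 1) :=
      Ramp_tcd.comp (by fun_prop)
    exact contDiff_const.sub this
  have hw0 : ∀ a, 0 ≤ w a := fun a => sub_nonneg.2 (Real.smoothTransition.le_one _)
  have hw1 : ∀ a, w a ≤ 1 := fun a => by
    have := Real.smoothTransition.nonneg (2 * a / ν - 1)
    simp only [hw]; linarith
  have hwone : ∀ a, a ≤ ν / 2 → w a = 1 := by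
    intro a ha
    have : 2 * a / ν - 1 ≤ 0 := by
      rw [sub_nonpos, div_le_one hν]; linarith
    simp only [hw]
    rw [Real.smoothTransition.zero_of_nonpos this]; ring
  have hwzero : ∀ a, ν ≤ a → w a = 0 := by
    intro a ha
    have : 1 ≤ 2 * a / ν - 1 := by
      have : 2 ≤ 2 * a / ν := by rw [le_div_iff₀ hν]; linarith
      linarith
    simp only [hw]
    rw [Real.smoothTransition.one_of_one_le this]; ring
  have hmb : ∀ a, m a ≤ b := fun a => by
    have := (hbd ((b - c * a ^ 2) / q)).1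
    have := mul_nonneg hq.le this
    simp only [hm]; linarith
  have hmc2 : ∀ a, m a ≤ c * a ^ 2 := fun a => by
    have h1 := (hbd ((b - c * a ^ 2) / q)).2.1
    have h2 := mul_le_mul_of_nonneg_left h1 hq.le
    rw [mul_div_cancel₀ _ hq.ne'] at h2
    simp only [hm]; linarith
  have hm0 : ∀ a, 0 ≤ m a := fun a => by
    rcases le_total ((b - c * a ^ 2) / q) 1 with h | h
    · have h1 := hmono h
      rw [hhigh 1 le_rfl] at h1
      have h2 := mul_le_mul_of_nonneg_left h1 hq.le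
      simp only [hm]; linarith
    · have h1 := hhigh _ h
      simp only [hm]
      rw [h1, mul_div_cancel₀ _ hq.ne']
      have := mul_nonneg hc0.le (sq_nonneg a)
      linarith
  have hmq : ∀ a, min b (c * a ^ 2) - q ≤ m a := fun a => by
    have h1 := (hbd ((b - c * a ^ 2) / q)).2.2
    have h2 := mul_le_mul_of_nonneg_left h1 hq.le
    have h3 : q * max ((b - c * a ^ 2) / q) 0 = max (b - c * a ^ 2) 0 := by
      rw [mul_max_of_nonneg _ _ hq.le, mul_div_cancel₀ _ hq.ne', mul_zero]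
    rw [mul_add, h3] at h2
    have h4 : b - max (b - c * a ^ 2) 0 = min (c * a ^ 2) b := by
      rcases le_total (b - c * a ^ 2) 0 with h | h
      · rw [max_eq_right h, min_eq_right (by linarith)]; ring
      · rw [max_eq_left h, min_eq_left (by linarith)]; ring
    rw [min_comm] at h4
    simp only [hm]; linarith
  refine ⟨fun a => m a * w a, hmc.mul hwc, fun a => ⟨mul_nonneg (hm0 a) (hw0 a), ?_, ?_⟩, ?_, ?_,
    ?_, ?_, ?_⟩
  · exact (mul_le_of_le_one_right (hm0 a) (hw1 a)).trans (hmb a)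
  · exact (mul_le_of_le_one_right (hm0 a) (hw1 a)).trans (hmc2 a)
  · intro a ha h
    have h1 : (b - c * a ^ 2) / q ≤ -1 := by rw [div_le_iff₀ hq]; linarith
    have h2 : w a = 1 := hwone a (by linarith)
    simp only [hm]
    rw [h2, hlow _ h1]; ring
  · intro a ha h
    have h1 : 1 ≤ (b - c * a ^ 2) / q := by rw [le_div_iff₀ hq]; linarith
    have h2 : w a = 1 := hwone a ha
    simp only [hm]
    rw [h2, hhigh _ h1, mul_div_cancel₀ _ hq.ne']; ring
  · intro a ha
    simp only []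
    rw [hwzero a ha, mul_zero]
  · intro a ha
    simp only []
    rw [hwone a (by linarith), mul_one]
    exact hmq a
  · intro a
    have hmd : HasDerivAt m (2 * c * a * deriv S ((b - c * a ^ 2) / q)) a := by
      have h1 : HasDerivAt (fun a : ℝ => (b - c * a ^ 2) / q) (-(2 * c * a) / q) a :=
        ((((hasDerivAt_pow 2 a).const_mul c).const_sub b).div_const q).congr_deriv
          (by push_cast; ring)
      have h2 := ((hSd ((b - c * a ^ 2) / q)).hasDerivAt.comp a h1).const_mul q |>.const_sub b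
      exact h2.congr_deriv (by field_simp)
    have hwd : HasDerivAt w (-(deriv Real.smoothTransition (2 * a / ν - 1) * (2 / ν))) a := by
      have h1 : HasDerivAt (fun a : ℝ => 2 * a / ν - 1) (2 / ν) a :=
        ((((hasDerivAt_id a).const_mul 2).div_const ν).sub_const 1).congr_deriv (by ring)
      exact ((Ramp_tdiff (2 * a / ν - 1)).hasDerivAt.comp a h1).const_sub 1
    have hk := (hmd.mul hwd).deriv
    have hk' : deriv (fun a => m a * w a) a = 2 * c * a * deriv S ((b - c * a ^ 2) / q) * w a +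
        m a * -(deriv Real.smoothTransition (2 * a / ν - 1) * (2 / ν)) := hk
    rw [hk']
    have h1 : a * (2 * c * a * deriv S ((b - c * a ^ 2) / q) * w a) ≤ 2 * c * a ^ 2 := by
      have e : a * (2 * c * a * deriv S ((b - c * a ^ 2) / q) * w a) =
          2 * c * a ^ 2 * (deriv S ((b - c * a ^ 2) / q) * w a) := by ring
      rw [e]
      have hn : 0 ≤ 2 * c * a ^ 2 := by positivity
      apply mul_le_of_le_one_right hn
      exact mul_le_one₀ (hder _).2 (hw0 a) (hw1 a)
    have h2 : a * (m a * -(deriv Real.smoothTransition (2 * a / ν - 1) * (2 / ν))) ≤ 0 := by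
      rcases le_total a 0 with h | h
      · have : 2 * a / ν - 1 < 0 := by
          have : 2 * a / ν ≤ 0 := div_nonpos_of_nonpos_of_nonneg (by linarith) hν.le
          linarith
        rw [Ramp_tderiv0 this]; simp
      · have h3 := Ramp_tderiv (2 * a / ν - 1)
        have h4 : 0 ≤ a * (m a * (deriv Real.smoothTransition (2 * a / ν - 1) * (2 / ν))) :=
          mul_nonneg h (mul_nonneg (hm0 a) (mul_nonneg h3 (by positivity)))
        linarith
    linarith

/-- Equal to one for `|z| ≤ 1 / 4`, zero for `1 / 2 ≤ |z|`. -/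
noncomputable def ps0 (z : ℝ) : ℝ := Real.smoothTransition ((1 / 4 - z ^ 2) * (16 / 3))

/-- A nondecreasing function, `-3 / 4` for `|z + 3 / 4| ≤ 1 / 16`, `z` for `1 / 8 ≤ |z + 3 / 4|`. -/
noncomputable def lam0 (z : ℝ) : ℝ :=
  -(3 / 4) + (z + 3 / 4) * Real.smoothTransition (((z + 3 / 4) ^ 2 - 1 / 256) * (256 / 3))

theorem ps0_smooth : ContDiff ℝ ∞ ps0 := by
  unfold ps0
  exact Real.smoothTransition.contDiff.comp (by fun_prop)

theorem ps0_mem (z : ℝ) : 0 ≤ ps0 z ∧ ps0 z ≤ 1 :=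
  ⟨Real.smoothTransition.nonneg _, Real.smoothTransition.le_one _⟩

theorem ps0_one {z : ℝ} (h : |z| ≤ 1 / 4) : ps0 z = 1 := by
  have h1 : z ^ 2 ≤ (1 / 4) ^ 2 := by rw [← sq_abs]; gcongr
  exact Real.smoothTransition.one_of_one_le (by nlinarith)

theorem ps0_zero {z : ℝ} (h : 1 / 2 ≤ |z|) : ps0 z = 0 := by
  have h1 : (1 / 2) ^ 2 ≤ z ^ 2 := by rw [← sq_abs z]; gcongr
  exact Real.smoothTransition.zero_of_nonpos (by nlinarith)

theorem ps0_deriv : ∃ M : ℝ, 0 < M ∧ ∀ z, |deriv ps0 z| ≤ M := by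
  have hc : Continuous (deriv ps0) := ps0_smooth.continuous_deriv (by simp)
  obtain ⟨C, hC⟩ := (isCompact_Icc (a := (-1 : ℝ)) (b := 1)).exists_bound_of_continuousOn
    hc.continuousOn
  refine ⟨max C 0 + 1, by positivity, fun z => ?_⟩
  by_cases hz : z ∈ Icc (-1 : ℝ) 1
  · have := hC z hz
    rw [Real.norm_eq_abs] at this
    linarith [le_max_left C 0]
  · have h1 : 1 < |z| := by
      rw [mem_Icc, ← abs_le, not_le] at hz
      exact hz
    have h2 : ps0 =ᶠ[𝓝 z] fun _ => (0 : ℝ) := by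
      filter_upwards [continuous_abs.continuousAt.eventually (lt_mem_nhds h1)] with y hy
      exact ps0_zero (by linarith)
    rw [h2.deriv_eq]
    simp
    positivity

theorem lam0_smooth : ContDiff ℝ ∞ lam0 := by
  have h : ContDiff ℝ ∞ fun z : ℝ =>
      Real.smoothTransition (((z + 3 / 4) ^ 2 - 1 / 256) * (256 / 3)) :=
    Ramp_tcd.comp (by fun_prop)
  have h1 : ContDiff ℝ ∞ fun z : ℝ => z + 3 / 4 := by fun_prop
  exact contDiff_const.add (h1.mul h)

theorem lam0_const {z : ℝ} (h : |z + 3 / 4| ≤ 1 / 16) : lam0 z = -(3 / 4) := by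
  have h1 : (z + 3 / 4) ^ 2 ≤ (1 / 16) ^ 2 := by rw [← sq_abs]; gcongr
  unfold lam0
  rw [Real.smoothTransition.zero_of_nonpos (by nlinarith)]; ring

theorem lam0_id {z : ℝ} (h : 1 / 8 ≤ |z + 3 / 4|) : lam0 z = z := by
  have h1 : (1 / 8) ^ 2 ≤ (z + 3 / 4) ^ 2 := by rw [← sq_abs (z + 3 / 4)]; gcongr
  unfold lam0
  rw [Real.smoothTransition.one_of_one_le (by nlinarith)]; ring

theorem lam0_deriv (z : ℝ) : 0 ≤ deriv lam0 z := by
  have h1 : HasDerivAt (fun z : ℝ => ((z + 3 / 4) ^ 2 - 1 / 256) * (256 / 3))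
      (2 * (z + 3 / 4) * (256 / 3)) z :=
    (((((hasDerivAt_id z).add_const (3 / 4)).pow 2).sub_const (1 / 256)).mul_const
      (256 / 3)).congr_deriv (by simp)
  have h2 := (Ramp_tdiff (((z + 3 / 4) ^ 2 - 1 / 256) * (256 / 3))).hasDerivAt.comp z h1
  have h3 := (((hasDerivAt_id z).add_const (3 / 4)).mul h2).const_add (-(3 / 4))
  have h4 : HasDerivAt lam0 (1 * Real.smoothTransition (((z + 3 / 4) ^ 2 - 1 / 256) * (256 / 3)) +
      (z + 3 / 4) * (deriv Real.smoothTransition (((z + 3 / 4) ^ 2 - 1 / 256) * (256 / 3)) *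
        (2 * (z + 3 / 4) * (256 / 3)))) z := h3
  rw [h4.deriv]
  have h5 := Real.smoothTransition.nonneg (((z + 3 / 4) ^ 2 - 1 / 256) * (256 / 3))
  have h6 := Ramp_tderiv (((z + 3 / 4) ^ 2 - 1 / 256) * (256 / 3))
  have h7 : 0 ≤ (z + 3 / 4) ^ 2 *
      (deriv Real.smoothTransition (((z + 3 / 4) ^ 2 - 1 / 256) * (256 / 3))) := by positivity
  nlinarith

private theorem Ramp_lam (z : ℝ) : ∃ t : ℝ, 0 ≤ t ∧ t ≤ 1 ∧ lam0 z = -(3 / 4) + (z + 3 / 4) * t :=
  ⟨_, Real.smoothTransition.nonneg _, Real.smoothTransition.le_one _, rfl⟩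

theorem lam0_abs {z : ℝ} (h : |z| ≤ 1) : |lam0 z| ≤ 1 := by
  obtain ⟨t, h0, h1, e⟩ := Ramp_lam z
  rw [abs_le] at h ⊢
  rw [e]
  constructor
  · nlinarith [h.1, mul_nonneg h0 (by linarith [h.1] : 0 ≤ z + 1)]
  · nlinarith [h.2, mul_nonneg h0 (by linarith [h.2] : 0 ≤ 1 - z)]

/-- PROOF. `z` and `lam0 z` are both in `[-7/8, -5/8]` or equal. -/
theorem lam0_zero {z τ : ℝ} (h0 : 0 ≤ τ) (h1 : τ ≤ 1) (h : (1 - τ) * z + τ * lam0 z = 0) : z = 0 := by
  rcases le_total (1 / 8) |z + 3 / 4| with h2 | h2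
  · rw [lam0_id h2] at h
    linarith
  · exfalso
    obtain ⟨t, t0, t1, e⟩ := Ramp_lam z
    rw [abs_le] at h2
    have h3 : z ≤ -(5 / 8) := by linarith [h2.2]
    have h4 : lam0 z ≤ -(5 / 8) := by
      rw [e]
      nlinarith [mul_nonneg t0 (by linarith [h2.2] : 0 ≤ 1 / 8 - (z + 3 / 4))]
    nlinarith [mul_nonneg h0 (by linarith : 0 ≤ -(5 / 8) - lam0 z),
      mul_nonneg (by linarith : 0 ≤ 1 - τ) (by linarith : 0 ≤ -(5 / 8) - z)]

end Pool.Schoen
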