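import Pool.Agent.H.MP_6c077c_gt.N3.TubA
import Pool.Agent.H.MP_6c077c_gt.N3.Ramp

/-! The vertical normal form with a horn: the slices. -/

set_option autoImplicit false

namespace Pool.Schoen

open Filter Set
open scoped Topology RealInnerProductSpace ContDiff

section E

variable {E : Type*} [NormedAddCommGroup E] [InnerProductSpace ℝ E] [FiniteDimensional ℝ E]

/-- The slices of the normal form with a horn. -/
noncomputable def hnK (P : E → ℝ) (u : E) (β : ℝ) (κ : ℝ → ℝ) (s : ℝ) (w : E) : ℝ :=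
  P w + tubC u w * (ps0 (s / β) * κ ⟪u, w⟫ - β * lam0 (s / β))

/-- The conditions on the horn function. -/
structure KapD (κ : ℝ → ℝ) (β : ℝ) : Prop where
  sm : ContDiff ℝ ∞ κ
  zero : κ 0 = 0
  mem : ∀ a, 0 ≤ κ a ∧ κ a ≤ β / 8
  le : ∀ a, κ a ≤ a ^ 2
  der : ∀ a, a ≠ 0 → a * deriv κ a < 2 * a ^ 2
  dps : ∀ a z, |deriv ps0 z| * κ a ≤ β

variable {P : E → ℝ} {u : E} {β s : ℝ} {κ : ℝ → ℝ}

private theorem HNA_mul {β s : ℝ} (hβ : 0 < β) : β * (s / β) = s := by
  field_simp

private theorem HNA_abs {β s a : ℝ} (hβ : 0 < β) : |s / β + a| = |s + a * β| / β := by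
  have e : s / β + a = (s + a * β) / β := by field_simp
  rw [e, abs_div, abs_of_pos hβ]

theorem hnK_smooth (h : TubP P u β) (hκ : KapD κ β) : ContDiff ℝ ∞ fun q : ℝ × E =>
    hnK P u β κ q.1 q.2 := by
  unfold hnK
  have h1 : ContDiff ℝ ∞ fun q : ℝ × E => P q.2 := h.sm.comp contDiff_snd
  have h2 : ContDiff ℝ ∞ fun q : ℝ × E => tubC u q.2 := (tubC_smooth u).comp contDiff_snd
  have h3 : ContDiff ℝ ∞ fun q : ℝ × E => q.1 / β := contDiff_fst.div_const β
  have h4 : ContDiff ℝ ∞ fun q : ℝ × E => ps0 (q.1 / β) := ps0_smooth.comp h3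
  have h5 : ContDiff ℝ ∞ fun q : ℝ × E => lam0 (q.1 / β) := lam0_smooth.comp h3
  have h6 : ContDiff ℝ ∞ fun q : ℝ × E => κ ⟪u, q.2⟫ :=
    hκ.sm.comp (contDiff_const.inner ℝ contDiff_snd)
  exact h1.add (h2.mul ((h4.mul h6).sub (contDiff_const.mul h5)))

/-- PROOF. `tub_reg` with `v = ps0 (s / β) * κ`, `μ = β * lam0 (s / β)`; `lam0 z = 0` only for `z = 0`. -/
theorem hnK_reg (h : TubP P u β) (hκ : KapD κ β) (hs : |s| ≤ β) {w : E}
    (hw : hnK P u β κ s w = 0) (h0 : w ≠ 0 ∨ s ≠ 0) : gradient (hnK P u β κ s) w ≠ 0 := by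
  have hβ := h.hβ
  by_cases hw0 : w = 0
  · exfalso
    subst hw0
    have hs0 : s ≠ 0 := h0.resolve_left (fun h => h rfl)
    have e1 : P 0 = 0 := by
      rw [h.mod 0 (by rw [norm_zero]; norm_num)]
      simp [orth]
    have e2 : tubC u (0 : E) = 1 := tubC_one h.hu (by rw [norm_zero]; norm_num)
    unfold hnK at hw
    rw [e1, e2, inner_zero_right, hκ.zero] at hw
    have e3 : lam0 (s / β) = 0 := by
      have : β * lam0 (s / β) = 0 := by linarith
      rcases mul_eq_zero.1 this with h' | h'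
      · exact absurd h' hβ.ne'
      · exact h'
    have e4 : s / β = 0 := lam0_zero zero_le_one le_rfl (by rw [e3]; ring)
    rcases div_eq_zero_iff.1 e4 with h' | h'
    · exact hs0 h'
    · exact hβ.ne' h'
  · have hz : |s / β| ≤ 1 := by
      rw [abs_div, abs_of_pos hβ, div_le_one hβ]
      exact hs
    have hps := ps0_mem (s / β)
    have hl := lam0_abs hz
    have hv : ContDiff ℝ ∞ (fun a => ps0 (s / β) * κ a) := contDiff_const.mul hκ.sm
    have hb1 : ∀ a, |(fun a => ps0 (s / β) * κ a) a - β * lam0 (s / β)| ≤ 2 * β := by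
      intro a
      have hk := hκ.mem a
      have e1 : 0 ≤ ps0 (s / β) * κ a := mul_nonneg hps.1 hk.1
      have e2 : ps0 (s / β) * κ a ≤ β / 8 := by
        calc ps0 (s / β) * κ a ≤ 1 * κ a := mul_le_mul_of_nonneg_right hps.2 hk.1
          _ ≤ β / 8 := by rw [one_mul]; exact hk.2
      have e3 : |β * lam0 (s / β)| ≤ β := by
        rw [abs_mul, abs_of_pos hβ]
        calc β * |lam0 (s / β)| ≤ β * 1 := mul_le_mul_of_nonneg_left hl hβ.le
          _ = β := mul_one β
      have e4 := abs_le.1 e3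
      show |ps0 (s / β) * κ a - β * lam0 (s / β)| ≤ 2 * β
      rw [abs_le]
      constructor <;> linarith
    have hb2 : ∀ a, a ≠ 0 → a * deriv (fun a => ps0 (s / β) * κ a) a < 2 * a ^ 2 := by
      intro a ha
      have hd : deriv (fun a => ps0 (s / β) * κ a) a = ps0 (s / β) * deriv κ a :=
        deriv_const_mul _ (hκ.sm.differentiable (by simp) a)
      rw [hd]
      have e1 := hκ.der a ha
      have e2 : 0 < a ^ 2 := by positivity
      have e3 : a * (ps0 (s / β) * deriv κ a) = ps0 (s / β) * (a * deriv κ a) := by ring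
      rw [e3]
      rcases le_or_gt 0 (a * deriv κ a) with h' | h'
      · calc ps0 (s / β) * (a * deriv κ a) ≤ 1 * (a * deriv κ a) :=
              mul_le_mul_of_nonneg_right hps.2 h'
          _ < 2 * a ^ 2 := by rw [one_mul]; exact e1
      · have : ps0 (s / β) * (a * deriv κ a) ≤ 0 :=
          mul_nonpos_of_nonneg_of_nonpos hps.1 h'.le
        linarith
    exact tub_reg h hv hb1 hb2 hw hw0

/-- The critical slice is the smallest one below. -/
theorem hnK_ge (h : TubP P u β) (hκ : KapD κ β) (hs : -β ≤ s) (hs0 : s ≤ 0) (w : E) :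
    P w + tubC u w * κ ⟪u, w⟫ ≤ hnK P u β κ s w := by
  have hβ := h.hβ
  have hk := hκ.mem ⟪u, w⟫
  have hc := tubC_mem u w
  obtain ⟨z, hz⟩ : ∃ z, z = s / β := ⟨_, rfl⟩
  have hz0 : z ≤ 0 := by rw [hz]; exact div_nonpos_of_nonpos_of_nonneg hs0 hβ.le
  have key : κ ⟪u, w⟫ ≤ ps0 z * κ ⟪u, w⟫ - β * lam0 z := by
    rcases le_or_gt (-(1 / 4)) z with h1 | h1
    · have e1 : ps0 z = 1 := ps0_one (abs_le.2 ⟨h1, by linarith⟩)
      have e2 : lam0 z = z := lam0_id (by rw [abs_of_nonneg (by linarith)]; linarith)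
      rw [e1, e2, one_mul]
      have : β * z ≤ 0 := mul_nonpos_of_nonneg_of_nonpos hβ.le hz0
      linarith
    · have e1 : 0 ≤ ps0 z * κ ⟪u, w⟫ := mul_nonneg (ps0_mem z).1 hk.1
      have e2 : lam0 z ≤ -(1 / 8) := by
        rcases le_or_gt (1 / 8) |z + 3 / 4| with h2 | h2
        · rw [lam0_id h2]; linarith
        · unfold lam0
          have t1 := Real.smoothTransition.nonneg (((z + 3 / 4) ^ 2 - 1 / 256) * (256 / 3))
          have t2 := Real.smoothTransition.le_one (((z + 3 / 4) ^ 2 - 1 / 256) * (256 / 3))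
          have t3 : z + 3 / 4 ≤ 1 / 8 := (abs_le.1 h2.le).2
          nlinarith
      have e3 : β * lam0 z ≤ β * (-(1 / 8)) := mul_le_mul_of_nonneg_left e2 hβ.le
      linarith [hk.2]
  unfold hnK
  rw [← hz]
  have := mul_le_mul_of_nonneg_left key hc.1
  linarith

theorem hnK_small (h : TubP P u β) (hs : |s| ≤ β / 4) (w : E) :
    hnK P u β κ s w = P w + tubC u w * (κ ⟪u, w⟫ - s) := by
  have hβ := h.hβ
  have h1 : |s / β| ≤ 1 / 4 := by
    rw [abs_div, abs_of_pos hβ, div_le_iff₀ hβ]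
    linarith
  have h2 : 1 / 8 ≤ |s / β + 3 / 4| := by
    have h3 := abs_le.1 h1
    rw [abs_of_nonneg (by linarith)]
    linarith
  unfold hnK
  rw [ps0_one h1, lam0_id h2, HNA_mul hβ, one_mul]

theorem hnK_cut (h : TubP P u β) (hs : |s + 3 / 4 * β| ≤ β / 16) (w : E) :
    hnK P u β κ s w = tubK P u (-(3 / 4 * β)) w := by
  have hβ := h.hβ
  have h1 : |s / β + 3 / 4| ≤ 1 / 16 := by
    rw [HNA_abs hβ, div_le_iff₀ hβ]
    linarith
  have h2 : 1 / 2 ≤ |s / β| := by
    have h3 := abs_le.1 h1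
    rw [abs_of_nonpos (by linarith)]
    linarith
  unfold hnK tubK
  rw [ps0_zero h2, lam0_const h1]
  ring

theorem hnK_end (h : TubP P u β) (hs : 15 / 16 * β ≤ |s|) (w : E) :
    hnK P u β κ s w = tubK P u s w := by
  have hβ := h.hβ
  have h1 : 15 / 16 ≤ |s / β| := by
    rw [abs_div, abs_of_pos hβ, le_div_iff₀ hβ]
    exact hs
  have h2 : 1 / 8 ≤ |s / β + 3 / 4| := by
    rcases le_abs.1 h1 with h3 | h3
    · rw [abs_of_nonneg (by linarith)]
      linarith
    · rw [abs_of_nonpos (by linarith)]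
      linarith
  unfold hnK tubK
  rw [ps0_zero (by linarith), lam0_id h2, HNA_mul hβ]
  ring

end E

end Pool.Schoen
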