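import Pool.Agent.H.MP_6c077c_gt.N3.Cut

/-! Slices with spheres and tori, no sphere encloses a torus: the plain cut in the class. -/

set_option autoImplicit false

namespace Pool.Schoen

open Filter Set
open scoped Topology RealInnerProductSpace ContDiff

variable {V : Type*} [NormedAddCommGroup V] [InnerProductSpace ℝ V] [FiniteDimensional ℝ V]
variable {f : V → ℝ} {e : V} {L : Set ℝ} {S : Finset V}

/-- One piece of the cut. -/
private theorem Plain_side (hV : Module.finrank ℝ V = 4) (he : ‖e‖ = 1) (h : KN f e L S)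
    {c a d : ℝ} {k : (ℝ ∙ e)ᗮ → ℝ} {A : V → ℝ} (hk : Dom k)
    (hk1 : ∀ w, k w = 0 → k =ᶠ[𝓝 w] fun w => f ((w : V) + c • e)) (hcL : c ∈ L)
    (hL : ∀ c' ∈ L, c' ≠ c → a ≤ |c' - c|) (hS : ∀ p, Crit f e p → a < |⟪e, p⟫ - c|)
    (hd : 0 < d) (hda : d < a) (hA : ContDiff ℝ ∞ A) (hb : Bornology.IsBounded {x | A x = 0})
    (hr : ∀ x, A x = 0 → gradient A x ≠ 0) (h1 : IsConnected {x | A x ≤ 0})
    (h2 : IsConnected {x | 0 ≤ A x}) (h3 : LiftS {x | A x = 0})
    (hg : ∀ x, a ≤ |⟪e, x⟫ - c| → A x = 0 → A =ᶠ[𝓝 x] f)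
    (hcr : ∀ x, Crit A e x → |⟪e, x⟫ - c| < a → Idx A e x 0 ∧ |⟪e, x⟫ - c| = d)
    (hz : ∀ x, ⟪e, x⟫ = c → A x = 0 → A =ᶠ[𝓝 x] f ∧ 0 < k (hpr e x)) :
    ∃ SA : Finset V, SA.card < S.card ∧ nSad A e ≤ nSad f e ∧ KN A e L SA := by
  classical
  have hKN := h.part he hA hb hr h1 h2 h3 (fun x hx => ?_) (fun x hxL hx => ?_)
    (fun p hp _ => ?_)
  · refine ⟨_, ?_, nSad_mono he h.mo hKN.2, hKN.1⟩
    have hkc : Continuous k := hk.smooth.continuous
    have hhc : Continuous fun x : V => hpr e x := (hprL e).continuous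
    have hec : ∀ x : V, ⟪e, x⟫ = c → ((hpr e x : (ℝ ∙ e)ᗮ) : V) + c • e = x := by
      intro x hx
      have h4 := hpr_add he x
      rwa [hx] at h4
    refine h.mark.card_lt hcL (K := {x | ⟪e, x⟫ = c ∧ k (hpr e x) = 0}) ?_ ?_ ?_ ?_ ?_
    · have hr3 := cap_rank he
      have : Nontrivial (ℝ ∙ e)ᗮ := Module.nontrivial_of_finrank_pos (R := ℝ) (by omega)
      obtain ⟨R, hR⟩ := hk.bdd.subset_closedBall 0
      obtain ⟨u, hu⟩ := exists_norm_eq (ℝ ∙ e)ᗮ (show (0 : ℝ) ≤ |R| + 1 by positivity)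
      have hu1 : 0 ≤ k u := by
        by_contra hc
        have h4 : u ∈ Metric.closedBall (0 : (ℝ ∙ e)ᗮ) R := hR (le_of_lt (not_le.1 hc))
        rw [mem_closedBall_zero_iff, hu] at h4
        have := le_abs_self R
        linarith
      obtain ⟨w₀, hw₀⟩ := hk.conn.nonempty
      obtain ⟨w, hw⟩ := mem_range_of_exists_le_of_exists_ge hkc ⟨w₀, hw₀⟩ ⟨u, hu1⟩
      exact ⟨(w : V) + c • e, inner_hpr he w c, by rw [hpr_coe he]; exact hw⟩
    · exact (isClosed_eq (by fun_prop) continuous_const).inter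
        (isClosed_eq (hkc.comp hhc) continuous_const)
    · rintro x ⟨h4, h5⟩
      refine ⟨?_, h4⟩
      have h6 : k (hpr e x) = f (((hpr e x : (ℝ ∙ e)ᗮ) : V) + c • e) :=
        (hk1 _ h5).self_of_nhds
      rw [h5, hec x h4] at h6
      exact h6.symm
    · refine ⟨(fun x : V => hpr e x) ⁻¹' {w | k =ᶠ[𝓝 w] fun w => f ((w : V) + c • e)},
        isOpen_setOfPred_eventually_nhds.preimage hhc, ?_, ?_⟩
      · rintro x ⟨-, h5⟩
        exact hk1 _ h5
      · intro x hx h4 h5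
        have hx' : k =ᶠ[𝓝 (hpr e x)] fun w => f ((w : V) + c • e) := hx
        have h6 : k (hpr e x) = f (((hpr e x : (ℝ ∙ e)ᗮ) : V) + c • e) := hx'.self_of_nhds
        rw [hec x h5, h4] at h6
        exact ⟨h5, h6⟩
    · rintro x ⟨h4, h5⟩ h6
      have h7 := (hz x h4 h6).2
      rw [h5] at h7
      exact lt_irrefl _ h7
  · rcases le_or_gt a |⟪e, x⟫ - c| with h4 | h4
    · left
      have h5 := hg x h4 hx.1
      exact ⟨hx.congr h5, h5⟩
    · right
      obtain ⟨h5, h6⟩ := hcr x hx h4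
      refine ⟨fun hxL => ?_, fun p hp _ hxp => ?_, 0, h5, Or.inl rfl⟩
      · by_cases h7 : ⟪e, x⟫ = c
        · rw [h7, sub_self, abs_zero] at h6
          exact hd.ne h6
        · have := hL _ hxL h7
          linarith
      · have := hS p hp.1
        rw [← hxp] at this
        linarith
  · by_cases h4 : ⟪e, x⟫ = c
    · exact (hz x h4 hx).1
    · exact hg x (hL _ hxL h4) hx
  · have h4 : ∀ᶠ t in 𝓝 ⟪e, p⟫, a < |t - c| := by
      have h5 : Continuous fun t : ℝ => |t - c| := by fun_prop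
      exact h5.continuousAt.eventually_const_lt (hS p hp.1)
    filter_upwards [nhdsWithin_le_nhds h4] with t ht x hxt hx
    exact hg x (by rw [hxt]; exact ht.le) hx

/-- The pieces of the cut are in the class. PROOF. `KN.part` for `A` (and `C`): horizontal zeros with
`|⟪e, x⟫ - c| < a` are caps at the heights `c ± d`, not in `L` and not heights of saddles because
`a ≤` the distances (`hL`, `hS`); markers: `Mark.card_lt` with the sphere `{k = 0}` at height `c`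
(zeros of `f`, a clopen part of the zeros at height `c` because `k` and `f` have the same germ there,
not zeros of `A` by `zA`), `{k = 0}` is not empty (`k` bounded body, not empty). Saddles: `nSad_mono`. -/
theorem kn_of_cutD (hV : Module.finrank ℝ V = 4) (he : ‖e‖ = 1) (h : KN f e L S) {c a d : ℝ}
    {k : (ℝ ∙ e)ᗮ → ℝ} {A C : V → ℝ} (hk : Dom k)
    (hk1 : ∀ w, k w = 0 → k =ᶠ[𝓝 w] fun w => f ((w : V) + c • e)) (hcL : c ∈ L)
    (hL : ∀ c' ∈ L, c' ≠ c → a ≤ |c' - c|) (hS : ∀ p, Crit f e p → a < |⟪e, p⟫ - c|)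
    (hcut : CutD f e c a d k A C) :
    ∃ SA SC : Finset V, SA.card < S.card ∧ SC.card < S.card ∧ nSad A e ≤ nSad f e ∧
      nSad C e ≤ nSad f e ∧ KN A e L SA ∧ KN C e L SC := by
  obtain ⟨SA, hSA, hnA, hKA⟩ := Plain_side hV he h hk hk1 hcL hL hS hcut.hd hcut.hda hcut.smA
    hcut.bdA hcut.regA hcut.connA hcut.outA hcut.liftA hcut.gA (fun x hx hxa => by
      obtain ⟨h1, h2, -⟩ := hcut.crA x hx hxa
      refine ⟨h1, ?_⟩
      rw [h2, sub_sub_cancel_left, abs_neg, abs_of_pos hcut.hd]) hcut.zA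
  obtain ⟨SC, hSC, hnC, hKC⟩ := Plain_side hV he h hk hk1 hcL hL hS hcut.hd hcut.hda hcut.smC
    hcut.bdC hcut.regC hcut.connC hcut.outC hcut.liftC hcut.gC (fun x hx hxa => by
      obtain ⟨h1, h2, -⟩ := hcut.crC x hx hxa
      refine ⟨h1, ?_⟩
      rw [h2, add_sub_cancel_left, abs_of_pos hcut.hd]) hcut.zC
  exact ⟨SA, SC, hSA, hSC, hnA, hnC, hKA, hKC⟩

/-- The plain cut along a ball in a slice at a level. PROOF. As `step3_m`: `straighten` at height `c`
with `δ` smaller than the distances of `c` to the other levels and to the heights of the horizontal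
zeros (`crit_finite`); then `kn_of_cutD` and `cut_down` for `s * F1` (`KN.neg` for `s = -1`). -/
theorem kn_cut (hV : Module.finrank ℝ V = 4) (he : ‖e‖ = 1) (hL : L.Finite) (h : KN f e L S) {c : ℝ}
    (hc : c ∈ L) {s : ℝ} (hs : s = 1 ∨ s = -1) {k : (ℝ ∙ e)ᗮ → ℝ} (hk : Dom k) (hkb : IsBall k)
    (hk1 : ∀ w, k w ≤ 0 → s * f ((w : V) + c • e) ≤ 0)
    (hk2 : ∀ w, k w = 0 → k =ᶠ[𝓝 w] fun w : (ℝ ∙ e)ᗮ => s * f ((w : V) + c • e)) :
    ∃ (A C : V → ℝ) (SA SC : Finset V), SA.card < S.card ∧ SC.card < S.card ∧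
      nSad A e ≤ nSad f e ∧ nSad C e ≤ nSad f e ∧ KN A e L SA ∧ KN C e L SC ∧
      (Rd A → Rd C → Rd f) := by
  classical
  -- the heights of the horizontal zeros
  obtain ⟨δ₀, hδ₀, hLδ₀⟩ := Cy.Cyl_gap
    (hL.union ((crit_finite he h.mo).image fun x => ⟪e, x⟫)) c
  obtain ⟨δ, hδ, hδδ⟩ : ∃ δ : ℝ, 0 < δ ∧ δ < δ₀ := ⟨δ₀ / 2, by linarith, by linarith⟩
  have hLδ : ∀ c' ∈ L, c' ≠ c → δ ≤ |c' - c| := fun c' hc' hne =>
    hδδ.le.trans (hLδ₀ c' (Or.inl hc') hne)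
  have hSδ : ∀ p, Crit f e p → δ < |⟪e, p⟫ - c| := fun p hp => hδδ.trans_le
    (hLδ₀ _ (Or.inr ⟨p, hp, rfl⟩) fun h1 => h.reg p hp (by rw [h1]; exact hc))
  have hcr : ∀ x, f x = 0 → ⟪e, x⟫ = c → ∀ l : ℝ, gradient f x ≠ l • e := by
    intro x hx hxc l hl
    refine h.reg x (crit_of_vert hx hl) ?_
    rw [hxc]
    exact hc
  obtain ⟨F1, Φ1, a, ha, haδ, hF1, hH1, hb1, hr1, -, -, hfar, hlev, hstr, -, hno, hgerm, -⟩ :=
    straighten h.mo.smooth h.mo.bdd h.mo.reg he hδ hcr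
  have hcrit : ∀ x, Crit F1 e x → F1 =ᶠ[𝓝 x] f := by
    intro x hx
    obtain ⟨l, hl⟩ := hx.vert he
    exact hgerm x l hx.1 hl
  have hcrit1 : ∀ x, Crit F1 e x → Crit f e x ∧ ∀ k, Idx f e x k → Idx F1 e x k := fun x hx =>
    ⟨hx.congr (hcrit x hx), fun k hk => hk.congr' (hcrit x hx).symm⟩
  have hsad : ∀ x, Sad F1 e x → Sad f e x := fun x hx => sad_of h.mo hcrit1 hx
  have hA1 : KN F1 e L S := by
    refine h.hom he hH1 hF1 hcrit1 (fun x hx => ?_) (fun p hp => ?_)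
    · by_cases hxc : ⟪e, x⟫ = c
      · rw [hlev x hxc]
      · rw [(hfar x (hLδ _ hx hxc)).self_of_nhds]
    · have hp' := hsad p hp
      have h1 := h.near p hp'
      have h2 : ∀ᶠ t in 𝓝[≠] ⟪e, p⟫, δ < |t - c| := by
        have h5 : Continuous fun t : ℝ => |t - c| := by fun_prop
        exact nhdsWithin_le_nhds (h5.continuousAt.eventually_const_lt (hSδ p hp'.1))
      filter_upwards [h1, h2] with t ht1 ht2
      refine ht1.congr fun w => ?_
      have h3 : ⟪e, (w : V) + t • e⟫ = t := inner_hpr he w t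
      show F1 ((w : V) + t • e) = 0 ↔ f ((w : V) + t • e) = 0
      rw [(hfar _ (by rw [h3]; exact ht2.le)).self_of_nhds]
  -- the sign
  obtain ⟨F2, hF2⟩ : ∃ F2 : V → ℝ, F2 = fun x => s * F1 x := ⟨_, rfl⟩
  have hs0 : s ≠ 0 := by rcases hs with h1 | h1 <;> rw [h1] <;> norm_num
  have h2 : KN F2 e L S ∧ nSad F2 e ≤ nSad F1 e ∧ (Rd F2 → Rd F1) ∧
      ∀ x, Crit F2 e x → Crit F1 e x := by
    rcases hs with h1 | h1
    · have h3 : F2 = F1 := by
        rw [hF2, h1]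
        funext x
        exact one_mul _
      rw [h3]
      exact ⟨hA1, le_refl _, fun h => h, fun _ h => h⟩
    · have h3 : F2 = fun x => -F1 x := by
        rw [hF2, h1]
        funext x
        exact neg_one_mul _
      rw [h3]
      refine ⟨hA1.neg he, nSad_neg he hA1.mo, fun h4 => ?_, fun x hx => crit_neg.1 hx⟩
      have h5 := h4.neg
      simpa using h5
  obtain ⟨hK2, hn2, hR2, hc2⟩ := h2
  -- the slice
  obtain ⟨g, hg⟩ : ∃ g, g = slc F2 e c := ⟨_, rfl⟩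
  have hgf : ∀ w, g w = s * f ((w : V) + c • e) := by
    intro w
    rw [hg]
    show F2 ((w : V) + c • e) = _
    rw [hF2, ← hlev _ (inner_hpr he w c)]
  have hgs : ContDiff ℝ ∞ g := by
    rw [hg]
    exact slc_smooth hK2.mo.smooth e c
  have hno2 : ∀ x, F2 x = 0 → ⟪e, x⟫ = c → ∀ l : ℝ, gradient F2 x ≠ l • e := by
    intro x hx hxc l hl
    refine hK2.reg x (crit_of_vert hx hl) ?_
    rw [hxc]
    exact hc
  have hgr : ∀ y, g y = 0 → gradient g y ≠ 0 := by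
    rw [hg]
    exact slc_reg hK2.mo.smooth he hno2
  have hgF : ∀ x, |⟪e, x⟫ - c| < a → F2 x = g (hpr e x) := by
    intro x hx
    have h1 : ⟪e, x - (⟪e, x⟫ - c) • e⟫ = c := by
      rw [inner_sub_right, real_inner_smul_right, real_inner_self_eq_norm_sq, he]
      ring
    have h2 : hpr e (x - (⟪e, x⟫ - c) • e) = hpr e x := by
      apply Subtype.ext
      rw [Cy.Cyl_hpr he, Cy.Cyl_hpr he, h1]
      module
    rw [hg, ← h2, hpr_slc he h1, hF2]
    show s * F1 x = s * F1 (x - (⟪e, x⟫ - c) • e)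
    rw [hstr x hx.le, hlev _ h1]
  have hkg : ∀ w, k w = 0 → k =ᶠ[𝓝 w] g := by
    intro w hw
    filter_upwards [hk2 w hw] with y hy
    rw [hy, hgf]
  obtain ⟨A, C, d, hcut⟩ := cut_down hV he hK2.mo.smooth hK2.mo.bdd hK2.mo.reg hK2.conn hK2.out
    hK2.lift ha hgs hgr hgF hk hkb (fun w hw => by
      rw [hgf]
      exact hk1 w hw) hkg
  obtain ⟨SA, SC, q1, q2, q3, q4, q5, q6⟩ := kn_of_cutD hV he hK2 hk (fun w hw => by
      refine (hkg w hw).trans (Eventually.of_forall fun y => ?_)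
      rw [hg]
      rfl) hc
    (fun c' hc' hne => haδ.le.trans (hLδ c' hc' hne))
    (fun p hp => haδ.trans (hSδ p (hcrit1 p (hc2 p hp)).1)) hcut
  have hn1 : nSad F1 e ≤ nSad f e := nSad_mono he h.mo hsad
  exact ⟨A, C, SA, SC, q1, q2, q3.trans (hn2.trans hn1), q4.trans (hn2.trans hn1), q5, q6,
    fun r1 r2 => Rd.of_hom hH1 (hR2 (hcut.rd r1 r2))⟩

end Pool.Schoen
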