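import Pool.Agent.H.MP_6c077c_gt.N3.Defs
import Pool.Agent.H.MP_6c077c_gt.N2.KHom

/-! Slices with spheres and tori, no sphere encloses a torus: the condition on the slices. -/

set_option autoImplicit false
set_option linter.unusedSectionVars false

namespace Pool.Schoen

open Filter Set
open scoped Topology RealInnerProductSpace ContDiff

variable {E : Type*} [NormedAddCommGroup E] [InnerProductSpace ℝ E]

/-- Only the zero set matters. -/
theorem SlE.congr {f g : E → ℝ} (h : SlE f) (hz : ∀ w, g w = 0 ↔ f w = 0) : SlE g := by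
  have h1 : ∀ w, cE g w = cE f w := fun w => by
    have : {z | g z = 0} = {z | f z = 0} := by
      ext z
      exact hz z
    unfold cE
    rw [this]
  intro w hw
  obtain ⟨h2, h3⟩ := h w ((hz w).1 hw)
  rw [h1 w]
  refine ⟨h2, fun h4 z hz0 hE => ?_⟩
  rw [h1 z]
  exact h3 h4 z ((hz z).1 hz0) hE

theorem NoS.congr {f g : E → ℝ} (h : NoS f) (hz : ∀ w, g w = 0 ↔ f w = 0) : NoS g := by
  intro w hw
  have : {z | g z = 0} = {z | f z = 0} := by
    ext z
    exact hz z
  have h1 := h w ((hz w).1 hw)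
  unfold cE at h1 ⊢
  rw [this]
  exact h1

/-- Components under homeomorphisms. -/
theorem SlA_cE {g : E → ℝ} {φ ψ : E → E} (hφ : Continuous φ)
    (hψ : Continuous ψ) (h1 : ∀ x, ψ (φ x) = x) (h2 : ∀ x, φ (ψ x) = x) {w : E}
    (hw : g (φ w) = 0) : φ '' cE (fun z => g (φ z)) w = cE g (φ w) := by
  let H : E ≃ₜ E := ⟨⟨φ, ψ, h1, h2⟩, hφ, hψ⟩
  have h3 := H.image_connectedComponentIn (s := {z | g (φ z) = 0}) (x := w) hw
  have h4 : H '' {z | g (φ z) = 0} = {z | g z = 0} := by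
    ext z
    constructor
    · rintro ⟨y, hy, rfl⟩
      exact hy
    · intro hz
      refine ⟨ψ z, ?_, h2 z⟩
      show g (φ (ψ z)) = 0
      rw [h2]
      exact hz
  rw [h4] at h3
  exact h3

theorem SlA_cE' {g : E → ℝ} {φ ψ : E → E} (hφ : Continuous φ)
    (hψ : Continuous ψ) (h1 : ∀ x, ψ (φ x) = x) (h2 : ∀ x, φ (ψ x) = x) {w : E}
    (hw : g (φ w) = 0) {x : E} : φ x ∈ cE g (φ w) ↔ x ∈ cE (fun z => g (φ z)) w := by
  rw [← SlA_cE hφ hψ h1 h2 hw]
  constructor
  · rintro ⟨y, hy, hxy⟩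
    have h3 := h1 y
    rw [hxy, h1] at h3
    rwa [h3]
  · intro hx
    exact ⟨x, hx, rfl⟩

theorem SlA_lift {g : E → ℝ} {φ ψ : E → E} (hφ : Continuous φ)
    (hψ : Continuous ψ) (h1 : ∀ x, ψ (φ x) = x) (h2 : ∀ x, φ (ψ x) = x) {w : E}
    (hw : g (φ w) = 0) : LiftS (cE g (φ w)) ↔ LiftS (cE (fun z => g (φ z)) w) := by
  have m1 : ∀ x ∈ cE (fun z => g (φ z)) w, φ x ∈ cE g (φ w) := fun x hx =>
    (SlA_cE' hφ hψ h1 h2 hw).2 hx
  have m2 : ∀ x ∈ cE g (φ w), ψ x ∈ cE (fun z => g (φ z)) w := fun x hx =>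
    (SlA_cE' hφ hψ h1 h2 hw).1 (by rw [h2]; exact hx)
  exact ⟨fun h => h.of_maps (φ := ψ) (ψ := φ) hψ.continuousOn hφ.continuousOn m2 m1
    fun x _ => h1 x, fun h => h.of_maps (φ := φ) (ψ := ψ) hφ.continuousOn hψ.continuousOn m1 m2
    fun x _ => h2 x⟩

/-- Invariance under homeomorphisms. PROOF. `{g (φ w) = 0}` is the image of `{g = 0}` under the
homeomorphism `ψ`; components (`Homeomorph.image_connectedComponentIn`) and bounded components of
complements go to each other (`hb`, `hb'`: bounded sets have bounded images, e.g. images of compact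
closures); `LiftS.of_maps`, `Dep3.of_maps`. -/
theorem SlE.comp [FiniteDimensional ℝ E] {g : E → ℝ} (h : SlE g) {φ ψ : E → E} (hφ : Continuous φ)
    (hψ : Continuous ψ) (h1 : ∀ x, ψ (φ x) = x) (h2 : ∀ x, φ (ψ x) = x) :
    SlE fun w => g (φ w) := by
  have : ProperSpace E := FiniteDimensional.proper ℝ E
  intro w hw
  have hw' : g (φ w) = 0 := hw
  obtain ⟨h3, h4⟩ := h (φ w) hw'
  have m1 : ∀ x ∈ cE (fun z => g (φ z)) w, φ x ∈ cE g (φ w) := fun x hx =>
    (SlA_cE' hφ hψ h1 h2 hw').2 hx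
  have m2 : ∀ x ∈ cE g (φ w), ψ x ∈ cE (fun z => g (φ z)) w := fun x hx =>
    (SlA_cE' hφ hψ h1 h2 hw').1 (by rw [h2]; exact hx)
  refine ⟨h3.imp (fun h5 => (SlA_lift hφ hψ h1 h2 hw').1 h5) fun h5 => ?_, fun h5 z hz hE => ?_⟩
  · exact h5.of_maps (φ := ψ) (ψ := φ) hψ.continuousOn hφ.continuousOn m2 m1 fun x _ => h1 x
  · have hz' : g (φ z) = 0 := hz
    refine (SlA_lift hφ hψ h1 h2 hz').1 (h4 ((SlA_lift hφ hψ h1 h2 hw').2 h5) (φ z) hz' ⟨?_, ?_⟩)
    · exact fun h6 => hE.1 ((SlA_cE' hφ hψ h1 h2 hw').1 h6)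
    · let H : E ≃ₜ E := ⟨⟨φ, ψ, h1, h2⟩, hφ, hψ⟩
      have h6 := H.image_connectedComponentIn (s := (cE (fun z => g (φ z)) w)ᶜ) (x := z) hE.1
      have h7 : H '' (cE (fun z => g (φ z)) w)ᶜ = (cE g (φ w))ᶜ := by
        ext y
        constructor
        · rintro ⟨x, hx, rfl⟩
          exact fun h8 => hx ((SlA_cE' hφ hψ h1 h2 hw').1 h8)
        · intro hy
          refine ⟨ψ y, fun h8 => hy ?_, h2 y⟩
          have h9 := m1 _ h8
          rwa [h2] at h9
      rw [h7] at h6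
      have h8 : IsCompact (H '' closure (connectedComponentIn (cE (fun z => g (φ z)) w)ᶜ z)) :=
        hE.2.isCompact_closure.image H.continuous
      have h9 : Bornology.IsBounded (connectedComponentIn (cE g (φ w))ᶜ (H z)) := by
        rw [← h6]
        exact h8.isBounded.subset (image_mono subset_closure)
      exact h9

theorem NoS.comp {g : E → ℝ} (h : NoS g) {φ ψ : E → E} (hφ : Continuous φ)
    (hψ : Continuous ψ) (h1 : ∀ x, ψ (φ x) = x) (h2 : ∀ x, φ (ψ x) = x) :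
    NoS fun w => g (φ w) := by
  intro w hw h3
  exact h (φ w) hw ((SlA_lift hφ hψ h1 h2 hw).2 h3)

theorem SlA_part {g A : E → ℝ} (hA : Clp {w | A w = 0} {w | g w = 0}) {w : E} (hw : A w = 0) :
    cE A w = cE g w := by
  unfold cE
  refine Subset.antisymm (connectedComponentIn_mono _ hA.sub) ?_
  have hgw : w ∈ {w | g w = 0} := hA.sub hw
  refine isPreconnected_connectedComponentIn.subset_connectedComponentIn
    (mem_connectedComponentIn hgw) ?_
  have h1 := isPreconnected_iff_subset_of_disjoint_closed.1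
    (isPreconnected_connectedComponentIn (F := {w | g w = 0}) (x := w)) {w | A w = 0}
    ({w | g w = 0} \ {w | A w = 0}) hA.cl hA.cl' ?_ ?_
  · rcases h1 with h1 | h1
    · exact h1
    · exact absurd hw (h1 (mem_connectedComponentIn hgw)).2
  · intro z hz
    by_cases h2 : z ∈ {w | A w = 0}
    · exact Or.inl h2
    · exact Or.inr ⟨connectedComponentIn_subset _ _ hz, h2⟩
  · exact Set.eq_empty_of_forall_notMem fun z hz => hz.2.2.2 hz.2.1

/-- A relatively clopen part of the zero set. PROOF. The components of `{A = 0}` are components of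
`{g = 0}`: `cE g w` for `A w = 0` is connected and meets the clopen part `{A = 0}`, so it is
contained in it. -/
theorem SlE.part {g A : E → ℝ} (h : SlE g) (hA : Clp {w | A w = 0} {w | g w = 0}) : SlE A := by
  intro w hw
  rw [SlA_part hA hw]
  obtain ⟨h1, h2⟩ := h w (hA.sub hw)
  refine ⟨h1, fun h3 z hz hE => ?_⟩
  rw [SlA_part hA hz]
  exact h2 h3 z (hA.sub hz) hE

theorem NoS.part {g A : E → ℝ} (h : NoS g) (hA : Clp {w | A w = 0} {w | g w = 0}) : NoS A := by
  intro w hw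
  rw [SlA_part hA hw]
  exact h w (hA.sub hw)

/-- Homotopic regular functions. PROOF. `Hom.carries` gives a diffeomorphism `φ` of `E` with
`φ '' {g = 0} = {k = 0}`; `SlE.comp` for `g ∘ ψ` and `SlE.congr`. -/
theorem SlE.of_hom [FiniteDimensional ℝ E] {g k : E → ℝ} (h : SlE g) (hg : ContDiff ℝ ∞ g)
    (hk : ContDiff ℝ ∞ k) (hH : Hom g k) : SlE k := by
  obtain ⟨φ, ψ, h1, h2, h3, h4, -, h6, -⟩ := hH.carries hg hk
  refine (h.comp (φ := ψ) (ψ := φ) h2.continuous h1.continuous h4 h3).congr fun w => ?_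
  constructor
  · intro hw
    have h9 : w ∈ φ '' {x | g x = 0} := by
      rw [h6]
      exact hw
    obtain ⟨y, hy, rfl⟩ := h9
    show g (ψ (φ y)) = 0
    rw [h3]
    exact hy
  · intro hw
    have h9 : w ∈ {x | k x = 0} := by
      rw [← h6]
      exact ⟨ψ w, hw, h4 w⟩
    exact h9

variable {V : Type*} [NormedAddCommGroup V] [InnerProductSpace ℝ V] [FiniteDimensional ℝ V]

/-- Between two heights without horizontal zeros the slices are homotopic. PROOF. `Hom.of_family`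
(or an affine reparametrisation) with `H τ = slc f e τ`: the gradient of the slice at a zero is the
horizontal part of the gradient, which does not vanish; `desc_smooth`. -/
theorem slc_hom {f : V → ℝ} {e : V} (he : ‖e‖ = 1) (hm : Mo f e) {a b : ℝ} (hab : a ≤ b)
    (hc : ∀ x, Crit f e x → a ≤ ⟪e, x⟫ → ⟪e, x⟫ ≤ b → False) : Hom (slc f e a) (slc f e b) := by
  obtain ⟨R, hR⟩ := hm.bdd.exists_norm_le
  have hG : ContDiff ℝ ∞ fun p : ℝ × (ℝ ∙ e)ᗮ => f ((p.2 : V) + p.1 • e) := by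
    refine hm.smooth.comp ?_
    exact ((ℝ ∙ e)ᗮ.subtypeL.contDiff.comp contDiff_snd).add (contDiff_fst.smul contDiff_const)
  refine Hom.of_family hab (fun τ => slc f e τ) hG.continuous.continuousOn
    ⟨R + (|a| + |b|), fun t ht y hy => ?_⟩ fun t ht y hy => ?_
  · have h1 : ‖(y : V) + t • e‖ ≤ R := hR _ hy
    have h2 : |t| ≤ |a| + |b| := by
      rw [abs_le]
      constructor
      · linarith [neg_abs_le a, abs_nonneg b, ht.1]
      · linarith [le_abs_self b, abs_nonneg a, ht.2]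
    calc ‖y‖ = ‖((y : V) + t • e) - t • e‖ := by rw [add_sub_cancel_right]; rfl
      _ ≤ ‖(y : V) + t • e‖ + ‖t • e‖ := norm_sub_le _ _
      _ ≤ R + (|a| + |b|) := by
        rw [norm_smul, he, mul_one, Real.norm_eq_abs]
        linarith
  · have h0 : f ((y : V) + t • e) = 0 := hy
    have h1 : ¬ Crit f e ((y : V) + t • e) := fun h2 =>
      hc _ h2 (by rw [inner_hpr he]; exact ht.1) (by rw [inner_hpr he]; exact ht.2)
    have h2 : ∃ w : V, ⟪w, e⟫ = 0 ∧ fderiv ℝ f ((y : V) + t • e) w < 0 := by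
      by_contra hcon
      push Not at hcon
      refine h1 ⟨h0, fun w hw => le_antisymm ?_ (hcon w hw)⟩
      have h3 := hcon (-w) (by rw [inner_neg_left, hw, neg_zero])
      rw [map_neg] at h3
      linarith
    obtain ⟨w, hw, hw'⟩ := h2
    have hwm : w ∈ (ℝ ∙ e)ᗮ := by
      rw [Submodule.mem_orthogonal_singleton_iff_inner_right, real_inner_comm]
      exact hw
    refine ⟨⟨w, hwm⟩, ?_⟩
    have h3 : HasFDerivAt (fun p : ℝ × (ℝ ∙ e)ᗮ => ((p.2 : V) + p.1 • e))
        ((ℝ ∙ e)ᗮ.subtypeL.comp (ContinuousLinearMap.snd ℝ ℝ (ℝ ∙ e)ᗮ) +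
          (ContinuousLinearMap.fst ℝ ℝ (ℝ ∙ e)ᗮ).smulRight e) (t, y) :=
      ((ℝ ∙ e)ᗮ.subtypeL.comp (ContinuousLinearMap.snd ℝ ℝ (ℝ ∙ e)ᗮ) +
          (ContinuousLinearMap.fst ℝ ℝ (ℝ ∙ e)ᗮ).smulRight e).hasFDerivAt
    have h4 : HasFDerivAt (fun p : ℝ × (ℝ ∙ e)ᗮ => f ((p.2 : V) + p.1 • e))
        ((fderiv ℝ f ((y : V) + t • e)).comp
          ((ℝ ∙ e)ᗮ.subtypeL.comp (ContinuousLinearMap.snd ℝ ℝ (ℝ ∙ e)ᗮ) +
          (ContinuousLinearMap.fst ℝ ℝ (ℝ ∙ e)ᗮ).smulRight e)) (t, y) :=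
      HasFDerivAt.comp (g := f) (t, y) (hm.smooth.differentiable (by simp) _).hasFDerivAt h3
    have h5 := desc_smooth (G := fun p : ℝ × (ℝ ∙ e)ᗮ => f ((p.2 : V) + p.1 • e)) (t := t)
      (x := y) (v := ⟨w, hwm⟩) (hG.contDiffAt.of_le (by simp)) (by
        rw [h4.fderiv]
        simpa using hw')
    exact h5.mono nhdsWithin_le_nhds

theorem slE_move {f : V → ℝ} {e : V} (he : ‖e‖ = 1) (hm : Mo f e) {a b : ℝ}
    (hc : ∀ x, Crit f e x → min a b ≤ ⟪e, x⟫ → ⟪e, x⟫ ≤ max a b → False)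
    (h : SlE (slc f e a)) : SlE (slc f e b) := by
  rcases le_total a b with hab | hab
  · refine h.of_hom (slc_smooth hm.smooth e a) (slc_smooth hm.smooth e b) (slc_hom he hm hab ?_)
    intro x hx h1 h2
    exact hc x hx (by rwa [min_eq_left hab]) (by rwa [max_eq_right hab])
  · refine h.of_hom (slc_smooth hm.smooth e a) (slc_smooth hm.smooth e b)
      (slc_hom he hm hab ?_).symm
    intro x hx h1 h2
    exact hc x hx (by rwa [min_eq_right hab]) (by rwa [max_eq_left hab])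

end Pool.Schoen
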