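import Pool.Agent.H.MP_6c077c_gt.N3.SlabB
import Pool.Agent.H.MP_6c077c_gt.N3.FootBall

/-! Slices with spheres and tori, no sphere encloses a torus: there are no spheres off the tube. -/

set_option autoImplicit false

namespace Pool.Schoen

open Filter Set
open scoped Topology RealInnerProductSpace ContDiff

variable {V : Type*} [NormedAddCommGroup V] [InnerProductSpace ℝ V] [FiniteDimensional ℝ V]

open Classical in
/-- The function glued from the pieces. -/
private noncomputable def Slab_U (e : V) (c₀ a b c₁ : ℝ) (D : Set (ℝ ∙ e)ᗮ) (ud uu : V → ℝ)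
    (x : V) : ℝ :=
  if ⟪e, x⟫ ≤ c₀ then 0 else if ⟪e, x⟫ ≤ a then ud x else
    if ⟪e, x⟫ ≤ b then (if hpr e x ∈ D then 1 else 0) else if ⟪e, x⟫ < c₁ then uu x else 0

/-- The core: the sign is fixed. -/
private theorem Slab_core (hV : Module.finrank ℝ V = 4) {H : V → ℝ} {e : V} (he : ‖e‖ = 1)
    (hm : Mo H e) (h1 : IsConnected {x | H x ≤ 0}) {c₀ a b c₁ : ℝ} (h0a : c₀ < a) (hab : a < b)
    (hb1 : b < c₁) (hr₀ : ∀ x, Crit H e x → ⟪e, x⟫ ≠ c₀) (hra : ∀ x, Crit H e x → ⟪e, x⟫ ≠ a)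
    (hrb : ∀ x, Crit H e x → ⟪e, x⟫ ≠ b) (hr₁ : ∀ x, Crit H e x → ⟪e, x⟫ ≠ c₁)
    (hcapa : ∀ x, Crit H e x → c₀ < ⟪e, x⟫ → ⟪e, x⟫ < a → Idx H e x 0 ∨ Idx H e x 3)
    (hcapb : ∀ x, Crit H e x → b < ⟪e, x⟫ → ⟪e, x⟫ < c₁ → Idx H e x 0 ∨ Idx H e x 3)
    (hn₀ : NoS (slc H e c₀)) (hn₁ : NoS (slc H e c₁)) {D : Set (ℝ ∙ e)ᗮ} (hDc : IsCompact D)
    (hDn : D.Nonempty) (hDl : LiftS D) (hfar : ∀ w ∈ D, 4 < ‖w‖)
    (hD : Clp D {w | slc H e a w ≤ 0})
    (hcst : ∀ x, a ≤ ⟪e, x⟫ → ⟪e, x⟫ ≤ b → 4 ≤ ‖hpr e x‖ → H x = slc H e a (hpr e x))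
    {p : V} (hp : H p ≤ 0) (hpa : a < ⟪e, p⟫) (hpb : ⟪e, p⟫ ≤ b) (hp4 : ‖hpr e p‖ ≤ 4) :
    False := by
  classical
  have hHc : Continuous H := hm.smooth.continuous
  have hz : Continuous fun x : V => ⟪e, x⟫ := continuous_const.inner continuous_id
  have hprc : Continuous fun x : V => hpr e x := (hprL e).continuous
  have hcstw : ∀ w : (ℝ ∙ e)ᗮ, 4 ≤ ‖w‖ → slc H e b w = slc H e a w := by
    intro w hw
    have h2 := hcst ((w : V) + b • e) (by rw [inner_hpr he]; exact hab.le)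
      (by rw [inner_hpr he]) (by rw [hpr_coe he]; exact hw)
    rw [hpr_coe he] at h2
    exact h2
  -- the slice at `b`
  have hDb : Clp D {w | slc H e b w ≤ 0} := by
    refine ⟨hD.cl, fun w hw => ?_, ?_⟩
    · show slc H e b w ≤ 0
      rw [hcstw w (hfar w hw).le]
      exact hD.sub hw
    · have h2 : {w | slc H e b w ≤ 0} \ D = ({w | slc H e b w ≤ 0} ∩ {w | ‖w‖ ≤ 4}) ∪
          (({w | slc H e a w ≤ 0} \ D) ∩ {w | 4 ≤ ‖w‖}) := by
        ext w
        constructor
        · rintro ⟨h3, h4⟩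
          rcases le_total ‖w‖ 4 with h5 | h5
          · exact Or.inl ⟨h3, h5⟩
          · refine Or.inr ⟨⟨?_, h4⟩, h5⟩
            show slc H e a w ≤ 0
            rw [← hcstw w h5]
            exact h3
        · rintro (⟨h3, h4⟩ | ⟨⟨h3, h4⟩, h5⟩)
          · refine ⟨h3, fun h5 => ?_⟩
            exact absurd (hfar w h5) (not_lt.2 h4)
          · refine ⟨?_, h4⟩
            show slc H e b w ≤ 0
            rw [hcstw w h5]
            exact h3
      rw [h2]
      refine IsClosed.union ?_ ?_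
      · exact (isClosed_le (slc_smooth hm.smooth e b).continuous continuous_const).inter
          (isClosed_le continuous_norm continuous_const)
      · exact hD.cl'.inter (isClosed_le continuous_const continuous_norm)
  -- the two extensions
  obtain ⟨ud, hud, hud1, hudt, hud0⟩ := slab_dn hV he hm h0a hr₀ hra hcapa hn₀ hD hDc hDl
  obtain ⟨uu, huu, huu1, huut, huu0⟩ := slab_up hV he hm hb1 hrb hr₁ hcapb hn₁ hDb hDc hDl
  set U : V → ℝ := Slab_U e c₀ a b c₁ D ud uu with hU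
  -- the pieces
  have hc1 : IsClosed ({x | H x ≤ 0} ∩ {x : V | ⟪e, x⟫ ≤ c₀}) :=
    (isClosed_le hHc continuous_const).inter (isClosed_le hz continuous_const)
  have hc5 : IsClosed ({x | H x ≤ 0} ∩ {x : V | c₁ ≤ ⟪e, x⟫}) :=
    (isClosed_le hHc continuous_const).inter (isClosed_le continuous_const hz)
  have hA1 : IsClosed (layS H e a b ∩ {x | hpr e x ∈ D}) :=
    (layS_closed hHc e a b).inter (hD.cl.preimage hprc)
  have hA2 : IsClosed (layS H e a b ∩ {x | hpr e x ∉ D}) := by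
    have h2 : layS H e a b ∩ {x | hpr e x ∉ D} = (layS H e a b ∩ {x | ‖hpr e x‖ ≤ 4}) ∪
        (layS H e a b ∩ ((fun x => hpr e x) ⁻¹' ({w | slc H e a w ≤ 0} \ D) ∩
          {x | 4 ≤ ‖hpr e x‖})) := by
      ext x
      constructor
      · rintro ⟨h3, h4⟩
        rcases le_total ‖hpr e x‖ 4 with h5 | h5
        · exact Or.inl ⟨h3, h5⟩
        · refine Or.inr ⟨h3, ⟨?_, h4⟩, h5⟩
          show slc H e a (hpr e x) ≤ 0
          rw [← hcst x h3.2.1 h3.2.2 h5]
          exact h3.1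
      · rintro (⟨h3, h4⟩ | ⟨h3, ⟨h4, h5⟩, h6⟩)
        · refine ⟨h3, fun h5 => ?_⟩
          exact absurd (hfar _ h5) (not_lt.2 h4)
        · exact ⟨h3, h5⟩
    rw [h2]
    refine IsClosed.union ?_ ?_
    · exact (layS_closed hHc e a b).inter (isClosed_le hprc.norm continuous_const)
    · exact (layS_closed hHc e a b).inter ((hD.cl'.preimage hprc).inter
        (isClosed_le continuous_const hprc.norm))
  -- the values
  have v1 : ∀ x : V, ⟪e, x⟫ ≤ c₀ → U x = 0 := fun x hx => if_pos hx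
  have v2 : ∀ x ∈ layS H e c₀ a, U x = ud x := by
    intro x hx
    rcases eq_or_lt_of_le hx.2.1 with h2 | h2
    · rw [v1 x h2.symm.le, hud0 x hx h2.symm]
    · rw [hU, Slab_U, if_neg (not_le.2 h2), if_pos hx.2.2]
  have v3 : ∀ x ∈ layS H e a b, U x = if hpr e x ∈ D then 1 else 0 := by
    intro x hx
    rcases eq_or_lt_of_le hx.2.1 with h2 | h2
    · have hxl : x ∈ layS H e c₀ a := ⟨hx.1, h0a.le.trans hx.2.1, h2.symm.le⟩
      rw [v2 x hxl]
      have h3 := hudt x hxl h2.symm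
      rcases hud1 x hxl with h4 | h4
      · rw [if_neg, h4]
        intro h5
        rw [h3.2 h5] at h4
        exact one_ne_zero h4
      · rw [if_pos (h3.1 h4), h4]
    · rw [hU, Slab_U, if_neg (not_le.2 (h0a.trans h2)), if_neg (not_le.2 h2), if_pos hx.2.2]
  have v4 : ∀ x ∈ layS H e b c₁, U x = uu x := by
    intro x hx
    rcases eq_or_lt_of_le hx.2.1 with h2 | h2
    · have hxl : x ∈ layS H e a b := ⟨hx.1, hab.le.trans hx.2.1, h2.symm.le⟩
      rw [v3 x hxl]
      have h3 := huut x hx h2.symm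
      rcases huu1 x hx with h4 | h4
      · rw [if_neg, h4]
        intro h5
        rw [h3.2 h5] at h4
        exact one_ne_zero h4
      · rw [if_pos (h3.1 h4), h4]
    · rcases eq_or_lt_of_le hx.2.2 with h3 | h3
      · rw [huu0 x hx h3, hU, Slab_U, if_neg (not_le.2 ((h0a.trans hab).trans h2)),
          if_neg (not_le.2 (hab.trans h2)), if_neg (not_le.2 h2), if_neg (not_lt.2 h3.symm.le)]
      · rw [hU, Slab_U, if_neg (not_le.2 ((h0a.trans hab).trans h2)),
          if_neg (not_le.2 (hab.trans h2)), if_neg (not_le.2 h2), if_pos h3]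
  have v5 : ∀ x : V, c₁ ≤ ⟪e, x⟫ → U x = 0 := by
    intro x hx
    have h2 : b < ⟪e, x⟫ := hb1.trans_le hx
    rw [hU, Slab_U, if_neg (not_le.2 ((h0a.trans hab).trans h2)),
      if_neg (not_le.2 (hab.trans h2)), if_neg (not_le.2 h2), if_neg (not_lt.2 hx)]
  -- continuity
  have hcU : ContinuousOn U {x | H x ≤ 0} := by
    have k1 : ContinuousOn U ({x | H x ≤ 0} ∩ {x : V | ⟪e, x⟫ ≤ c₀}) :=
      (continuousOn_const (c := (0 : ℝ))).congr fun x hx => v1 x hx.2
    have k2 : ContinuousOn U (layS H e c₀ a) := hud.congr v2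
    have k3 : ContinuousOn U (layS H e a b ∩ {x | hpr e x ∈ D}) :=
      (continuousOn_const (c := (1 : ℝ))).congr fun x hx => by
        rw [v3 x hx.1]
        exact if_pos hx.2
    have k3' : ContinuousOn U (layS H e a b ∩ {x | hpr e x ∉ D}) :=
      (continuousOn_const (c := (0 : ℝ))).congr fun x hx => by
        rw [v3 x hx.1]
        exact if_neg hx.2
    have k4 : ContinuousOn U (layS H e b c₁) := huu.congr v4
    have k5 : ContinuousOn U ({x | H x ≤ 0} ∩ {x : V | c₁ ≤ ⟪e, x⟫}) :=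
      (continuousOn_const (c := (0 : ℝ))).congr fun x hx => v5 x hx.2
    have c2 := layS_closed hHc e c₀ a
    have c4 := layS_closed hHc e b c₁
    have m1 := k1.union_of_isClosed k2 hc1 c2
    have m2 := m1.union_of_isClosed k3 (hc1.union c2) hA1
    have m3 := m2.union_of_isClosed k3' ((hc1.union c2).union hA1) hA2
    have m4 := m3.union_of_isClosed k4 (((hc1.union c2).union hA1).union hA2) c4
    have m5 := m4.union_of_isClosed k5 ((((hc1.union c2).union hA1).union hA2).union c4) hc5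
    refine m5.mono fun x hx => ?_
    have hx' : H x ≤ 0 := hx
    rcases le_total ⟪e, x⟫ c₀ with h2 | h2
    · exact Or.inl (Or.inl (Or.inl (Or.inl (Or.inl ⟨hx', h2⟩))))
    rcases le_total ⟪e, x⟫ a with h3 | h3
    · exact Or.inl (Or.inl (Or.inl (Or.inl (Or.inr ⟨hx', h2, h3⟩))))
    rcases le_total ⟪e, x⟫ b with h4 | h4
    · by_cases h5 : hpr e x ∈ D
      · exact Or.inl (Or.inl (Or.inl (Or.inr ⟨⟨hx', h3, h4⟩, h5⟩)))
      · exact Or.inl (Or.inl (Or.inr ⟨⟨hx', h3, h4⟩, h5⟩))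
    rcases le_total ⟪e, x⟫ c₁ with h5 | h5
    · exact Or.inl (Or.inr ⟨hx', h4, h5⟩)
    · exact Or.inr ⟨hx', h5⟩
  have hval : ∀ x, H x ≤ 0 → U x = 0 ∨ U x = 1 := by
    intro x hx'
    rcases le_total ⟪e, x⟫ c₀ with h2 | h2
    · exact Or.inl (v1 x h2)
    rcases le_total ⟪e, x⟫ a with h3 | h3
    · rw [v2 x ⟨hx', h2, h3⟩]
      exact hud1 x ⟨hx', h2, h3⟩
    rcases le_total ⟪e, x⟫ b with h4 | h4
    · rw [v3 x ⟨hx', h3, h4⟩]
      by_cases h5 : hpr e x ∈ D
      · rw [if_pos h5]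
        exact Or.inr rfl
      · rw [if_neg h5]
        exact Or.inl rfl
    rcases le_total ⟪e, x⟫ c₁ with h5 | h5
    · rw [v4 x ⟨hx', h4, h5⟩]
      exact huu1 x ⟨hx', h4, h5⟩
    · exact Or.inl (v5 x h5)
  -- the two points
  obtain ⟨w, hw⟩ := hDn
  have hq : H ((w : V) + a • e) ≤ 0 := hD.sub hw
  have hUq : U ((w : V) + a • e) = 1 := by
    rw [v3 _ ⟨hq, by rw [inner_hpr he], by rw [inner_hpr he]; exact hab.le⟩, hpr_coe he, if_pos hw]
  have hUp : U p = 0 := by
    rw [v3 p ⟨hp, hpa.le, hpb⟩, if_neg]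
    intro h2
    exact absurd (hfar _ h2) (not_lt.2 hp4)
  have h2 := h1.isPreconnected.intermediate_value (a := p) (b := (w : V) + a • e) hp hq hcU
  rw [hUp, hUq] at h2
  obtain ⟨y, hy, hy2⟩ := h2 (show (1 / 2 : ℝ) ∈ Icc (0 : ℝ) 1 by constructor <;> norm_num)
  rcases hval y hy with h3 | h3
  · rw [h3] at hy2
    norm_num at hy2
  · rw [h3] at hy2
    norm_num at hy2

/-- A regular slice has no critical point. -/
private theorem Slab_reg {h : V → ℝ} (hm : ContDiff ℝ ∞ h) {e : V} (he : ‖e‖ = 1) {τ : ℝ}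
    (hr : ∀ w, slc h e τ w = 0 → gradient (slc h e τ) w ≠ 0) :
    ∀ x, Crit h e x → ⟪e, x⟫ ≠ τ := by
  intro x hx hxe
  have h0 : slc h e τ (hpr e x) = 0 := by
    rw [hpr_slc he hxe]
    exact hx.1
  refine hr _ h0 ?_
  have h1 := hpr_add he x
  rw [hxe] at h1
  rw [slc_gradient hm, h1]
  have h2 := ((crit_iff_horG he x).1 hx).2
  have h3 : gradient h x = ⟪gradient h x, e⟫ • e := by
    rw [horG, sub_eq_zero] at h2
    exact h2
  rw [h3, ← hprL_apply, map_smul, hprL_apply, BaseDef_self, smul_zero]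

/-- **No spheres off the tube.** PROOF. For `s = 1` (`s = -1`: the function `-h`, `mo_neg`,
`BaseN_idx_neg`, `NoS` is symmetric). `D` is disjoint from the support of `tubC`, so it is a clopen
part of all the slices `tubK σ`, `|σ| ≤ β`, and `D × [c - β/m, c + β/m]` is clopen in the layer;
`slab_dn`, `slab_up` extend its indicator over `[c₀, c₁]`, `0` at `c₀` and `c₁`, then by `0` over the
body `{h ≤ 0}`, which is connected: it is constant `1`, so all of the body is in the layer over `D`;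
but `c • e` is a zero of `h`, where the indicator is `0`. -/
theorem vn_noD (hV : Module.finrank ℝ V = 4) {h : V → ℝ} {e : V} {c m β : ℝ} {u : (ℝ ∙ e)ᗮ}
    {P : (ℝ ∙ e)ᗮ → ℝ} (hv : VN h e c m β u P) (hm : Mo h e) (h1 : IsConnected {x | h x ≤ 0})
    (h2 : IsConnected {x | 0 ≤ h x}) {c₀ c₁ : ℝ} (hc₀ : m * (c₀ - c) < -β) (hc₁ : β < m * (c₁ - c))
    (hr₀ : ∀ x, Crit h e x → ⟪e, x⟫ ≠ c₀) (hr₁ : ∀ x, Crit h e x → ⟪e, x⟫ ≠ c₁)
    (hcap : ∀ x, Crit h e x → c₀ < ⟪e, x⟫ → ⟪e, x⟫ < c₁ → x ≠ c • e → Idx h e x 0 ∨ Idx h e x 3)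
    (hn₀ : NoS (slc h e c₀)) (hn₁ : NoS (slc h e c₁)) : NoD (tubK P u (-β)) := by
  have he := hv.he
  have hm0 := hv.hm
  have hβ := hv.tub.hβ
  have hmβ : 0 < β / m := div_pos hβ hm0
  have hma : m * ((c - β / m) - c) = -β := by
    field_simp
    ring
  have hmb : m * ((c + β / m) - c) = β := by
    field_simp
    ring
  have h0a : c₀ < c - β / m := by
    have : m * (c₀ - c) < m * ((c - β / m) - c) := by rw [hma]; exact hc₀
    have := lt_of_mul_lt_mul_left this hm0.le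
    linarith
  have hb1 : c + β / m < c₁ := by
    have : m * ((c + β / m) - c) < m * (c₁ - c) := by rw [hmb]; exact hc₁
    have := lt_of_mul_lt_mul_left this hm0.le
    linarith
  have hrange : ∀ τ, c - β / m ≤ τ → τ ≤ c + β / m → |m * (τ - c)| ≤ β := by
    intro τ h3 h4
    rw [abs_le]
    constructor
    · rw [← hma]
      exact mul_le_mul_of_nonneg_left (by linarith) hm0.le
    · calc m * (τ - c) ≤ m * ((c + β / m) - c) := mul_le_mul_of_nonneg_left (by linarith) hm0.le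
        _ = β := hmb
  have hsl : ∀ τ, c - β / m ≤ τ → τ ≤ c + β / m →
      slc h e τ = tubK P u (m * (τ - c)) := by
    intro τ h3 h4
    funext w
    have h5 := hv.hh ((w : V) + τ • e) (by rw [inner_hpr he]; exact hrange τ h3 h4)
    rw [inner_hpr he, hpr_coe he] at h5
    exact h5
  have hsa : slc h e (c - β / m) = tubK P u (-β) := by
    rw [hsl _ le_rfl (by linarith), hma]
  have hsb : slc h e (c + β / m) = tubK P u β := by
    rw [hsl _ (by linarith) le_rfl, hmb]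
  have hra : ∀ x, Crit h e x → ⟪e, x⟫ ≠ c - β / m := by
    refine Slab_reg hm.smooth he ?_
    rw [hsa]
    intro w hw
    exact tubK_reg hv.tub (by rw [abs_neg, abs_of_pos hβ]) (neg_ne_zero.2 hβ.ne') hw
  have hrb : ∀ x, Crit h e x → ⟪e, x⟫ ≠ c + β / m := by
    refine Slab_reg hm.smooth he ?_
    rw [hsb]
    intro w hw
    exact tubK_reg hv.tub (by rw [abs_of_pos hβ]) hβ.ne' hw
  have hce : ⟪e, c • e⟫ = c := by
    rw [real_inner_smul_right, real_inner_self_eq_norm_sq, he]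
    ring
  have hpc : hpr e (c • e) = 0 := by
    rw [← hprL_apply, map_smul, hprL_apply, BaseDef_self, smul_zero]
  have hP0 : h (c • e) = 0 := by
    rw [hv.hh (c • e) (by rw [hce, sub_self, mul_zero, abs_zero]; exact hβ.le), hce, sub_self,
      mul_zero, hpc, tubK, hv.tub.mod 0 (by rw [norm_zero]; norm_num)]
    simp [orth]
  have hcst : ∀ x, c - β / m ≤ ⟪e, x⟫ → ⟪e, x⟫ ≤ c + β / m → 4 ≤ ‖hpr e x‖ →
      h x = slc h e (c - β / m) (hpr e x) := by
    intro x h3 h4 h5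
    rw [hsa, hv.hh x (hrange _ h3 h4), tubK_far hv.tub.hu _ h5, tubK_far hv.tub.hu _ h5]
  have hcapa : ∀ x, Crit h e x → c₀ < ⟪e, x⟫ → ⟪e, x⟫ < c - β / m → Idx h e x 0 ∨ Idx h e x 3 := by
    intro x h3 h4 h5
    refine hcap x h3 h4 (by linarith) fun h6 => ?_
    rw [h6, hce] at h5
    linarith
  have hcapb : ∀ x, Crit h e x → c + β / m < ⟪e, x⟫ → ⟪e, x⟫ < c₁ → Idx h e x 0 ∨ Idx h e x 3 := by
    intro x h3 h4 h5
    refine hcap x h3 (by linarith) h5 fun h6 => ?_
    rw [h6, hce] at h4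
    linarith
  rintro s (rfl | rfl) D hD hDc hDn hDl hfar
  · refine Slab_core hV he hm h1 h0a (by linarith) hb1 hr₀ hra hrb hr₁ hcapa hcapb hn₀ hn₁ hDc hDn
      hDl hfar ?_ hcst (p := c • e) hP0.le (by rw [hce]; linarith) (by rw [hce]; linarith)
      (by rw [hpc, norm_zero]; norm_num)
    rw [hsa]
    simpa using hD
  · have hneg : ∀ τ, slc (fun x => -h x) e τ = fun w => -slc h e τ w := fun τ => rfl
    have hidx : ∀ x, Idx h e x 0 ∨ Idx h e x 3 →
        Idx (fun x => -h x) e x 0 ∨ Idx (fun x => -h x) e x 3 := by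
      rintro x (h3 | h3)
      · obtain ⟨j, hj, hjx⟩ := BaseN_idx_neg hm.smooth he h3
        right
        have : j = 3 := by omega
        rwa [this] at hjx
      · obtain ⟨j, hj, hjx⟩ := BaseN_idx_neg hm.smooth he h3
        left
        have : j = 0 := by omega
        rwa [this] at hjx
    have hnos : ∀ τ, NoS (slc h e τ) → NoS (slc (fun x => -h x) e τ) := by
      intro τ h3
      refine h3.congr fun w => ?_
      rw [hneg]
      exact neg_eq_zero
    have h2' : IsConnected {x | (fun x => -h x) x ≤ 0} := by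
      have h3 : {x | (fun x => -h x) x ≤ 0} = {x | 0 ≤ h x} := by
        ext x
        show -h x ≤ 0 ↔ 0 ≤ h x
        exact neg_nonpos
      rw [h3]
      exact h2
    refine Slab_core hV he (mo_neg he hm) h2' h0a (by linarith) hb1
      (fun x hx => hr₀ x (crit_neg.1 hx)) (fun x hx => hra x (crit_neg.1 hx))
      (fun x hx => hrb x (crit_neg.1 hx)) (fun x hx => hr₁ x (crit_neg.1 hx))
      (fun x hx h3 h4 => hidx x (hcapa x (crit_neg.1 hx) h3 h4))
      (fun x hx h3 h4 => hidx x (hcapb x (crit_neg.1 hx) h3 h4))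
      (hnos _ hn₀) (hnos _ hn₁) hDc hDn hDl hfar ?_ ?_ (p := c • e) ?_
      (by rw [hce]; linarith) (by rw [hce]; linarith) (by rw [hpc, norm_zero]; norm_num)
    · rw [hneg, hsa]
      simpa using hD
    · intro x h3 h4 h5
      rw [hneg]
      show -h x = -slc h e (c - β / m) (hpr e x)
      rw [hcst x h3 h4 h5]
    · show -h (c • e) ≤ 0
      rw [hP0, neg_zero]

end Pool.Schoen
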