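
import Pool.Agent.H.MP_6c077c_gt.N3.Defs
import Pool.Agent.H.MP_6c077c_gt.N2.Foot

/-! Slices with spheres and tori, no sphere encloses a torus: parts with the lifting property. -/

set_option autoImplicit false

namespace Pool.Schoen

open Filter Set
open scoped Topology RealInnerProductSpace ContDiff

section E

variable {E : Type*} [NormedAddCommGroup E] [InnerProductSpace ℝ E] [FiniteDimensional ℝ E]

/-- A clopen part has the lifting property. -/
private theorem SlabA_clopen {Y : Type*} [TopologicalSpace Y] [NormalSpace Y] {K X : Set Y}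
    (hK : IsClosed K) (hKX : K ⊆ X) (hX : IsClosed (X \ K)) (h : LiftS X) : LiftS K := by
  refine LiftS.of_union hK hX ?_ ?_
  · rw [Set.union_sdiff_cancel hKX]
    exact h
  · rw [Set.inter_sdiff_self]
    exact fun u _ _ => ⟨fun _ => 0, continuousOn_empty _, fun x hx => hx.elim⟩

/-- A clopen part with the lifting property has no boundary, when no component of the zero set has
the lifting property. PROOF. Let `w ∈ D`, `g w = 0`, `K` the component of `w` in `{g ≤ 0}`, `K ⊆ D`,
`LiftS K` (`LiftS.clopen`). `T = cE g w ⊆ K` is not `LiftS`; `pc_fun` gives `k` with `{k = 0} = T`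
and `k = g` near `T`. `alexander_rd` (`sides_conn`): if one side of `T` were `LiftS` then `T` would be
the boundary of a ball, so `LiftS`. So the side `Q` of `T` which contains `K` (`K \ T` is connected,
or: `K` minus `T` is in `{k < 0}`, because `g < 0` side near `T`...) has a map `v` to the circle
which does not lift. `v` does not lift on `T` (else extend by Tietze over the other side and use
`liftS_univ`), hence not on `K`. -/
theorem lift_nobd (hE : Module.finrank ℝ E = 3) {g : E → ℝ} (hg : ContDiff ℝ ∞ g)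
    (hb : Bornology.IsBounded {x | g x = 0}) (hr : ∀ x, g x = 0 → gradient g x ≠ 0) (hn : NoS g)
    {D : Set E} (hD : Clp D {w | g w ≤ 0}) (hl : LiftS D) : ∀ w ∈ D, g w ≠ 0 := by
  intro w hwD hw
  have hTn : ¬ LiftS (cE g w) := hn w hw
  have hpc : Pc {x | g x = 0} (cE g w) := comp_pc hg hr hw
  obtain ⟨k, hk, hkT, hkg, hkr⟩ := pc_fun hg hb hr hpc
  have hkT' : {x | k x = 0} = cE g w := by
    ext x
    exact hkT x
  -- `T ⊆ D`
  have hTg : cE g w ⊆ {x | g x ≤ 0} := fun x hx => (hpc.sub hx : g x = 0).le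
  have hwT : w ∈ cE g w := mem_connectedComponentIn hw
  have hTD : cE g w ⊆ D := by
    intro y hy
    by_contra hyD
    obtain ⟨z, -, hz1, hz2⟩ := isPreconnected_closed_iff.1 hpc.conn.isPreconnected D
      ({x | g x ≤ 0} \ D) hD.cl hD.cl' (fun x hx => by
        by_cases hxD : x ∈ D
        · exact Or.inl hxD
        · exact Or.inr ⟨hTg hx, hxD⟩) ⟨w, hwT, hwD⟩ ⟨y, hy, hTg hy, hyD⟩
    exact hz2.2 hz1
  -- the part of `D` on the side `{k ≤ 0}`
  have hDk : IsClosed (D ∩ {x | k x ≤ 0}) :=
    hD.cl.inter (isClosed_le hk.continuous continuous_const)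
  have hDk' : IsClosed (D \ (D ∩ {x | k x ≤ 0})) := by
    refine isClosed_of_closure_subset fun z hz => ?_
    have hzD : z ∈ D := closure_minimal sdiff_subset hD.cl hz
    have hzk : 0 ≤ k z := by
      have h1 : closure (D \ (D ∩ {x | k x ≤ 0})) ⊆ {x | 0 ≤ k x} := by
        refine closure_minimal (fun x hx => ?_) (isClosed_le continuous_const hk.continuous)
        by_contra h2
        have h3 : ¬ 0 ≤ k x := h2
        exact hx.2 ⟨hx.1, (not_le.1 h3).le⟩
      exact h1 hz
    refine ⟨hzD, fun h2 => ?_⟩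
    have hz0 : k z = 0 := le_antisymm h2.2 hzk
    have hzT : z ∈ cE g w := (hkT z).1 hz0
    obtain ⟨y, hy1, hy2⟩ := mem_closure_iff_nhds.1 hz _ (hkg z hzT)
    have hy3 : k y = g y := hy1
    refine hy2.2 ⟨hy2.1, ?_⟩
    change k y ≤ 0
    rw [hy3]
    exact hD.sub hy2.1
  have hl' : LiftS (D ∩ {x | k x ≤ 0}) := SlabA_clopen hDk inter_subset_left hDk' hl
  have hTD' : cE g w ⊆ D ∩ {x | k x ≤ 0} := fun x hx => ⟨hTD hx, ((hkT x).2 hx).le⟩
  obtain ⟨n1, -⟩ := rank_not hE hk (by rw [hkT']; exact hb.subset hpc.sub) hkr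
    (by rw [hkT']; exact hpc.conn) (by rw [hkT']; exact hTn)
  obtain ⟨v, cv, nv, hv⟩ : ∃ v : E → ℂ, ContinuousOn v {x | k x ≤ 0} ∧
      (∀ x ∈ {x | k x ≤ 0}, ‖v x‖ = 1) ∧ ¬ Lifts {x | k x ≤ 0} v := by
    by_contra hcon
    push Not at hcon
    exact n1 fun v cv nv => hcon v cv nv
  have hlv : Lifts (D ∩ {x | k x ≤ 0}) v :=
    hl' v (cv.mono inter_subset_right) fun x hx => nv x hx.2
  have c1 : IsClosed {x | k x ≤ 0} := isClosed_le hk.continuous continuous_const
  have c2 : IsClosed {x | 0 ≤ k x} := isClosed_le continuous_const hk.continuous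
  have hU : {x | k x ≤ 0} ∪ {x | 0 ≤ k x} = univ := by
    ext x
    simp only [mem_union, mem_ofPred_eq, mem_univ, iff_true]
    exact le_total _ _
  refine not_liftS_glue c1 c2 (w := fun _ => (1 : ℂ)) cv nv hv continuousOn_const
    (fun x _ => norm_one) (a := 1) (b := 0) one_ne_zero ?_ (by rw [hU]; exact liftS_univ E)
  refine (hlv.mono ?_).congr fun x _ => by simp
  rintro x ⟨h1, h2⟩
  exact hTD' ((hkT x).1 (le_antisymm h1 h2))

end E

end Pool.Schoen
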