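import Pool.Agent.H.MP_6c077c_gt.N3.SlabA
import Pool.Agent.H.MP_6c077c_gt.N3.SlA
import Pool.Agent.H.MP_6c077c_gt.N2.Three

/-! Slices with spheres and tori, no sphere encloses a torus: layers with caps only. -/

set_option autoImplicit false

namespace Pool.Schoen

open Filter Set
open scoped Topology RealInnerProductSpace ContDiff

section top

variable {Y : Type*} [TopologicalSpace Y]

/-- extension by one -/
private theorem SlabB_ext {Z W : Set Y} (hZ : IsClosed Z) (hW : IsClosed W)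
    (hd : ∀ x ∈ W, x ∉ Z) {v : Y → ℂ} (hv : ContinuousOn v Z) (h1 : ∀ x ∈ Z, ‖v x‖ = 1) :
    ∃ v' : Y → ℂ, ContinuousOn v' (Z ∪ W) ∧ (∀ x ∈ Z ∪ W, ‖v' x‖ = 1) ∧ (∀ x ∈ Z, v' x = v x) ∧
      ∀ x ∈ W, v' x = 1 := by
  classical
  have e1 : ∀ x ∈ Z, (if x ∈ Z then v x else 1) = v x := fun x hx => if_pos hx
  have e2 : ∀ x ∈ W, (if x ∈ Z then v x else 1) = 1 := fun x hx => if_neg (hd x hx)
  refine ⟨fun x => if x ∈ Z then v x else 1, ?_, ?_, e1, e2⟩
  · exact ContinuousOn.union_of_isClosed (hv.congr e1) (continuousOn_const.congr e2) hZ hW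
  · rintro x (hx | hx)
    · show ‖(if x ∈ Z then v x else 1)‖ = 1
      rw [e1 x hx]
      exact h1 x hx
    · show ‖(if x ∈ Z then v x else 1)‖ = 1
      rw [e2 x hx, norm_one]

/-- a map which is one on a clopen part lifts if it lifts on the rest -/
private theorem SlabB_lifts {Z W : Set Y} (hZ : IsClosed Z) (hW : IsClosed W)
    (hd : ∀ x ∈ W, x ∉ Z) {v : Y → ℂ} (hl : Lifts Z v) (hw : ∀ x ∈ W, v x = 1) :
    Lifts (Z ∪ W) v := by
  classical
  obtain ⟨p, hp, hp1⟩ := hl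
  have e1 : ∀ x ∈ Z, (if x ∈ Z then p x else 0) = p x := fun x hx => if_pos hx
  have e2 : ∀ x ∈ W, (if x ∈ Z then p x else 0) = 0 := fun x hx => if_neg (hd x hx)
  refine ⟨fun x => if x ∈ Z then p x else 0, ?_, ?_⟩
  · exact ContinuousOn.union_of_isClosed (hp.congr e1) (continuousOn_const.congr e2) hZ hW
  · rintro x (hx | hx)
    · show v x = Complex.exp (((if x ∈ Z then p x else 0 : ℝ) : ℂ) * Complex.I)
      rw [e1 x hx]
      exact hp1 x hx
    · show v x = Complex.exp (((if x ∈ Z then p x else 0 : ℝ) : ℂ) * Complex.I)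
      rw [e2 x hx, hw x hx, Complex.ofReal_zero, zero_mul, Complex.exp_zero]

/-- a continuous function with the values `0`, `1` on an interval is constant -/
private theorem SlabB_const {γ : ℝ → ℝ} {c t : ℝ} (hγ : ContinuousOn γ (Icc c t))
    (h01 : ∀ s ∈ Icc c t, γ s = 0 ∨ γ s = 1) {a b : ℝ} (ha : a ∈ Icc c t) (hb : b ∈ Icc c t)
    (h1 : γ b = 1) : γ a = 1 := by
  rcases h01 a ha with h0 | h0
  · exfalso
    have h2 := isPreconnected_Icc.intermediate_value ha hb hγ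
    rw [h0, h1] at h2
    obtain ⟨s, hs, hs2⟩ := h2 (show (1 / 2 : ℝ) ∈ Icc (0 : ℝ) 1 by norm_num)
    rcases h01 s hs with h3 | h3 <;> rw [h3] at hs2 <;> norm_num at hs2
  · exact h0

end top

variable {V : Type*} [NormedAddCommGroup V] [InnerProductSpace ℝ V] [FiniteDimensional ℝ V]

/-- Both directions at once: the part `D` of the slice at the height `a`, no component with the
lifting property at the height `b`. -/
private theorem SlabB_core (hV : Module.finrank ℝ V = 4) {h : V → ℝ} {e : V} (he : ‖e‖ = 1)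
    (hm : Mo h e) {a b c t : ℝ} (ha : a ∈ Icc c t) (hb : b ∈ Icc c t)
    (hbr : ∀ x, Crit h e x → ⟪e, x⟫ ≠ b) (f1 : ExtB (layS h e a a) (layS h e c t))
    (f2 : ExtS (layS h e b b) (layS h e c t))
    (f3 : ∀ u : V → ℂ, ContinuousOn u (layS h e c t) → (∀ x ∈ layS h e c t, ‖u x‖ = 1) →
      Lifts (layS h e a a) u → Lifts (layS h e c t) u)
    (hn : NoS (slc h e b)) {D : Set (ℝ ∙ e)ᗮ} (hD : Clp D {w | slc h e a w ≤ 0})
    (hDc : IsCompact D) (hDl : LiftS D) :
    ∃ u : V → ℝ, ContinuousOn u (layS h e c t) ∧ (∀ x ∈ layS h e c t, u x = 0 ∨ u x = 1) ∧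
      (∀ x ∈ layS h e c t, ⟪e, x⟫ = a → (u x = 1 ↔ hpr e x ∈ D)) ∧
      ∀ x ∈ layS h e c t, ⟪e, x⟫ = b → u x = 0 := by
  classical
  have hhc : Continuous h := hm.smooth.continuous
  have hpc : Continuous fun x : V => hpr e x := (hprL e).continuous
  have hXc : IsClosed (layS h e c t) := layS_closed hhc e c t
  have hup : ∀ s : ℝ, Continuous fun w : (ℝ ∙ e)ᗮ => (w : V) + s • e := fun s =>
    continuous_subtype_val.add continuous_const
  have hin : ∀ s ∈ Icc c t, ∀ w : (ℝ ∙ e)ᗮ, slc h e s w ≤ 0 → (w : V) + s • e ∈ layS h e c t := by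
    intro s hs w hw
    refine ⟨hw, ?_, ?_⟩
    · rw [inner_hpr he]; exact hs.1
    · rw [inner_hpr he]; exact hs.2
  have hsub : ∀ s ∈ Icc c t, layS h e s s ⊆ layS h e c t := fun s hs x hx =>
    ⟨hx.1, hs.1.trans hx.2.1, hx.2.2.trans hs.2⟩
  -- the indicator function on the slice
  have hA1 : IsClosed (layS h e a a ∩ {x | hpr e x ∈ D}) :=
    (layS_closed hhc e a a).inter (hD.cl.preimage hpc)
  have hA2 : IsClosed (layS h e a a ∩ {x | hpr e x ∉ D}) := by
    have h1 : layS h e a a ∩ {x | hpr e x ∉ D} =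
        layS h e a a ∩ (fun x => hpr e x) ⁻¹' ({w | slc h e a w ≤ 0} \ D) := by
      ext x
      refine ⟨fun hx => ⟨hx.1, ?_, hx.2⟩, fun hx => ⟨hx.1, hx.2.2⟩⟩
      show slc h e a (hpr e x) ≤ 0
      rw [hpr_slc he (le_antisymm hx.1.2.2 hx.1.2.1)]
      exact hx.1.1
    rw [h1]
    exact (layS_closed hhc e a a).inter (hD.cl'.preimage hpc)
  have hAu : layS h e a a = (layS h e a a ∩ {x | hpr e x ∈ D}) ∪
      (layS h e a a ∩ {x | hpr e x ∉ D}) := by
    ext x
    constructor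
    · intro hx
      by_cases hxD : hpr e x ∈ D
      · exact Or.inl ⟨hx, hxD⟩
      · exact Or.inr ⟨hx, hxD⟩
    · rintro (hx | hx)
      · exact hx.1
      · exact hx.1
  obtain ⟨u, hu, hu01, hue⟩ := f1 (fun x => if hpr e x ∈ D then 1 else 0) (by
    rw [hAu]
    refine ContinuousOn.union_of_isClosed (continuousOn_const (c := (1 : ℝ)) |>.congr ?_)
      (continuousOn_const (c := (0 : ℝ)) |>.congr ?_) hA1 hA2
    · exact fun x hx => if_pos hx.2
    · exact fun x hx => if_neg hx.2) (by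
    intro x _
    show (if hpr e x ∈ D then (1 : ℝ) else 0) = 0 ∨ (if hpr e x ∈ D then (1 : ℝ) else 0) = 1
    split_ifs
    · exact Or.inr rfl
    · exact Or.inl rfl)
  have hua : ∀ x ∈ layS h e c t, ⟪e, x⟫ = a → (u x = 1 ↔ hpr e x ∈ D) := by
    intro x hx hxa
    have h1 : u x = if hpr e x ∈ D then 1 else 0 := hue x ⟨hx.1, hxa.ge, hxa.le⟩
    rw [h1]
    split_ifs with h2
    · exact ⟨fun _ => h2, fun _ => rfl⟩
    · exact ⟨fun h3 => absurd h3 zero_ne_one, fun h3 => absurd h3 h2⟩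
  refine ⟨u, hu, hu01, hua, ?_⟩
  -- the two parts of the layer
  obtain ⟨Z, hZdef⟩ : ∃ Z : Set V, Z = layS h e c t ∩ u ⁻¹' {1} := ⟨_, rfl⟩
  obtain ⟨W, hWdef⟩ : ∃ W : Set V, W = layS h e c t ∩ u ⁻¹' {0} := ⟨_, rfl⟩
  have hZ : IsClosed Z := by
    rw [hZdef]
    exact hu.preimage_isClosed_of_isClosed hXc isClosed_singleton
  have hW : IsClosed W := by
    rw [hWdef]
    exact hu.preimage_isClosed_of_isClosed hXc isClosed_singleton
  have hZm : ∀ x, x ∈ Z ↔ x ∈ layS h e c t ∧ u x = 1 := fun x => by rw [hZdef]; rfl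
  have hWm : ∀ x, x ∈ W ↔ x ∈ layS h e c t ∧ u x = 0 := fun x => by rw [hWdef]; rfl
  have hWZ : ∀ x ∈ W, x ∉ Z := by
    intro x hx hx'
    have h1 := ((hWm x).1 hx).2
    rw [((hZm x).1 hx').2] at h1
    exact one_ne_zero h1
  have hcov : ∀ s ∈ Icc c t, (layS h e s s ∩ Z) ∪ (layS h e s s ∩ W) = layS h e s s := by
    intro s hs
    ext x
    constructor
    · rintro (hx | hx)
      · exact hx.1
      · exact hx.1
    · intro hx
      rcases hu01 x (hsub s hs hx) with h0 | h0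
      · exact Or.inr ⟨hx, (hWm x).2 ⟨hsub s hs hx, h0⟩⟩
      · exact Or.inl ⟨hx, (hZm x).2 ⟨hsub s hs hx, h0⟩⟩
  have hcovX : Z ∪ W = layS h e c t := by
    ext x
    constructor
    · rintro (hx | hx)
      · exact ((hZm x).1 hx).1
      · exact ((hWm x).1 hx).1
    · intro hx
      rcases hu01 x hx with h0 | h0
      · exact Or.inr ((hWm x).2 ⟨hx, h0⟩)
      · exact Or.inl ((hZm x).2 ⟨hx, h0⟩)
  -- the part of the slice at `a`
  have hlA : LiftS (layS h e a a ∩ Z) := by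
    refine LiftS.of_maps hDl (φ := fun w : (ℝ ∙ e)ᗮ => (w : V) + a • e) (ψ := fun x => hpr e x)
      (hup a).continuousOn hpc.continuousOn ?_ ?_ ?_
    · intro w hw
      have h1 := hin a ha w (hD.sub hw)
      have h2 : ⟪e, (w : V) + a • e⟫ = a := inner_hpr he w a
      refine ⟨⟨h1.1, h2.ge, h2.le⟩, (hZm _).2 ⟨h1, (hua _ h1 h2).2 ?_⟩⟩
      rw [hpr_coe he]
      exact hw
    · intro x hx
      have h1 := (hZm x).1 hx.2
      exact (hua x h1.1 (le_antisymm hx.1.2.2 hx.1.2.1)).1 h1.2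
    · intro x hx
      have h1 := hpr_add he x
      rwa [le_antisymm hx.1.2.2 hx.1.2.1] at h1
  have hlZ : LiftS Z := by
    intro v hv hv1
    obtain ⟨v', c1, c2, c3, c4⟩ := SlabB_ext hZ hW hWZ hv hv1
    rw [hcovX] at c1 c2
    have h1 : Lifts (layS h e a a) v' := by
      rw [← hcov a ha]
      refine SlabB_lifts ((layS_closed hhc e a a).inter hZ) ((layS_closed hhc e a a).inter hW)
        (fun x hx hx' => hWZ x hx.2 hx'.2) ?_ fun x hx => c4 x hx.2
      exact hlA v' (c1.mono fun x hx => ((hZm x).1 hx.2).1) fun x hx => c2 x ((hZm x).1 hx.2).1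
    have h2 := f3 v' c1 c2 h1
    exact (h2.mono fun x hx => ((hZm x).1 hx).1).congr c3
  -- the part of the slice at `b`
  have hlB : LiftS (layS h e b b ∩ Z) := by
    intro v hv hv1
    have hd : ∀ x ∈ layS h e b b ∩ W, x ∉ layS h e b b ∩ Z := fun x hx hx' =>
      hWZ x hx.2 hx'.2
    obtain ⟨v', c1, c2, c3, c4⟩ := SlabB_ext ((layS_closed hhc e b b).inter hZ)
      ((layS_closed hhc e b b).inter hW) hd hv hv1
    rw [hcov b hb] at c1 c2
    obtain ⟨U, hU, hU1, hUe⟩ := f2 v' c1 c2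
    obtain ⟨p, hp, hp1⟩ := hlZ U (hU.mono fun x hx => ((hZm x).1 hx).1)
      fun x hx => hU1 x ((hZm x).1 hx).1
    refine ⟨p, hp.mono inter_subset_right, fun x hx => ?_⟩
    rw [← c3 x hx, ← hUe x hx.1]
    exact hp1 x hx.2
  obtain ⟨B, hBdef⟩ : ∃ B : Set (ℝ ∙ e)ᗮ, B = (fun w : (ℝ ∙ e)ᗮ => (w : V) + b • e) ⁻¹' Z :=
    ⟨_, rfl⟩
  have hBm : ∀ w : (ℝ ∙ e)ᗮ, w ∈ B ↔ (w : V) + b • e ∈ Z := fun w => by rw [hBdef]; rfl
  have hBcl : IsClosed B := by
    rw [hBdef]
    exact hZ.preimage (hup b)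
  have hBsub : B ⊆ {w | slc h e b w ≤ 0} := fun w hw => ((hZm _).1 ((hBm w).1 hw)).1.1
  have hBclp : Clp B {w | slc h e b w ≤ 0} := by
    refine ⟨hBcl, hBsub, ?_⟩
    have h1 : {w | slc h e b w ≤ 0} \ B = (fun w : (ℝ ∙ e)ᗮ => (w : V) + b • e) ⁻¹' W := by
      ext w
      constructor
      · intro hw
        have h2 := hin b hb w hw.1
        rcases hu01 _ h2 with h0 | h0
        · exact (hWm _).2 ⟨h2, h0⟩
        · exact absurd ((hBm w).2 ((hZm _).2 ⟨h2, h0⟩)) hw.2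
      · intro hw
        have hw' : (w : V) + b • e ∈ W := hw
        exact ⟨((hWm _).1 hw').1.1, fun h2 => hWZ _ hw' ((hBm w).1 h2)⟩
    rw [h1]
    exact hW.preimage (hup b)
  have hBl : LiftS B := by
    refine LiftS.of_maps hlB (φ := fun x => hpr e x) (ψ := fun w : (ℝ ∙ e)ᗮ => (w : V) + b • e)
      hpc.continuousOn (hup b).continuousOn ?_ ?_ ?_
    · intro x hx
      refine (hBm _).2 ?_
      have h1 := hpr_add he x
      rw [le_antisymm hx.1.2.2 hx.1.2.1] at h1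
      rw [h1]
      exact hx.2
    · intro w hw
      have h1 := (hBm w).1 hw
      have h2 : ⟪e, (w : V) + b • e⟫ = b := inner_hpr he w b
      exact ⟨⟨((hZm _).1 h1).1.1, h2.ge, h2.le⟩, h1⟩
    · intro w _
      exact hpr_coe he w b
  -- the dimension
  have he0 : e ≠ 0 := by
    intro h0
    rw [h0, norm_zero] at he
    exact zero_ne_one he
  have hE : Module.finrank ℝ (ℝ ∙ e)ᗮ = 3 :=
    Submodule.finrank_orthogonal_span_singleton (_i := ⟨hV⟩) he0
  have : Nontrivial (ℝ ∙ e)ᗮ := Module.nontrivial_of_finrank_pos (R := ℝ) (by omega)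
  have hnle : ∀ (w : (ℝ ∙ e)ᗮ) (s : ℝ), ‖w‖ ≤ ‖(w : V) + s • e‖ := by
    intro w s
    have h1 := norm_hpr_le e ((w : V) + s • e)
    rwa [hpr_coe he] at h1
  have hbd : Bornology.IsBounded {w | slc h e b w = 0} := by
    obtain ⟨R, hR⟩ := hm.bdd.exists_norm_le
    refine isBounded_iff_forall_norm_le.2 ⟨R, fun w hw => (hnle w b).trans (hR _ hw)⟩
  have hreg : ∀ w, slc h e b w = 0 → gradient (slc h e b) w ≠ 0 :=
    slc_reg hm.smooth he fun x hx hxb l hl => hbr x (crit_of_vert hx hl) hxb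
  have hB0 := lift_nobd hE (slc_smooth hm.smooth e b) hbd hreg hn hBclp hBl
  have hBop : IsOpen B := by
    have h1 : Bᶜ = ({w | slc h e b w ≤ 0} \ B) ∪ {w | 0 ≤ slc h e b w} := by
      ext w
      constructor
      · intro hw
        rcases le_total (slc h e b w) 0 with h2 | h2
        · exact Or.inl ⟨h2, hw⟩
        · exact Or.inr h2
      · rintro (hw | hw)
        · exact hw.2
        · intro hw'
          exact hB0 w hw' (le_antisymm (hBsub hw') hw)
    have h2 : IsClosed Bᶜ := by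
      rw [h1]
      exact hBclp.cl'.union (isClosed_le continuous_const (slc_smooth hm.smooth e b).continuous)
    exact isClosed_compl_iff.1 h2
  rcases isClopen_iff.1 ⟨hBcl, hBop⟩ with hBe | hBu
  · intro x hx hxb
    rcases hu01 x hx with h0 | h0
    · exact h0
    · exfalso
      have h1 : hpr e x ∈ B := by
        refine (hBm _).2 ?_
        have h2 := hpr_add he x
        rw [hxb] at h2
        rw [h2]
        exact (hZm x).2 ⟨hx, h0⟩
      rw [hBe] at h1
      exact notMem_empty _ h1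
  · exfalso
    obtain ⟨R, hR⟩ := hm.bdd.exists_norm_le
    obtain ⟨R', hR'⟩ := hDc.isBounded.exists_norm_le
    obtain ⟨w, hw⟩ := exists_norm_eq (ℝ ∙ e)ᗮ (c := |R| + |R'| + 1) (by positivity)
    have hγ : Continuous fun s : ℝ => (w : V) + s • e :=
      continuous_const.add (continuous_id.smul continuous_const)
    have hne : ∀ s : ℝ, h ((w : V) + s • e) ≠ 0 := by
      intro s hs
      have h1 := hR _ hs
      have h2 := hnle w s
      have h3 := le_abs_self R
      have h4 := abs_nonneg R'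
      linarith
    have hwB : w ∈ B := by rw [hBu]; exact mem_univ w
    have hwZ := (hZm _).1 ((hBm w).1 hwB)
    have hneg : ∀ s ∈ Icc c t, h ((w : V) + s • e) ≤ 0 := by
      intro s hs
      by_contra hcon
      push Not at hcon
      obtain ⟨r, -, hr⟩ := isPreconnected_Icc.intermediate_value hb hs
        (hhc.comp hγ).continuousOn ⟨hwZ.1.1, hcon.le⟩
      exact hne r hr
    have hlay : ∀ s ∈ Icc c t, (w : V) + s • e ∈ layS h e c t := fun s hs =>
      hin s hs w (hneg s hs)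
    have h1 : u ((w : V) + a • e) = 1 :=
      SlabB_const (γ := fun s => u ((w : V) + s • e)) (hu.comp hγ.continuousOn hlay)
        (fun s hs => hu01 _ (hlay s hs)) ha hb hwZ.2
    have h2 := (hua _ (hlay a ha) (inner_hpr he w a)).1 h1
    rw [hpr_coe he] at h2
    have h3 := hR' _ h2
    have h4 := le_abs_self R'
    have h5 := abs_nonneg R
    linarith

private theorem SlabB_noI {h : V → ℝ} {e : V} (he : ‖e‖ = 1) (hm : Mo h e) {c t : ℝ}
    (hcap : ∀ x, Crit h e x → c < ⟪e, x⟫ → ⟪e, x⟫ < t → Idx h e x 0 ∨ Idx h e x 3) {k : ℕ}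
    (hk0 : k ≠ 0) (hk3 : k ≠ 3) : NoI h e k c t := by
  intro x hx h1 h2 hk
  rcases hcap x ((crit_iff he hm.reg x).2 (Or.inl hx)) h1 h2 with h3 | h3
  · exact hk0 (Cy.Idx.unique hk h3)
  · exact hk3 (Cy.Idx.unique hk h3)

private theorem SlabB_noI' {h : V → ℝ} {e : V} (he : ‖e‖ = 1) (hm : Mo h e) {c t : ℝ}
    (hcap : ∀ x, Crit h e x → c < ⟪e, x⟫ → ⟪e, x⟫ < t → Idx h e x 0 ∨ Idx h e x 3) {k : ℕ}
    (hk0 : k ≠ 0) (hk3 : k ≠ 3) : NoI h (-e) k (-t) (-c) := by
  intro x hx h1 h2 hk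
  rw [inner_neg_left] at h1 h2
  have hk' := idx_neg_dir.1 hk
  rcases hcap x ((crit_iff he hm.reg x).2 (Or.inr hx)) (by linarith) (by linarith) with h3 | h3
  · exact hk0 (Cy.Idx.unique hk' h3)
  · exact hk3 (Cy.Idx.unique hk' h3)

/-- Downwards from a slice: only caps between `c` and `t`, no component with the lifting property at
`c`. Then a compact clopen part `D` with the lifting property of the slice of the body at `t` has an
indicator function which extends by `0` at `c`. PROOF. `slab_extB_dn` extends the indicator of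
`D + t e` to `u` on `layS h e c t`. `Z = {u = 1}` is clopen in the layer. `LiftS Z`: a map on `Z` to
the circle is extended by `1`, it lifts on the top slice, `slab_inj_dn`. `LiftS (Z ∩ bottom)`: a map
extended by `1`, `slab_extS`, lifts on `Z`. By `lift_nobd` the bottom of `Z` has no zeros of `h`, so it
is empty or the whole hyperplane; the latter is impossible: over a point `w` of large norm the column
`(w, τ)`, `c ≤ τ ≤ t`, is in the body (no zeros of `h` there), `u` is constant on it, so `w ∈ D`. -/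
theorem slab_dn (hV : Module.finrank ℝ V = 4) {h : V → ℝ} {e : V} (he : ‖e‖ = 1) (hm : Mo h e)
    {c t : ℝ} (hct : c < t) (hc : ∀ x, Crit h e x → ⟪e, x⟫ ≠ c) (ht : ∀ x, Crit h e x → ⟪e, x⟫ ≠ t)
    (hcap : ∀ x, Crit h e x → c < ⟪e, x⟫ → ⟪e, x⟫ < t → Idx h e x 0 ∨ Idx h e x 3)
    (hn : NoS (slc h e c)) {D : Set (ℝ ∙ e)ᗮ} (hD : Clp D {w | slc h e t w ≤ 0})
    (hDc : IsCompact D) (hDl : LiftS D) :
    ∃ u : V → ℝ, ContinuousOn u (layS h e c t) ∧ (∀ x ∈ layS h e c t, u x = 0 ∨ u x = 1) ∧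
      (∀ x ∈ layS h e c t, ⟪e, x⟫ = t → (u x = 1 ↔ hpr e x ∈ D)) ∧
      ∀ x ∈ layS h e c t, ⟪e, x⟫ = c → u x = 0 :=
  SlabB_core hV he hm (a := t) (b := c) ⟨hct.le, le_rfl⟩ ⟨le_rfl, hct.le⟩ hc
    (slab_extB_dn he hm hct.le hc ht (SlabB_noI' he hm hcap (by decide) (by decide)))
    (slab_extS he hm hct.le hc ht (SlabB_noI he hm hcap (by decide) (by decide)))
    (fun _ hu hu1 hl => slab_inj_dn he hm hct.le hc ht
      (SlabB_noI' he hm hcap (by decide) (by decide)) hu hu1 hl) hn hD hDc hDl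

theorem slab_up (hV : Module.finrank ℝ V = 4) {h : V → ℝ} {e : V} (he : ‖e‖ = 1) (hm : Mo h e)
    {c t : ℝ} (hct : c < t) (hc : ∀ x, Crit h e x → ⟪e, x⟫ ≠ c) (ht : ∀ x, Crit h e x → ⟪e, x⟫ ≠ t)
    (hcap : ∀ x, Crit h e x → c < ⟪e, x⟫ → ⟪e, x⟫ < t → Idx h e x 0 ∨ Idx h e x 3)
    (hn : NoS (slc h e t)) {D : Set (ℝ ∙ e)ᗮ} (hD : Clp D {w | slc h e c w ≤ 0})
    (hDc : IsCompact D) (hDl : LiftS D) :
    ∃ u : V → ℝ, ContinuousOn u (layS h e c t) ∧ (∀ x ∈ layS h e c t, u x = 0 ∨ u x = 1) ∧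
      (∀ x ∈ layS h e c t, ⟪e, x⟫ = c → (u x = 1 ↔ hpr e x ∈ D)) ∧
      ∀ x ∈ layS h e c t, ⟪e, x⟫ = t → u x = 0 :=
  SlabB_core hV he hm (a := c) (b := t) ⟨le_rfl, hct.le⟩ ⟨hct.le, le_rfl⟩ ht
    (slab_extB he hm hct.le hc ht (SlabB_noI he hm hcap (by decide) (by decide)))
    (slab_extS_dn he hm hct.le hc ht (SlabB_noI' he hm hcap (by decide) (by decide)))
    (fun _ hu hu1 hl => slab_inj he hm hct.le hc ht
      (SlabB_noI he hm hcap (by decide) (by decide)) hu hu1 hl) hn hD hDc hDl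

end Pool.Schoen
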