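import Pool.Agent.H.MP_6c077c_gt.N3.Top
import Pool.Agent.H.MP_6c077c_gt.N2.Start

/-! Slices with spheres and tori, no sphere encloses a torus: the theorem for a direction. -/

set_option autoImplicit false

namespace Pool.Schoen

open Filter Set Metric
open scoped Topology RealInnerProductSpace ContDiff

/-- The first coordinate of the torus does not lift. -/
theorem torus_not_liftS {Y : Type*} [TopologicalSpace Y] {T : Set Y}
    (h : Nonempty (T ≃ₜ Circle × Circle)) : ¬ LiftS T := by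
  obtain ⟨Φ⟩ := h
  intro hl
  have h1 : LiftS (univ : Set (Circle × Circle)) :=
    LiftS.homeo (Φ.trans (Homeomorph.Set.univ _).symm) hl
  obtain ⟨v, hv, hvu⟩ := h1 (fun z => (z.1 : ℂ))
    (continuous_subtype_val.comp continuous_fst).continuousOn (fun z _ => Circle.norm_coe z.1)
  have hvc : Continuous v := continuousOn_univ.1 hv
  obtain ⟨g, hg⟩ : ∃ g : ℝ → ℝ, g = fun t => v (Circle.exp t, 1) - t := ⟨_, rfl⟩
  have hgc : Continuous g := by
    rw [hg]
    exact (hvc.comp (Circle.exp.continuous.prodMk continuous_const)).sub continuous_id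
  have hgi : ∀ t, ∃ n : ℤ, g t = n * (2 * Real.pi) := by
    intro t
    have h2 := hvu (Circle.exp t, 1) (mem_univ _)
    simp only [Circle.coe_exp] at h2
    obtain ⟨n, hn⟩ := Complex.exp_eq_exp_iff_exists_int.1 h2.symm
    refine ⟨n, ?_⟩
    rw [hg]
    have h3 : ((v (Circle.exp t, 1) : ℝ) : ℂ) * Complex.I =
        ((t + n * (2 * Real.pi) : ℝ) : ℂ) * Complex.I := by
      rw [hn]
      push_cast
      ring
    have h4 := mul_right_cancel₀ Complex.I_ne_zero h3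
    have h5 : v (Circle.exp t, 1) = t + n * (2 * Real.pi) := by exact_mod_cast h4
    show v (Circle.exp t, 1) - t = _
    rw [h5]
    ring
  have hpi := Real.pi_pos
  -- the intermediate value
  have h2 : g (2 * Real.pi) = g 0 - 2 * Real.pi := by
    rw [hg]
    simp only
    rw [Circle.exp_two_pi, Circle.exp_zero]
    ring
  have h3 : g 0 - Real.pi ∈ g '' Icc 0 (2 * Real.pi) := by
    refine intermediate_value_Icc' (by linarith) hgc.continuousOn ⟨?_, ?_⟩
    · rw [h2]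
      linarith
    · linarith
  obtain ⟨t, -, ht⟩ := h3
  obtain ⟨n, hn⟩ := hgi t
  obtain ⟨k, hk⟩ := hgi 0
  rw [ht, hk] at hn
  have h4 : ((2 * (k - n) : ℤ) : ℝ) = 1 := by
    push_cast
    have h5 : (k : ℝ) * (2 * Real.pi) - Real.pi - n * (2 * Real.pi) = 0 := by linarith
    have h6 : Real.pi * (2 * ((k : ℝ) - n) - 1) = 0 := by linarith
    rcases mul_eq_zero.1 h6 with h7 | h7
    · exact absurd h7 hpi.ne'
    · linarith
  have h5 : 2 * (k - n) = 1 := by exact_mod_cast h4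
  omega

theorem sphere_liftS {Y : Type*} [TopologicalSpace Y] {T : Set Y}
    (h : Nonempty (T ≃ₜ sphere (0 : EuclideanSpace ℝ (Fin 3)) 1)) : LiftS T := by
  obtain ⟨Φ⟩ := h
  have hd : Module.finrank ℝ (EuclideanSpace ℝ (Fin 3)) = 3 := by simp
  exact LiftS.homeo Φ.symm (liftS_sphere (by rw [hd]))

theorem torus_dep3 {Y : Type*} [TopologicalSpace Y] {T : Set Y}
    (h : Nonempty (T ≃ₜ Circle × Circle)) : Dep3 T := by
  obtain ⟨Φ⟩ := h
  exact dep3_circle.homeo ((Homeomorph.Set.univ _).trans Φ.symm)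

variable {V : Type*} [NormedAddCommGroup V] [InnerProductSpace ℝ V]

/-- Components of subsets of a hyperplane. -/
theorem comp_emb {e : V} (he : ‖e‖ = 1) {A : Set (ℝ ∙ e)ᗮ} {B : Set V} {c : ℝ}
    (hAB : ∀ w : (ℝ ∙ e)ᗮ, w ∈ A ↔ (w : V) + c • e ∈ B) (hB : ∀ y ∈ B, ⟪e, y⟫ = c)
    (w : (ℝ ∙ e)ᗮ) : connectedComponentIn B ((w : V) + c • e) =
      (fun w : (ℝ ∙ e)ᗮ => (w : V) + c • e) '' connectedComponentIn A w := by
  by_cases hw : w ∈ A
  · have hwB := (hAB w).1 hw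
    have hin : ∀ y ∈ B, ((hpr e y : (ℝ ∙ e)ᗮ) : V) + c • e = y := fun y hy => by
      rw [← hB y hy]
      exact hpr_add he y
    apply Subset.antisymm
    · intro y hy
      have hyB : y ∈ B := connectedComponentIn_subset _ _ hy
      refine ⟨hpr e y, ?_, hin y hyB⟩
      have h1 : IsPreconnected (hprL e '' connectedComponentIn B ((w : V) + c • e)) :=
        isPreconnected_connectedComponentIn.image _ (hprL e).continuous.continuousOn
      refine h1.subset_connectedComponentIn ⟨_, mem_connectedComponentIn hwB, ?_⟩ ?_ ⟨y, hy, rfl⟩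
      · exact hpr_coe he w c
      · rintro _ ⟨z, hz, rfl⟩
        have hzB : z ∈ B := connectedComponentIn_subset _ _ hz
        rw [hAB, hprL_apply, hin z hzB]
        exact hzB
    · have hcont : Continuous fun w : (ℝ ∙ e)ᗮ => (w : V) + c • e :=
        continuous_subtype_val.add continuous_const
      refine (isPreconnected_connectedComponentIn.image _
        hcont.continuousOn).subset_connectedComponentIn ⟨w, mem_connectedComponentIn hw, rfl⟩ ?_
      rintro _ ⟨z, hz, rfl⟩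
      exact (hAB z).1 (connectedComponentIn_subset _ _ hz)
  · rw [connectedComponentIn_eq_empty hw, connectedComponentIn_eq_empty
      (fun h => hw ((hAB w).2 h)), image_empty]

/-- The embedding of the hyperplane. -/
theorem emb_homeo {e : V} (he : ‖e‖ = 1) (c : ℝ) (A : Set (ℝ ∙ e)ᗮ) :
    Nonempty (A ≃ₜ ((fun w : (ℝ ∙ e)ᗮ => (w : V) + c • e) '' A)) := by
  have hcont : Continuous fun w : (ℝ ∙ e)ᗮ => (w : V) + c • e :=
    continuous_subtype_val.add continuous_const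
  refine ⟨⟨⟨fun w => ⟨(w : V) + c • e, w, w.2, rfl⟩, fun y => ⟨hpr e (y : V), ?_⟩, fun w => ?_,
    fun y => ?_⟩, ?_, ?_⟩⟩
  · obtain ⟨y, w, hw, rfl⟩ := y
    show hpr e ((w : V) + c • e) ∈ A
    rw [hpr_coe he]
    exact hw
  · ext
    show ((hpr e ((w : V) + c • e) : (ℝ ∙ e)ᗮ) : V) = _
    rw [hpr_coe he]
  · obtain ⟨y, w, hw, rfl⟩ := y
    ext
    show ((hpr e ((w : V) + c • e) : (ℝ ∙ e)ᗮ) : V) + c • e = (w : V) + c • e
    rw [hpr_coe he]
  · exact (hcont.comp continuous_subtype_val).subtype_mk _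
  · exact ((hprL e).continuous.comp continuous_subtype_val).subtype_mk _

/-- The component of the slice of the zero set which contains `x`. -/
def slcC (F : V → ℝ) (e x : V) : Set V := connectedComponentIn {y | F y = 0 ∧ ⟪e, y⟫ = ⟪e, x⟫} x

/-- `y` lies in a bounded component of the complement of `T` in the horizontal hyperplane of `y`. -/
def EncH (e : V) (T : Set V) (y : V) : Prop :=
  y ∉ T ∧ Bornology.IsBounded (connectedComponentIn ({z | ⟪e, z⟫ = ⟪e, y⟫} \ T) y)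

theorem slcC_eq {F : V → ℝ} {e : V} (he : ‖e‖ = 1) (c : ℝ) (w : (ℝ ∙ e)ᗮ) :
    slcC F e ((w : V) + c • e) =
      (fun w : (ℝ ∙ e)ᗮ => (w : V) + c • e) '' cE (slc F e c) w := by
  unfold slcC cE
  rw [inner_hpr he]
  refine comp_emb he (fun z => ?_) (fun y hy => hy.2) w
  constructor
  · intro h
    exact ⟨h, inner_hpr he z c⟩
  · intro h
    exact h.1

theorem encH_of {e : V} (he : ‖e‖ = 1) (c : ℝ) {T : Set (ℝ ∙ e)ᗮ} {z : (ℝ ∙ e)ᗮ}
    (h : EncE T z) : EncH e ((fun w : (ℝ ∙ e)ᗮ => (w : V) + c • e) '' T) ((z : V) + c • e) := by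
  obtain ⟨h1, h2⟩ := h
  have hinj : ∀ w w' : (ℝ ∙ e)ᗮ, (w : V) + c • e = (w' : V) + c • e → w = w' := fun w w' h =>
    Subtype.ext (add_right_cancel h)
  refine ⟨?_, ?_⟩
  · rintro ⟨w, hw, hwz⟩
    have := hinj w z hwz
    rw [this] at hw
    exact h1 hw
  · rw [inner_hpr he, comp_emb (A := Tᶜ) he (fun w => ?_) (fun y hy => hy.1) z]
    · obtain ⟨K, hK⟩ := h2.exists_norm_le
      refine (isBounded_iff_forall_norm_le.2 ⟨K + ‖c • e‖, ?_⟩)
      rintro _ ⟨w, hw, rfl⟩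
      refine (norm_add_le _ _).trans ?_
      have := hK w hw
      rw [Submodule.coe_norm] at this
      linarith
    · constructor
      · intro hw
        refine ⟨inner_hpr he w c, ?_⟩
        rintro ⟨w', hw', hww⟩
        have := hinj w' w hww
        rw [this] at hw'
        exact hw hw'
      · rintro ⟨-, hw⟩ hwT
        exact hw ⟨w, hwT, rfl⟩

variable [FiniteDimensional ℝ V]

/-- **The theorem for a direction.** -/
theorem n3_rd (hV : Module.finrank ℝ V = 4) {F : V → ℝ} (hF : ContDiff ℝ ∞ F)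
    (hb : Bornology.IsBounded {x | F x = 0}) (hreg : ∀ x, F x = 0 → gradient F x ≠ 0)
    (hMc : IsConnected {x | F x = 0}) (hMl : LiftS {x | F x = 0}) {e : V} (he : ‖e‖ = 1)
    (hnd : ∀ x, Crit F e x → ∃ k, Idx F e x k)
    (hh : ∀ x y, Crit F e x → Crit F e y → ⟪e, x⟫ = ⟪e, y⟫ → x = y)
    (hs : ∀ c, (∀ y, Crit F e y → ⟪e, y⟫ ≠ c) → SlE (slc F e c)) : Rd F := by
  have hcr : ∀ x, Crit F e x ↔ Inward F e x ∨ Inward F (-e) x := crit_iff he hreg
  have hne : ‖-e‖ = 1 := by rwa [norm_neg]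
  have hf1 : {x | Inward F e x}.Finite :=
    inward_finite hF hb hreg he fun x hx => hnd x ((hcr x).2 (Or.inl hx))
  have hf2 : {x | Inward F (-e) x}.Finite :=
    inward_finite hF hb hreg hne fun x hx => by
      obtain ⟨k, hk⟩ := hnd x ((hcr x).2 (Or.inr hx))
      exact ⟨k, idx_neg_dir.2 hk⟩
  have hfin : {x | Crit F e x}.Finite := (hf1.union hf2).subset fun x hx => (hcr x).1 hx
  obtain ⟨H, hH⟩ : ∃ H, H = (fun x : V => ⟪e, x⟫) '' {x | Crit F e x} := ⟨_, rfl⟩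
  have hHf : H.Finite := by
    rw [hH]
    exact hfin.image _
  obtain ⟨L₀, hL₀, hLn₀, hLg⟩ := exists_gaps hHf
  obtain ⟨lo, hlo⟩ : ∃ lo : ℝ, ∀ t ∈ H, lo < t := by
    obtain ⟨a, ha⟩ := hHf.bddBelow
    exact ⟨a - 1, fun t ht => by linarith [ha ht]⟩
  obtain ⟨hi, hhi⟩ : ∃ hi : ℝ, ∀ t ∈ H, t < hi := by
    obtain ⟨a, ha⟩ := hHf.bddAbove
    exact ⟨a + 1, fun t ht => by linarith [ha ht]⟩
  obtain ⟨L, hLd⟩ : ∃ L : Set ℝ, L = insert lo (insert hi L₀) := ⟨_, rfl⟩
  have hL : L.Finite := by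
    rw [hLd]
    exact (hL₀.insert _).insert _
  have hLn : ∀ c ∈ L, c ∉ H := by
    intro c hc hcH
    rw [hLd] at hc
    rcases hc with rfl | rfl | hc
    · exact lt_irrefl _ (hlo _ hcH)
    · exact lt_irrefl _ (hhi _ hcH)
    · exact hLn₀ c hc hcH
  have hmem : ∀ x, Crit F e x → ⟪e, x⟫ ∈ H := fun x hx => by
    rw [hH]
    exact ⟨x, hx, rfl⟩
  have hcL : ∀ x, Crit F e x → ⟪e, x⟫ ∉ L := fun x hx h1 => hLn _ h1 (hmem x hx)
  obtain ⟨hc1, hc2⟩ := sides_conn hF.continuous hMc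
  obtain ⟨S, hS⟩ := mark_exists he hF hb hL (by
    intro x hx hxc l hl
    exact hcL x (crit_of_vert hx hl) hxc)
  have hsep : ∀ p q, Sad F e p → Sad F e q → (∀ c ∈ L, (⟪e, p⟫ < c ↔ ⟪e, q⟫ < c)) → p = q := by
    intro p q hp hq hpq
    by_contra hne
    have h1 : ⟪e, p⟫ ≠ ⟪e, q⟫ := fun h => hne (hh p q hp.1 hq.1 h)
    rcases lt_or_gt_of_ne h1 with h2 | h2
    · obtain ⟨c, hc, h3, h4⟩ := hLg _ (hmem p hp.1) _ (hmem q hq.1) h2
      have h5 := (hpq c (by rw [hLd]; exact mem_insert_of_mem _ (mem_insert_of_mem _ hc))).1 h3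
      linarith
    · obtain ⟨c, hc, h3, h4⟩ := hLg _ (hmem q hq.1) _ (hmem p hp.1) h2
      have h5 := (hpq c (by rw [hLd]; exact mem_insert_of_mem _ (mem_insert_of_mem _ hc))).2 h3
      linarith
  refine kn_rd hV _ _ e L S F he hL rfl rfl ⟨⟨hF, hb, hreg, hnd⟩, hcL, hc1, hc2, hMl, hsep,
    fun p q hp hq h => hh q p hq hp.1 h, fun p hp => ⟨⟨lo, ?_, hlo _ (hmem p hp.1)⟩, hi, ?_,
      hhi _ (hmem p hp.1)⟩, fun c hc => hs c fun y hy h => hcL y hy (by rw [h]; exact hc),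
    fun p hp => ?_, hS⟩
  · rw [hLd]
    exact mem_insert _ _
  · rw [hLd]
    exact mem_insert_of_mem _ (mem_insert _ _)
  · have h1 : IsClosed (H \ {⟪e, p⟫}) := (hHf.subset sdiff_subset).isClosed
    have h2 : ∀ᶠ t in 𝓝 ⟪e, p⟫, t ∉ H \ {⟪e, p⟫} :=
      h1.isOpen_compl.mem_nhds fun h => h.2 rfl
    filter_upwards [h2.filter_mono nhdsWithin_le_nhds, self_mem_nhdsWithin] with t ht ht'
    refine hs t fun y hy h => ht ⟨?_, ht'⟩
    rw [← h]
    exact hmem y hy

/-- **Slices with spheres and tori, no sphere encloses a torus.** -/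
theorem n3_carries (hV : Module.finrank ℝ V = 4) (F : V → ℝ) (hF : ContDiff ℝ ∞ F)
    (hb : Bornology.IsBounded {x | F x ≤ 0}) (hreg : ∀ x, F x = 0 → gradient F x ≠ 0)
    (hMc : IsConnected {x | F x = 0}) (hMl : LiftS {x | F x = 0}) (e : V) (he : ‖e‖ = 1)
    (hnd : ∀ x, F x = 0 → (∃ l : ℝ, gradient F x = l • e) → ∀ u : V, ⟪e, u⟫ = 0 →
      (∀ v : V, ⟪e, v⟫ = 0 → fderiv ℝ (fderiv ℝ F) x u v = 0) → u = 0)
    (hh : ∀ x y, F x = 0 → (∃ l : ℝ, gradient F x = l • e) → F y = 0 →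
      (∃ l : ℝ, gradient F y = l • e) → x ≠ y → ⟪e, x⟫ ≠ ⟪e, y⟫)
    (hs : ∀ (x : V) (T : Set V), F x = 0 →
      (∀ y, F y = 0 → (∃ l : ℝ, gradient F y = l • e) → ⟪e, y⟫ ≠ ⟪e, x⟫) →
      T = connectedComponentIn {y | F y = 0 ∧ ⟪e, y⟫ = ⟪e, x⟫} x →
      Nonempty (T ≃ₜ sphere (0 : EuclideanSpace ℝ (Fin 3)) 1) ∨ Nonempty (T ≃ₜ Circle × Circle))
    (hn : ∀ (x z : V) (T U : Set V), F x = 0 → F z = 0 →
      (∀ y, F y = 0 → (∃ l : ℝ, gradient F y = l • e) → ⟪e, y⟫ ≠ ⟪e, x⟫) → ⟪e, z⟫ = ⟪e, x⟫ →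
      T = connectedComponentIn {y | F y = 0 ∧ ⟪e, y⟫ = ⟪e, x⟫} x →
      U = connectedComponentIn {y | F y = 0 ∧ ⟪e, y⟫ = ⟪e, z⟫} z →
      Nonempty (T ≃ₜ sphere (0 : EuclideanSpace ℝ (Fin 3)) 1) → z ∉ T →
      Bornology.IsBounded (connectedComponentIn ({y | ⟪e, y⟫ = ⟪e, z⟫} \ T) z) →
      ¬ Nonempty (U ≃ₜ Circle × Circle)) :
    ∃ φ ψ : V → V, ContDiff ℝ ∞ φ ∧ ContDiff ℝ ∞ ψ ∧ (∀ x, ψ (φ x) = x) ∧ (∀ x, φ (ψ x) = x) ∧
      (∃ R : ℝ, ∀ x, R ≤ ‖x‖ → φ x = x) ∧ φ '' {x | F x = 0} = Metric.sphere (0 : V) 1 := by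
  have : Nontrivial V := Module.nontrivial_of_finrank_pos (R := ℝ) (by omega)
  have hb0 : Bornology.IsBounded {x | F x = 0} := hb.subset fun x hx => le_of_eq hx
  refine carries_of_isBall F hF (Rd.isBall ?_ hb)
  refine n3_rd hV hF hb0 hreg hMc hMl he (fun x hx => ?_) (fun x y hx hy hxy => ?_) fun c hc => ?_
  · exact crit_nd_idx (n := 3) hV hF hreg he hx (hnd x hx.1 (hx.vert he))
  · by_contra hne
    exact hh x y hx.1 (hx.vert he) hy.1 (hy.vert he) hne hxy
  · have hc' : ∀ y, F y = 0 → (∃ l : ℝ, gradient F y = l • e) → ⟪e, y⟫ ≠ c :=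
      fun y hy ⟨l, hl⟩ => hc y (crit_of_vert hy hl)
    -- the components
    have key : ∀ w, slc F e c w = 0 →
        Nonempty (cE (slc F e c) w ≃ₜ sphere (0 : EuclideanSpace ℝ (Fin 3)) 1) ∨
          Nonempty (cE (slc F e c) w ≃ₜ Circle × Circle) := by
      intro w hw
      have hw' : F ((w : V) + c • e) = 0 := hw
      obtain ⟨Φ⟩ := emb_homeo he c (cE (slc F e c) w)
      rcases hs ((w : V) + c • e) _ hw' (by rw [inner_hpr he]; exact hc')
        (slcC_eq he c w).symm with h1 | h1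
      · obtain ⟨h1⟩ := h1
        exact Or.inl ⟨Φ.trans h1⟩
      · obtain ⟨h1⟩ := h1
        exact Or.inr ⟨Φ.trans h1⟩
    intro w hw
    refine ⟨?_, fun hl z hz hE => ?_⟩
    · rcases key w hw with h1 | h1
      · exact Or.inl (sphere_liftS h1)
      · exact Or.inr (torus_dep3 h1)
    · rcases key z hz with h1 | h1
      · exact sphere_liftS h1
      · exfalso
        have hw1 : Nonempty (cE (slc F e c) w ≃ₜ sphere (0 : EuclideanSpace ℝ (Fin 3)) 1) := by
          rcases key w hw with h2 | h2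
          · exact h2
          · exact absurd hl (torus_not_liftS h2)
        have hw' : F ((w : V) + c • e) = 0 := hw
        have hz' : F ((z : V) + c • e) = 0 := hz
        obtain ⟨Φ⟩ := emb_homeo he c (cE (slc F e c) w)
        obtain ⟨Ψ⟩ := emb_homeo he c (cE (slc F e c) z)
        obtain ⟨h2, h3⟩ := encH_of he c hE
        obtain ⟨h4⟩ := hw1
        obtain ⟨h5⟩ := h1
        exact hn ((w : V) + c • e) ((z : V) + c • e) _ _ hw' hz' (by rw [inner_hpr he]; exact hc')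
          (by rw [inner_hpr he, inner_hpr he]) (slcC_eq he c w).symm (slcC_eq he c z).symm
          ⟨Φ.symm.trans h4⟩ h2 h3 ⟨Ψ.symm.trans h5⟩

end Pool.Schoen
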