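import Pool.Agent.H.MP_6c077c_gt.N3.TubA
import Pool.Agent.H.MP_6c077c_gt.Ca.VnB
import Pool.Agent.H.MP_6c077c_gt.Ca.Mdl
import Pool.Agent.H.MP_6c077c_gt.Ca.VnT

/-! Existence of the vertical normal form. -/

set_option autoImplicit false

namespace Pool.Schoen

open Filter Set
open scoped Topology RealInnerProductSpace ContDiff

variable {V : Type*} [NormedAddCommGroup V] [InnerProductSpace ℝ V] [FiniteDimensional ℝ V]

/-- The slice at the height of the saddle is `ρ² - a²` in the closed ball too. -/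
private theorem VNex_closed {E : Type*} [NormedAddCommGroup E] [InnerProductSpace ℝ E] {P Q : E → ℝ}
    (hP : Continuous P) (hQ : Continuous Q) (h : ∀ w, ‖w‖ < 10 → P w = Q w) (w : E)
    (hw : ‖w‖ ≤ 10) : P w = Q w := by
  have h1 : IsClosed {w | P w = Q w} := isClosed_eq hP hQ
  have h2 : Metric.ball (0 : E) 10 ⊆ {w | P w = Q w} := fun z hz => h z (by
    rw [← dist_zero_right]
    exact hz)
  have h3 := closure_minimal h2 h1
  rw [closure_ball (0 : E) (by norm_num)] at h3
  exact h3 (by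
    rw [Metric.mem_closedBall, dist_zero_right]
    exact hw)

/-- The derivative of the radial cut-off is bounded. -/
private theorem VNex_th1 : ∃ M : ℝ, 0 < M ∧ ∀ z, |deriv th1 z| ≤ M := by
  have hc : Continuous (deriv th1) := th1_smooth.continuous_deriv (by simp)
  obtain ⟨M, hM⟩ := (isCompact_Icc (a := (0 : ℝ)) (b := 2)).exists_bound_of_continuousOn
    hc.continuousOn
  refine ⟨max M 1, lt_max_of_lt_right one_pos, fun z => ?_⟩
  by_cases hz : z ∈ Icc (0 : ℝ) 2
  · exact (hM z hz).trans (le_max_left _ _)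
  · have h1 : deriv th1 z = 0 := by
      rw [mem_Icc, not_and_or, not_le, not_le] at hz
      rcases hz with hz | hz
      · have h2 : th1 =ᶠ[𝓝 z] fun _ => 1 := by
          filter_upwards [Iio_mem_nhds hz] with y hy
          have hy' : y < 0 := hy
          exact th1_one (by linarith)
        rw [h2.deriv_eq, deriv_const]
      · have h2 : th1 =ᶠ[𝓝 z] fun _ => 0 := by
          filter_upwards [Ioi_mem_nhds hz] with y hy
          have hy' : 2 < y := hy
          exact th1_zero (by linarith)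
        rw [h2.deriv_eq, deriv_const]
    rw [h1, abs_zero]
    exact le_max_of_le_right zero_le_one

private theorem VNex_vcut {e : V} (he : ‖e‖ = 1) {u : (ℝ ∙ e)ᗮ} (hu : ‖u‖ = 1) :
    VCut (fun x => tubC u (hpr e x)) e := by
  have ho : ∀ x : V, ‖orth e x‖ = ‖hpr e x‖ := by
    intro x
    have h1 := hpr_add he x
    have h2 : orth e x = ((hpr e x : (ℝ ∙ e)ᗮ) : V) := by
      unfold orth
      exact (eq_sub_of_add_eq h1).symm
    rw [h2, Submodule.coe_norm]
  refine ⟨(tubC_smooth u).comp (hprL e).contDiff, fun x s => ?_, fun x => tubC_mem u _,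
    fun x hx => ?_, fun x hx => ?_⟩
  · have h1 : hpr e (x + s • e) = hpr e x := by
      have h2 := hpr_add he x
      rw [← h2, add_assoc, ← add_smul, hpr_coe he, hpr_coe he]
    rw [h1]
  · rw [ho] at hx
    exact tubC_one hu hx.le
  · rw [ho] at hx
    exact tubC_zero hu (by linarith)

/-- Composition with a diffeomorphism preserving the height, and a positive factor. -/
private theorem VNex_scale {f : V → ℝ} (hf : ContDiff ℝ ∞ f)
    (hb : Bornology.IsBounded {x | f x = 0}) (hr : ∀ x, f x = 0 → gradient f x ≠ 0) {l : ℝ}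
    (hl : 0 < l) : Hom f (fun x => l * f x) := by
  have hg : Good f := by
    refine good_of_regular hf hb fun x hx h1 => hr x hx ?_
    rw [gradient, h1, map_zero]
  refine Hom.of_sign hg (continuous_const.mul hf.continuous) (fun x => ?_) (fun x => ?_)
    fun x hx => ?_
  · rw [mul_neg_iff]
    constructor
    · intro h
      exact Or.inl ⟨hl, h⟩
    · rintro (h | h)
      · exact h.2
      · linarith [h.1]
  · constructor
    · intro h
      exact mul_nonpos_of_nonneg_of_nonpos hl.le h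
    · intro h
      by_contra h0
      have := mul_pos hl (not_le.1 h0)
      linarith
  · have h1 : fderiv ℝ f x (-gradient f x) < 0 := by
      rw [fderiv_eq_inner_gradient, inner_neg_right, real_inner_self_eq_norm_sq]
      have := norm_pos_iff.2 (hr x hx)
      have : 0 < ‖gradient f x‖ ^ 2 := by positivity
      linarith
    have hf1 : ContDiffAt ℝ 1 f x := (hf.of_le (by exact_mod_cast le_top)).contDiffAt
    refine ⟨-gradient f x, desc1_smooth hf1 h1, desc1_smooth (contDiffAt_const.mul hf1) ?_⟩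
    have h2 : HasFDerivAt (fun x => l * f x) (l • fderiv ℝ f x) x :=
      ((hf.differentiable (by simp) x).hasFDerivAt).const_mul l
    rw [h2.fderiv, _root_.smul_apply, smul_eq_mul]
    exact mul_neg_of_pos_of_neg hl h1

private theorem VNex_grad {f : V → ℝ} (hf : ContDiff ℝ ∞ f) (l : ℝ) (x : V) :
    gradient (fun x => l * f x) x = l • gradient f x := by
  have h2 : HasFDerivAt (fun x => l * f x) (l • fderiv ℝ f x) x :=
    ((hf.differentiable (by simp) x).hasFDerivAt).const_mul l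
  unfold gradient
  rw [h2.fderiv, map_smul]

omit [FiniteDimensional ℝ V] in
private theorem VNex_norm {e : V} (he : ‖e‖ = 1) (w : (ℝ ∙ e)ᗮ) (c : ℝ) :
    ‖w‖ ≤ ‖(w : V) + c • e‖ := by
  have h1 := norm_hpr_le e ((w : V) + c • e)
  rwa [hpr_coe he] at h1

/-- **Vertical normal form at one tube.** -/
theorem vn_one (hV : Module.finrank ℝ V = 4) {h : V → ℝ} {e : V} (he : ‖e‖ = 1) (hm : Mo h e) {p : V}
    (hp : Inward h e p) (hi : Idx h e p 1) (hiso : ∀ q, Crit h e q → ⟪e, q⟫ = ⟪e, p⟫ → q = p) {δ : ℝ}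
    (hδ : 0 < δ) :
    ∃ g : V → ℝ, ContDiff ℝ ∞ g ∧ Hom h g ∧ (∀ x, δ ≤ |⟪e, x⟫ - ⟪e, p⟫| → g x = h x) ∧
      (∀ x, Crit g e x → Crit h e x ∧ ∀ k, Idx h e x k → Idx g e x k) ∧ VNx g e p := by
  obtain ⟨g, u, B, μ, a, R, r, hR, hRδ, hrR, hgm, hHom, hgp, hgi, hout, hin, hM⟩ :=
    model_mo he hm hp hi hδ
  obtain ⟨φ, ψ, l, m, r', hφ, hl, hφp, hch⟩ := vchart_of_mod1 hM
  obtain ⟨c, hc⟩ : ∃ c, c = ⟪e, p⟫ := ⟨_, rfl⟩
  obtain ⟨Φ, hΦd⟩ : ∃ Φ, Φ = extH e φ := ⟨_, rfl⟩
  obtain ⟨Ψ, hΨd⟩ : ∃ Ψ, Ψ = extH e ψ := ⟨_, rfl⟩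
  have hΦ : Dif Φ Ψ := by
    rw [hΦd, hΨd]
    exact hφ.extH he
  have hΦh : ∀ x, ⟪e, Φ x⟫ = ⟪e, x⟫ := fun x => by rw [hΦd]; exact extH_height he φ x
  have hΨh : ∀ x, ⟪e, Ψ x⟫ = ⟪e, x⟫ := fun x => by rw [hΨd]; exact extH_height he ψ x
  rw [← hΦd, ← hc] at hch hφp
  rw [← hc] at hiso
  have hΨp : Ψ p = c • e := by rw [← hφp, hΦ.left]
  obtain ⟨u', hu'⟩ : ∃ u' : (ℝ ∙ e)ᗮ, (u' : V) = u :=
    ⟨⟨u, Submodule.mem_orthogonal_singleton_iff_inner_right.2 hM.heu⟩, rfl⟩
  have hun : ‖u'‖ = 1 := by rw [Submodule.coe_norm, hu', hM.hu]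
  obtain ⟨F, hF⟩ : ∃ F : V → ℝ, F = fun x => l * g (Φ x) := ⟨_, rfl⟩
  have hFx : ∀ x, F x = l * g (Φ x) := fun x => by rw [hF]
  rw [← hF] at hch
  have hgΦ : ContDiff ℝ ∞ fun x => g (Φ x) := hgm.smooth.comp hΦ.smooth
  have hFs : ContDiff ℝ ∞ F := by
    rw [hF]
    exact contDiff_const.mul hgΦ
  have hF0 : ∀ x, F x = 0 ↔ g (Φ x) = 0 := fun x => by
    rw [hFx, mul_eq_zero, or_iff_right hl.ne']
  have hFb : Bornology.IsBounded {x | F x = 0} := by
    refine (hΦ.bounded hgm.bdd).subset fun x hx => ?_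
    exact (hF0 x).1 hx
  have hFg : ∀ x, gradient F x = l • gradient (fun x => g (Φ x)) x := fun x => by
    rw [hF]
    exact VNex_grad hgΦ l x
  have hFr : ∀ x, F x = 0 → gradient F x ≠ 0 := by
    intro x hx h0
    rw [hFg, smul_eq_zero, or_iff_right hl.ne'] at h0
    exact hΦ.reg hgm.smooth (hgm.reg _ ((hF0 x).1 hx)) h0
  -- germs of `g` and `h`
  have hgh : ∀ x, Crit g e x → Crit h e x ∧ ∀ k, Idx h e x k → Idx g e x k := by
    intro x hx
    by_cases hxR : ‖x - p‖ < R
    · rw [hin x hx hxR]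
      obtain ⟨h0, l', _, hl'⟩ := hp
      exact ⟨crit_of_vert (l := -l') h0 (by rw [hl', neg_smul]), hgi⟩
    · have h1 := hout x (not_lt.1 hxR)
      exact ⟨hx.congr h1.symm, fun k hk => Idx.congr' h1 hk⟩
  have hFc : ∀ x, F x = 0 → ⟪e, x⟫ = c → ∀ l' : ℝ, gradient F x = l' • e → x = c • e := by
    intro x hx hxc l' hl'
    have h1 : gradient (fun x => g (Φ x)) x = (l⁻¹ * l') • e := by
      rw [hFg] at hl'
      rw [mul_smul, ← hl', smul_smul, inv_mul_cancel₀ hl.ne', one_smul]
    have h2 := (gradient_comp_height hgm.smooth hΦ hΦh x _).1 h1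
    have h3 := crit_of_vert ((hF0 x).1 hx) h2
    have h4 := hiso _ (hgh _ h3).1 (by rw [hΦh, hxc])
    rw [← hΦ.left x, h4, hΨp]
  obtain ⟨F', b, hb0, hbδ, hbr, hFs', hFH, hFb', hFr', hFo, hFe, hFv, -, -, hFx', -⟩ :=
    vn hFs hFb hFr hch hδ hFc (VNex_vcut he hun)
  obtain ⟨G, hG⟩ : ∃ G : V → ℝ, G = fun x => F' (Ψ x) := ⟨_, rfl⟩
  have hGs : ContDiff ℝ ∞ G := by
    rw [hG]
    exact hFs'.comp hΦ.smooth'
  have hGb : Bornology.IsBounded {x | G x = 0} := by
    rw [hG]
    exact hΦ.symm.bounded hFb'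
  have hGr : ∀ x, G x = 0 → gradient G x ≠ 0 := by
    intro x hx
    rw [hG] at hx ⊢
    exact hΦ.symm.reg hFs' (hFr' _ hx)
  refine ⟨fun x => l⁻¹ * G x, contDiff_const.mul hGs, ?_, fun x hx => ?_, fun x hx => ?_, ?_⟩
  · -- homotopy
    have h1 : Hom g (fun x => l * g x) := VNex_scale hgm.smooth hgm.bdd hgm.reg hl
    have h2 := Hom.comp_dif hΦ.symm hFH
    have h3 : (fun x => F (Ψ x)) = fun x => l * g x := by
      funext x
      rw [hFx, hΦ.right]
    rw [h3, ← hG] at h2
    exact ((hHom.trans h1).trans h2).trans (VNex_scale hGs hGb hGr (inv_pos.2 hl))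
  · rw [← hc] at hx
    have h1 := (hFo (Ψ x) (by rw [hΨh]; exact hx)).self_of_nhds
    have h2 : G x = F (Ψ x) := by
      rw [hG]
      exact h1
    have h3 : R ≤ ‖x - p‖ := by
      refine hRδ.trans (hx.trans ?_)
      rw [hc, ← inner_sub_right]
      have := abs_real_inner_le_norm e (x - p)
      rwa [he, one_mul] at this
    show l⁻¹ * G x = h x
    rw [h2, hFx, hΦ.right, ← mul_assoc, inv_mul_cancel₀ hl.ne', one_mul]
    exact (hout x h3).self_of_nhds.symm
  · obtain ⟨l', hl'⟩ := hx.vert he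
    have hG0 : G x = 0 := by
      have h1 : l⁻¹ * G x = 0 := hx.1
      exact (mul_eq_zero.1 h1).resolve_left (inv_ne_zero hl.ne')
    rw [VNex_grad hGs] at hl'
    have h1 : gradient (fun x => F' (Ψ x)) x = (l * l') • e := by
      rw [← hG, mul_smul, ← hl', smul_smul, mul_inv_cancel₀ hl.ne', one_smul]
    have h2 := (gradient_comp_height hFs' hΦ.symm hΨh x _).1 h1
    have h3 : F' (Ψ x) = 0 := by
      rw [hG] at hG0
      exact hG0
    have h4 := hFx' (Ψ x) _ h3 h2
    have h5 : (fun x => l⁻¹ * G x) =ᶠ[𝓝 x] g := by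
      have h6 := h4.comp_tendsto (hΦ.symm.continuous.tendsto x)
      filter_upwards [h6] with y hy
      have hy' : F' (Ψ y) = F (Ψ y) := hy
      rw [hG]
      show l⁻¹ * F' (Ψ y) = g y
      rw [hy', hFx, hΦ.right, ← mul_assoc, inv_mul_cancel₀ hl.ne', one_mul]
    obtain ⟨h6, h7⟩ := hgh x (hx.congr h5)
    exact ⟨h6, fun k hk => Idx.congr' h5.symm (h7 k hk)⟩
  · obtain ⟨M, hM0, hMb⟩ := VNex_th1
    have hm0 := hch.hm
    obtain ⟨P, hP⟩ : ∃ P : (ℝ ∙ e)ᗮ → ℝ, P = fun w : (ℝ ∙ e)ᗮ => F ((w : V) + c • e) :=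
      ⟨_, rfl⟩
    have hPs : ContDiff ℝ ∞ P := by
      rw [hP]
      exact hFs.comp (((ℝ ∙ e)ᗮ.subtypeL.contDiff (n := ∞)).add contDiff_const)
    refine ⟨φ, ψ, l, m, min (m * b) (min (1 / 100) (1 / (4 * M))), u', P, hφ, hl, ?_, ?_⟩
    · rw [← hc, ← hΦd]
      exact hφp
    · have hlG : (fun x => l * (l⁻¹ * G (extH e φ x))) = F' := by
        funext x
        rw [← hΦd, ← mul_assoc, mul_inv_cancel₀ hl.ne', one_mul, hG]
        show F' (Ψ (Φ x)) = F' x
        rw [hΦ.left]
      rw [hlG, ← hc]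
      refine ⟨he, hm0, ⟨hun, by positivity, (min_le_right _ _).trans (min_le_left _ _), fun z => ?_,
        hPs, ?_, fun w hw hw0 h0 => ?_, ?_⟩, fun x hx => ?_⟩
      · have h1 : min (m * b) (min (1 / 100) (1 / (4 * M))) ≤ 1 / (4 * M) :=
          (min_le_right _ _).trans (min_le_right _ _)
        have h2 : min (m * b) (min (1 / 100) (1 / (4 * M))) * |deriv th1 z| ≤ 1 / (4 * M) * M :=
          mul_le_mul h1 (hMb z) (abs_nonneg _) (by positivity)
        refine h2.trans (le_of_eq ?_)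
        field_simp
      · obtain ⟨K, hK⟩ := hFb.exists_norm_le
        refine (Metric.isBounded_closedBall (x := (0 : (ℝ ∙ e)ᗮ)) (r := K)).subset fun w hw => ?_
        rw [Metric.mem_closedBall, dist_zero_right]
        refine (VNex_norm he w c).trans (hK _ ?_)
        rw [hP] at hw
        exact hw
      · have hw' : F ((w : V) + c • e) = 0 := by
          rw [hP] at hw
          exact hw
        have h1 : ∀ v : (ℝ ∙ e)ᗮ, fderiv ℝ F ((w : V) + c • e) (v : V) = 0 := by
          intro v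
          have h2 : HasFDerivAt (fun w : (ℝ ∙ e)ᗮ => (w : V) + c • e) (ℝ ∙ e)ᗮ.subtypeL w :=
            ((ℝ ∙ e)ᗮ.subtypeL.hasFDerivAt).add_const _
          have h3 : HasFDerivAt P
              ((fderiv ℝ F ((w : V) + c • e)).comp (ℝ ∙ e)ᗮ.subtypeL) w := by
            rw [hP]
            exact HasFDerivAt.comp (g := F) w
              ((hFs.differentiable (by simp) _).hasFDerivAt) h2
          have h4 : fderiv ℝ P w v = 0 := by
            rw [fderiv_eq_inner_gradient, h0, inner_zero_left]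
          rw [h3.fderiv] at h4
          exact h4
        have h2 : Crit F e ((w : V) + c • e) := by
          refine ⟨hw', fun v hv => ?_⟩
          exact h1 ⟨v, Submodule.mem_orthogonal_singleton_iff_inner_left.2 hv⟩
        obtain ⟨l', hl'⟩ := h2.vert he
        have h3 := hFc _ hw' (inner_hpr he w c) l' hl'
        apply hw0
        have h4 : (w : V) = 0 := by
          have := h3
          rwa [add_eq_right] at this
        exact Submodule.coe_eq_zero.1 h4
      · refine VNex_closed hPs.continuous ?_ ?_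
        · unfold orth
          fun_prop
        · intro w hw
          have ho : orth e ((w : V) + c • e) = (w : V) := by
            have h1 := inner_hpr he w c
            unfold orth
            rw [h1]
            abel
          rw [hP]
          show F ((w : V) + c • e) = _
          rw [hch.loc _ (by rw [ho, ← Submodule.coe_norm]; exact hw)
            (by rw [inner_hpr he, sub_self, abs_zero]; exact hch.hr), ho, inner_hpr he]
          have h1 : ⟪u, (w : V) + c • e⟫ = ⟪u', w⟫ := by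
            have hue : ⟪u, e⟫ = 0 := by rw [real_inner_comm]; exact hM.heu
            rw [inner_add_right, real_inner_smul_right, hue, mul_zero, add_zero,
              Submodule.coe_inner, hu']
          have h2 : ‖orth u' w‖ ^ 2 = ‖w‖ ^ 2 - ⟪u', w⟫ ^ 2 := norm_orth_sq hun w
          rw [h1, ← Submodule.coe_norm, h2]
          ring
      · have h1 : |⟪e, x⟫ - c| ≤ b := by
          have h2 := hx.trans (min_le_left _ _)
          rw [abs_mul, abs_of_pos hm0] at h2
          exact le_of_mul_le_mul_left h2 hm0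
        rw [hFv x h1, tubK, hP]
        have h2 : orth e x = ((hpr e x : (ℝ ∙ e)ᗮ) : V) := by
          have h3 := hpr_add he x
          unfold orth
          exact (eq_sub_of_add_eq h3).symm
        rw [h2]
        ring

end Pool.Schoen
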