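import Pool.Agent.H.MP_6c077c_gt.N3.ClassA
import Pool.Agent.H.MP_6c077c_gt.N3.VNex

/-! Slices with spheres and tori, no sphere encloses a torus: vertical normal forms at all tubes. -/

set_option autoImplicit false

namespace Pool.Schoen

open Filter Set
open scoped Topology RealInnerProductSpace ContDiff

variable {V : Type*} [NormedAddCommGroup V] [InnerProductSpace ℝ V] [FiniteDimensional ℝ V]

theorem VNx.congr {g h : V → ℝ} {e p : V} (hv : VNx h e p) {δ : ℝ} (hδ : 0 < δ)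
    (hg : ∀ x, |⟪e, x⟫ - ⟪e, p⟫| < δ → g x = h x) : VNx g e p := by
  obtain ⟨φ, ψ, l, m, β, u, P, hD, hl, hp, hV⟩ := hv
  have he := hV.he
  have hm := hV.hm
  have hβ := hV.tub.hβ
  have hb : 0 < min β (m * δ / 2) := lt_min hβ (by positivity)
  refine ⟨φ, ψ, l, m, min β (m * δ / 2), u, P, hD, hl, hp, he, hm, ?_, ?_⟩
  · refine ⟨hV.tub.hu, hb, (min_le_left _ _).trans hV.tub.hβ1, fun z => ?_, hV.tub.sm,
      hV.tub.bdd, hV.tub.reg, hV.tub.mod⟩
    exact (mul_le_mul_of_nonneg_right (min_le_left _ _) (abs_nonneg _)).trans (hV.tub.hθ z)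
  · intro x hx
    have h1 := hV.hh x (hx.trans (min_le_left _ _))
    have h2 : g (extH e φ x) = h (extH e φ x) := by
      apply hg
      rw [extH_height he]
      have h3 : |m * (⟪e, x⟫ - ⟪e, p⟫)| ≤ m * δ / 2 := hx.trans (min_le_right _ _)
      rw [abs_mul, abs_of_pos hm] at h3
      have h4 : |⟪e, x⟫ - ⟪e, p⟫| ≤ δ / 2 := by
        have : m * |⟪e, x⟫ - ⟪e, p⟫| ≤ m * (δ / 2) := by linarith
        exact le_of_mul_le_mul_left this hm
      linarith
    rw [h2]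
    exact h1

private theorem VNall_grad {F : V → ℝ} {x g : V} (h : ∀ v, fderiv ℝ F x v = ⟪g, v⟫) :
    gradient F x = g := by
  refine ext_inner_right ℝ fun v => ?_
  rw [gradient, InnerProductSpace.toDual_symm_apply, h]

/-- The point of the normal form has normal `-e`. -/
theorem VNall_model {h : V → ℝ} {e : V} {c m β : ℝ} {u : (ℝ ∙ e)ᗮ} {P : (ℝ ∙ e)ᗮ → ℝ}
    (hv : VN h e c m β u P) : Inward h e (c • e) := by
  have he := hv.he
  have hx0 : hpr e (c • e) = 0 := by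
    have := hpr_coe he 0 c
    simpa using this
  have hi0 : ⟪e, c • e⟫ = c := by
    rw [real_inner_smul_right, real_inner_self_eq_norm_sq, he]
    ring
  set Mdl : V → ℝ := fun x => ‖hprL e x‖ ^ 2 - ⟪u, hprL e x⟫ * ⟪u, hprL e x⟫ -
    ⟪u, hprL e x⟫ * ⟪u, hprL e x⟫ - m * (⟪e, x⟫ - c) with hMdl
  have hev : h =ᶠ[𝓝 (c • e)] Mdl := by
    have c1 : ContinuousAt (fun x : V => |m * (⟪e, x⟫ - c)|) (c • e) := by fun_prop
    have c2 : ContinuousAt (fun x : V => ‖hprL e x‖) (c • e) :=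
      (hprL e).continuous.norm.continuousAt
    have e1 : ∀ᶠ x in 𝓝 (c • e), |m * (⟪e, x⟫ - c)| < β := by
      refine c1.eventually_lt continuousAt_const ?_
      simp only [hi0, sub_self, mul_zero, abs_zero]
      exact hv.tub.hβ
    have e2 : ∀ᶠ x in 𝓝 (c • e), ‖hprL e x‖ < 1 / 2 := by
      refine c2.eventually_lt continuousAt_const ?_
      rw [hprL_apply, hx0, norm_zero]
      norm_num
    filter_upwards [e1, e2] with x h1 h2
    rw [hv.hh x h1.le]
    unfold tubK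
    rw [hprL_apply] at h2
    rw [tubC_one hv.tub.hu h2.le, hv.tub.mod _ (by linarith)]
    have h3 : ‖orth u (hpr e x)‖ ^ 2 = ‖hpr e x‖ ^ 2 - ⟪u, hpr e x⟫ * ⟪u, hpr e x⟫ := by
      unfold orth
      rw [← real_inner_self_eq_norm_sq, inner_sub_left, inner_sub_right, inner_sub_right,
        real_inner_smul_left, real_inner_smul_left, real_inner_smul_right, real_inner_smul_right,
        real_inner_self_eq_norm_sq, real_inner_self_eq_norm_sq, hv.tub.hu,
        real_inner_comm u (hpr e x)]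
      ring
    simp only [hMdl, hprL_apply, h3]
    ring
  have hd : HasFDerivAt Mdl (-(m • innerSL ℝ e)) (c • e) := by
    have d1 : HasFDerivAt (fun x : V => ‖hprL e x‖ ^ 2)
        ((2 • (innerSL ℝ (hprL e (c • e)))).comp (hprL e)) (c • e) := by
      have h4 := (hasStrictFDerivAt_norm_sq (hprL e (c • e))).hasFDerivAt
      exact h4.comp (c • e) (hprL e).hasFDerivAt
    have d2 : HasFDerivAt (fun x : V => ⟪u, hprL e x⟫) ((innerSL ℝ u).comp (hprL e)) (c • e) :=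
      (innerSL ℝ u).hasFDerivAt.comp (c • e) (hprL e).hasFDerivAt
    have d3 := d2.mul d2
    have d4 : HasFDerivAt (fun x : V => m * (⟪e, x⟫ - c)) (m • innerSL ℝ e) (c • e) := by
      have := ((innerSL ℝ e).hasFDerivAt (x := c • e)).sub_const c
      exact this.const_mul m
    refine (((d1.sub d3).sub d3).sub d4).congr_fderiv ?_
    ext v
    have : hprL e (c • e) = 0 := by rw [hprL_apply, hx0]
    simp [this]
  have hgr : gradient h (c • e) = -(m • e) := by
    refine VNall_grad fun v => ?_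
    rw [hev.fderiv_eq, hd.fderiv]
    simp [inner_neg_left, real_inner_smul_left]
  refine ⟨?_, m, hv.hm, hgr⟩
  rw [hev.self_of_nhds]
  simp only [hMdl, hprL_apply, hx0, hi0]
  simp

/-- The point of a normal form has normal `-e`. -/
theorem VNall_inward {g : V → ℝ} {e p : V} (hg : ContDiff ℝ ∞ g) (hv : VNx g e p) :
    Inward g e p := by
  obtain ⟨φ, ψ, l, m, β, u, P, hD, hl, hp, hV⟩ := hv
  have he := hV.he
  obtain ⟨h0, k, hk, h1⟩ := VNall_model hV
  have hs : ContDiff ℝ ∞ fun x => g (extH e φ x) := hg.comp (hD.extH he).smooth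
  have h2 : Inward (fun x => g (extH e φ x)) e (⟪e, p⟫ • e) := by
    refine ⟨(mul_eq_zero.1 h0).resolve_left hl.ne', l⁻¹ * k, by positivity, ?_⟩
    have h3 : fderiv ℝ (fun x => l * g (extH e φ x)) (⟪e, p⟫ • e) =
        l • fderiv ℝ (fun x => g (extH e φ x)) (⟪e, p⟫ • e) :=
      ((hs.differentiable (by simp)).differentiableAt.hasFDerivAt.const_mul l).fderiv
    refine VNall_grad fun v => ?_
    have h4 : fderiv ℝ (fun x => l * g (extH e φ x)) (⟪e, p⟫ • e) v = ⟪-(k • e), v⟫ := by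
      rw [fderiv_eq_inner_gradient, h1]
    rw [h3] at h4
    have h5 : l * fderiv ℝ (fun x => g (extH e φ x)) (⟪e, p⟫ • e) v = ⟪-(k • e), v⟫ := h4
    have h6 : fderiv ℝ (fun x => g (extH e φ x)) (⟪e, p⟫ • e) v = l⁻¹ * ⟪-(k • e), v⟫ := by
      rw [← h5]
      field_simp
    rw [h6, inner_neg_left, inner_neg_left, real_inner_smul_left, real_inner_smul_left]
    ring
  have h3 := (inward_comp_height hg (hD.extH he) (extH_height he φ) _).1 h2
  rwa [hp] at h3

/-- The tubes without normal form. -/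
def VNallBad (g : V → ℝ) (e : V) : Set V :=
  {p | Idx g e p 1 ∧ ((Inward g e p ∧ ¬ VNx g e p) ∨ (Inward g (-e) p ∧ ¬ VNx g (-e) p))}

theorem VNall_sign {g : V → ℝ} {e p : V} (he : ‖e‖ = 1) (h : Inward g e p) :
    ¬ Inward g (-e) p := by
  rintro ⟨-, k, hk, h1⟩
  obtain ⟨-, l, hl, h2⟩ := h
  rw [h2, smul_neg, neg_neg, ← neg_smul] at h1
  have h3 := congrArg (fun v => ⟪e, v⟫) h1
  simp only [real_inner_smul_right, real_inner_self_eq_norm_sq, he] at h3
  linarith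

theorem VNall_crit {g : V → ℝ} {e p : V} (he : ‖e‖ = 1) (hp : p ∈ VNallBad g e) :
    Crit g e p := by
  rcases hp.2 with h | h
  · exact h.1.crit he
  · exact h.1.crit_neg he

/-- The normal form at one of the tubes, the conclusions for the direction `e`. -/
theorem VNall_one (hV : Module.finrank ℝ V = 4) {g : V → ℝ} {e : V} (he : ‖e‖ = 1) (hm : Mo g e)
    {p : V} (hp : p ∈ VNallBad g e) (hiso : ∀ q, Crit g e q → ⟪e, q⟫ = ⟪e, p⟫ → q = p) {δ : ℝ}
    (hδ : 0 < δ) :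
    ∃ g' : V → ℝ, ContDiff ℝ ∞ g' ∧ Hom g g' ∧ (∀ x, δ ≤ |⟪e, x⟫ - ⟪e, p⟫| → g' x = g x) ∧
      (∀ x, Crit g' e x → Crit g e x ∧ ∀ k, Idx g e x k → Idx g' e x k) ∧ p ∉ VNallBad g' e := by
  obtain ⟨hi, ⟨hI, -⟩ | ⟨hI, -⟩⟩ := hp
  · obtain ⟨g', h1, h2, h3, h4, h5⟩ := vn_one hV he hm hI hi hiso hδ
    refine ⟨g', h1, h2, h3, h4, ?_⟩
    rintro ⟨-, ⟨-, h⟩ | ⟨h, -⟩⟩
    · exact h h5
    · exact VNall_sign he (VNall_inward h1 h5) h
  · have he' : ‖-e‖ = 1 := by rw [norm_neg, he]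
    obtain ⟨g', h1, h2, h3, h4, h5⟩ := vn_one hV he' hm.flip hI (idx_neg_dir.2 hi)
      (fun q hq hqp => hiso q (crit_flip.1 hq) (by
        rw [inner_neg_left, inner_neg_left] at hqp
        linarith)) hδ
    refine ⟨g', h1, h2, fun x hx => h3 x ?_, fun x hx => ?_, ?_⟩
    · rw [inner_neg_left, inner_neg_left]
      have : -⟪e, x⟫ - -⟪e, p⟫ = -(⟪e, x⟫ - ⟪e, p⟫) := by ring
      rwa [this, abs_neg]
    · obtain ⟨a, b⟩ := h4 x (crit_flip.2 hx)
      exact ⟨crit_flip.1 a, fun k hk => idx_neg_dir.1 (b k (idx_neg_dir.2 hk))⟩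
    · rintro ⟨-, ⟨h, -⟩ | ⟨-, h⟩⟩
      · exact VNall_sign he h (VNall_inward h1 h5)
      · exact h h5

theorem VNall_step (hV : Module.finrank ℝ V = 4) {g : V → ℝ} {e : V} {L : Set ℝ} {S : Finset V}
    (he : ‖e‖ = 1) (hL : L.Finite) (h : KN g e L S) {p : V} (hp : p ∈ VNallBad g e) :
    ∃ g' : V → ℝ, KN g' e L S ∧ Hom g g' ∧ (∀ x, ⟪e, x⟫ ∈ L → g' x = g x) ∧
      nSad g' e ≤ nSad g e ∧ VNallBad g' e ⊆ VNallBad g e ∧ p ∉ VNallBad g' e := by
  have hpc : Crit g e p := VNall_crit he hp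
  have hps : Sad g e p := ⟨hpc, 1, hp.1, one_ne_zero, by rw [hV]; norm_num⟩
  have hiso : ∀ q, Crit g e q → ⟪e, q⟫ = ⟪e, p⟫ → q = p := fun q hq hqp => h.iso p q hps hq hqp
  set c₀ : ℝ := ⟪e, p⟫ with hc₀
  -- the distance
  obtain ⟨δ, hδ, hcr, hLd⟩ : ∃ δ : ℝ, 0 < δ ∧ (∀ q, Crit g e q → q ≠ p → 2 * δ ≤ |⟪e, q⟫ - c₀|) ∧
      ∀ c ∈ L, 2 * δ ≤ |c - c₀| := by
    set H : Set ℝ := (fun q => ⟪e, q⟫) '' {q | Crit g e q ∧ q ≠ p} ∪ L with hH
    have hHf : H.Finite := (((crit_finite he h.mo).subset fun q hq => hq.1).image _).union hL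
    have hH0 : c₀ ∈ Hᶜ := by
      rintro (⟨q, ⟨hq1, hq2⟩, hq3⟩ | hc)
      · exact hq2 (hiso q hq1 hq3)
      · exact h.reg p hpc hc
    obtain ⟨ε, hε, hball⟩ := Metric.isOpen_iff.1 hHf.isClosed.isOpen_compl c₀ hH0
    have key : ∀ t ∈ H, 2 * (ε / 2) ≤ |t - c₀| := by
      intro t ht
      by_contra hcon
      push Not at hcon
      refine hball ?_ ht
      rw [Metric.mem_ball, Real.dist_eq]
      linarith
    exact ⟨ε / 2, by positivity, fun q hq hqp => key _ (Or.inl ⟨q, ⟨hq, hqp⟩, rfl⟩),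
      fun c hc => key _ (Or.inr hc)⟩
  obtain ⟨g', hg', hom, hfar, hc, hnb⟩ := VNall_one hV he h.mo hp hiso hδ
  have hgood := hom.good_right
  have hmo : Mo g' e := by
    refine ⟨hg', hgood.bdd, fun x hx h0 => ?_, fun x hx => ?_⟩
    · refine hgood.regular hg' x hx ?_
      rw [gradient, LinearIsometryEquiv.map_eq_zero_iff] at h0
      exact h0
    · obtain ⟨k, hk⟩ := h.mo.nd x (hc x hx).1
      exact ⟨k, (hc x hx).2 k hk⟩
  have hLeq : ∀ x, ⟪e, x⟫ ∈ L → g' x = g x := fun x hx =>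
    hfar x (by have := hLd _ hx; linarith)
  have hslc : ∀ t, δ ≤ |t - c₀| → slc g' e t = slc g e t := by
    intro t ht
    funext w
    refine hfar _ ?_
    rw [inner_hpr he]
    exact ht
  -- moves
  have mv : ∀ (F : V → ℝ), Mo F e → (∀ x, Crit F e x → Crit g e x) → ∀ a b,
      (c₀ < a ∧ c₀ < b ∨ a < c₀ ∧ b < c₀) → |a - c₀| ≤ δ → |b - c₀| ≤ δ → SlE (slc F e a) →
      SlE (slc F e b) := by
    intro F hF hFc a b hab ha hb hS
    refine slE_move he hF (fun x hx h1 h2 => ?_) hS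
    have hx' := hFc x hx
    rw [abs_le] at ha hb
    have h3 : |⟪e, x⟫ - c₀| ≤ δ := by
      rw [abs_le]
      constructor
      · rcases min_le_iff.1 h1 with h4 | h4 <;> linarith
      · rcases le_max_iff.1 h2 with h4 | h4 <;> linarith
    by_cases hxp : x = p
    · subst hxp
      rcases hab with ⟨h4, h5⟩ | ⟨h4, h5⟩
      · rcases min_le_iff.1 h1 with h6 | h6 <;> linarith
      · rcases le_max_iff.1 h2 with h6 | h6 <;> linarith
    · have := hcr x hx' hxp
      linarith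
  have hcg : ∀ x, Crit g' e x → Crit g e x := fun x hx => (hc x hx).1
  have hnear : ∀ q, Sad g' e q → ∀ᶠ t in 𝓝[≠] ⟪e, q⟫, SlE (slc g' e t) := by
    intro q hq
    have hqs : Sad g e q := sad_of h.mo hc hq
    have hball : ∀ᶠ t in 𝓝[≠] ⟪e, q⟫, |t - ⟪e, q⟫| < δ := by
      have : ∀ᶠ t in 𝓝 ⟪e, q⟫, |t - ⟪e, q⟫| < δ := by
        have := Metric.ball_mem_nhds ⟪e, q⟫ hδ
        filter_upwards [this] with t ht
        rwa [Metric.mem_ball, Real.dist_eq] at ht
      exact this.filter_mono nhdsWithin_le_nhds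
    by_cases hqp : q = p
    · subst hqp
      filter_upwards [hball, self_mem_nhdsWithin] with t ht htc
      have htc' : t ≠ c₀ := htc
      rcases lt_or_gt_of_ne htc' with hlt | hgt
      · -- below
        have h1 : ∀ᶠ s in 𝓝[<] c₀, SlE (slc g e s) :=
          (h.near q hqs).filter_mono (nhdsWithin_mono _ fun s hs => ne_of_lt hs)
        have h2 : ∀ᶠ s in 𝓝[<] c₀, |s - c₀| < δ :=
          hball.filter_mono (nhdsWithin_mono _ fun s hs => ne_of_lt hs)
        obtain ⟨s, ⟨h3, h4⟩, h5⟩ := ((h1.and h2).and self_mem_nhdsWithin).exists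
        have h5' : s < c₀ := h5
        have h6 : |c₀ - δ - c₀| = δ := by
          rw [show c₀ - δ - c₀ = -δ by ring, abs_neg, abs_of_pos hδ]
        have h7 := mv g h.mo (fun _ hx => hx) s (c₀ - δ) (Or.inr ⟨h5', by linarith⟩) h4.le h6.le h3
        rw [← hslc _ h6.ge] at h7
        exact mv g' hmo hcg (c₀ - δ) t (Or.inr ⟨by linarith, hlt⟩) h6.le ht.le h7
      · have h1 : ∀ᶠ s in 𝓝[>] c₀, SlE (slc g e s) :=
          (h.near q hqs).filter_mono (nhdsWithin_mono _ fun s hs => ne_of_gt hs)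
        have h2 : ∀ᶠ s in 𝓝[>] c₀, |s - c₀| < δ :=
          hball.filter_mono (nhdsWithin_mono _ fun s hs => ne_of_gt hs)
        obtain ⟨s, ⟨h3, h4⟩, h5⟩ := ((h1.and h2).and self_mem_nhdsWithin).exists
        have h5' : c₀ < s := h5
        have h6 : |c₀ + δ - c₀| = δ := by
          rw [show c₀ + δ - c₀ = δ by ring, abs_of_pos hδ]
        have h7 := mv g h.mo (fun _ hx => hx) s (c₀ + δ) (Or.inl ⟨h5', by linarith⟩) h4.le h6.le h3
        rw [← hslc _ h6.ge] at h7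
        exact mv g' hmo hcg (c₀ + δ) t (Or.inl ⟨by linarith, hgt⟩) h6.le ht.le h7
    · filter_upwards [h.near q hqs, hball] with t h1 h2
      rw [hslc t ?_]
      · exact h1
      · have h3 := hcr q hqs.1 hqp
        have h4 := abs_sub_abs_le_abs_sub (⟪e, q⟫ - c₀) (⟪e, q⟫ - t)
        have h5 : ⟪e, q⟫ - c₀ - (⟪e, q⟫ - t) = t - c₀ := by ring
        rw [h5, abs_sub_comm ⟪e, q⟫ t] at h4
        linarith
  refine ⟨g', h.hom he hom hg' hc (fun x hx => by rw [hLeq x hx]) hnear, hom, hLeq,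
    nSad_mono he h.mo fun x hx => sad_of h.mo hc hx, fun q hq => ?_, hnb⟩
  have hqp : q ≠ p := by
    rintro rfl
    exact hnb hq
  have hqc : Crit g e q := hcg q (VNall_crit he hq)
  have hqd := hcr q hqc hqp
  have heq : ∀ x, |⟪e, x⟫ - ⟪e, q⟫| < δ → g' x = g x := by
    intro x hx
    refine hfar x ?_
    have h4 := abs_sub_abs_le_abs_sub (⟪e, q⟫ - c₀) (⟪e, q⟫ - ⟪e, x⟫)
    have h5 : ⟪e, q⟫ - c₀ - (⟪e, q⟫ - ⟪e, x⟫) = ⟪e, x⟫ - c₀ := by ring
    rw [h5, abs_sub_comm ⟪e, q⟫ ⟪e, x⟫] at h4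
    linarith
  have hev : g' =ᶠ[𝓝 q] g := by
    have c1 : ContinuousAt (fun x : V => |⟪e, x⟫ - ⟪e, q⟫|) q := by fun_prop
    have e1 : ∀ᶠ x in 𝓝 q, |⟪e, x⟫ - ⟪e, q⟫| < δ := by
      refine c1.eventually_lt continuousAt_const ?_
      simpa using hδ
    filter_upwards [e1] with x hx
    exact heq x hx
  refine ⟨hq.1.congr' hev, ?_⟩
  rcases hq.2 with ⟨h1, h2⟩ | ⟨h1, h2⟩
  · exact Or.inl ⟨h1.congr' hev, fun h3 => h2 (h3.congr hδ heq)⟩
  · refine Or.inr ⟨h1.congr' hev, fun h3 => h2 (h3.congr hδ fun x hx => heq x ?_)⟩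
    rw [inner_neg_left, inner_neg_left] at hx
    have : -⟪e, x⟫ - -⟪e, q⟫ = -(⟪e, x⟫ - ⟪e, q⟫) := by ring
    rwa [this, abs_neg] at hx

/-- **Vertical normal forms at all tubes.** PROOF. Induction over the finite set of the pairs
(tube, direction `± e`) without normal form: `vn_one` with `δ` smaller than half the distances between the
heights of the horizontal zeros and of these to `L`, `KN.hom` (the slices near the other saddles do not
change; near `p`: `h.near` at `⟪e, p⟫ ± δ`-ish and `slE_move` for the new function, which has no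
horizontal zeros between), `VNx.congr` for the other tubes. -/
theorem vn_all (hV : Module.finrank ℝ V = 4) {f : V → ℝ} {e : V} {L : Set ℝ} {S : Finset V}
    (he : ‖e‖ = 1) (hL : L.Finite) (h : KN f e L S) :
    ∃ g : V → ℝ, KN g e L S ∧ Hom f g ∧ (∀ x, ⟪e, x⟫ ∈ L → g x = f x) ∧ nSad g e ≤ nSad f e ∧
      (∀ p, Inward g e p → Idx g e p 1 → VNx g e p) ∧
      ∀ p, Inward g (-e) p → Idx g (-e) p 1 → VNx g (-e) p := by
  have key : ∀ n : ℕ, ∀ f : V → ℝ, KN f e L S → (VNallBad f e).ncard ≤ n →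
      ∃ g : V → ℝ, KN g e L S ∧ Hom f g ∧ (∀ x, ⟪e, x⟫ ∈ L → g x = f x) ∧ nSad g e ≤ nSad f e ∧
        VNallBad g e = ∅ := by
    intro n
    induction n with
    | zero =>
      intro f h hn
      have hfin : (VNallBad f e).Finite :=
        (crit_finite he h.mo).subset fun x hx => VNall_crit he hx
      exact ⟨f, h, h.mo.good.refl, fun _ _ => rfl, le_rfl,
        (Set.ncard_eq_zero hfin).1 (Nat.le_zero.1 hn)⟩
    | succ n ih =>
      intro f h hn
      have hfin : (VNallBad f e).Finite :=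
        (crit_finite he h.mo).subset fun x hx => VNall_crit he hx
      rcases (VNallBad f e).eq_empty_or_nonempty with h0 | ⟨p, hp⟩
      · exact ⟨f, h, h.mo.good.refl, fun _ _ => rfl, le_rfl, h0⟩
      obtain ⟨g, h1, h2, h3, h4, h5, h6⟩ := VNall_step hV he hL h hp
      have hlt : (VNallBad g e).ncard < (VNallBad f e).ncard :=
        Set.ncard_lt_ncard ⟨h5, fun h7 => h6 (h7 hp)⟩ hfin
      obtain ⟨k, k1, k2, k3, k4, k5⟩ := ih g h1 (by omega)
      exact ⟨k, k1, h2.trans k2, fun x hx => by rw [k3 x hx, h3 x hx], k4.trans h4, k5⟩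
  obtain ⟨g, h1, h2, h3, h4, h5⟩ := key _ f h le_rfl
  refine ⟨g, h1, h2, h3, h4, fun p hp hi => ?_, fun p hp hi => ?_⟩
  · by_contra hcon
    have : p ∈ VNallBad g e := ⟨hi, Or.inl ⟨hp, hcon⟩⟩
    rw [h5] at this
    exact this
  · by_contra hcon
    have : p ∈ VNallBad g e := ⟨idx_neg_dir.1 hi, Or.inr ⟨hp, hcon⟩⟩
    rw [h5] at this
    exact this

end Pool.Schoen
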