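import Pool.Agent.H.MP_6c077c_gt.N3.Plain
import Pool.Agent.H.MP_6c077c_gt.N3.Slab
import Pool.Agent.H.MP_6c077c_gt.N3.Cancel
import Pool.Agent.H.MP_6c077c_gt.N3.Base3
import Pool.Agent.H.MP_6c077c_gt.N3.VNall
import Pool.Agent.H.MP_6c077c_gt.N3.ClassB
import Pool.Agent.H.MP_6c077c_gt.N3.ConnV
import Pool.Agent.H.MP_6c077c_gt.N3.Conn
import Pool.Agent.H.MP_6c077c_gt.Al.HomTop

/-! Slices with spheres and tori, no sphere encloses a torus: the induction. -/

set_option autoImplicit false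

namespace Pool.Schoen

open Filter Set
open scoped Topology RealInnerProductSpace ContDiff

variable {V : Type*} [NormedAddCommGroup V] [InnerProductSpace ℝ V] [FiniteDimensional ℝ V]
variable {f : V → ℝ} {e : V} {L : Set ℝ} {S : Finset V}

private theorem Top_rd_neg : (Rd fun x => -f x) ↔ Rd f := by
  constructor
  · intro h
    rcases h with h | h
    · exact Or.inr h
    · left
      have h1 : (fun x => - -f x) = f := by
        funext x
        exact neg_neg _
      rwa [h1] at h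
  · intro h
    rcases h with h | h
    · right
      have h1 : (fun x => - -f x) = f := by
        funext x
        exact neg_neg _
      rw [h1]
      exact h
    · exact Or.inl h

private theorem Top_rd_hom {g : V → ℝ} (h : Hom f g) (hg : Rd g) : Rd f := by
  rcases hg with hg | hg
  · exact Or.inl (h.trans hg)
  · exact Or.inr (h.neg.trans hg)

private theorem Top_fd (hf : ContDiff ℝ ∞ f) (l : ℝ) (x : V) :
    fderiv ℝ (fun y => l * f y) x = l • fderiv ℝ f x :=
  fderiv_const_mul ((hf.differentiable (by simp)) x) l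

private theorem Top_smul (hf : ContDiff ℝ ∞ f) {l : ℝ} (hl : 0 < l) {x : V}
    (h : Sad f e x) : Sad (fun y => l * f y) e x := by
  obtain ⟨⟨hc0, hc⟩, k, ⟨N, P, hs, hk⟩, h0, h1⟩ := h
  have h2 : fderiv ℝ (fderiv ℝ (fun y => l * f y)) x = l • fderiv ℝ (fderiv ℝ f) x := by
    have h3 : fderiv ℝ (fun y => l * f y) = fun y => l • fderiv ℝ f y := by
      funext y
      exact Top_fd hf l y
    rw [h3]
    exact fderiv_const_smul
      (((hf.fderiv_right (m := ∞) le_rfl).differentiable (by simp)) x) l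
  refine ⟨⟨show l * f x = 0 by rw [hc0, mul_zero], fun w hw => ?_⟩, k,
    ⟨N, P, ⟨hs.hN, hs.hP, hs.orth, hs.span, fun a ha b hb => ?_, fun a ha ha0 => ?_,
    fun b hb hb0 => ?_⟩, hk⟩, h0, h1⟩
  · rw [Top_fd hf, ContinuousLinearMap.smul_apply, hc w hw, smul_zero]
  · rw [h2]
    simp only [ContinuousLinearMap.smul_apply, smul_eq_mul]
    rw [hs.diag a ha b hb, mul_zero]
  · rw [h2]
    simp only [ContinuousLinearMap.smul_apply, smul_eq_mul]
    exact mul_neg_of_pos_of_neg hl (hs.neg a ha ha0)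
  · rw [h2]
    simp only [ContinuousLinearMap.smul_apply, smul_eq_mul]
    exact mul_pos hl (hs.pos b hb hb0)

private theorem Top_comp (he : ‖e‖ = 1) (hf : ContDiff ℝ ∞ f) {φ ψ : (ℝ ∙ e)ᗮ → (ℝ ∙ e)ᗮ}
    (hφ : Dif φ ψ) {x : V} (h : Sad f e (extH e φ x)) : Sad (fun y => f (extH e φ y)) e x := by
  have hΦ : Dif (extH e φ) (extH e ψ) := hφ.extH he
  have hh : ∀ x, ⟪e, extH e φ x⟫ = ⟪e, x⟫ := extH_height he φ
  obtain ⟨h1, k, hk, h2⟩ := h
  obtain ⟨l, hl⟩ := h1.vert he
  exact ⟨crit_of_vert (f := fun y => f (extH e φ y)) h1.1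
    ((gradient_comp_height hf hΦ hh x l).2 hl), k, idx_comp_height hf hΦ hh x l hl hk, h2⟩

/-- The levels around a height. -/
private theorem Top_lev (hL : L.Finite) {s : ℝ} (h1 : ∃ c ∈ L, c < s) (h2 : ∃ c ∈ L, s < c) :
    ∃ c₀ ∈ L, ∃ c₁ ∈ L, c₀ < s ∧ s < c₁ ∧ ∀ d ∈ L, (d < s → d ≤ c₀) ∧ (s < d → c₁ ≤ d) := by
  obtain ⟨a, ha, has⟩ := h1
  obtain ⟨b, hb, hbs⟩ := h2
  have f1 : (L ∩ Iio s).Finite := hL.subset inter_subset_left
  have f2 : (L ∩ Ioi s).Finite := hL.subset inter_subset_left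
  obtain ⟨c₀, hc₀, hm₀⟩ := f1.exists_maximal ⟨a, ha, has⟩
  obtain ⟨c₁, hc₁, hm₁⟩ := f2.exists_minimal ⟨b, hb, hbs⟩
  refine ⟨c₀, hc₀.1, c₁, hc₁.1, hc₀.2, hc₁.2, fun d hd => ⟨fun hds => ?_, fun hds => ?_⟩⟩
  · rcases le_total d c₀ with h3 | h3
    · exact h3
    · exact hm₀ ⟨hd, hds⟩ h3
  · rcases le_total d c₁ with h3 | h3
    · exact hm₁ ⟨hd, hds⟩ h3
    · exact h3

private theorem Top_vn_slc {c m β : ℝ} {u : (ℝ ∙ e)ᗮ} {P : (ℝ ∙ e)ᗮ → ℝ}
    (hv : VN f e c m β u P) {s : ℝ} (hs : |s| ≤ β) : slc f e (c + s / m) = tubK P u s := by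
  funext w
  have h1 : ⟪e, (w : V) + (c + s / m) • e⟫ = c + s / m := inner_hpr hv.he w _
  have h2 : hpr e ((w : V) + (c + s / m) • e) = w := hpr_coe hv.he w _
  have h3 : m * (c + s / m - c) = s := by
    rw [add_sub_cancel_left, mul_div_cancel₀ _ hv.hm.ne']
  show f ((w : V) + (c + s / m) • e) = _
  rw [hv.hh _ (by rw [h1, h3]; exact hs), h1, h2, h3]

private theorem Top_vn_neg {c m β : ℝ} {u : (ℝ ∙ e)ᗮ} {P : (ℝ ∙ e)ᗮ → ℝ}
    (hv : VN f e c m β u P) : VN f e c m β (-u) P :=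
  ⟨hv.he, hv.hm, hv.tub.neg, fun x hx => by rw [tubK_neg]; exact hv.hh x hx⟩

private theorem Top_vn_mono {c m β b : ℝ} {u : (ℝ ∙ e)ᗮ} {P : (ℝ ∙ e)ᗮ → ℝ}
    (hv : VN f e c m β u P) (hb : 0 < b) (hbβ : b ≤ β) : VN f e c m b u P :=
  ⟨hv.he, hv.hm, hv.tub.mono hb hbβ, fun x hx => hv.hh x (hx.trans hbβ)⟩

/-- The case of a normal form in the given coordinates. -/
private theorem Top_bad (hV : Module.finrank ℝ V = 4) (hL : L.Finite) (h : KN f e L S)
    (hno : ∀ c ∈ L, NoS (slc f e c)) {c m β : ℝ} {u : (ℝ ∙ e)ᗮ} {P : (ℝ ∙ e)ᗮ → ℝ}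
    (hv : VN f e c m β u P) (hsad : Sad f e (c • e)) (hbad : TBad P u β) :
    ∃ (A C : V → ℝ) (SA SC : Finset V), nSad A e < nSad f e ∧ nSad C e < nSad f e ∧
      KN A e L SA ∧ KN C e L SC ∧ (Rd A → Rd C → Rd f) := by
  have he := hv.he
  have hm := hv.hm
  have hE : Module.finrank ℝ (ℝ ∙ e)ᗮ = 3 := by
    have he0 : e ≠ 0 := by
      intro h0
      rw [h0, norm_zero] at he
      exact zero_ne_one he
    have : Fact (Module.finrank ℝ V = 3 + 1) := ⟨hV⟩
    exact Submodule.finrank_orthogonal_span_singleton he0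
  have hce : ⟪e, c • e⟫ = c := by
    rw [real_inner_smul_right, real_inner_self_eq_norm_sq, he]
    ring
  -- the levels
  obtain ⟨l1, l2⟩ := h.lev _ hsad
  rw [hce] at l1 l2
  obtain ⟨c₀, hc₀, c₁, hc₁, h0, h1, hlev⟩ := Top_lev hL l1 l2
  have hsame : ∀ t, c₀ < t → t < c₁ → ∀ d ∈ L, (c < d ↔ t < d) := by
    intro t ht0 ht1 d hd
    constructor
    · intro h3
      exact ht1.trans_le ((hlev d hd).2 h3)
    · intro h3
      by_contra h4
      push Not at h4
      rcases eq_or_lt_of_le h4 with h5 | h5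
      · refine h.reg _ hsad.1 ?_
        rw [hce, ← h5]
        exact hd
      · have := (hlev d hd).1 h5
        linarith
  -- small `b`
  obtain ⟨b, hb, hbβ, hb0, hb1, hbL, hg1, hg2⟩ : ∃ b : ℝ, 0 < b ∧ b ≤ β ∧ m * (c₀ - c) < -b ∧
      b < m * (c₁ - c) ∧ (∀ c' ∈ L, b < |m * (c' - c)|) ∧ SlE (slc f e (c + -b / m)) ∧
      SlE (slc f e (c + b / m)) := by
    have hn := h.near _ hsad
    rw [hce, eventually_nhdsWithin_iff, Metric.eventually_nhds_iff] at hn
    obtain ⟨δ, hδ, hn⟩ := hn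
    have hmin : ∀ c' ∈ L, min (m * (c - c₀)) (m * (c₁ - c)) ≤ |m * (c' - c)| := by
      intro c' hc'
      rcases lt_trichotomy c' c with h3 | h3 | h3
      · have h4 := (hlev c' hc').1 h3
        refine (min_le_left _ _).trans ?_
        rw [abs_mul, abs_of_pos hm, abs_of_neg (by linarith)]
        exact mul_le_mul_of_nonneg_left (by linarith) hm.le
      · exfalso
        refine h.reg _ hsad.1 ?_
        rw [hce, ← h3]
        exact hc'
      · have h4 := (hlev c' hc').2 h3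
        refine (min_le_right _ _).trans ?_
        rw [abs_mul, abs_of_pos hm, abs_of_pos (by linarith)]
        exact mul_le_mul_of_nonneg_left (by linarith) hm.le
    have hp0 : 0 < m * (c - c₀) := mul_pos hm (by linarith)
    have hp1 : 0 < m * (c₁ - c) := mul_pos hm (by linarith)
    obtain ⟨M, hMd⟩ : ∃ M, M = min (min (m * (c - c₀)) (m * (c₁ - c))) (min (m * δ) β) := ⟨_, rfl⟩
    have hM : 0 < M := by
      rw [hMd]
      exact lt_min (lt_min hp0 hp1) (lt_min (mul_pos hm hδ) hv.tub.hβ)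
    have hM1 : M ≤ min (m * (c - c₀)) (m * (c₁ - c)) := by
      rw [hMd]
      exact min_le_left _ _
    have hM2 : M ≤ m * δ := by
      rw [hMd]
      exact (min_le_right _ _).trans (min_le_left _ _)
    have hM3 : M ≤ β := by
      rw [hMd]
      exact (min_le_right _ _).trans (min_le_right _ _)
    have hM4 := hM1.trans (min_le_left _ _)
    have hM5 := hM1.trans (min_le_right _ _)
    have hbm : M / 2 / m < δ := by
      rw [div_lt_iff₀ hm]
      linarith
    have hbm0 : 0 < M / 2 / m := by positivity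
    refine ⟨M / 2, by positivity, by linarith, by linarith, by linarith, fun c' hc' => ?_, ?_, ?_⟩
    · have := hM1.trans (hmin c' hc')
      linarith
    · refine hn ?_ ?_
      · rw [Real.dist_eq, add_sub_cancel_left, neg_div, abs_neg, abs_of_pos hbm0]
        exact hbm
      · show c + -(M / 2) / m ≠ c
        rw [neg_div]
        intro h3
        linarith
    · refine hn ?_ ?_
      · rw [Real.dist_eq, add_sub_cancel_left, abs_of_pos hbm0]
        exact hbm
      · show c + M / 2 / m ≠ c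
        intro h3
        linarith
  have hvb := Top_vn_mono hv hb hbβ
  have hbadb : TBad P u b := fun b' hb' hbb => hbad b' hb' (hbb.trans hbβ)
  rw [Top_vn_slc hvb (s := -b) (by rw [abs_neg, abs_of_pos hb])] at hg1
  rw [Top_vn_slc hvb (s := b) (by rw [abs_of_pos hb])] at hg2
  -- no spheres off the tube
  have hnoD : NoD (tubK P u (-b)) := by
    refine vn_noD hV hvb h.mo h.conn h.out hb0 hb1 (fun x hx hxc => ?_) (fun x hx hxc => ?_)
      (fun x hx hx0 hx1 hxne => ?_) (hno _ hc₀) (hno _ hc₁)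
    · exact h.reg x hx (by rw [hxc]; exact hc₀)
    · exact h.reg x hx (by rw [hxc]; exact hc₁)
    · obtain ⟨k, hk⟩ := h.mo.nd x hx
      by_cases hk0 : k = 0
      · left
        rw [← hk0]
        exact hk
      by_cases hk3 : k + 1 = Module.finrank ℝ V
      · right
        have : k = 3 := by omega
        rw [← this]
        exact hk
      exfalso
      refine hxne (h.gap x (c • e) ⟨hx, k, hk, hk0, hk3⟩ hsad fun d hd => ?_)
      rw [hce]
      exact (hsame _ hx0 hx1 d hd).symm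
  obtain ⟨k, k1, k2, k3, k4, k5⟩ := foot_ball hE hvb.tub hbadb hg1 hg2 hnoD
  -- the two cases
  have hfin : ∀ {u' : (ℝ ∙ e)ᗮ}, VN f e c m b u' P → LBall P u' b k →
      ∃ (A C : V → ℝ) (SA SC : Finset V), nSad A e < nSad f e ∧ nSad C e < nSad f e ∧
        KN A e L SA ∧ KN C e L SC ∧ (Rd A → Rd C → Rd f) := by
    intro u' hv' hk'
    obtain ⟨k', hk1, -⟩ := hk'.move hv'.tub hb le_rfl (b' := 3 / 4 * b) (by positivity)
      (by linarith)
    exact vn_cancel hV hv' h hsad hbL hk1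
  rcases k5 with ⟨k6, k7⟩ | ⟨k6, k7⟩
  · exact hfin hvb ⟨k1, k2, k3, k4, k6, k7⟩
  · refine hfin (Top_vn_neg hvb) ⟨k1, k2, fun w hw => ?_, ?_, ?_, ?_⟩
    · rw [tubK_neg]
      exact k3 w hw
    · rw [tubK_neg]
      exact k4
    · rw [smul_neg, neg_neg]
      exact k6
    · rw [smul_neg]
      exact k7

/-- A bad tube of `f` in vertical normal form, no spheres at the levels: cut and cancel. -/
theorem kn_bad (hV : Module.finrank ℝ V = 4) (he : ‖e‖ = 1) (hL : L.Finite) (h : KN f e L S)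
    (hno : ∀ c ∈ L, NoS (slc f e c)) {p : V} (hp : Sad f e p)
    {φ ψ : (ℝ ∙ e)ᗮ → (ℝ ∙ e)ᗮ} {l m β : ℝ} {u : (ℝ ∙ e)ᗮ} {P : (ℝ ∙ e)ᗮ → ℝ} (hφ : Dif φ ψ)
    (hl : 0 < l) (hφp : extH e φ (⟪e, p⟫ • e) = p)
    (hv : VN (fun x => l * f (extH e φ x)) e ⟪e, p⟫ m β u P) (hbad : TBad P u β) :
    ∃ (A C : V → ℝ) (SA SC : Finset V), nSad A e < nSad f e ∧ nSad C e < nSad f e ∧
      KN A e L SA ∧ KN C e L SC ∧ (Rd A → Rd C → Rd f) := by
  classical
  have hΦ : Dif (extH e φ) (extH e ψ) := hφ.extH he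
  have h1 := h.comp_dif he hφ
  have h2 := h1.smul he hl
  have hn : nSad (fun x => l * f (extH e φ x)) e ≤ nSad f e :=
    (nSad_smul he h1.mo hl).trans (nSad_comp he h.mo hφ)
  obtain ⟨A, C, SA, SC, a1, a2, a3, a4, a5⟩ := Top_bad hV hL h2 (fun c hc => by
    refine ((hno c hc).comp hφ.continuous hφ.symm.continuous hφ.left hφ.right).congr fun w => ?_
    have e1 : slc (fun x => l * f (extH e φ x)) e c w = l * slc f e c (φ w) := by
      show l * f (((φ (hpr e ((w : V) + c • e)) : (ℝ ∙ e)ᗮ) : V) + ⟪e, (w : V) + c • e⟫ • e) =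
        l * f ((φ w : V) + c • e)
      rw [hpr_coe he w c, inner_hpr he w c]
    rw [e1, mul_eq_zero, or_iff_right hl.ne']) hv
    (Top_smul (h.mo.smooth.comp hΦ.smooth) hl (Top_comp he h.mo.smooth hφ (by
      rw [hφp]
      exact hp))) hbad
  refine ⟨A, C, SA, SC, a1.trans_le hn, a2.trans_le hn, a3, a4, fun r1 r2 => ?_⟩
  have r3 := (Rd.smul_iff hl h1.mo.good).1 (a5 r1 r2)
  exact (Rd.comp_dif hΦ (f := f)).1 r3

private theorem Top_cast {U W : Submodule ℝ V} (h : U = W) (k : V → ℝ)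
    (hs : NoS fun y : W => k y) : NoS fun y : U => k y := by
  subst h
  exact hs

private theorem Top_noS {t : ℝ} (h : NoS (slc f e t)) : NoS (slc f (-e) (-t)) := by
  have h1 : (ℝ ∙ (-e))ᗮ = (ℝ ∙ e)ᗮ := by
    rw [← Set.neg_singleton, Submodule.span_neg]
  have h2 := Top_cast h1 (fun v : V => f (v + t • e)) h
  refine h2.congr fun w => ?_
  unfold slc
  rw [smul_neg, neg_smul, neg_neg]

private theorem Top_sad (hV : Module.finrank ℝ V = 4) (he : ‖e‖ = 1)
    (hr : ∀ x, f x = 0 → gradient f x ≠ 0) {p : V} (hp : Inward f e p) (hi : Idx f e p 1) :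
    Sad f e p :=
  ⟨(crit_iff he hr p).2 (Or.inl hp), 1, hi, one_ne_zero, by omega⟩

/-- No sphere at the levels, bounded body, and the claim for functions with fewer saddles. -/
private theorem Top_step (hV : Module.finrank ℝ V = 4) (he : ‖e‖ = 1) (hL : L.Finite)
    (h : KN f e L S) (hno : ∀ c ∈ L, NoS (slc f e c)) (hb : Bornology.IsBounded {x | f x ≤ 0})
    (ih : ∀ (e' : V) (L' : Set ℝ) (S' : Finset V) (g : V → ℝ), ‖e'‖ = 1 → L'.Finite →
      nSad g e' < nSad f e → KN g e' L' S' → Rd g) : Rd f := by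
  have hne : ‖-e‖ = 1 := by rwa [norm_neg]
  have hneg := h.neg he
  obtain ⟨g, g1, g2, g3, g4, g5, g6⟩ := vn_all hV he hL hneg
  have hn : nSad g e ≤ nSad f e := g4.trans (nSad_neg he h.mo)
  have hnog : ∀ c ∈ L, NoS (slc g e c) := by
    intro c hc
    refine (hno c hc).congr fun w => ?_
    show g ((w : V) + c • e) = 0 ↔ f ((w : V) + c • e) = 0
    rw [g3 _ (by rw [inner_hpr he w c]; exact hc), neg_eq_zero]
  suffices hg : Rd g by
    have h1 : Rd fun x => -f x := Top_rd_hom g2 hg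
    exact Top_rd_neg.1 h1
  -- a bad tube for the direction `e`
  by_cases hb1 : ∃ p, Inward g e p ∧ Idx g e p 1 ∧
      ∃ (φ ψ : (ℝ ∙ e)ᗮ → (ℝ ∙ e)ᗮ) (l m β : ℝ) (u : (ℝ ∙ e)ᗮ) (P : (ℝ ∙ e)ᗮ → ℝ),
        Dif φ ψ ∧ 0 < l ∧ extH e φ (⟪e, p⟫ • e) = p ∧
          VN (fun x => l * g (extH e φ x)) e ⟪e, p⟫ m β u P ∧ TBad P u β
  · obtain ⟨p, hp, hi, φ, ψ, l, m, β, u, P, hφ, hl, hφp, hv, hbad⟩ := hb1
    obtain ⟨A, C, SA, SC, a1, a2, a3, a4, a5⟩ := kn_bad hV he hL g1 hnog
      (Top_sad hV he g1.mo.reg hp hi) hφ hl hφp hv hbad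
    exact a5 (ih e L SA A he hL (a1.trans_le hn) a3) (ih e L SC C he hL (a2.trans_le hn) a4)
  -- a bad tube for the direction `-e`
  by_cases hb2 : ∃ p, Inward g (-e) p ∧ Idx g (-e) p 1 ∧
      ∃ (φ ψ : (ℝ ∙ (-e))ᗮ → (ℝ ∙ (-e))ᗮ) (l m β : ℝ) (u : (ℝ ∙ (-e))ᗮ) (P : (ℝ ∙ (-e))ᗮ → ℝ),
        Dif φ ψ ∧ 0 < l ∧ extH (-e) φ (⟪-e, p⟫ • -e) = p ∧
          VN (fun x => l * g (extH (-e) φ x)) (-e) ⟪-e, p⟫ m β u P ∧ TBad P u β
  · obtain ⟨p, hp, hi, φ, ψ, l, m, β, u, P, hφ, hl, hφp, hv, hbad⟩ := hb2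
    have hfl := g1.flip he
    have hLf : (Neg.neg '' L).Finite := hL.image _
    have hnog' : ∀ c ∈ Neg.neg '' L, NoS (slc g (-e) c) := by
      rintro _ ⟨c, hc, rfl⟩
      exact Top_noS (hnog c hc)
    obtain ⟨A, C, SA, SC, a1, a2, a3, a4, a5⟩ := kn_bad hV hne hLf hfl hnog'
      (Top_sad hV hne g1.mo.reg hp hi) hφ hl hφp hv hbad
    have hn' : nSad g (-e) ≤ nSad f e := (nSad_flip he).le.trans hn
    exact a5 (ih (-e) _ SA A hne hLf (a1.trans_le hn') a3)
      (ih (-e) _ SC C hne hLf (a2.trans_le hn') a4)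
  -- all tubes are good
  have hfinc := crit_finite he g1.mo
  have hgood1 : ∀ p, Inward g e p → Idx g e p 1 → ∀ δ > 0, ∃ b, 0 < b ∧ b < δ ∧
      ExtB (layS g e (⟪e, p⟫ - b) (⟪e, p⟫ - b)) (layS g e (⟪e, p⟫ - b) (⟪e, p⟫ + b)) := by
    intro p hp hi
    rcases vnx_or he (g5 p hp hi) with h1 | h1
    · exact absurd ⟨p, hp, hi, h1⟩ hb1
    · exact h1
  have hgood2 : ∀ p, Inward g (-e) p → Idx g (-e) p 1 → ∀ δ > 0, ∃ b, 0 < b ∧ b < δ ∧
      ExtB (layS g (-e) (⟪-e, p⟫ - b) (⟪-e, p⟫ - b))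
        (layS g (-e) (⟪-e, p⟫ - b) (⟪-e, p⟫ + b)) := by
    intro p hp hi
    rcases vnx_or hne (g6 p hp hi) with h1 | h1
    · exact absurd ⟨p, hp, hi, h1⟩ hb2
    · exact h1
  have hconn : ∀ t, (∀ x, Crit g e x → ⟪e, x⟫ ≠ t) → IsPreconnected (layS g e t t) := by
    intro t ht
    refine nslice_conn g1.conn.isPreconnected g1.mo.smooth.continuous ?_ ?_
    · exact up_ext he g1.mo hfinc hL g1.reg
        (fun p q hp hpi hq hqi hpq => g1.gap p q (Top_sad hV he g1.mo.reg hp hpi)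
          (Top_sad hV he g1.mo.reg hq hqi) hpq)
        (fun p q hp hpi hq hpq => g1.iso p q (Top_sad hV he g1.mo.reg hp hpi) hq hpq) hgood1 ht
    · have hfl := g1.flip he
      have h1 := up_ext (h := g) (L := Neg.neg '' L) hne g1.mo.flip (t := -t)
        (by
          refine hfinc.subset fun x hx => ?_
          exact crit_flip.1 hx) (hL.image _) hfl.reg
        (fun p q hp hpi hq hqi hpq => hfl.gap p q (Top_sad hV hne g1.mo.reg hp hpi)
          (Top_sad hV hne g1.mo.reg hq hqi) hpq)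
        (fun p q hp hpi hq hpq => hfl.iso p q (Top_sad hV hne g1.mo.reg hp hpi) hq hpq) hgood2
        (fun x hx hxt => by
          rw [inner_neg_left, neg_inj] at hxt
          exact ht x (crit_flip.1 hx) hxt)
      have h2 : layS g (-e) (-t) (-t) = layS g e t t := layS_neg_dir g e t t
      have h3 : {x | g x ≤ 0 ∧ -t ≤ ⟪-e, x⟫} = {x | g x ≤ 0 ∧ ⟪e, x⟫ ≤ t} := by
        ext x
        show g x ≤ 0 ∧ -t ≤ ⟪-e, x⟫ ↔ g x ≤ 0 ∧ ⟪e, x⟫ ≤ t
        rw [inner_neg_left, neg_le_neg_iff]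
      rwa [h2, h3] at h1
  -- the base case for `-g`
  have hgn := g1.neg he
  have hbg : Bornology.IsBounded {x | -g x ≤ 0} := by
    obtain ⟨R, hR⟩ := g2.sign
    obtain ⟨R', hR'⟩ := hb.exists_norm_le
    refine (Metric.isBounded_closedBall (x := (0 : V)) (r := max R R')).subset fun x hx => ?_
    rw [mem_closedBall_zero_iff]
    by_contra h1
    push Not at h1
    have h2 := hR x ((le_max_left _ _).trans_lt h1)
    have h3 : -g x ≤ 0 := hx
    have h4 : 0 < f x := by
      by_contra h5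
      push Not at h5
      have := hR' x h5
      linarith [le_max_right R R']
    nlinarith
  have hbase : Rd fun x => -g x := by
    refine kn_base hV he hL hgn hbg fun t ht => ?_
    have h1 : (fun y => - -g y) = g := by
      funext y
      exact neg_neg _
    rw [h1]
    exact hconn t fun x hx => ht x (crit_neg.2 hx)
  exact Top_rd_neg.1 hbase

/-- **The induction.** -/
theorem kn_rd (hV : Module.finrank ℝ V = 4) : ∀ (n m : ℕ) (e : V) (L : Set ℝ) (S : Finset V)
    (f : V → ℝ), ‖e‖ = 1 → L.Finite → nSad f e = n → S.card = m → KN f e L S → Rd f := by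
  intro n
  induction n using Nat.strong_induction_on with
  | _ n ihn =>
    intro m
    induction m using Nat.strong_induction_on with
    | _ m ihm =>
      intro e L S f he hL hn hm h
      have ihn' : ∀ (e' : V) (L' : Set ℝ) (S' : Finset V) (g : V → ℝ), ‖e'‖ = 1 → L'.Finite →
          nSad g e' < n → KN g e' L' S' → Rd g := fun e' L' S' g he' hL' hlt hg =>
        ihn _ hlt _ e' L' S' g he' hL' rfl rfl hg
      by_cases hsph : ∃ c ∈ L, ¬ NoS (slc f e c)
      · obtain ⟨c, hc, hns⟩ := hsph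
        unfold NoS at hns
        push Not at hns
        obtain ⟨w, hw, hwl⟩ := hns
        have he0 : e ≠ 0 := by
          intro h0
          rw [h0, norm_zero] at he
          exact zero_ne_one he
        have : Fact (Module.finrank ℝ V = 3 + 1) := ⟨hV⟩
        have hE : Module.finrank ℝ (ℝ ∙ e)ᗮ = 3 :=
          Submodule.finrank_orthogonal_span_singleton he0
        obtain ⟨s1, s2, s3⟩ := slice_reg he h.mo (c := c) fun x hx hxc =>
          h.reg x hx (by rw [hxc]; exact hc)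
        obtain ⟨s, hs, k, hk, hkb, hk1, hk2, -, -⟩ := inner_ball hE s1 s2 s3 hw hwl
          (((h.sl c hc) w hw).2 hwl)
        obtain ⟨A, C, SA, SC, a1, a2, a3, a4, a5, a6, a7⟩ := kn_cut hV he hL h hc hs hk hkb
          (fun z hz => hk1 z hz) (fun z hz => hk2 z hz.le)
        have key : ∀ (g : V → ℝ) (S' : Finset V), S'.card < S.card → nSad g e ≤ nSad f e →
            KN g e L S' → Rd g := by
          intro g S' h1 h2 h3
          rcases lt_or_eq_of_le h2 with h4 | h4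
          · exact ihn' e L S' g he hL (by omega) h3
          · exact ihm _ (by omega) e L S' g he hL (by omega) rfl h3
        exact a7 (key A SA a1 a3 a5) (key C SC a2 a4 a6)
      · push Not at hsph
        rcases h.mo.good.bdd_side (by omega) with hb | hb
        · exact Top_step hV he hL h hsph hb fun e' L' S' g he' hL' hlt hg =>
            ihn' e' L' S' g he' hL' (by omega) hg
        · have h1 : Rd fun x => -f x := by
            refine Top_step hV he hL (h.neg he) (fun c hc => (hsph c hc).congr fun w => ?_) ?_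
              fun e' L' S' g he' hL' hlt hg => ihn' e' L' S' g he' hL' ?_ hg
            · show -f _ = 0 ↔ f _ = 0
              exact neg_eq_zero
            · refine hb.subset fun x hx => ?_
              have hx' : -f x ≤ 0 := hx
              show 0 ≤ f x
              linarith
            · have := nSad_neg he h.mo
              omega
          exact Top_rd_neg.1 h1

end Pool.Schoen
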