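import Pool.Agent.H.MP_6c077c_gt.N3.Defs
import Pool.Agent.H.MP_6c077c_gt.N2.Foot

/-! The vertical normal form at a tube: the slices. -/

set_option autoImplicit false

namespace Pool.Schoen

open Filter Set
open scoped Topology RealInnerProductSpace ContDiff

theorem th1_smooth : ContDiff ℝ ∞ th1 := by
  unfold th1
  exact Real.smoothTransition.contDiff.comp (by fun_prop)

theorem th2_smooth : ContDiff ℝ ∞ th2 := by
  unfold th2
  exact Real.smoothTransition.contDiff.comp (by fun_prop)

theorem th1_one {z : ℝ} (h : z ≤ 1 / 4) : th1 z = 1 :=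
  Real.smoothTransition.one_of_one_le (by linarith)

theorem th1_zero {z : ℝ} (h : 1 ≤ z) : th1 z = 0 :=
  Real.smoothTransition.zero_of_nonpos (by linarith)

theorem th2_one {z : ℝ} (h : z ≤ 4) : th2 z = 1 :=
  Real.smoothTransition.one_of_one_le (by linarith)

theorem th2_zero {z : ℝ} (h : 9 ≤ z) : th2 z = 0 :=
  Real.smoothTransition.zero_of_nonpos (by linarith)

theorem th1_mem (z : ℝ) : 0 ≤ th1 z ∧ th1 z ≤ 1 :=
  ⟨Real.smoothTransition.nonneg _, Real.smoothTransition.le_one _⟩

theorem th2_mem (z : ℝ) : 0 ≤ th2 z ∧ th2 z ≤ 1 :=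
  ⟨Real.smoothTransition.nonneg _, Real.smoothTransition.le_one _⟩

variable {E : Type*} [NormedAddCommGroup E] [InnerProductSpace ℝ E] [FiniteDimensional ℝ E]
variable {P : E → ℝ} {u : E} {β s : ℝ}

omit [FiniteDimensional ℝ E] in
private theorem TubA_in (u : E) : ContDiff ℝ ∞ fun w : E => ⟪u, w⟫ :=
  contDiff_const.inner ℝ contDiff_id

omit [FiniteDimensional ℝ E] in
private theorem TubA_orth_smooth (u : E) : ContDiff ℝ ∞ fun w : E => ‖orth u w‖ ^ 2 :=
  ((contDiff_orth u).of_le le_top).norm_sq ℝ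

theorem tubC_smooth (u : E) : ContDiff ℝ ∞ (tubC u) := by
  unfold tubC
  exact (th1_smooth.comp (TubA_orth_smooth u)).mul (th2_smooth.comp ((TubA_in u).pow 2))

theorem tubC_mem (u w : E) : 0 ≤ tubC u w ∧ tubC u w ≤ 1 :=
  ⟨mul_nonneg (th1_mem _).1 (th2_mem _).1,
    mul_le_one₀ (th1_mem _).2 (th2_mem _).1 (th2_mem _).2⟩

/-- PROOF. `‖w‖² = ‖orth u w‖² + ⟪u, w⟫²`. -/
theorem tubC_one (hu : ‖u‖ = 1) {w : E} (h : ‖w‖ ≤ 1 / 2) : tubC u w = 1 := by
  have h1 := norm_sq_orth hu w
  have h2 : ‖w‖ ^ 2 ≤ 1 / 4 := by nlinarith [norm_nonneg w]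
  unfold tubC
  rw [th1_one (by nlinarith [sq_nonneg ⟪u, w⟫]), th2_one (by nlinarith [sq_nonneg ‖orth u w‖]),
    mul_one]

theorem tubC_zero (hu : ‖u‖ = 1) {w : E} (h : 4 ≤ ‖w‖) : tubC u w = 0 := by
  have h1 := norm_sq_orth hu w
  have h2 : 16 ≤ ‖w‖ ^ 2 := by nlinarith
  unfold tubC
  by_cases h3 : 1 ≤ ‖orth u w‖ ^ 2
  · rw [th1_zero h3, zero_mul]
  · rw [th2_zero (by linarith), mul_zero]

omit [FiniteDimensional ℝ E] in
private theorem TubA_orth_neg (u w : E) : orth (-u) w = orth u w := by
  unfold orth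
  rw [inner_neg_left, smul_neg, neg_smul, neg_neg]

theorem tubC_neg (u w : E) : tubC (-u) w = tubC u w := by
  unfold tubC
  rw [TubA_orth_neg, inner_neg_left, neg_sq]

theorem TubP.neg (h : TubP P u β) : TubP P (-u) β where
  hu := by rw [norm_neg, h.hu]
  hβ := h.hβ
  hβ1 := h.hβ1
  hθ := h.hθ
  sm := h.sm
  bdd := h.bdd
  reg := h.reg
  mod := fun w hw => by rw [TubA_orth_neg, inner_neg_left, neg_sq, h.mod w hw]

theorem TubP.mono (h : TubP P u β) {b : ℝ} (hb : 0 < b) (hbβ : b ≤ β) : TubP P u b where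
  hu := h.hu
  hβ := hb
  hβ1 := hbβ.trans h.hβ1
  hθ := fun z => (mul_le_mul_of_nonneg_right hbβ (abs_nonneg _)).trans (h.hθ z)
  sm := h.sm
  bdd := h.bdd
  reg := h.reg
  mod := h.mod

theorem tubK_neg (P : E → ℝ) (u : E) (s : ℝ) : tubK P (-u) s = tubK P u s := by
  funext w
  unfold tubK
  rw [tubC_neg]

theorem tubK_smooth (h : TubP P u β) (s : ℝ) : ContDiff ℝ ∞ (tubK P u s) := by
  unfold tubK
  exact h.sm.sub (contDiff_const.mul (tubC_smooth u))

theorem tubK_far (hu : ‖u‖ = 1) (s : ℝ) {w : E} (h : 4 ≤ ‖w‖) : tubK P u s w = P w := by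
  unfold tubK
  rw [tubC_zero hu h, mul_zero, sub_zero]

private theorem TubA_fd {F : E → ℝ} {w : E} (h : gradient F w = 0) : fderiv ℝ F w = 0 := by
  unfold gradient at h
  simpa using h

/-- A curve through a point with vanishing differential has vanishing derivative. -/
private theorem TubA_curve {F : E → ℝ} (hF : ContDiff ℝ ∞ F) {w : E} (h : fderiv ℝ F w = 0)
    (o : E) {d : ℝ} (hd : HasDerivAt (fun t : ℝ => F (w + t • o)) d 0) : d = 0 := by
  have h1 : HasFDerivAt F (0 : E →L[ℝ] ℝ) w := by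
    rw [← h]
    exact (hF.differentiable (by simp)).differentiableAt.hasFDerivAt
  have h2 : HasDerivAt (fun t : ℝ => w + t • o) o 0 := by
    have := ((hasDerivAt_id (0 : ℝ)).smul_const o).const_add w
    simpa using this
  have h3 : HasFDerivAt F (0 : E →L[ℝ] ℝ) (w + (0 : ℝ) • o) := by
    rw [zero_smul, add_zero]
    exact h1
  have h4 := h3.comp_hasDerivAt (0 : ℝ) h2
  have h5 := hd.unique h4
  simpa using h5

/-- A more general function: `P + χ (v(a) - μ)`, for the slices and for the horn. Its zeros are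
regular, except `w = 0` in case `v 0 = μ`. PROOF. Off the ball of radius `4` it is `P` near. In the
ball of radius `10`: `ρ² - a² + th1(ρ²) th2(a²) (v(a) - μ)`. In the direction of `orth u w`:
`2 ρ² (1 + th1' th2 (v - μ))`, `|v - μ| ≤ 2 β`, so `ρ = 0`; on the axis `a² ≤ 2 β < 4`, so the
function is `-a² + v(a) - μ` on the axis near `w`, `a · derivative = -2 a² + a v'(a) < 0` if
`a ≠ 0`. -/
theorem tub_reg (h : TubP P u β) {v : ℝ → ℝ} (hv : ContDiff ℝ ∞ v) {μ : ℝ}
    (h1 : ∀ a, |v a - μ| ≤ 2 * β) (h2 : ∀ a, a ≠ 0 → a * deriv v a < 2 * a ^ 2) {w : E}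
    (hw : P w + tubC u w * (v ⟪u, w⟫ - μ) = 0) (hw0 : w ≠ 0) :
    gradient (fun z => P z + tubC u z * (v ⟪u, z⟫ - μ)) w ≠ 0 := by
  intro hg
  rcases lt_or_ge 4 ‖w‖ with hfar | hnear
  · -- off the ball of radius four
    have he : (fun z => P z + tubC u z * (v ⟪u, z⟫ - μ)) =ᶠ[𝓝 w] P := by
      have h3 : ∀ᶠ z in 𝓝 w, 4 < ‖z‖ := continuous_norm.continuousAt.eventually (lt_mem_nhds hfar)
      filter_upwards [h3] with z hz
      rw [tubC_zero h.hu hz.le, zero_mul, add_zero]
    rw [tubC_zero h.hu hfar.le, zero_mul, add_zero] at hw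
    refine h.reg w hw hw0 ?_
    unfold gradient at hg ⊢
    rwa [he.fderiv_eq] at hg
  · -- in the ball of radius ten
    set M : E → ℝ := fun z => ‖orth u z‖ ^ 2 - ⟪u, z⟫ ^ 2 + tubC u z * (v ⟪u, z⟫ - μ) with hM
    have hMs : ContDiff ℝ ∞ M :=
      ((TubA_orth_smooth u).sub ((TubA_in u).pow 2)).add
        ((tubC_smooth u).mul ((hv.comp (TubA_in u)).sub contDiff_const))
    have he : (fun z => P z + tubC u z * (v ⟪u, z⟫ - μ)) =ᶠ[𝓝 w] M := by
      have h3 : ∀ᶠ z in 𝓝 w, ‖z‖ < 10 :=
        continuous_norm.continuousAt.eventually (gt_mem_nhds (by linarith))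
      filter_upwards [h3] with z hz
      simp only [hM]
      rw [h.mod z hz.le]
    have hM0 : fderiv ℝ M w = 0 := by
      rw [← he.fderiv_eq]
      exact TubA_fd hg
    have hMw : M w = 0 := by
      rw [← he.eq_of_nhds]
      exact hw
    -- the direction of `orth u w`
    have horth : ∀ t : ℝ, orth u (w + t • orth u w) = (1 + t) • orth u w := by
      intro t
      have h3 := inner_orth h.hu w
      conv_lhs => unfold orth
      rw [inner_add_right, inner_smul_right]
      change w + t • orth u w - (⟪u, w⟫ + t * ⟪u, orth u w⟫) • u = _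
      rw [h3, mul_zero, add_zero, add_smul, one_smul]
      unfold orth
      abel
    have hinn : ∀ t : ℝ, ⟪u, w + t • orth u w⟫ = ⟪u, w⟫ := by
      intro t
      rw [inner_add_right, inner_smul_right, inner_orth h.hu, mul_zero, add_zero]
    set r : ℝ := ‖orth u w‖ ^ 2 with hr
    set a : ℝ := ⟪u, w⟫ with ha
    have hc1 : (fun t : ℝ => M (w + t • orth u w)) =
        fun t : ℝ => (1 + t) ^ 2 * r - a ^ 2 + th1 ((1 + t) ^ 2 * r) * th2 (a ^ 2) * (v a - μ) := by
      funext t
      simp only [hM, tubC]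
      rw [horth, hinn, norm_smul, mul_pow, Real.norm_eq_abs, sq_abs]
    have hd1 : HasDerivAt (fun t : ℝ => M (w + t • orth u w))
        (2 * r - 0 + deriv th1 r * (2 * r) * th2 (a ^ 2) * (v a - μ)) 0 := by
      rw [hc1]
      have k1 : HasDerivAt (fun t : ℝ => (1 + t) ^ 2 * r) (2 * r) 0 := by
        have := (((hasDerivAt_id (0 : ℝ)).const_add 1).pow 2).mul_const r
        simpa using this
      have k2 : HasDerivAt th1 (deriv th1 r) ((1 + 0) ^ 2 * r) := by
        rw [add_zero, one_pow, one_mul]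
        exact (th1_smooth.differentiable (by simp)).differentiableAt.hasDerivAt
      have k3 := k2.comp (0 : ℝ) k1
      exact (k1.sub (hasDerivAt_const (0 : ℝ) (a ^ 2))).add
        ((k3.mul_const (th2 (a ^ 2))).mul_const (v a - μ))
    have hz1 := TubA_curve hMs hM0 _ hd1
    have hr0 : r = 0 := by
      by_contra hne
      have hrp : 0 < r := lt_of_le_of_ne (sq_nonneg _) (Ne.symm hne)
      have k1 := h1 a
      have k2 := h.hθ r
      have k3 := th2_mem (a ^ 2)
      have k4 : |deriv th1 r * th2 (a ^ 2) * (v a - μ)| ≤ 1 / 2 := by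
        rw [abs_mul, abs_mul, abs_of_nonneg k3.1]
        calc |deriv th1 r| * th2 (a ^ 2) * |v a - μ| ≤ |deriv th1 r| * 1 * (2 * β) := by
              gcongr
              · exact k3.2
          _ = 2 * (β * |deriv th1 r|) := by ring
          _ ≤ 1 / 2 := by linarith
      have k5 := abs_le.1 k4
      have k6 : 2 * r * (1 + deriv th1 r * th2 (a ^ 2) * (v a - μ)) = 0 := by
        rw [← hz1]
        ring
      have k7 : 0 < 2 * r * (1 + deriv th1 r * th2 (a ^ 2) * (v a - μ)) := by
        apply mul_pos (by linarith)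
        linarith
      linarith
    have ho : orth u w = 0 := by
      have : ‖orth u w‖ = 0 := by
        rw [hr] at hr0
        exact pow_eq_zero_iff (two_ne_zero) |>.1 hr0
      exact norm_eq_zero.1 this
    have hwa : w = a • u := by
      have := ho
      unfold orth at this
      exact sub_eq_zero.1 this
    have ha0 : a ≠ 0 := by
      intro h0
      rw [h0, zero_smul] at hwa
      exact hw0 hwa
    -- the value
    have hval : -a ^ 2 + th2 (a ^ 2) * (v a - μ) = 0 := by
      have := hMw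
      simp only [hM, tubC] at this
      rw [ho, norm_zero] at this
      rw [th1_one (by norm_num)] at this
      rw [← this]
      ring
    have hβ := h.hβ
    have hβ1 := h.hβ1
    have hsmall : a ^ 2 ≤ 2 * β := by
      have k1 := h1 a
      have k3 := th2_mem (a ^ 2)
      have k4 : th2 (a ^ 2) * (v a - μ) ≤ 1 * (2 * β) := by
        calc th2 (a ^ 2) * (v a - μ) ≤ |th2 (a ^ 2) * (v a - μ)| := le_abs_self _
          _ = th2 (a ^ 2) * |v a - μ| := by rw [abs_mul, abs_of_nonneg k3.1]
          _ ≤ 1 * (2 * β) := by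
              gcongr
              exact k3.2
      linarith
    -- the direction of `u`
    have horth2 : ∀ t : ℝ, orth u (w + t • u) = 0 := by
      intro t
      have k1 : ⟪u, u⟫ = (1 : ℝ) := by
        rw [real_inner_self_eq_norm_sq, h.hu, one_pow]
      unfold orth
      rw [inner_add_right, inner_smul_right, k1, mul_one, add_smul]
      have := ho
      unfold orth at this
      rw [sub_eq_zero] at this
      rw [← this]
      abel
    have hinn2 : ∀ t : ℝ, ⟪u, w + t • u⟫ = a + t := by
      intro t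
      rw [inner_add_right, inner_smul_right, real_inner_self_eq_norm_sq, h.hu, one_pow, mul_one]
    have hc2 : (fun t : ℝ => M (w + t • u)) =ᶠ[𝓝 0]
        fun t : ℝ => -(a + t) ^ 2 + (v (a + t) - μ) := by
      have k1 : ∀ᶠ t : ℝ in 𝓝 0, (a + t) ^ 2 < 4 := by
        have k2 : Continuous fun t : ℝ => (a + t) ^ 2 := by fun_prop
        refine k2.continuousAt.eventually (gt_mem_nhds ?_)
        change (a + 0) ^ 2 < 4
        rw [add_zero]
        linarith
      filter_upwards [k1] with t ht
      simp only [hM, tubC]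
      rw [horth2, hinn2, norm_zero, th1_one (by norm_num), th2_one ht.le]
      ring
    have hd2 : HasDerivAt (fun t : ℝ => M (w + t • u)) (-(2 * a) + deriv v a) 0 := by
      refine HasDerivAt.congr_of_eventuallyEq ?_ hc2
      have k1 : HasDerivAt (fun t : ℝ => a + t) 1 0 := (hasDerivAt_id (0 : ℝ)).const_add a
      have k2 : HasDerivAt v (deriv v a) (a + 0) := by
        rw [add_zero]
        exact (hv.differentiable (by simp)).differentiableAt.hasDerivAt
      have k3 := (k2.comp (0 : ℝ) k1).sub_const μ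
      have k4 := (k1.pow 2).neg
      have k5 := k4.add k3
      refine k5.congr_deriv ?_
      simp
    have hz2 := TubA_curve hMs hM0 _ hd2
    have hfin := h2 a ha0
    have k1 : deriv v a = 2 * a := by linarith
    rw [k1] at hfin
    nlinarith

theorem tubK_reg (h : TubP P u β) (hs : |s| ≤ β) (hs0 : s ≠ 0) {w : E} (hw : tubK P u s w = 0) :
    gradient (tubK P u s) w ≠ 0 := by
  have he : tubK P u s = fun z => P z + tubC u z * ((fun _ : ℝ => (0 : ℝ)) ⟪u, z⟫ - s) := by
    funext z
    unfold tubK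
    ring
  have hw0 : w ≠ 0 := by
    rintro rfl
    unfold tubK at hw
    rw [tubC_one h.hu (by rw [norm_zero]; norm_num), h.mod 0 (by rw [norm_zero]; norm_num)] at hw
    have h3 : orth u (0 : E) = 0 := by
      unfold orth
      rw [inner_zero_right, zero_smul, sub_zero]
    rw [h3, norm_zero, inner_zero_right] at hw
    apply hs0
    linarith
  rw [he] at hw ⊢
  refine tub_reg h contDiff_const ?_ ?_ hw hw0
  · intro a
    rw [zero_sub, abs_neg]
    linarith [h.hβ]
  · intro a ha
    rw [deriv_const, mul_zero]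
    positivity

theorem tubK_bdd (h : TubP P u β) (s : ℝ) : Bornology.IsBounded {w | tubK P u s w = 0} := by
  refine (h.bdd.union (Metric.isBounded_closedBall (x := (0 : E)) (r := 4))).subset ?_
  intro w hw
  rcases le_or_gt 4 ‖w‖ with h1 | h1
  · left
    have h2 : tubK P u s w = 0 := hw
    rw [tubK_far h.hu s h1] at h2
    exact h2
  · right
    rw [mem_closedBall_zero_iff]
    exact h1.le

end Pool.Schoen
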