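import Pool.Agent.H.MP_6c077c_gt.N3.TubS
import Pool.Agent.H.MP_6c077c_gt.F2.LeafB

/-! The vertical normal form at a tube: the left sector. -/

set_option autoImplicit false

namespace Pool.Schoen

open Filter Set
open scoped Topology RealInnerProductSpace ContDiff

variable {E : Type*} [NormedAddCommGroup E] [InnerProductSpace ℝ E] [FiniteDimensional ℝ E]

/-- `k` is a defining function of a ball, the clopen part of `{tubK P u (-b) ≤ 0}` which contains the
left sector and not the right one. -/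
structure LBall (P : E → ℝ) (u : E) (b : ℝ) (k : E → ℝ) : Prop where
  dom : Dom k
  ball : IsBall k
  germ : ∀ w, k w ≤ 0 → k =ᶠ[𝓝 w] tubK P u (-b)
  clp : Clp {w | k w ≤ 0} {w | tubK P u (-b) w ≤ 0}
  left : k (-((5 : ℝ) • u)) ≤ 0
  right : 0 < k ((5 : ℝ) • u)

/-- Connected components respect clopen parts. -/
theorem TubB_comp {D X : Set E} (h : Clp D X) {p q : E} (hp : p ∈ D)
    (hq : q ∈ connectedComponentIn X p) : q ∈ D := by
  by_contra hqD
  have hsub : connectedComponentIn X p ⊆ X := connectedComponentIn_subset X p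
  have h1 := isPreconnected_closed_iff.1
    (isPreconnected_connectedComponentIn (x := p) (F := X)) D (X \ D) h.cl h.cl'
    (fun z hz => by
      by_cases hzD : z ∈ D
      · exact Or.inl hzD
      · exact Or.inr ⟨hsub hz, hzD⟩)
    ⟨p, mem_connectedComponentIn (h.sub hp), hp⟩ ⟨q, hq, hsub hq, hqD⟩
  obtain ⟨z, _, hz1, hz2⟩ := h1
  exact hz2.2 hz1

theorem TubB_compl {D X : Set E} (h : Clp D X) : Clp (X \ D) X :=
  ⟨h.cl', diff_subset, by rw [diff_diff_cancel_left h.sub]; exact h.cl⟩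

/-- The body of a level below zero has no points near the middle plane. -/
theorem TubB_sq {P : E → ℝ} {u : E} {β b : ℝ} (h : TubP P u β) (_hb : 0 < b) (hbβ : b ≤ β) {w : E}
    (hw : ‖w‖ ≤ 9) (hwk : tubK P u (-b) w ≤ 0) : b ≤ ⟪u, w⟫ ^ 2 := by
  have h1 : tubK P u (-b) w = ‖orth u w‖ ^ 2 - ⟪u, w⟫ ^ 2 + b * tubC u w := by
    unfold tubK
    rw [h.mod w (by linarith)]
    ring
  rw [h1] at hwk
  have h2 := (tubC_mem u w).1
  have h3 : 0 ≤ b * tubC u w := by positivity
  have hβ1 := h.hβ1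
  by_cases h4 : ‖orth u w‖ ^ 2 ≤ 1 / 4
  · by_cases h5 : ⟪u, w⟫ ^ 2 ≤ 4
    · have h6 : tubC u w = 1 := by
        unfold tubC
        rw [th1_one h4, th2_one h5, one_mul]
      rw [h6] at hwk
      have h7 : 0 ≤ ‖orth u w‖ ^ 2 := by positivity
      linarith
    · rw [not_le] at h5
      linarith
  · rw [not_le] at h4
    linarith

/-- The data of `LBall` without the ball. -/
structure TubB_Pre (P : E → ℝ) (u : E) (b : ℝ) (k : E → ℝ) : Prop where
  sm : ContDiff ℝ ∞ k
  bdd : Bornology.IsBounded {w | k w ≤ 0}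
  germ : ∀ w, k w ≤ 0 → k =ᶠ[𝓝 w] tubK P u (-b)
  clp : Clp {w | k w ≤ 0} {w | tubK P u (-b) w ≤ 0}
  left : k (-((5 : ℝ) • u)) ≤ 0
  right : 0 < k ((5 : ℝ) • u)

theorem LBall.TubB_pre {P : E → ℝ} {u : E} {b : ℝ} {k : E → ℝ} (hk : LBall P u b k) :
    TubB_Pre P u b k :=
  ⟨hk.dom.smooth, hk.dom.bdd, hk.germ, hk.clp, hk.left, hk.right⟩

theorem TubB_norm5 {u : E} (hu : ‖u‖ = 1) : ‖(5 : ℝ) • u‖ = 5 := by
  rw [norm_smul, hu]
  norm_num

theorem TubB_inner5 {u : E} (hu : ‖u‖ = 1) : ⟪u, (5 : ℝ) • u⟫ = 5 := by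
  rw [real_inner_smul_right, real_inner_self_eq_norm_sq, hu]
  norm_num

theorem TubB_at5 {P : E → ℝ} {u : E} {β : ℝ} (h : TubP P u β) (s : ℝ) :
    tubK P u s ((5 : ℝ) • u) ≤ 0 := by
  have h1 := TubB_norm5 h.hu
  rw [tubK_far h.hu s (by rw [h1]; norm_num), h.mod _ (by rw [h1]; norm_num)]
  have h2 := norm_sq_orth h.hu ((5 : ℝ) • u)
  rw [h1, TubB_inner5 h.hu] at h2
  rw [TubB_inner5 h.hu]
  linarith

theorem TubB_at5' {P : E → ℝ} {u : E} {β : ℝ} (h : TubP P u β) (s : ℝ) :
    tubK P u s (-((5 : ℝ) • u)) ≤ 0 := by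
  have h1 := TubB_at5 h.neg s
  rw [tubK_neg, smul_neg] at h1
  exact h1

/-- In the ball of radius `9` the body of `k` is the left sector. -/
theorem TubB_Pre.side {P : E → ℝ} {u : E} {β b : ℝ} {k : E → ℝ} (h : TubP P u β) (hb : 0 < b)
    (hbβ : b ≤ β) (hk : TubB_Pre P u b k) {w : E} (hw : ‖w‖ ≤ 9) :
    k w ≤ 0 ↔ (tubK P u (-b) w ≤ 0 ∧ ⟪u, w⟫ < 0) := by
  constructor
  · intro hkw
    have h1 : tubK P u (-b) w ≤ 0 := hk.clp.sub hkw
    refine ⟨h1, ?_⟩
    by_contra hcon
    rw [not_lt] at hcon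
    have h2 := tub_right h (s := -b) (by linarith) (by linarith) hw h1 hcon (Or.inl (by linarith))
    have h3 : (5 : ℝ) • u ∈ {w | tubK P u (-b) w ≤ 0} \ {w | k w ≤ 0} :=
      ⟨TubB_at5 h (-b), not_le.2 hk.right⟩
    exact (TubB_comp (TubB_compl hk.clp) h3 h2).2 hkw
  · rintro ⟨h1, h2⟩
    have h3 := tub_left h (s := -b) (by linarith) (by linarith) hw h1 h2.le (Or.inl (by linarith))
    exact TubB_comp hk.clp hk.left h3

/-- The same body at another level, without the ball. -/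
theorem TubB_exists {P : E → ℝ} {u : E} {β b b' : ℝ} {k : E → ℝ} (h : TubP P u β) (hb : 0 < b)
    (hbβ : b ≤ β) (hb' : 0 < b') (hbβ' : b' ≤ β) (hk : TubB_Pre P u b k) :
    ∃ k', TubB_Pre P u b' k' ∧ ∀ w, 4 < ‖w‖ → (k' w ≤ 0 ↔ k w ≤ 0) := by
  have hkc := hk.sm.continuous
  have hTc : Continuous (tubK P u (-b')) := (tubK_smooth h (-b')).continuous
  have hic : Continuous fun w : E => ⟪u, w⟫ := by fun_prop
  have hfar : ∀ w : E, 4 ≤ ‖w‖ → tubK P u (-b) w = tubK P u (-b') w := by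
    intro w hw
    rw [tubK_far h.hu _ hw, tubK_far h.hu _ hw]
  have hneg : ∀ w : E, ‖w‖ ≤ 9 → tubK P u (-b') w ≤ 0 → ⟪u, w⟫ ≠ 0 := by
    intro w hw hwk h0
    have h1 := TubB_sq h hb' hbβ' hw hwk
    rw [h0] at h1
    linarith
  have hsec : ∀ w : E, 4 ≤ ‖w‖ → ‖w‖ ≤ 9 → ⟪u, w⟫ ≤ 0 → tubK P u (-b') w ≤ 0 → k w ≤ 0 := by
    intro w h4 h9 ha hwk
    exact (hk.side h hb hbβ h9).2 ⟨by rw [hfar w h4]; exact hwk,
      lt_of_le_of_ne ha (hneg w h9 hwk)⟩
  set A : Set E := {w | k w ≤ 0} ∩ {w | 4 ≤ ‖w‖} with hA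
  set B : Set E := {w | ‖w‖ ≤ 9} ∩ ({w | ⟪u, w⟫ ≤ 0} ∩ {w | tubK P u (-b') w ≤ 0}) with hB
  set X' : Set E := {w | tubK P u (-b') w ≤ 0} with hX'
  set A' : Set E := ({w | tubK P u (-b) w ≤ 0} \ {w | k w ≤ 0}) ∩ {w | 4 ≤ ‖w‖} with hA'
  set B' : Set E := {w | ‖w‖ ≤ 9} ∩ ({w | 0 ≤ ⟪u, w⟫} ∩ {w | tubK P u (-b') w ≤ 0}) with hB'
  have hAcl : IsClosed A :=
    (isClosed_le hkc continuous_const).inter (isClosed_le continuous_const continuous_norm)
  have hBcl : IsClosed B :=
    (isClosed_le continuous_norm continuous_const).inter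
      ((isClosed_le hic continuous_const).inter (isClosed_le hTc continuous_const))
  have hA'cl : IsClosed A' := hk.clp.cl'.inter (isClosed_le continuous_const continuous_norm)
  have hB'cl : IsClosed B' :=
    (isClosed_le continuous_norm continuous_const).inter
      ((isClosed_le continuous_const hic).inter (isClosed_le hTc continuous_const))
  have hsub : A ∪ B ⊆ X' := by
    rintro w (hw | hw)
    · have h1 : tubK P u (-b) w ≤ 0 := hk.clp.sub hw.1
      rw [hfar w hw.2] at h1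
      exact h1
    · exact hw.2.2
  have hdiff : X' \ (A ∪ B) = A' ∪ B' := by
    ext w
    constructor
    · rintro ⟨hw, hn⟩
      rw [mem_union, not_or] at hn
      by_cases h4 : 4 ≤ ‖w‖
      · left
        refine ⟨⟨?_, ?_⟩, h4⟩
        · show tubK P u (-b) w ≤ 0
          rw [hfar w h4]
          exact hw
        · intro hkw
          exact hn.1 ⟨hkw, h4⟩
      · right
        rw [not_le] at h4
        have h9 : ‖w‖ ≤ 9 := by linarith
        refine ⟨h9, ?_, hw⟩
        by_contra hcon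
        have hcon' : ⟪u, w⟫ < 0 := not_le.1 hcon
        exact hn.2 ⟨h9, hcon'.le, hw⟩
    · rintro (hw | hw)
      · have h1 : tubK P u (-b) w ≤ 0 := hw.1.1
        have h4 : 4 ≤ ‖w‖ := hw.2
        rw [hfar w h4] at h1
        refine ⟨h1, ?_⟩
        rintro (hw' | hw')
        · exact hw.1.2 hw'.1
        · exact hw.1.2 (hsec w h4 hw'.1 hw'.2.1 hw'.2.2)
      · refine ⟨hw.2.2, ?_⟩
        have h0 : ⟪u, w⟫ ≠ 0 := hneg w hw.1 hw.2.2
        have h1 : 0 ≤ ⟪u, w⟫ := hw.2.1
        rintro (hw' | hw')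
        · have h2 := ((hk.side h hb hbβ hw.1).1 hw'.1).2
          linarith
        · exact h0 (le_antisymm hw'.2.1 h1)
  have hKcl : IsClosed (A ∪ B) := hAcl.union hBcl
  have hKcl' : IsClosed (X' \ (A ∪ B)) := by
    rw [hdiff]
    exact hA'cl.union hB'cl
  have hKb : Bornology.IsBounded (A ∪ B) := by
    refine (hk.bdd.subset inter_subset_left).union ?_
    refine (Metric.isBounded_closedBall (x := (0 : E)) (r := 9)).subset ?_
    intro w hw
    rw [Metric.mem_closedBall, dist_zero_right]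
    exact hw.1
  haveI : ProperSpace E := FiniteDimensional.proper ℝ E
  have hK : IsCompact (A ∪ B) := Metric.isCompact_of_isClosed_isBounded hKcl hKb
  obtain ⟨k', hk's, hk'0, hk'g⟩ := exists_smooth_part (tubK_smooth h (-b')) 1 hK
    (W := (X' \ (A ∪ B))ᶜ) hKcl'.isOpen_compl (fun w hw hw' => hw'.2 hw) (by
      intro w hw
      rw [one_mul]
      constructor
      · intro h1
        by_contra h2
        exact hw ⟨h1, h2⟩
      · intro h1
        exact hsub h1)
  have hset : {w | k' w ≤ 0} = A ∪ B := by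
    ext w
    exact hk'0 w
  refine ⟨k', ⟨hk's, ?_, ?_, ⟨?_, ?_, ?_⟩, ?_, ?_⟩, ?_⟩
  · rw [hset]
    exact hKb
  · intro w hw
    have h1 := hk'g w ((hk'0 w).1 hw)
    filter_upwards [h1] with y hy
    rw [hy, one_mul]
  · rw [hset]
    exact hKcl
  · rw [hset]
    exact hsub
  · rw [hset]
    exact hKcl'
  · refine (hk'0 _).2 (Or.inr ⟨?_, ?_, ?_⟩)
    · show ‖-((5 : ℝ) • u)‖ ≤ 9
      rw [norm_neg, TubB_norm5 h.hu]
      norm_num
    · show ⟪u, -((5 : ℝ) • u)⟫ ≤ 0
      rw [inner_neg_right, TubB_inner5 h.hu]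
      norm_num
    · exact TubB_at5' h (-b')
  · by_contra hcon
    rw [not_lt] at hcon
    rcases (hk'0 _).1 hcon with hw | hw
    · exact absurd hk.right (not_lt.2 hw.1)
    · have h1 : ⟪u, (5 : ℝ) • u⟫ ≤ 0 := hw.2.1
      rw [TubB_inner5 h.hu] at h1
      norm_num at h1
  · intro w hw
    rw [hk'0 w]
    constructor
    · rintro (hw' | hw')
      · exact hw'.1
      · exact hsec w hw.le hw'.1 hw'.2.1 hw'.2.2
    · intro hkw
      exact Or.inl ⟨hkw, hw.le⟩

/-- The family `k + t (b' - b) χ`. -/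
theorem TubB_hom {P : E → ℝ} {u : E} {β b b' : ℝ} {k k' : E → ℝ} (h : TubP P u β) (hb : 0 < b)
    (hbb' : b ≤ b') (hbβ' : b' ≤ β) (hk : TubB_Pre P u b k) (hk' : TubB_Pre P u b' k')
    (hiff : ∀ w, 4 < ‖w‖ → (k' w ≤ 0 ↔ k w ≤ 0)) : Hom k k' := by
  have hbβ : b ≤ β := hbb'.trans hbβ'
  have hb' : 0 < b' := hb.trans_le hbb'
  have hCs := tubC_smooth (E := E) u
  have hkc := hk.sm.continuous
  have hCc := hCs.continuous
  have hC0 : ∀ w, 0 ≤ tubC u w := fun w => (tubC_mem u w).1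
  -- the form near the body of `k`
  have hform : ∀ t w, k w ≤ 0 →
      (fun y => k y + t * ((b' - b) * tubC u y)) =ᶠ[𝓝 w] tubK P u (-(b + t * (b' - b))) := by
    intro t w hw
    filter_upwards [hk.germ w hw] with y hy
    rw [hy]
    unfold tubK
    ring
  have hzero : ∀ t ∈ Icc (0 : ℝ) 1, ∀ w, k w + t * ((b' - b) * tubC u w) ≤ 0 → k w ≤ 0 := by
    intro t ht w hw
    have h1 : 0 ≤ t * ((b' - b) * tubC u w) :=
      mul_nonneg ht.1 (mul_nonneg (by linarith) (hC0 w))
    linarith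
  have h1 : Hom (fun y => k y + 0 * ((b' - b) * tubC u y))
      (fun y => k y + 1 * ((b' - b) * tubC u y)) := by
    refine Hom.of_family (a := 0) (b := 1) zero_le_one
      (fun t y => k y + t * ((b' - b) * tubC u y)) ?_ ?_ ?_
    · exact Continuous.continuousOn (by fun_prop)
    · obtain ⟨R, hR⟩ := hk.bdd.exists_norm_le
      exact ⟨R, fun t ht w hw => hR w (hzero t ht w hw.le)⟩
    · intro t ht w hw
      have hkw : k w ≤ 0 := hzero t ht w hw.le
      have hf := hform t w hkw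
      have h2 : tubK P u (-(b + t * (b' - b))) w = 0 := by
        rw [← hf.eq_of_nhds]
        exact hw
      have h3 : 0 ≤ t * (b' - b) := mul_nonneg ht.1 (by linarith)
      have h4 : t * (b' - b) ≤ b' - b := by
        have := mul_le_mul_of_nonneg_right ht.2 (show 0 ≤ b' - b by linarith)
        linarith
      have h5 : gradient (tubK P u (-(b + t * (b' - b)))) w ≠ 0 := by
        refine tubK_reg h ?_ ?_ h2
        · rw [abs_neg, abs_of_pos (by linarith)]
          linarith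
        · intro h0
          linarith
      have h6 : fderiv ℝ (fun y => k y + t * ((b' - b) * tubC u y)) w ≠ 0 := by
        rw [hf.fderiv_eq]
        intro h0
        apply h5
        unfold gradient
        rw [h0, map_zero]
      have h7 : ∃ v, fderiv ℝ (fun y => k y + t * ((b' - b) * tubC u y)) w v < 0 := by
        have h8 : ∃ v, fderiv ℝ (fun y => k y + t * ((b' - b) * tubC u y)) w v ≠ 0 := by
          by_contra hcon
          push Not at hcon
          exact h6 (ContinuousLinearMap.ext hcon)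
        obtain ⟨v, hv⟩ := h8
        rcases lt_or_gt_of_ne hv with h9 | h9
        · exact ⟨v, h9⟩
        · refine ⟨-v, ?_⟩
          rw [map_neg]
          linarith
      obtain ⟨v, hv⟩ := h7
      have hG : ContDiff ℝ 1 (fun q : ℝ × E => k q.2 + q.1 * ((b' - b) * tubC u q.2)) := by
        have e1 : ContDiff ℝ 1 (fun q : ℝ × E => k q.2) :=
          (hk.sm.of_le (by exact_mod_cast le_top)).comp contDiff_snd
        have e2 : ContDiff ℝ 1 (fun q : ℝ × E => tubC u q.2) :=
          (hCs.of_le (by exact_mod_cast le_top)).comp contDiff_snd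
        exact e1.add (contDiff_fst.mul (contDiff_const.mul e2))
      have hGd : fderiv ℝ (fun q : ℝ × E => k q.2 + q.1 * ((b' - b) * tubC u q.2)) (t, w) (0, v) =
          fderiv ℝ (fun y => k y + t * ((b' - b) * tubC u y)) w v := by
        have e1 := ((hG.contDiffAt (x := (t, w))).differentiableAt (by simp)).hasFDerivAt
        have e2 : HasFDerivAt (fun y : E => (t, y)) (ContinuousLinearMap.inr ℝ ℝ E) w :=
          hasFDerivAt_prodMk_right t w
        have e3 := e1.comp w e2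
        have e4 : fderiv ℝ (fun y => k y + t * ((b' - b) * tubC u y)) w = _ := e3.fderiv
        rw [e4]
        rfl
      refine ⟨v, ?_⟩
      have h10 := desc_smooth (hG.contDiffAt (x := (t, w))) (v := v) (by rw [hGd]; exact hv)
      exact h10.mono nhdsWithin_le_nhds
  have h0 : (fun y => k y + 0 * ((b' - b) * tubC u y)) = k := by
    funext y
    ring
  rw [h0] at h1
  -- the end of the family
  have hb1 : b + 1 * (b' - b) = b' := by ring
  have hend : ∀ w, k w ≤ 0 →
      (fun y => k y + 1 * ((b' - b) * tubC u y)) =ᶠ[𝓝 w] tubK P u (-b') := by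
    intro w hw
    have h2 := hform 1 w hw
    rw [hb1] at h2
    exact h2
  -- where `k'` is nonpositive
  have hA : ∀ w, k' w ≤ 0 → k w ≤ 0 := by
    intro w hw
    by_cases h4 : 4 < ‖w‖
    · exact (hiff w h4).1 hw
    · rw [not_lt] at h4
      have h9 : ‖w‖ ≤ 9 := by linarith
      obtain ⟨h2, h3⟩ := (hk'.side h hb' hbβ' h9).1 hw
      refine (hk.side h hb hbβ h9).2 ⟨?_, h3⟩
      have h5 : tubK P u (-b) w ≤ tubK P u (-b') w := by
        unfold tubK
        have := mul_le_mul_of_nonneg_right hbb' (hC0 w)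
        linarith
      linarith
  have hB : ∀ w, k w + 1 * ((b' - b) * tubC u w) ≤ 0 → k' w ≤ 0 := by
    intro w hw
    have hkw : k w ≤ 0 := hzero 1 ⟨zero_le_one, le_refl _⟩ w hw
    by_cases h4 : 4 < ‖w‖
    · exact (hiff w h4).2 hkw
    · rw [not_lt] at h4
      have h9 : ‖w‖ ≤ 9 := by linarith
      have h2 : tubK P u (-b') w ≤ 0 := by
        rw [← (hend w hkw).eq_of_nhds]
        exact hw
      exact (hk'.side h hb' hbβ' h9).2 ⟨h2, ((hk.side h hb hbβ h9).1 hkw).2⟩
  have hloc : ∀ w, k' w ≤ 0 → (fun y => k y + 1 * ((b' - b) * tubC u y)) =ᶠ[𝓝 w] k' := by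
    intro w hw
    exact (hend w (hA w hw)).trans (hk'.germ w hw).symm
  have h2 : Hom (fun y => k y + 1 * ((b' - b) * tubC u y)) k' := by
    refine Hom.of_eq_near' h1.good_right hk'.sm.continuous ?_ ?_
    · rintro w (hw | hw)
      · exact hloc w (hB w hw.le)
      · exact hloc w hw.le
    · intro w hw1 hw2
      by_cases hcase : k' w ≤ 0
      · have h3 := (hloc w hcase).eq_of_nhds
        have h4 : 0 < k' w * k' w := mul_self_pos.2 hw2
        calc 0 < k' w * k' w := h4
          _ = (k w + 1 * ((b' - b) * tubC u w)) * k' w := by rw [h3]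
      · have h5 : 0 < k' w := not_le.1 hcase
        have h6 : 0 < k w + 1 * ((b' - b) * tubC u w) := by
          by_contra hcon
          exact hcase (hB w (not_lt.1 hcon))
        exact mul_pos h6 h5
  exact h1.trans h2

/-- The same at all levels. PROOF. `D' = {k ≤ 0} ∪ {‖w‖ ≤ 9, ⟪u, w⟫ < 0, tubK (-b') ≤ 0}` is clopen in
`{tubK (-b') ≤ 0}` (the two functions differ only on `‖w‖ < 4`, `{k ≤ 0}` contains the left sector of
the ball of radius `9` by `tub_left`, and not the right one), compact; `exists_smooth_part` gives `k'`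
with `k' = tubK (-b')` near `D'`. Case `b' ≤ b`: the family `k' + τ χ L(⟪u, ·⟫)`, `0 ≤ τ ≤ b - b'`, with
`L = 1` near the left sector (`a ≤ -√b'/2`, where `a² ≥ b'` if `χ = 1`...) and `L = 0` for `-√b'/4 ≤ a`,
is good (`tubK_reg`), and ends at a function with the zero set and the germs of `k`:
`Hom.of_eq_near'`. Case `b ≤ b'`: the same with the roles exchanged. `Dom k'` from `IsBall k'`
(boundary of a ball: connected, `LiftS`, see the end of the proof of `leaf_ball`). -/
theorem LBall.move {P : E → ℝ} {u : E} {β b b' : ℝ} {k : E → ℝ} (h : TubP P u β) (hb : 0 < b)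
    (hbβ : b ≤ β) (hb' : 0 < b') (hbβ' : b' ≤ β) (hk : LBall P u b k) :
    ∃ k', LBall P u b' k' ∧ ∀ w, 4 < ‖w‖ → (k' w ≤ 0 ↔ k w ≤ 0) := by
  obtain ⟨k', hk', hiff⟩ := TubB_exists h hb hbβ hb' hbβ' hk.TubB_pre
  have hhom : Hom k' k := by
    rcases le_total b b' with hbb | hbb
    · exact Hom.symm (TubB_hom h hb hbb hbβ' hk.TubB_pre hk' hiff)
    · exact TubB_hom h hb' hbb hbβ hk' hk.TubB_pre (fun w hw => (hiff w hw).symm)
  have hball : IsBall k' := Hom.trans hhom hk.ball
  have hreg : ∀ x, k' x = 0 → gradient k' x ≠ 0 := by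
    intro x hx
    have h1 := hk'.germ x hx.le
    have h2 : gradient k' x = gradient (tubK P u (-b')) x := by
      unfold gradient
      rw [h1.fderiv_eq]
    rw [h2]
    refine tubK_reg h ?_ ?_ ?_
    · rw [abs_neg, abs_of_pos hb']
      exact hbβ'
    · intro h0
      linarith
    · rw [← h1.eq_of_nhds]
      exact hx
  have hconn : IsConnected {x | k' x ≤ 0} := Hom.isConnected (Hom.symm hhom) hk.dom.bdd hk.dom.conn
  have hlift : LiftS {x | k' x ≤ 0} := Hom.liftS (Hom.symm hhom) hk.dom.bdd hk.dom.lift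
  exact ⟨k', ⟨⟨hk'.sm, hk'.bdd, hreg, hconn, hlift⟩, hball, hk'.germ, hk'.clp, hk'.left, hk'.right⟩,
    hiff⟩

end Pool.Schoen
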